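import Mathlib

/-!
# The analytic lemma

A limit lemma of de Bruijn-Erdos type for `f m * f n ≤ 2 * choose (m + n + 4) 4 * f (m + n + 4)`.
-/

set_option autoImplicit false

namespace Pool.Agent.Lib.MP_131179_gt

open Filter Topology

private theorem pow_mul_le {F : ℕ → ℕ}
    (hmul : ∀ M N, 4 ≤ M → 4 ≤ N → F M * F N ≤ 2 * (M + N) ^ 4 * F (M + N))
    {M : ℕ} (hM : 4 ≤ M) (q : ℕ) (hq : 1 ≤ q) :
    F M ^ q * q ^ 4 ≤ (13122 * M ^ 4) ^ (q - 1) * F (q * M) := by
  induction q using Nat.strong_induction_on with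
  | _ q ih =>
    rcases Nat.lt_or_ge q 2 with h | h
    · have : q = 1 := by omega
      subst this
      simp
    · obtain ⟨p, r, hp, hr, hpq, hrq, hs, h9⟩ : ∃ p r : ℕ, 1 ≤ p ∧ 1 ≤ r ∧ p < q ∧ r < q ∧
          p + r = q ∧ q * q ≤ 9 * (p * r) := by
        refine ⟨q / 2, q - q / 2, by omega, by omega, by omega, by omega, by omega, ?_⟩
        obtain ⟨s, hs⟩ : ∃ s, s = q / 2 := ⟨_, rfl⟩
        rw [← hs]
        rcases Nat.even_or_odd' q with ⟨t, ht | ht⟩
        · have : s = t := by omega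
          subst this
          have h2 : q - s = s := by omega
          rw [h2, ht]
          nlinarith
        · have : s = t := by omega
          subst this
          have h2 : q - s = s + 1 := by omega
          rw [h2, ht]
          have : 1 ≤ s := by omega
          nlinarith
      have i1 := ih p hpq hp
      have i2 := ih r hrq hr
      have hpM : 4 ≤ p * M := le_trans hM (Nat.le_mul_of_pos_left M hp)
      have hrM : 4 ≤ r * M := le_trans hM (Nat.le_mul_of_pos_left M hr)
      have h3 := hmul (p * M) (r * M) hpM hrM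
      have hK : (13122 * M ^ 4) ^ (q - 1) = (13122 * M ^ 4) ^ (p - 1) * (13122 * M ^ 4) ^ (r - 1) *
          (13122 * M ^ 4) := by
        rw [← pow_add, ← pow_succ]
        congr 1
        omega
      have hqM : p * M + r * M = q * M := by rw [← hs]; ring
      rw [hqM] at h3
      have h4 : F M ^ q = F M ^ p * F M ^ r := by rw [← pow_add, hs]
      have hq4 : 0 < q ^ 4 := by positivity
      apply Nat.le_of_mul_le_mul_right _ hq4
      calc F M ^ q * q ^ 4 * q ^ 4 = F M ^ q * (q * q) ^ 4 := by ring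
        _ ≤ F M ^ q * (9 * (p * r)) ^ 4 := by gcongr
        _ = 6561 * ((F M ^ p * p ^ 4) * (F M ^ r * r ^ 4)) := by rw [h4]; ring
        _ ≤ 6561 * (((13122 * M ^ 4) ^ (p - 1) * F (p * M)) *
              ((13122 * M ^ 4) ^ (r - 1) * F (r * M))) := by gcongr
        _ = 6561 * ((13122 * M ^ 4) ^ (p - 1) * (13122 * M ^ 4) ^ (r - 1)) *
              (F (p * M) * F (r * M)) := by ring
        _ ≤ 6561 * ((13122 * M ^ 4) ^ (p - 1) * (13122 * M ^ 4) ^ (r - 1)) *
              (2 * (q * M) ^ 4 * F (q * M)) := by gcongr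
        _ = (13122 * M ^ 4) ^ (q - 1) * F (q * M) * q ^ 4 := by rw [hK]; ring

private theorem one_le_large {F : ℕ → ℕ}
    (hmul : ∀ M N, 4 ≤ M → 4 ≤ N → F M * F N ≤ 2 * (M + N) ^ 4 * F (M + N))
    (h6 : 1 ≤ F 6) (h11 : 1 ≤ F 11) {N : ℕ} (hN : 50 ≤ N) : 1 ≤ F N := by
  have hadd : ∀ M N, 4 ≤ M → 4 ≤ N → 1 ≤ F M → 1 ≤ F N → 1 ≤ F (M + N) := by
    intro M N hM hN h1 h2
    by_contra h
    have h0 : F (M + N) = 0 := by omega
    have := hmul M N hM hN
    rw [h0, mul_zero] at this
    have : 1 ≤ F M * F N := Nat.mul_pos h1 h2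
    omega
  have hk6 : ∀ x : ℕ, 1 ≤ x → 1 ≤ F (6 * x) := by
    intro x hx
    induction x, hx using Nat.le_induction with
    | base => simpa using h6
    | succ x hx ih =>
      have := hadd (6 * x) 6 (by omega) (by omega) ih h6
      rwa [show 6 * (x + 1) = 6 * x + 6 by ring]
  have hk11 : ∀ y x : ℕ, 1 ≤ x → 1 ≤ F (11 * y + 6 * x) := by
    intro y
    induction y with
    | zero => intro x hx; simpa using hk6 x hx
    | succ y ih =>
      intro x hx
      have := hadd (11 * y + 6 * x) 11 (by omega) (by omega) (ih x hx) h11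
      rwa [show 11 * (y + 1) + 6 * x = 11 * y + 6 * x + 11 by ring]
  have h55 : 1 ≤ F 55 := by
    have := hadd 11 44 (by omega) (by omega) h11 (hadd 11 33 (by omega) (by omega) h11
      (hadd 11 22 (by omega) (by omega) h11 (hadd 11 11 (by omega) (by omega) h11 h11)))
    simpa using this
  rcases eq_or_ne N 55 with h | h
  · rw [h]; exact h55
  · obtain ⟨y, x, hx, hN'⟩ : ∃ y x : ℕ, 1 ≤ x ∧ N = 11 * y + 6 * x := by
      -- `11 y ≡ - y mod 6`
      obtain ⟨y, hy, hy'⟩ : ∃ y : ℕ, y ≤ 5 ∧ 6 ∣ N + y := by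
        refine ⟨(6 - N % 6) % 6, by omega, ?_⟩
        omega
      obtain ⟨k, hk⟩ := hy'
      refine ⟨y, k - 2 * y, ?_, ?_⟩
      · by_contra hc
        have h1 : k ≤ 2 * y := by omega
        have : y = 5 := by omega
        omega
      · omega
    rw [hN']
    exact hk11 y x hx

private theorem tendsto_log_div : Tendsto (fun N : ℕ => Real.log N / N) atTop (𝓝 0) :=
  (Real.isLittleO_log_id_atTop.tendsto_div_nhds_zero).comp tendsto_natCast_atTop_atTop

/-- the limit for `F` -/
private theorem tendsto_aux {F : ℕ → ℕ} {C : ℕ}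
    (hmul : ∀ M N, 4 ≤ M → 4 ≤ N → F M * F N ≤ 2 * (M + N) ^ 4 * F (M + N))
    (hpos : ∀ N, 50 ≤ N → 1 ≤ F N) (hbound : ∀ N, 4 ≤ N → F N ≤ C ^ N) :
    ∃ L : ℝ, 0 ≤ L ∧ Tendsto (fun N : ℕ => Real.log (F N) / N) atTop (𝓝 L) := by
  set u : ℕ → ℝ := fun N => Real.log (F N) / N with hu
  have hu0 : ∀ N, 0 ≤ u N := fun N =>
    div_nonneg (Real.log_natCast_nonneg _) (Nat.cast_nonneg _)
  have hu1 : ∀ᶠ N in atTop, u N ≤ Real.log C := by
    filter_upwards [eventually_ge_atTop 50] with N hN
    have hN0 : (0 : ℝ) < N := by exact_mod_cast (by omega : 0 < N)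
    rw [hu]
    show Real.log (F N) / N ≤ Real.log C
    rw [div_le_iff₀ hN0]
    have h1 : (F N : ℝ) ≤ (C : ℝ) ^ N := by exact_mod_cast hbound N (by omega)
    have h2 : (0 : ℝ) < F N := by exact_mod_cast hpos N hN
    calc Real.log (F N) ≤ Real.log ((C : ℝ) ^ N) := Real.log_le_log h2 h1
      _ = Real.log C * N := by rw [Real.log_pow]; ring
  have hbddA : IsBoundedUnder (· ≤ ·) atTop u := ⟨Real.log C, by simpa using hu1⟩
  have hbddB : IsBoundedUnder (· ≥ ·) atTop u := ⟨0, Filter.eventually_map.2 (Eventually.of_forall hu0)⟩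
  set L := limsup u atTop with hL
  have key : ∀ M : ℕ, 50 ≤ M → ∀ ε > 0, ∀ᶠ N : ℕ in atTop,
      (Real.log (F M) - Real.log (13122 * M ^ 4)) / M - ε < u N := by
    intro M hM ε hε
    have hM0 : (0 : ℝ) < M := by exact_mod_cast (by omega : 0 < M)
    set A : ℝ := Real.log (F M) - Real.log (13122 * M ^ 4) with hA
    have hqlim : Tendsto (fun N : ℕ => (((N - 50) / M : ℕ) : ℝ) / N) atTop (𝓝 (1 / M)) := by
      have hlow : Tendsto (fun N : ℕ => (1 : ℝ) / M - ((50 + M : ℝ) / M) * ((N : ℝ)⁻¹)) atTop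
          (𝓝 (1 / M - ((50 + M : ℝ) / M) * 0)) :=
        tendsto_const_nhds.sub (tendsto_inv_atTop_nhds_zero_nat.const_mul _)
      rw [mul_zero, sub_zero] at hlow
      refine tendsto_of_tendsto_of_tendsto_of_le_of_le' hlow tendsto_const_nhds ?_ ?_
      · filter_upwards [eventually_ge_atTop 50] with N hN
        have hN0 : (0 : ℝ) < N := by exact_mod_cast (by omega : 0 < N)
        have h1 : N - 50 < ((N - 50) / M + 1) * M := by
          have := Nat.lt_div_mul_add (a := N - 50) (b := M) (by omega)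
          calc N - 50 < (N - 50) / M * M + M := this
            _ = ((N - 50) / M + 1) * M := by ring
        have h2 : (N : ℝ) - 50 < ((((N - 50) / M : ℕ) : ℝ) + 1) * M := by
          have h3 : ((N - 50 : ℕ) : ℝ) < ((((N - 50) / M + 1) * M : ℕ) : ℝ) := by
            exact_mod_cast h1
          rw [Nat.cast_sub hN] at h3
          push_cast at h3 ⊢
          exact h3
        rw [le_div_iff₀ hN0]
        have h4 : (1 / (M : ℝ) - (50 + M) / M * (N : ℝ)⁻¹) * N = (N - 50 - M) / M := by
          field_simp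
          ring
        rw [h4, div_le_iff₀ hM0]
        linarith
      · filter_upwards [eventually_ge_atTop 50] with N hN
        have hN0 : (0 : ℝ) < N := by exact_mod_cast (by omega : 0 < N)
        rw [div_le_div_iff₀ hN0 hM0, one_mul]
        have h1 : (N - 50) / M * M ≤ N - 50 := Nat.div_mul_le_self _ _
        have h2 : (N - 50) / M * M ≤ N := h1.trans (Nat.sub_le _ _)
        exact_mod_cast h2
    have hr : Tendsto (fun N : ℕ => (((N - 50) / M : ℕ) : ℝ) / N * A -
        (Real.log 2 * ((N : ℝ)⁻¹) + 4 * (Real.log N / N))) atTop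
        (𝓝 (1 / M * A - (Real.log 2 * 0 + 4 * 0))) :=
      (hqlim.mul_const A).sub
        ((tendsto_inv_atTop_nhds_zero_nat.const_mul _).add (tendsto_log_div.const_mul 4))
    have hlt : A / M - ε < 1 / M * A - (Real.log 2 * 0 + 4 * 0) := by
      have : 1 / (M : ℝ) * A - (Real.log 2 * 0 + 4 * 0) = A / M := by ring
      rw [this]; linarith
    filter_upwards [hr.eventually (lt_mem_nhds hlt), eventually_ge_atTop (50 + M)] with N h1 hN
    refine h1.trans_le ?_
    have hN0 : (0 : ℝ) < N := by exact_mod_cast (by omega : 0 < N)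
    set q : ℕ := (N - 50) / M with hq
    have hq1 : 1 ≤ q := by
      rw [hq, Nat.one_le_div_iff (by omega)]
      omega
    have hqM : q * M ≤ N - 50 := Nat.div_mul_le_self _ _
    obtain ⟨r, hr1⟩ : ∃ r, N = q * M + r := ⟨N - q * M, by omega⟩
    have hr50 : 50 ≤ r := by omega
    have hqM4 : 4 ≤ q * M := le_trans (by omega : 4 ≤ M) (Nat.le_mul_of_pos_left M hq1)
    have e1 := pow_mul_le hmul (by omega : 4 ≤ M) q hq1
    have e2 := hmul (q * M) r hqM4 (by omega)
    rw [← hr1] at e2
    have e3 : F M ^ q ≤ (13122 * M ^ 4) ^ q * (2 * N ^ 4 * F N) := by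
      calc F M ^ q ≤ F M ^ q * q ^ 4 := Nat.le_mul_of_pos_right _ (by positivity)
        _ ≤ (13122 * M ^ 4) ^ (q - 1) * F (q * M) := e1
        _ ≤ (13122 * M ^ 4) ^ (q - 1) * (F (q * M) * F r) := by
            gcongr
            exact Nat.le_mul_of_pos_right _ (hpos r hr50)
        _ ≤ (13122 * M ^ 4) ^ (q - 1) * (2 * N ^ 4 * F N) := by gcongr
        _ ≤ (13122 * M ^ 4) ^ q * (2 * N ^ 4 * F N) := by
            gcongr
            · have : 0 < M := by omega
              have : 0 < M ^ 4 := by positivity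
              omega
            · omega
    have hFM : (0 : ℝ) < F M := by exact_mod_cast hpos M hM
    have hFN : (0 : ℝ) < F N := by exact_mod_cast hpos N (by omega)
    have e4 : ((F M : ℝ)) ^ q ≤ (13122 * (M : ℝ) ^ 4) ^ q * (2 * (N : ℝ) ^ 4 * F N) := by
      exact_mod_cast e3
    have e5 := Real.log_le_log (by positivity) e4
    have hM4 : (13122 * (M : ℝ) ^ 4) ≠ 0 := by positivity
    have hN4 : (2 * (N : ℝ) ^ 4) ≠ 0 := by positivity
    have hN4' : ((N : ℝ) ^ 4) ≠ 0 := by positivity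
    rw [Real.log_pow, Real.log_mul (pow_ne_zero _ hM4) (mul_ne_zero hN4 hFN.ne'),
      Real.log_pow (13122 * (M : ℝ) ^ 4) q, Real.log_mul hN4 hFN.ne',
      Real.log_mul two_ne_zero hN4', Real.log_pow (N : ℝ) 4] at e5
    push_cast at e5
    show (q : ℝ) / N * A - (Real.log 2 * (N : ℝ)⁻¹ + 4 * (Real.log N / N)) ≤ Real.log (F N) / N
    rw [le_div_iff₀ hN0]
    have e6 : ((q : ℝ) / N * A - (Real.log 2 * (N : ℝ)⁻¹ + 4 * (Real.log N / N))) * N =
        q * A - (Real.log 2 + 4 * Real.log N) := by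
      field_simp
    rw [e6, hA]
    linarith
  have hklim : Tendsto (fun M : ℕ => Real.log (13122 * (M : ℝ) ^ 4) / M) atTop (𝓝 0) := by
    have h1 : Tendsto (fun M : ℕ => Real.log 13122 * ((M : ℝ)⁻¹) + 4 * (Real.log M / M)) atTop
        (𝓝 (Real.log 13122 * 0 + 4 * 0)) :=
      (tendsto_inv_atTop_nhds_zero_nat.const_mul _).add (tendsto_log_div.const_mul 4)
    rw [mul_zero, mul_zero, add_zero] at h1
    refine h1.congr' ?_
    filter_upwards [eventually_ge_atTop 1] with M hM
    have hM0 : (0 : ℝ) < M := by exact_mod_cast hM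
    rw [Real.log_mul (by norm_num) (by positivity), Real.log_pow]
    push_cast
    field_simp
  have hlow : ∀ ε > 0, ∀ᶠ N in atTop, L - ε < u N := by
    intro ε hε
    have h1 : ∃ᶠ M in atTop, L - ε / 3 < u M :=
      frequently_lt_of_lt_limsup hbddB.isCoboundedUnder_flip (by rw [← hL]; linarith)
    have h2 : ∀ᶠ M : ℕ in atTop, Real.log (13122 * (M : ℝ) ^ 4) / M < ε / 3 :=
      hklim.eventually (gt_mem_nhds (by positivity))
    obtain ⟨M, hM1, hM2, hM3⟩ := (h1.and_eventually (h2.and (eventually_ge_atTop 50))).exists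
    filter_upwards [key M hM3 (ε / 3) (by positivity)] with N hN
    refine lt_of_lt_of_le ?_ hN.le
    have hM1' : L - ε / 3 < Real.log (F M) / M := hM1
    rw [sub_div]
    linarith
  have hupp : ∀ ε > 0, ∀ᶠ N in atTop, u N < L + ε := by
    intro ε hε
    exact eventually_lt_of_limsup_lt (by rw [← hL]; linarith) hbddA
  have hlim : Tendsto u atTop (𝓝 L) := by
    rw [Metric.tendsto_nhds]
    intro ε hε
    filter_upwards [hlow ε hε, hupp ε hε] with N h1 h2
    rw [Real.dist_eq, abs_lt]
    constructor <;> linarith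
  exact ⟨L, ge_of_tendsto' hlim hu0, hlim⟩

theorem exists_limit {f g : ℕ → ℕ} {C : ℕ} (hbound : ∀ n, f n ≤ C ^ (n + 1))
    (hmul : ∀ m n, f m * f n ≤ 2 * (m + n + 4).choose 4 * f (m + n + 4))
    (h2 : f 2 ≠ 0) (h7 : f 7 ≠ 0) (hfg : ∀ n, f n ≤ g n)
    (hgf : ∀ n, g n ≤ f n + 2 * ∑ j ∈ Finset.range 5, f (n + j)) :
    ∃ l : ℝ, 1 ≤ l ∧ Tendsto (fun n : ℕ => (g n : ℝ) ^ (1 / (n : ℝ))) atTop (𝓝 l) := by
  have hC : 1 ≤ C := by
    by_contra h
    have h0 : C = 0 := by omega
    have := hbound 2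
    rw [h0] at this
    simp at this
    exact h2 this
  set F : ℕ → ℕ := fun N => f (N - 4) with hF
  have hmulF : ∀ M N, 4 ≤ M → 4 ≤ N → F M * F N ≤ 2 * (M + N) ^ 4 * F (M + N) := by
    intro M N hM hN
    have h := hmul (M - 4) (N - 4)
    have e1 : M - 4 + (N - 4) + 4 = M + N - 4 := by omega
    rw [e1] at h
    refine h.trans ?_
    show 2 * (M + N - 4).choose 4 * f (M + N - 4) ≤ 2 * (M + N) ^ 4 * f (M + N - 4)
    gcongr
    exact (Nat.choose_le_pow _ 4).trans (Nat.pow_le_pow_left (Nat.sub_le _ _) 4)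
  have hpos : ∀ N, 50 ≤ N → 1 ≤ F N := fun N hN =>
    one_le_large hmulF (Nat.one_le_iff_ne_zero.2 h2) (Nat.one_le_iff_ne_zero.2 h7) hN
  have hboundF : ∀ N, 4 ≤ N → F N ≤ C ^ N := fun N hN =>
    (hbound (N - 4)).trans (Nat.pow_le_pow_right hC (by omega))
  obtain ⟨L, hL0, hL⟩ := tendsto_aux hmulF hpos hboundF
  -- the shifted sequences
  have hv : ∀ j : ℕ, Tendsto (fun n : ℕ => Real.log (f (n + j)) / n) atTop (𝓝 L) := by
    intro j
    have h1 : Tendsto (fun n : ℕ => Real.log (F (n + (j + 4))) / ((n + (j + 4) : ℕ) : ℝ)) atTop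
        (𝓝 L) := hL.comp (tendsto_add_atTop_nat (j + 4))
    have h3 : Tendsto (fun n : ℕ => 1 + ((j : ℝ) + 4) * ((n : ℝ)⁻¹)) atTop (𝓝 (1 + ((j : ℝ) + 4) * 0)) :=
      tendsto_const_nhds.add (tendsto_inv_atTop_nhds_zero_nat.const_mul _)
    have h4 := h1.mul h3
    rw [mul_zero, add_zero, mul_one] at h4
    refine h4.congr' ?_
    filter_upwards [eventually_ge_atTop 1] with n hn
    have hn0 : (0 : ℝ) < n := by exact_mod_cast hn
    have e1 : F (n + (j + 4)) = f (n + j) := by
      show f (n + (j + 4) - 4) = f (n + j)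
      congr 1
    rw [e1]
    push_cast
    field_simp
  set w : ℕ → ℝ := fun n => max (Real.log (f (n + 0)) / n) (max (Real.log (f (n + 1)) / n)
    (max (Real.log (f (n + 2)) / n) (max (Real.log (f (n + 3)) / n)
      (Real.log (f (n + 4)) / n)))) with hw
  have hwlim : Tendsto w atTop (𝓝 L) := by
    have := (hv 0).max ((hv 1).max ((hv 2).max ((hv 3).max (hv 4))))
    simp only [max_self] at this
    exact this
  have hup : Tendsto (fun n : ℕ => Real.log 11 * ((n : ℝ)⁻¹) + w n) atTop (𝓝 L) := by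
    have := (tendsto_inv_atTop_nhds_zero_nat (𝕜 := ℝ)).const_mul (Real.log 11) |>.add hwlim
    simpa using this
  have hlog : Tendsto (fun n : ℕ => Real.log (g n) / n) atTop (𝓝 L) := by
    refine tendsto_of_tendsto_of_tendsto_of_le_of_le' (hv 0) hup ?_ ?_
    · filter_upwards [eventually_ge_atTop 50] with n hn
      have hf : (0 : ℝ) < f (n + 0) := by
        have := hpos (n + 4) (by omega)
        have e : F (n + 4) = f (n + 0) := rfl
        rw [e] at this
        exact_mod_cast this
      have h1 : (f (n + 0) : ℝ) ≤ g n := by exact_mod_cast hfg n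
      exact div_le_div_of_nonneg_right (Real.log_le_log hf h1) (Nat.cast_nonneg _)
    · filter_upwards [eventually_ge_atTop 50] with n hn
      have hn0 : (0 : ℝ) < n := by exact_mod_cast (by omega : 0 < n)
      have hfpos : ∀ j : ℕ, (0 : ℝ) < f (n + j) := fun j => by
        have := hpos (n + j + 4) (by omega)
        have e : F (n + j + 4) = f (n + j) := rfl
        rw [e] at this
        exact_mod_cast this
      have hfj : ∀ j : ℕ, Real.log (f (n + j)) / n ≤ w n →
          (f (n + j) : ℝ) ≤ Real.exp (w n * n) := fun j h => by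
        rw [div_le_iff₀ hn0] at h
        calc (f (n + j) : ℝ) = Real.exp (Real.log (f (n + j))) := (Real.exp_log (hfpos j)).symm
          _ ≤ Real.exp (w n * n) := Real.exp_le_exp.2 h
      have b0 := hfj 0 (le_max_left _ _)
      have b1 := hfj 1 ((le_max_left _ _).trans (le_max_right _ _))
      have b2 := hfj 2 (((le_max_left _ _).trans (le_max_right _ _)).trans (le_max_right _ _))
      have b3 := hfj 3 ((((le_max_left _ _).trans (le_max_right _ _)).trans
        (le_max_right _ _)).trans (le_max_right _ _))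
      have b4 := hfj 4 ((((le_max_right _ _).trans (le_max_right _ _)).trans
        (le_max_right _ _)).trans (le_max_right _ _))
      have hg : (g n : ℝ) ≤ 11 * Real.exp (w n * n) := by
        have h3 : (g n : ℝ) ≤ f (n + 0) + 2 * (f (n + 0) + f (n + 1) + f (n + 2) + f (n + 3) +
            f (n + 4)) := by
          have := hgf n
          simp only [Finset.sum_range_succ, Finset.sum_range_zero, zero_add] at this
          exact_mod_cast this
        linarith
      have hg0 : (0 : ℝ) < g n := lt_of_lt_of_le (hfpos 0) (by exact_mod_cast hfg n)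
      have h5 := Real.log_le_log hg0 hg
      rw [Real.log_mul (by norm_num) (Real.exp_ne_zero _), Real.log_exp] at h5
      rw [div_le_iff₀ hn0]
      have e : (Real.log 11 * (n : ℝ)⁻¹ + w n) * n = Real.log 11 + w n * n := by
        field_simp
      rw [e]
      exact h5
  refine ⟨Real.exp L, Real.one_le_exp hL0, ?_⟩
  have := (Real.continuous_exp.tendsto L).comp hlog
  refine this.congr' ?_
  filter_upwards [eventually_ge_atTop 50] with n hn
  have hg0 : (0 : ℝ) < g n := by
    have := hpos (n + 4) (by omega)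
    have e : F (n + 4) = f n := rfl
    rw [e] at this
    exact_mod_cast lt_of_lt_of_le this (hfg n)
  rw [Real.rpow_def_of_pos hg0, Function.comp_apply]
  congr 1
  ring

end Pool.Agent.Lib.MP_131179_gt
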