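import Pool.Agent.Lib.MP_131179_gt.Odd

/-!
# A link with crossing number 7

The link is the pretzel link `P(2,2,2,1)`; a diagram with 6 crossings is excluded by Fox colourings
modulo 5.
-/

set_option autoImplicit false

namespace Pool.Agent.Lib.MP_131179_gt

/-- The palette of Fox colourings modulo 5. -/
def fox : Palette (ZMod 5) where
  bar := fun x => x
  act := fun x y => 2 * y - x
  bar_bar := fun _ => rfl
  act_bar := fun _ _ => rfl
  act_act_bar := fun x y => by ring
  act_self := fun x => by ring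
  act_dist := fun x y z => by ring

/-! ### Collapsing labels -/

theorem step_collapse {C D : Type} {P : Palette C} {f : C → D} (hbar : ∀ x, f (P.bar x) = f x)
    {k : Kind C} {i : ℕ} {s t : List C} (h : Step P k i s t)
    (hx : ∀ p ∈ xlL k i s, f (P.act p.2 p.1) = f p.2 ∧ f (P.act p.2 (P.bar p.1)) = f p.2) :
    Step (triv D) (k.map f) i (s.map f) (t.map f) := by
  induction h with
  | cup c s => simp only [List.map_cons, hbar]; exact Step.cup _ _
  | cap c s => simp only [List.map_cons, hbar]; exact Step.cap _ _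
  | pos a b s =>
    have h1 := (hx (a, b) (by simp [xlL])).2
    simp only [List.map_cons]
    rw [h1]
    exact Step.pos _ _ _
  | neg a b s =>
    have h1 := (hx (b, a) (by simp [xlL])).1
    simp only [List.map_cons]
    rw [h1]
    exact Step.neg _ _ _
  | there a _ ih =>
    rw [xlL_succ] at hx
    exact Step.there _ (ih hx)

theorem collapse_aux {C D : Type} {P : Palette C} {f : C → D} (hbar : ∀ x, f (P.bar x) = f x)
    {w : Word C} {s t : List C} (h : Path P w s t)
    (hx : ∀ p ∈ xl P w s, f (P.act p.2 p.1) = f p.2 ∧ f (P.act p.2 (P.bar p.1)) = f p.2) :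
    Path (triv D) (wmap f w) (s.map f) (t.map f) ∧
      xl (triv D) (wmap f w) (s.map f) = (xl P w s).map (Prod.map f f) := by
  induction h with
  | nil s => exact ⟨Path.nil _, rfl⟩
  | @cons k i w s t r hs _ ih =>
    rw [xl_cons, hs.nxt_eq] at hx
    have h1 := step_collapse hbar hs fun p hp => hx p (List.mem_append_left _ hp)
    obtain ⟨h2, h3⟩ := ih fun p hp => hx p (List.mem_append_right _ hp)
    refine ⟨Path.cons h1 h2, ?_⟩
    rw [wmap_cons, xl_cons, xl_cons, h1.nxt_eq, hs.nxt_eq, h3, xlL_map f hs, List.map_append]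

/-- If `f` does not see the action at the crossings of `w`, then `f` gives a labelling in a trivial
palette. -/
theorem path_collapse {C D : Type} {P : Palette C} {f : C → D} (hbar : ∀ x, f (P.bar x) = f x)
    {w : Word C} {s t : List C} (h : Path P w s t)
    (hx : ∀ p ∈ xl P w s, f (P.act p.2 p.1) = f p.2 ∧ f (P.act p.2 (P.bar p.1)) = f p.2) :
    Path (triv D) (wmap f w) (s.map f) (t.map f) := (collapse_aux hbar h hx).1

/-! ### Parity of colours -/

theorem parity_step {C : Type} [DecidableEq C] {P : Palette C} (hbar : ∀ x, P.bar x = x)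
    {k : Kind C} {i : ℕ} {s t : List C} (h : Step P k i s t) (z : C) :
    (s.count z + t.count z + ((xlL k i s).countP (fun p => decide (p.2 = z)) +
      (xlL k i s).countP (fun p => decide (P.act p.2 p.1 = z)))) % 2 = 0 := by
  induction h with
  | cup c s => simp only [hbar, List.count_cons, xlL, List.countP_nil]; omega
  | cap c s => simp only [hbar, List.count_cons, xlL, List.countP_nil]; omega
  | pos a b s =>
    simp only [hbar, List.count_cons, xlL, List.countP_cons, List.countP_nil, beq_iff_eq,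
      decide_eq_true_eq]
    omega
  | neg a b s =>
    simp only [List.count_cons, xlL, List.countP_cons, List.countP_nil, beq_iff_eq,
      decide_eq_true_eq]
    omega
  | there a _ ih =>
    rw [xlL_succ]
    simp only [List.count_cons]
    omega

theorem parity_path {C : Type} [DecidableEq C] {P : Palette C} (hbar : ∀ x, P.bar x = x)
    {w : Word C} {s t : List C} (h : Path P w s t) (z : C) :
    (s.count z + t.count z + ((xl P w s).countP (fun p => decide (p.2 = z)) +
      (xl P w s).countP (fun p => decide (P.act p.2 p.1 = z)))) % 2 = 0 := by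
  induction h with
  | nil s => simp only [xl_nil, List.countP_nil]; omega
  | @cons k i w s t r hs _ ih =>
    have h1 := parity_step hbar hs z
    rw [xl_cons, hs.nxt_eq, List.countP_append, List.countP_append]
    omega

/-! ### Diagrams with six crossings -/

/-- The palette of pairs (component, Fox colour). -/
abbrev FP : Palette (Fin 3 × ZMod 5) := (triv (Fin 3)).prod fox

theorem fox_parity : ∀ a o b q : ZMod 5,
    (∀ v : ZMod 5, ((if a = v then 1 else 0) + (if b = v then 1 else 0) +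
      ((if 2 * o - a = v then 1 else 0) + (if 2 * q - b = v then 1 else 0))) % 2 = 0) →
    (q = o ∧ (b = a ∨ b = 2 * o - a)) ∨ (o = a ∧ q = b ∧ a ≠ b) := by
  decide +kernel

theorem collapse_j {W : Word (Fin 3 × ZMod 5)} (h : Path FP W [] [])
    (hconn : ∀ V : Word (Fin 3 × Bool), Path (triv (Fin 3 × Bool)) V [] [] →
      wmap Prod.fst V = wmap Prod.fst W → ∀ i, ¬ (HasLabel (i, true) V ∧ HasLabel (i, false) V))
    (j : Fin 3) (v : ZMod 5)
    (hinv : ∀ r ∈ xl FP W [], r.2.1 = j → (2 * r.1.2 - r.2.2 = v ↔ r.2.2 = v))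
    (hv : HasLabel (j, v) W ∨ ∃ r ∈ xl FP W [], r.1 = (j, v) ∨ r.2 = (j, v)) (u : ZMod 5)
    (huv : u ≠ v) (hu : HasLabel (j, u) W ∨ ∃ r ∈ xl FP W [], r.1 = (j, u) ∨ r.2 = (j, u)) :
    False := by
  let f : Fin 3 × ZMod 5 → Fin 3 × Bool := fun x => (x.1, decide (x = (j, v)))
  have hbar : ∀ x, f (FP.bar x) = f x := fun x => rfl
  have hx : ∀ p ∈ xl FP W [],
      f (FP.act p.2 p.1) = f p.2 ∧ f (FP.act p.2 (FP.bar p.1)) = f p.2 := by
    rintro ⟨⟨x, c⟩, ⟨y, d⟩⟩ hp
    have h1 := hinv _ hp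
    simp only at h1
    have h2 : f (FP.act (y, d) (x, c)) = f (y, d) := by
      simp only [f, Palette.prod, triv, fox, Prod.mk.injEq, true_and, decide_eq_decide]
      constructor
      · rintro ⟨h3, h4⟩
        exact ⟨h3, (h1 h3).1 h4⟩
      · rintro ⟨h3, h4⟩
        exact ⟨h3, (h1 h3).2 h4⟩
    exact ⟨h2, h2⟩
  obtain ⟨h1, h2⟩ := collapse_aux hbar h hx
  simp only [List.map_nil] at h1 h2
  have key : ∀ x, (HasLabel x W ∨ ∃ r ∈ xl FP W [], r.1 = x ∨ r.2 = x) →
      HasLabel (f x) (wmap f W) := by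
    rintro x (h3 | ⟨r, h3, h4⟩)
    · exact h3.map f
    · have h5 : Prod.map f f r ∈ xl (triv (Fin 3 × Bool)) (wmap f W) [] := by
        rw [h2]
        exact List.mem_map_of_mem h3
      have h6 := xl_mem h1 h5
      rcases h4 with rfl | rfl
      · exact h6.1
      · exact h6.2
  refine hconn (wmap f W) h1 (wmap_wmap f _ W) j ⟨?_, ?_⟩
  · have := key _ hv
    simpa [f] using this
  · have := key _ hu
    simpa [f, huv] using this

theorem six_one {W : Word (Fin 3 × ZMod 5)} (h : Path FP W [] [])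
    (hconn : ∀ V : Word (Fin 3 × Bool), Path (triv (Fin 3 × Bool)) V [] [] →
      wmap Prod.fst V = wmap Prod.fst W → ∀ i, ¬ (HasLabel (i, true) V ∧ HasLabel (i, false) V))
    (j i k : Fin 3) (o a q b : ZMod 5)
    (hp : ((i, o), (j, a)) ∈ xl FP W []) (hq : ((k, q), (j, b)) ∈ xl FP W [])
    (hX : ∀ r ∈ xl FP W [], r.2.1 = j → r = ((i, o), (j, a)) ∨ r = ((k, q), (j, b)))
    (hpar : ∀ v : ZMod 5, ((if a = v then 1 else 0) + (if b = v then 1 else 0) +
      ((if 2 * o - a = v then 1 else 0) + (if 2 * q - b = v then 1 else 0))) % 2 = 0) :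
    q = o ∧ ∀ v, (HasLabel (j, v) W ∨ (∃ r ∈ xl FP W [], r.1 = (j, v) ∨ r.2 = (j, v))) →
      (v - o) ^ 2 = (a - o) ^ 2 := by
  rcases fox_parity a o b q hpar with ⟨h1, h2⟩ | ⟨h1, h2, h3⟩
  · refine ⟨h1, fun v hv => ?_⟩
    by_contra hne
    have hva : a ≠ v := by rintro rfl; exact hne rfl
    have hva' : 2 * o - a ≠ v := by rintro rfl; exact hne (by ring)
    refine collapse_j h hconn j v ?_ hv a hva (Or.inr ⟨_, hp, Or.inr rfl⟩)
    intro r hr hrj
    rcases hX r hr hrj with rfl | rfl
    · simp [hva, hva']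
    · subst h1
      rcases h2 with rfl | rfl
      · simp [hva, hva']
      · have : 2 * q - (2 * q - a) = a := by ring
        simp [hva, hva', this]
  · exfalso
    subst h1 h2
    refine collapse_j h hconn j o ?_ (Or.inr ⟨_, hp, Or.inr rfl⟩) q (Ne.symm h3)
      (Or.inr ⟨_, hq, Or.inr rfl⟩)
    intro r hr hrj
    rcases hX r hr hrj with rfl | rfl
    · simp [two_mul]
    · simp [two_mul]

theorem fox_final : ∀ x y z e0 e1 e2 : ZMod 5, (x - y) ^ 2 = e1 → (x - z) ^ 2 = e2 →
    (y - x) ^ 2 = e0 → (y - z) ^ 2 = e2 → (z - x) ^ 2 = e0 → (z - y) ^ 2 = e1 →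
    x = y ∧ y = z ∧ e0 = 0 ∧ e1 = 0 ∧ e2 = 0 := by
  decide +kernel

theorem six_exists {W : Word (Fin 3 × ZMod 5)} (h : Path FP W [] [])
    (hodd : ∀ x y : Fin 3, x ≠ y → cnt (triv (Fin 3)) (pr x y) (wmap Prod.fst W) [] % 2 = 1)
    (x y : Fin 3) (hxy : x ≠ y) : ∃ o a, ((x, o), (y, a)) ∈ xl FP W [] := by
  have h1 := hodd x y hxy
  have h2 := cnt_map (Q := triv (Fin 3)) (p := pr x y) (isHom_fst (P := triv (Fin 3)) (Q := fox)) h
  simp only [List.map_nil] at h2
  rw [h2] at h1
  have h3 : 0 < cnt ((triv (Fin 3)).prod fox) (fun a b => pr x y a.1 b.1) W [] := by omega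
  obtain ⟨⟨⟨x', o⟩, ⟨y', a⟩⟩, h4, h5⟩ := List.countP_pos_iff.1 h3
  simp only [pr, Bool.and_eq_true, decide_eq_true_eq] at h5
  obtain ⟨rfl, rfl⟩ := h5
  exact ⟨o, a, h4⟩

theorem six_le {W : Word (Fin 3 × ZMod 5)} (h : Path FP W [] [])
    (hodd : ∀ x y : Fin 3, x ≠ y → cnt (triv (Fin 3)) (pr x y) (wmap Prod.fst W) [] % 2 = 1) :
    6 ≤ cr W := by
  have hex := six_exists h hodd
  obtain ⟨o01, a01, h01⟩ := hex 0 1 (by decide)
  obtain ⟨o02, a02, h02⟩ := hex 0 2 (by decide)
  obtain ⟨o10, a10, h10⟩ := hex 1 0 (by decide)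
  obtain ⟨o12, a12, h12⟩ := hex 1 2 (by decide)
  obtain ⟨o20, a20, h20⟩ := hex 2 0 (by decide)
  obtain ⟨o21, a21, h21⟩ := hex 2 1 (by decide)
  rw [← length_xl h]
  have hsub : List.Subperm [(((0 : Fin 3), o01), ((1 : Fin 3), a01)), ((0, o02), (2, a02)),
      ((1, o10), (0, a10)), ((1, o12), (2, a12)), ((2, o20), (0, a20)), ((2, o21), (1, a21))]
      (xl FP W []) := by
    refine List.subperm_of_subset ?_ ?_
    · simp
    · intro r hr
      simp only [List.mem_cons, List.not_mem_nil, or_false] at hr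
      rcases hr with rfl | rfl | rfl | rfl | rfl | rfl <;> assumption
  simpa using hsub.length_le

theorem six_constant {W : Word (Fin 3 × ZMod 5)} (h : Path ((triv (Fin 3)).prod fox) W [] [])
    (h6 : cr W = 6)
    (hodd : ∀ x y : Fin 3, x ≠ y → cnt (triv (Fin 3)) (pr x y) (wmap Prod.fst W) [] % 2 = 1)
    (hconn : ∀ V : Word (Fin 3 × Bool), Path (triv (Fin 3 × Bool)) V [] [] →
      wmap Prod.fst V = wmap Prod.fst W → ∀ i, ¬ (HasLabel (i, true) V ∧ HasLabel (i, false) V)) :
    ∃ v, ∀ x, HasLabel x W → x.2 = v := by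
  have hex := six_exists h hodd
  obtain ⟨o01, a01, h01⟩ := hex 0 1 (by decide)
  obtain ⟨o02, a02, h02⟩ := hex 0 2 (by decide)
  obtain ⟨o10, a10, h10⟩ := hex 1 0 (by decide)
  obtain ⟨o12, a12, h12⟩ := hex 1 2 (by decide)
  obtain ⟨o20, a20, h20⟩ := hex 2 0 (by decide)
  obtain ⟨o21, a21, h21⟩ := hex 2 1 (by decide)
  have hlen : (xl FP W []).length = 6 := by rw [← h6]; exact length_xl h
  have hperm : List.Perm [(((0 : Fin 3), o01), ((1 : Fin 3), a01)), ((0, o02), (2, a02)),
      ((1, o10), (0, a10)), ((1, o12), (2, a12)), ((2, o20), (0, a20)), ((2, o21), (1, a21))]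
      (xl FP W []) := by
    refine List.Subperm.perm_of_length_le (List.subperm_of_subset ?_ ?_) ?_
    · simp
    · intro r hr
      simp only [List.mem_cons, List.not_mem_nil, or_false] at hr
      rcases hr with rfl | rfl | rfl | rfl | rfl | rfl <;> assumption
    · rw [hlen]; simp
  have hpar : ∀ z, ((xl FP W []).countP (fun p => decide (p.2 = z)) +
      (xl FP W []).countP (fun p => decide (FP.act p.2 p.1 = z))) % 2 = 0 := by
    intro z
    have := parity_path (P := FP) (fun _ => rfl) h z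
    simpa using this
  have e01 : ((0 : Fin 3) = 1) = False := eq_false (by decide)
  have e02 : ((0 : Fin 3) = 2) = False := eq_false (by decide)
  have e10 : ((1 : Fin 3) = 0) = False := eq_false (by decide)
  have e12 : ((1 : Fin 3) = 2) = False := eq_false (by decide)
  have e20 : ((2 : Fin 3) = 0) = False := eq_false (by decide)
  have e21 : ((2 : Fin 3) = 1) = False := eq_false (by decide)
  have h0 := six_one h hconn 0 1 2 o10 a10 o20 a20 h10 h20 (by
    intro r hr hrj
    rw [← hperm.mem_iff] at hr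
    simp only [List.mem_cons, List.not_mem_nil, or_false] at hr
    rcases hr with rfl | rfl | rfl | rfl | rfl | rfl <;> simp_all) (by
    intro v
    have := hpar (0, v)
    rw [← hperm.countP_eq, ← hperm.countP_eq] at this
    simp only [List.countP_cons, List.countP_nil, Palette.prod, triv, fox, Prod.mk.injEq,
      decide_eq_true_eq, e10, e20, true_and, false_and, if_false] at this
    omega)
  have h1 := six_one h hconn 1 0 2 o01 a01 o21 a21 h01 h21 (by
    intro r hr hrj
    rw [← hperm.mem_iff] at hr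
    simp only [List.mem_cons, List.not_mem_nil, or_false] at hr
    rcases hr with rfl | rfl | rfl | rfl | rfl | rfl <;> simp_all) (by
    intro v
    have := hpar (1, v)
    rw [← hperm.countP_eq, ← hperm.countP_eq] at this
    simp only [List.countP_cons, List.countP_nil, Palette.prod, triv, fox, Prod.mk.injEq,
      decide_eq_true_eq, e01, e21, true_and, false_and, if_false] at this
    omega)
  have h2 := six_one h hconn 2 0 1 o02 a02 o12 a12 h02 h12 (by
    intro r hr hrj
    rw [← hperm.mem_iff] at hr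
    simp only [List.mem_cons, List.not_mem_nil, or_false] at hr
    rcases hr with rfl | rfl | rfl | rfl | rfl | rfl <;> simp_all) (by
    intro v
    have := hpar (2, v)
    rw [← hperm.countP_eq, ← hperm.countP_eq] at this
    simp only [List.countP_cons, List.countP_nil, Palette.prod, triv, fox, Prod.mk.injEq,
      decide_eq_true_eq, e02, e12, true_and, false_and, if_false] at this
    omega)
  obtain ⟨m0, h0⟩ := h0
  obtain ⟨m1, h1⟩ := h1
  obtain ⟨m2, h2⟩ := h2
  have g10 := h1 o10 (Or.inr ⟨_, h10, Or.inl rfl⟩)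
  have g12 := h1 o12 (Or.inr ⟨_, h12, Or.inl rfl⟩)
  have g20 := h2 o20 (Or.inr ⟨_, h20, Or.inl rfl⟩)
  have g21 := h2 o21 (Or.inr ⟨_, h21, Or.inl rfl⟩)
  have g01 := h0 o01 (Or.inr ⟨_, h01, Or.inl rfl⟩)
  have g02 := h0 o02 (Or.inr ⟨_, h02, Or.inl rfl⟩)
  rw [m0] at g20
  rw [m1] at g21
  rw [m2] at g12
  obtain ⟨q1, q2, q3, q4, q5⟩ := fox_final o10 o01 o02 _ _ _ g10 g20 g01 g21 g02 g12
  rw [q3] at h0
  rw [q4] at h1
  rw [q5] at h2
  refine ⟨o10, ?_⟩
  have fin : ∀ j : Fin 3, j = 0 ∨ j = 1 ∨ j = 2 := by decide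
  have sq : ∀ x : ZMod 5, x ^ 2 = 0 → x = 0 := by decide
  rintro ⟨j, v⟩ hx
  rcases fin j with rfl | rfl | rfl
  · exact sub_eq_zero.1 (sq _ (h0 v (Or.inl hx)))
  · rw [q1]
    exact sub_eq_zero.1 (sq _ (h1 v (Or.inl hx)))
  · rw [q1, q2]
    exact sub_eq_zero.1 (sq _ (h2 v (Or.inl hx)))

/-! ### Checking paths -/

/-- The strands above an elementary tangle, `none` if it does not fit. -/
def runL {C : Type} [DecidableEq C] (P : Palette C) : Kind C → ℕ → List C → Option (List C)
  | .cup c, 0, s => some (c :: P.bar c :: s)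
  | .cap, 0, a :: b :: s => if b = P.bar a then some s else none
  | .pos, 0, a :: b :: s => some (P.act b (P.bar a) :: a :: s)
  | .neg, 0, a :: b :: s => some (b :: P.act a b :: s)
  | k, i + 1, a :: s => (runL P k i s).map (a :: ·)
  | _, _, _ => none

/-- The strands above a word, `none` if it does not fit. -/
def run {C : Type} [DecidableEq C] (P : Palette C) : Word C → List C → Option (List C)
  | [], s => some s
  | (k, i) :: w, s => (runL P k i s).bind (run P w)

theorem runL_succ {C : Type} [DecidableEq C] {P : Palette C} (k : Kind C) (i : ℕ) (a : C)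
    (s : List C) : runL P k (i + 1) (a :: s) = (runL P k i s).map (a :: ·) := by
  cases k <;> rfl

theorem step_iff_runL {C : Type} [DecidableEq C] {P : Palette C} {k : Kind C} {i : ℕ}
    {s t : List C} : Step P k i s t ↔ runL P k i s = some t := by
  constructor
  · intro h
    induction h with
    | cup c s => rfl
    | cap c s => simp [runL]
    | pos a b s => rfl
    | neg a b s => rfl
    | there a _ ih => rw [runL_succ, ih]; rfl
  · intro h
    induction i generalizing s t with
    | zero =>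
      cases k with
      | cup c =>
        simp only [runL, Option.some.injEq] at h
        subst h
        exact Step.cup _ _
      | cap =>
        match s, h with
        | [], h => simp [runL] at h
        | [a], h => simp [runL] at h
        | a :: b :: s, h =>
          by_cases hb : b = P.bar a
          · simp only [runL, hb, if_true, Option.some.injEq] at h
            subst h hb
            exact Step.cap _ _
          · simp [runL, hb] at h
      | pos =>
        match s, h with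
        | [], h => simp [runL] at h
        | [a], h => simp [runL] at h
        | a :: b :: s, h =>
          simp only [runL, Option.some.injEq] at h
          subst h
          exact Step.pos _ _ _
      | neg =>
        match s, h with
        | [], h => simp [runL] at h
        | [a], h => simp [runL] at h
        | a :: b :: s, h =>
          simp only [runL, Option.some.injEq] at h
          subst h
          exact Step.neg _ _ _
    | succ i ih =>
      cases s with
      | nil => cases k <;> simp [runL] at h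
      | cons a s =>
        rw [runL_succ, Option.map_eq_some_iff] at h
        obtain ⟨t', h1, rfl⟩ := h
        exact Step.there _ (ih h1)

theorem path_iff_run {C : Type} [DecidableEq C] {P : Palette C} {w : Word C}
    {s t : List C} : Path P w s t ↔ run P w s = some t := by
  induction w generalizing s with
  | nil => simp [path_nil_iff, run]
  | cons l w ih =>
    obtain ⟨k, i⟩ := l
    rw [path_cons_iff, run, Option.bind_eq_some_iff]
    constructor
    · rintro ⟨r, h1, h2⟩
      exact ⟨r, step_iff_runL.1 h1, ih.1 h2⟩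
    · rintro ⟨r, h1, h2⟩
      exact ⟨r, step_iff_runL.2 h1, ih.2 h2⟩

/-! ### The link -/

/-- A labelling of the diagram of the pretzel link `P(2,2,2,1)`. -/
def w7 {C : Type} (a b c d : C) : Word C :=
  [(.cup a, 0), (.cup b, 1), (.cup c, 3), (.cup d, 5), (.pos, 0), (.pos, 0), (.pos, 2), (.pos, 2),
    (.pos, 4), (.pos, 4), (.pos, 6), (.cap, 1), (.cap, 1), (.cap, 1), (.cap, 0)]

theorem w7_path : Path (triv (Fin 3)) (w7 0 1 2 0) [] [] := path_iff_run.2 (by decide)

theorem w7_fox : Path FP (w7 (0, 0) (1, 1) (2, 2) (0, 3)) [] [] := path_iff_run.2 (by decide)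

theorem wmap_w7 {C D : Type} (f : C → D) (a b c d : C) :
    wmap f (w7 a b c d) = w7 (f a) (f b) (f c) (f d) := rfl

theorem wmap_eq_w7 {C D : Type} {f : C → D} {V : Word C} {a b c d : D}
    (h : wmap f V = w7 a b c d) :
    ∃ a' b' c' d', V = w7 a' b' c' d' ∧ f a' = a ∧ f b' = b ∧ f c' = c ∧ f d' = d := by
  obtain ⟨k1, V, rfl, e1, h⟩ := wmap_eq_cons h
  obtain ⟨k2, V, rfl, e2, h⟩ := wmap_eq_cons h
  obtain ⟨k3, V, rfl, e3, h⟩ := wmap_eq_cons h
  obtain ⟨k4, V, rfl, e4, h⟩ := wmap_eq_cons h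
  obtain ⟨k5, V, rfl, e5, h⟩ := wmap_eq_cons h
  obtain ⟨k6, V, rfl, e6, h⟩ := wmap_eq_cons h
  obtain ⟨k7, V, rfl, e7, h⟩ := wmap_eq_cons h
  obtain ⟨k8, V, rfl, e8, h⟩ := wmap_eq_cons h
  obtain ⟨k9, V, rfl, e9, h⟩ := wmap_eq_cons h
  obtain ⟨k10, V, rfl, e10, h⟩ := wmap_eq_cons h
  obtain ⟨k11, V, rfl, e11, h⟩ := wmap_eq_cons h
  obtain ⟨k12, V, rfl, e12, h⟩ := wmap_eq_cons h
  obtain ⟨k13, V, rfl, e13, h⟩ := wmap_eq_cons h
  obtain ⟨k14, V, rfl, e14, h⟩ := wmap_eq_cons h
  obtain ⟨k15, V, rfl, e15, h⟩ := wmap_eq_cons h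
  obtain rfl := wmap_eq_nil.1 h
  obtain ⟨a', rfl, ha⟩ := Kind.map_eq_cup e1
  obtain ⟨b', rfl, hb⟩ := Kind.map_eq_cup e2
  obtain ⟨c', rfl, hc⟩ := Kind.map_eq_cup e3
  obtain ⟨d', rfl, hd⟩ := Kind.map_eq_cup e4
  obtain rfl := Kind.map_eq_pos e5
  obtain rfl := Kind.map_eq_pos e6
  obtain rfl := Kind.map_eq_pos e7
  obtain rfl := Kind.map_eq_pos e8
  obtain rfl := Kind.map_eq_pos e9
  obtain rfl := Kind.map_eq_pos e10
  obtain rfl := Kind.map_eq_pos e11
  obtain rfl := Kind.map_eq_cap e12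
  obtain rfl := Kind.map_eq_cap e13
  obtain rfl := Kind.map_eq_cap e14
  obtain rfl := Kind.map_eq_cap e15
  exact ⟨a', b', c', d', rfl, ha, hb, hc, hd⟩

theorem hasLabel_w7 {C : Type} {a b c d x : C} :
    HasLabel x (w7 a b c d) ↔ x = a ∨ x = b ∨ x = c ∨ x = d := by
  simp only [w7, hasLabel_cons, Kind.cup.injEq, not_hasLabel_nil, or_false, reduceCtorEq]
  tauto

theorem w7_closed : ∀ a b c d : Bool,
    run (triv (Fin 3 × Bool)) (w7 (0, a) (1, b) (2, c) (0, d)) [] = some [] → a = d := by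
  decide

theorem w7_conn {U : Word (Fin 3)} (h : Eqv (triv (Fin 3)) U (w7 0 1 2 0) [] [])
    (V : Word (Fin 3 × Bool)) (hV : Path (triv (Fin 3 × Bool)) V [] [])
    (hVU : wmap Prod.fst V = U) (i : Fin 3) :
    ¬ (HasLabel (i, true) V ∧ HasLabel (i, false) V) := by
  obtain ⟨V', h1, h2⟩ := h.lift (isHom_triv Prod.fst) hVU rfl hV
  obtain ⟨⟨a, a'⟩, ⟨b, b'⟩, ⟨c, c'⟩, ⟨d, d'⟩, rfl, ha, hb, hc, hd⟩ := wmap_eq_w7 h1
  simp only at ha hb hc hd
  subst ha hb hc hd
  have h3 := w7_closed a' b' c' d' (path_iff_run.1 h2.path_right)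
  subst h3
  rw [hasLabel_iff h2, hasLabel_iff h2, hasLabel_w7, hasLabel_w7]
  rintro ⟨h4, h5⟩
  simp only [Prod.mk.injEq] at h4 h5
  rcases h4 with ⟨rfl, h4⟩ | ⟨rfl, h4⟩ | ⟨rfl, h4⟩ | ⟨rfl, h4⟩ <;> subst h4 <;> simp at h5

theorem w7_odd : ∀ x y : Fin 3, x ≠ y →
    cnt (triv (Fin 3)) (pr x y) (w7 0 1 2 0) [] % 2 = 1 := by
  decide

theorem comp0_unknot : Eqv (triv Unit) [(.cup (), 0), (.cup (), 1), (.pos, 2), (.cap, 1), (.cap, 0)]
    [(.cup (), 0), (.cap, 0)] [] [] := by
  have e1 : Eqv (triv Unit) ([(.cup (), 0), (.cup (), 1)] ++ (shift 1 [(.pos, 1), (.cap, 0)] ++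
      [(.cap, 0)])) ([(.cup (), 0), (.cup (), 1)] ++ (shift 1 [(.neg, 0), (.cap, 1)] ++
      [(.cap, 0)])) [] [] :=
    Eqv.context (t := [(), (), (), ()]) (t' := [(), ()]) (path_iff_run.2 (by decide))
      (Eqv.move 1 Base.capUnder (path_iff_run.2 (by decide)) (path_iff_run.2 (by decide))).symm
      (path_iff_run.2 (by decide))
  have e2 : Eqv (triv Unit) ([(.cup (), 0)] ++ (shift 1 [(.cup (), 0), (.neg, 0)] ++
      [(.cap, 2), (.cap, 0)])) ([(.cup (), 0)] ++ (shift 1 [(.cup (), 0)] ++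
      [(.cap, 2), (.cap, 0)])) [] [] :=
    Eqv.context (t := [(), ()]) (t' := [(), (), (), ()]) (path_iff_run.2 (by decide))
      (Eqv.move 1 (Base.r1CupNeg _ _) (path_iff_run.2 (by decide)) (path_iff_run.2 (by decide)))
      (path_iff_run.2 (by decide))
  have e3 : Eqv (triv Unit) ([(.cup (), 0)] ++ (shift 1 [(.cup (), 0), (.cap, 1)] ++
      [(.cap, 0)])) ([(.cup (), 0)] ++ (shift 1 [] ++ [(.cap, 0)])) [] [] :=
    Eqv.context (t := [(), ()]) (t' := [(), ()]) (path_iff_run.2 (by decide))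
      (Eqv.move 1 (Base.zag _) (path_iff_run.2 (by decide)) (path_iff_run.2 (by decide)))
      (path_iff_run.2 (by decide))
  exact (e1.trans e2).trans e3

theorem w7_comp (x : Fin 3) : IsDiag (erase (del (triv (Fin 3)) (fun y => decide (y = x))
    (w7 0 1 2 0) [])) unknot := by
  have fin : ∀ j : Fin 3, j = 0 ∨ j = 1 ∨ j = 2 := by decide
  rcases fin x with rfl | rfl | rfl
  · exact isDiag_of_eqv comp0_unknot.symm isDiag_unknot
  · exact isDiag_unknot
  · exact isDiag_unknot

theorem P2_seven (hU : NoInverse) : (P2 7).Nonempty := by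
  obtain ⟨L, hL⟩ := isDiag_mk (path_erase w7_path)
  have hne : ∃ x y : Fin 3, x ≠ y ∧ HasLabel x (w7 0 1 2 0) ∧ HasLabel y (w7 0 1 2 0) :=
    ⟨0, 1, by decide, hasLabel_w7.2 (Or.inl rfl), hasLabel_w7.2 (Or.inr (Or.inl rfl))⟩
  refine ⟨L, isPrime_of_odd hU w7_path hL hne (fun x _ => w7_comp x) fun x y _ _ => w7_odd x y,
    atLeastTwo_of_labels w7_path hL hne, le_antisymm ?_ ?_⟩
  · exact crossingNumber_le hL
  · obtain ⟨w, hw, hcr⟩ := exists_minimal L
    rw [← hcr]
    obtain ⟨W, rfl, hW⟩ := lift_diag (u := w7 ((0 : Fin 3), (0 : ZMod 5)) (1, 1) (2, 2) (0, 3))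
      rfl w7_fox hL hw
    have h1 : Eqv (triv (Fin 3)) (w7 0 1 2 0) (wmap Prod.fst W) [] [] :=
      hW.map (isHom_fst (P := triv (Fin 3)) (Q := fox))
    have hodd : ∀ x y : Fin 3, x ≠ y →
        cnt (triv (Fin 3)) (pr x y) (wmap Prod.fst W) [] % 2 = 1 := by
      intro x y hxy
      rw [← h1.cnt (pairInv_pr hxy)]
      exact w7_odd x y hxy
    have h6 : 6 ≤ cr W := six_le hW.path_right hodd
    rw [cr_wmap]
    by_contra hlt
    have h6' : cr W = 6 := by omega
    obtain ⟨v, hv⟩ := six_constant hW.path_right h6' hodd (w7_conn h1.symm)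
    have hS : Closed FP {x : Fin 3 × ZMod 5 | x.2 = v} := by
      refine ⟨fun x hx => hx, fun x hx y hy => ?_⟩
      simp only [Set.mem_ofPred_eq, Palette.prod, fox] at hx hy ⊢
      rw [hx, hy]
      ring
    have h7 := labels_of_eqv hS hW.symm hv
    have h8 := h7 (0, 0) (hasLabel_w7.2 (Or.inl rfl))
    have h9 := h7 (1, 1) (hasLabel_w7.2 (Or.inr (Or.inl rfl)))
    simp only [Set.mem_ofPred_eq] at h8 h9
    rw [← h8] at h9
    exact absurd h9 (by decide)

end Pool.Agent.Lib.MP_131179_gt
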