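import Pool.Agent.Lib.MP_131179_gt.Defs

/-!
# Basic lemmas on tangle words
-/

set_option autoImplicit false

namespace Pool.Agent.Lib.MP_131179_gt

variable {C D : Type} {P : Palette C} {Q : Palette D}

/-! ### Shifts -/

@[simp] theorem shift_nil (n : ℕ) : shift n ([] : Word C) = [] := rfl

@[simp] theorem shift_cons (n : ℕ) (k : Kind C) (i : ℕ) (w : Word C) :
    shift n ((k, i) :: w) = (k, i + n) :: shift n w := rfl

@[simp] theorem shift_append (n : ℕ) (u v : Word C) :
    shift n (u ++ v) = shift n u ++ shift n v := by simp [shift]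

@[simp] theorem shift_zero (w : Word C) : shift 0 w = w := by simp [shift]

theorem shift_shift (m n : ℕ) (w : Word C) : shift m (shift n w) = shift (n + m) w := by
  simp [shift, Function.comp_def, Nat.add_assoc]

@[simp] theorem shift_eq_nil {n : ℕ} {w : Word C} : shift n w = [] ↔ w = [] := by simp [shift]

@[simp] theorem length_shift (n : ℕ) (w : Word C) : (shift n w).length = w.length := by
  simp [shift]

/-! ### Steps and paths -/

theorem Step.det {k : Kind C} {i : ℕ} {s t t' : List C} (h : Step P k i s t)
    (h' : Step P k i s t') : t = t' := by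
  induction h generalizing t' with
  | cup c s => cases h'; rfl
  | cap c s =>
    generalize hs : c :: P.bar c :: s = r at h'
    cases h' with
    | cap c' s' => simp only [List.cons.injEq] at hs; exact hs.2.2
  | pos a b s => cases h'; rfl
  | neg a b s => cases h'; rfl
  | there a h ih =>
    cases h' with
    | there _ h' => rw [ih h']

theorem Path.det {w : Word C} {s t t' : List C} (h : Path P w s t) (h' : Path P w s t') :
    t = t' := by
  induction h generalizing t' with
  | nil s => cases h'; rfl
  | cons hs _ ih =>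
    cases h' with
    | cons hs' h' =>
      cases hs.det hs'
      exact ih h'

theorem path_nil_iff {s t : List C} : Path P [] s t ↔ s = t :=
  ⟨fun h => by cases h; rfl, fun h => h ▸ Path.nil s⟩

theorem path_cons_iff {k : Kind C} {i : ℕ} {w : Word C} {s r : List C} :
    Path P ((k, i) :: w) s r ↔ ∃ t, Step P k i s t ∧ Path P w t r :=
  ⟨fun h => by cases h with | cons h1 h2 => exact ⟨_, h1, h2⟩, fun ⟨_, h1, h2⟩ => Path.cons h1 h2⟩

theorem path_append_iff {u v : Word C} {s r : List C} :
    Path P (u ++ v) s r ↔ ∃ t, Path P u s t ∧ Path P v t r := by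
  induction u generalizing s with
  | nil => simp [path_nil_iff]
  | cons l u ih =>
    obtain ⟨k, i⟩ := l
    simp only [List.cons_append, path_cons_iff, ih]
    constructor
    · rintro ⟨t, h1, t', h2, h3⟩
      exact ⟨t', ⟨t, h1, h2⟩, h3⟩
    · rintro ⟨t', ⟨t, h1, h2⟩, h3⟩
      exact ⟨t, h1, t', h2, h3⟩

theorem Path.append {u v : Word C} {s t r : List C} (h : Path P u s t) (h' : Path P v t r) :
    Path P (u ++ v) s r := path_append_iff.2 ⟨t, h, h'⟩

theorem path_single_iff {k : Kind C} {i : ℕ} {s t : List C} :
    Path P [(k, i)] s t ↔ Step P k i s t := by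
  rw [path_cons_iff]
  constructor
  · rintro ⟨t', h1, h2⟩
    cases h2
    exact h1
  · exact fun h => ⟨t, h, Path.nil _⟩

theorem Step.right {k : Kind C} {i : ℕ} {s t : List C} (h : Step P k i s t) (r : List C) :
    Step P k i (s ++ r) (t ++ r) := by
  induction h with
  | cup c s => exact Step.cup c _
  | cap c s => exact Step.cap c _
  | pos a b s => exact Step.pos a b _
  | neg a b s => exact Step.neg a b _
  | there a _ ih => exact Step.there a ih

theorem Path.right {w : Word C} {s t : List C} (h : Path P w s t) (r : List C) :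
    Path P w (s ++ r) (t ++ r) := by
  induction h with
  | nil s => exact Path.nil _
  | cons hs _ ih => exact Path.cons (hs.right r) ih

theorem Step.left {k : Kind C} {i : ℕ} {s t : List C} (h : Step P k i s t) (l : List C) :
    Step P k (i + l.length) (l ++ s) (l ++ t) := by
  induction l with
  | nil => exact h
  | cons a l ih => exact Step.there a ih

theorem Path.left {w : Word C} {s t : List C} (h : Path P w s t) (l : List C) :
    Path P (shift l.length w) (l ++ s) (l ++ t) := by
  induction h with
  | nil s => exact Path.nil _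
  | cons hs _ ih => exact Path.cons (hs.left l) ih

theorem step_succ_iff {k : Kind C} {i : ℕ} {s t : List C} :
    Step P k (i + 1) s t ↔ ∃ a s' t', s = a :: s' ∧ t = a :: t' ∧ Step P k i s' t' := by
  constructor
  · intro h
    cases h with
    | there a h => exact ⟨a, _, _, rfl, rfl, h⟩
  · rintro ⟨a, s', t', rfl, rfl, h⟩
    exact Step.there a h

theorem step_add_iff {k : Kind C} {i n : ℕ} {s t : List C} :
    Step P k (i + n) s t ↔
      ∃ l s' t', l.length = n ∧ s = l ++ s' ∧ t = l ++ t' ∧ Step P k i s' t' := by
  constructor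
  · induction n generalizing s t with
    | zero => exact fun h => ⟨[], s, t, rfl, rfl, rfl, h⟩
    | succ n ih =>
      intro h
      obtain ⟨a, s', t', rfl, rfl, h1⟩ := step_succ_iff.1 h
      obtain ⟨l, s'', t'', hl, rfl, rfl, h2⟩ := ih h1
      exact ⟨a :: l, s'', t'', by simp [hl], rfl, rfl, h2⟩
  · rintro ⟨l, s', t', rfl, rfl, rfl, h⟩
    exact h.left l

theorem path_shift_cons_iff {n : ℕ} {w : Word C} {a : C} {s t : List C} :
    Path P (shift (n + 1) w) (a :: s) t ↔ ∃ t', t = a :: t' ∧ Path P (shift n w) s t' := by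
  induction w generalizing s with
  | nil => simp [path_nil_iff, eq_comm]
  | cons l w ih =>
    obtain ⟨k, i⟩ := l
    rw [shift_cons, path_cons_iff, shift_cons, ← Nat.add_assoc]
    constructor
    · rintro ⟨t1, h1, h2⟩
      obtain ⟨b, s', t', h3, rfl, h4⟩ := step_succ_iff.1 h1
      cases h3
      obtain ⟨t'', rfl, h5⟩ := ih.1 h2
      exact ⟨t'', rfl, Path.cons h4 h5⟩
    · rintro ⟨t', rfl, h⟩
      obtain ⟨t1, h1, h2⟩ := path_cons_iff.1 h
      exact ⟨a :: t1, Step.there a h1, ih.2 ⟨t', rfl, h2⟩⟩

theorem path_shift_append_iff {w : Word C} {l s t : List C} :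
    Path P (shift l.length w) (l ++ s) t ↔ ∃ t', t = l ++ t' ∧ Path P w s t' := by
  induction l generalizing t with
  | nil => simp
  | cons a l ih =>
    rw [List.length_cons, List.cons_append, path_shift_cons_iff]
    constructor
    · rintro ⟨t', rfl, h⟩
      obtain ⟨t'', rfl, h1⟩ := ih.1 h
      exact ⟨t'', rfl, h1⟩
    · rintro ⟨t', rfl, h⟩
      exact ⟨l ++ t', rfl, ih.2 ⟨t', rfl, h⟩⟩

/-- A nonempty word shifted by `n` has at least `n` strands at the bottom. -/
theorem path_shift_length {n : ℕ} {w : Word C} {s t : List C} (hw : w ≠ [])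
    (h : Path P (shift n w) s t) : n ≤ s.length := by
  obtain ⟨⟨k, i⟩, w, rfl⟩ := List.exists_cons_of_ne_nil hw
  rw [shift_cons, path_cons_iff] at h
  obtain ⟨t1, h1, -⟩ := h
  obtain ⟨l, s', t', hl, rfl, -, -⟩ := step_add_iff.1 h1
  simp [hl]

theorem path_shift_iff {n : ℕ} {w : Word C} {s t : List C} (hw : w ≠ []) :
    Path P (shift n w) s t ↔
      ∃ l s' t', l.length = n ∧ s = l ++ s' ∧ t = l ++ t' ∧ Path P w s' t' := by
  constructor
  · intro h
    have h1 := path_shift_length hw h
    refine ⟨s.take n, s.drop n, ?_⟩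
    have h2 : (s.take n).length = n := by simp [h1]
    have h3 : Path P (shift (s.take n).length w) (s.take n ++ s.drop n) t := by
      rw [h2, List.take_append_drop]
      exact h
    obtain ⟨t', h4, h5⟩ := path_shift_append_iff.1 h3
    exact ⟨t', h2, (List.take_append_drop n s).symm, h4, h5⟩
  · rintro ⟨l, s', t', rfl, rfl, rfl, h⟩
    exact h.left l

/-! ### Equivalence -/

theorem Eqv.path_left {u v : Word C} {s t : List C} (h : Eqv P u v s t) : Path P u s t := h.left.1

theorem Eqv.path_right {u v : Word C} {s t : List C} (h : Eqv P u v s t) : Path P v s t := h.left.2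

/-- Equivalent words in a context. -/
theorem Eqv.context {a b u v : Word C} {s t s' t' : List C} (ha : Path P a s t)
    (h : Eqv P u v t t') (hb : Path P b t' s') :
    Eqv P (a ++ (u ++ b)) (a ++ (v ++ b)) s s' :=
  Eqv.comp (Eqv.refl ha) (Eqv.comp h (Eqv.refl hb))

theorem Eqv.prepend {a u v : Word C} {s t r : List C} (ha : Path P a s t)
    (h : Eqv P u v t r) : Eqv P (a ++ u) (a ++ v) s r := Eqv.comp (Eqv.refl ha) h

theorem Eqv.append {b u v : Word C} {s t r : List C} (h : Eqv P u v s t) (hb : Path P b t r) :
    Eqv P (u ++ b) (v ++ b) s r := Eqv.comp h (Eqv.refl hb)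

theorem Eqv.shift_left {u v : Word C} {s t : List C} (h : Eqv P u v s t) (l : List C) :
    Eqv P (shift l.length u) (shift l.length v) (l ++ s) (l ++ t) := by
  induction h with
  | refl h => exact Eqv.refl (h.left l)
  | move i hb h1 h2 =>
    have h1' := h1.left l
    have h2' := h2.left l
    rw [shift_shift] at h1' h2' ⊢
    rw [shift_shift]
    exact Eqv.move _ hb h1' h2'
  | symm _ ih => exact ih.symm
  | trans _ _ ih1 ih2 => exact ih1.trans ih2
  | comp _ _ ih1 ih2 =>
    rw [shift_append, shift_append]
    exact Eqv.comp ih1 ih2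

theorem Eqv.right {u v : Word C} {s t : List C} (h : Eqv P u v s t) (r : List C) :
    Eqv P u v (s ++ r) (t ++ r) := by
  induction h with
  | refl h => exact Eqv.refl (h.right r)
  | move i hb h1 h2 => exact Eqv.move i hb (h1.right r) (h2.right r)
  | symm _ ih => exact ih.symm
  | trans _ _ ih1 ih2 => exact ih1.trans ih2
  | comp _ _ ih1 ih2 => exact Eqv.comp ih1 ih2

/-! ### Change of labels -/

@[simp] theorem wmap_nil (f : C → D) : wmap f [] = [] := rfl

@[simp] theorem wmap_cons (f : C → D) (k : Kind C) (i : ℕ) (w : Word C) :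
    wmap f ((k, i) :: w) = (k.map f, i) :: wmap f w := rfl

@[simp] theorem wmap_append (f : C → D) (u v : Word C) :
    wmap f (u ++ v) = wmap f u ++ wmap f v := by simp [wmap]

@[simp] theorem wmap_shift (f : C → D) (n : ℕ) (w : Word C) :
    wmap f (shift n w) = shift n (wmap f w) := by
  simp [wmap, shift]

@[simp] theorem Kind.map_cup (f : C → D) (c : C) : (Kind.cup c).map f = .cup (f c) := rfl
@[simp] theorem Kind.map_cap (f : C → D) : (Kind.cap : Kind C).map f = .cap := rfl
@[simp] theorem Kind.map_pos (f : C → D) : (Kind.pos : Kind C).map f = .pos := rfl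
@[simp] theorem Kind.map_neg (f : C → D) : (Kind.neg : Kind C).map f = .neg := rfl

theorem Kind.map_map {E : Type} (f : C → D) (g : D → E) (k : Kind C) :
    (k.map f).map g = k.map (g ∘ f) := by cases k <;> rfl

theorem wmap_wmap {E : Type} (f : C → D) (g : D → E) (w : Word C) :
    wmap g (wmap f w) = wmap (g ∘ f) w := by
  simp [wmap, Function.comp_def, Kind.map_map]

theorem Kind.map_id' (k : Kind C) : k.map (fun x => x) = k := by cases k <;> rfl

@[simp] theorem wmap_id' (w : Word C) : wmap (fun x => x) w = w := by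
  simp [wmap, Kind.map_id']

@[simp] theorem Kind.inn_map (f : C → D) (k : Kind C) : (k.map f).inn = k.inn := by
  cases k <;> rfl

@[simp] theorem Kind.out_map (f : C → D) (k : Kind C) : (k.map f).out = k.out := by
  cases k <;> rfl

@[simp] theorem Kind.isX_map (f : C → D) (k : Kind C) : (k.map f).isX = k.isX := by
  cases k <;> rfl

/-- Homomorphisms of palettes. -/
structure IsHom (P : Palette C) (Q : Palette D) (f : C → D) : Prop where
  bar : ∀ x, f (P.bar x) = Q.bar (f x)
  act : ∀ x y, f (P.act x y) = Q.act (f x) (f y)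

theorem isHom_triv (f : C → D) : IsHom (triv C) (triv D) f := ⟨fun _ => rfl, fun _ _ => rfl⟩

theorem isHom_unit (P : Palette C) : IsHom P (triv Unit) (fun _ => ()) :=
  ⟨fun _ => rfl, fun _ _ => rfl⟩

theorem Step.map {f : C → D} (hf : IsHom P Q f) {k : Kind C} {i : ℕ} {s t : List C}
    (h : Step P k i s t) : Step Q (k.map f) i (s.map f) (t.map f) := by
  induction h with
  | cup c s => simp only [List.map_cons, hf.bar]; exact Step.cup _ _
  | cap c s => simp only [List.map_cons, hf.bar]; exact Step.cap _ _
  | pos a b s => simp only [List.map_cons, hf.act, hf.bar]; exact Step.pos _ _ _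
  | neg a b s => simp only [List.map_cons, hf.act]; exact Step.neg _ _ _
  | there a _ ih => exact Step.there _ ih

theorem Path.map {f : C → D} (hf : IsHom P Q f) {w : Word C} {s t : List C}
    (h : Path P w s t) : Path Q (wmap f w) (s.map f) (t.map f) := by
  induction h with
  | nil s => exact Path.nil _
  | cons hs _ ih => exact Path.cons (hs.map hf) ih

theorem Base.map (f : C → D) {u v : Word C} (h : Base u v) : Base (wmap f u) (wmap f v) := by
  cases h with
  | far k l g =>
    have := Base.far (k.map f) (l.map f) g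
    simpa using this
  | zig c => exact Base.zig _
  | zag c => exact Base.zag _
  | cupOver c d => exact Base.cupOver _ _
  | cupUnder c d => exact Base.cupUnder _ _
  | capOver => exact Base.capOver
  | capUnder => exact Base.capUnder
  | r1CupPos c d => exact Base.r1CupPos _ _
  | r1CupNeg c d => exact Base.r1CupNeg _ _
  | r1CapPos => exact Base.r1CapPos
  | r1CapNeg => exact Base.r1CapNeg
  | r2PosNeg => exact Base.r2PosNeg
  | r2NegPos => exact Base.r2NegPos
  | r3 => exact Base.r3

theorem Eqv.map {f : C → D} (hf : IsHom P Q f) {u v : Word C} {s t : List C}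
    (h : Eqv P u v s t) : Eqv Q (wmap f u) (wmap f v) (s.map f) (t.map f) := by
  induction h with
  | refl h => exact Eqv.refl (h.map hf)
  | move i hb h1 h2 =>
    have h1' := h1.map hf
    have h2' := h2.map hf
    rw [wmap_shift] at h1' h2' ⊢
    rw [wmap_shift]
    exact Eqv.move i (hb.map f) h1' h2'
  | symm _ ih => exact ih.symm
  | trans _ _ ih1 ih2 => exact ih1.trans ih2
  | comp _ _ ih1 ih2 =>
    rw [wmap_append, wmap_append]
    exact Eqv.comp ih1 ih2

/-! ### Number of crossings -/

@[simp] theorem cr_nil : cr ([] : Word C) = 0 := rfl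

@[simp] theorem cr_append (u v : Word C) : cr (u ++ v) = cr u + cr v := by simp [cr]

theorem cr_cons (k : Kind C) (i : ℕ) (w : Word C) :
    cr ((k, i) :: w) = (if k.isX then 1 else 0) + cr w := by
  simp only [cr, List.countP_cons]
  omega

@[simp] theorem cr_cup (c : C) (i : ℕ) (w : Word C) : cr ((.cup c, i) :: w) = cr w := by
  simp [cr_cons, Kind.isX]

@[simp] theorem cr_cap (i : ℕ) (w : Word C) : cr ((.cap, i) :: w) = cr w := by
  simp [cr_cons, Kind.isX]

@[simp] theorem cr_pos (i : ℕ) (w : Word C) : cr ((.pos, i) :: w) = 1 + cr w := by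
  simp [cr_cons, Kind.isX]

@[simp] theorem cr_neg (i : ℕ) (w : Word C) : cr ((.neg, i) :: w) = 1 + cr w := by
  simp [cr_cons, Kind.isX]

@[simp] theorem cr_shift (n : ℕ) (w : Word C) : cr (shift n w) = cr w := by
  simp [cr, shift, List.countP_map, Function.comp_def]

@[simp] theorem cr_wmap (f : C → D) (w : Word C) : cr (wmap f w) = cr w := by
  simp [cr, wmap, List.countP_map, Function.comp_def]

/-! ### Change of the indices -/

theorem Eqv.cast {P : Palette C} {u v u' v' : Word C} {s t s' t' : List C} (h : Eqv P u v s t)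
    (hu : u = u') (hv : v = v') (hs : s = s') (ht : t = t') : Eqv P u' v' s' t' := by
  subst hu hv hs ht; exact h

theorem Path.cast {P : Palette C} {u : Word C} {s t s' t' : List C} (h : Path P u s t)
    (hs : s = s') (ht : t = t') : Path P u s' t' := by
  subst hs ht; exact h

end Pool.Agent.Lib.MP_131179_gt
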