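import Pool.Agent.Lib.MP_131179_gt.Lab

/-!
# Holonomy palettes, invariants of levels, (1,1)-tangles
-/

set_option autoImplicit false
set_option linter.unusedSimpArgs false

namespace Pool.Agent.Lib.MP_131179_gt

variable {C D : Type} {P : Palette C} {Q : Palette D}

/-! ### Relabelling on a closed set of labels -/

theorem Step.mapOn {f : C → D} {S : Set C} (hS : Closed P S)
    (hb : ∀ x ∈ S, f (P.bar x) = Q.bar (f x))
    (ha : ∀ x ∈ S, ∀ y ∈ S, f (P.act x y) = Q.act (f x) (f y)) {k : Kind C} {i : ℕ}
    {s t : List C} (h : Step P k i s t) (hk : ∀ c, k = .cup c → c ∈ S) (hs : ∀ x ∈ s, x ∈ S) :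
    Step Q (k.map f) i (s.map f) (t.map f) := by
  induction h with
  | cup c s => simp only [List.map_cons, hb c (hk c rfl)]; exact Step.cup _ _
  | cap c s => simp only [List.map_cons, hb c (hs c (by simp))]; exact Step.cap _ _
  | pos a b s =>
    have h1 := hs a (by simp)
    have h2 := hs b (by simp)
    simp only [List.map_cons, ha b h2 _ (hS.bar a h1), hb a h1]; exact Step.pos _ _ _
  | neg a b s =>
    have h1 := hs a (by simp)
    have h2 := hs b (by simp)
    simp only [List.map_cons, ha a h1 b h2]; exact Step.neg _ _ _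
  | there a _ ih => exact Step.there _ (ih hk fun x hx => hs x (by simp [hx]))

theorem Path.mapOn {f : C → D} {S : Set C} (hS : Closed P S)
    (hb : ∀ x ∈ S, f (P.bar x) = Q.bar (f x))
    (ha : ∀ x ∈ S, ∀ y ∈ S, f (P.act x y) = Q.act (f x) (f y)) {w : Word C}
    {s t : List C} (h : Path P w s t) (hw : ∀ x, HasLabel x w → x ∈ S) (hs : ∀ x ∈ s, x ∈ S) :
    Path Q (wmap f w) (s.map f) (t.map f) := by
  induction h with
  | nil s => exact Path.nil _
  | @cons k i w s t r h1 _ ih =>
    refine Path.cons (h1.mapOn hS hb ha (fun c hc => hw c (hasLabel_cons.2 (Or.inl hc))) hs)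
      (ih (fun x hx => hw x (hasLabel_cons.2 (Or.inr hx))) ?_)
    exact step_labels hS h1 (fun c hc => hw c (hasLabel_cons.2 (Or.inl hc))) hs

theorem path_labels {S : Set C} (hS : Closed P S) {w : Word C} {s t : List C}
    (h : Path P w s t) (hw : ∀ x, HasLabel x w → x ∈ S) (hs : ∀ x ∈ s, x ∈ S) :
    ∀ x ∈ t, x ∈ S := by
  induction h with
  | nil s => exact hs
  | @cons k i w s t r h1 _ ih =>
    exact ih (fun x hx => hw x (hasLabel_cons.2 (Or.inr hx)))
      (step_labels hS h1 (fun c hc => hw c (hasLabel_cons.2 (Or.inl hc))) hs)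

/-! ### Strands on the right which are not touched -/

theorem step_unright {k : Kind C} {i : ℕ} {s0 t0 : List Unit}
    (h0 : Step (triv Unit) (k.map fun _ => ()) i s0 t0) {s r t : List C}
    (hs : s.length = s0.length) (h : Step P k i (s ++ r) t) :
    ∃ t', t = t' ++ r ∧ Step P k i s t' ∧ t'.length = t0.length := by
  induction i generalizing s0 t0 s t with
  | succ i ih =>
    obtain ⟨a0, s0', t0', rfl, rfl, h0'⟩ := step_succ_iff.1 h0
    obtain ⟨a, s', rfl⟩ := List.exists_cons_of_length_pos (l := s) (by simp [hs])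
    obtain ⟨a1, s1, t1, h1, rfl, h2⟩ := step_succ_iff.1 h
    simp only [List.cons_append, List.cons.injEq] at h1
    obtain ⟨rfl, rfl⟩ := h1
    obtain ⟨t', rfl, h3, h4⟩ := ih h0' (by simpa using hs) h2
    exact ⟨a :: t', rfl, Step.there a h3, by simp [h4]⟩
  | zero =>
    cases k with
    | cup c =>
      rw [step_cup] at h
      have h1 := step_cup.1 h0
      subst h h1
      exact ⟨c :: P.bar c :: s, rfl, Step.cup c s, by simp [hs]⟩
    | cap =>
      obtain ⟨c, h1⟩ := step_cap.1 h
      obtain ⟨c0, rfl⟩ := step_cap.1 h0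
      obtain ⟨a, s', rfl⟩ := List.exists_cons_of_length_pos (l := s) (by simp [hs])
      obtain ⟨b, s'', rfl⟩ := List.exists_cons_of_length_pos (l := s') (by
        simp at hs; omega)
      simp only [List.cons_append, List.cons.injEq] at h1
      obtain ⟨rfl, rfl, rfl⟩ := h1
      exact ⟨s'', rfl, Step.cap _ _, by simpa using hs⟩
    | pos =>
      obtain ⟨a, b, r', h1, rfl⟩ := step_pos.1 h
      obtain ⟨a0, b0, r0, rfl, rfl⟩ := step_pos.1 h0
      obtain ⟨a', s', rfl⟩ := List.exists_cons_of_length_pos (l := s) (by simp [hs])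
      obtain ⟨b', s'', rfl⟩ := List.exists_cons_of_length_pos (l := s') (by
        simp at hs; omega)
      simp only [List.cons_append, List.cons.injEq] at h1
      obtain ⟨rfl, rfl, rfl⟩ := h1
      exact ⟨_, rfl, Step.pos _ _ _, by simpa using hs⟩
    | neg =>
      obtain ⟨a, b, r', h1, rfl⟩ := step_neg.1 h
      obtain ⟨a0, b0, r0, rfl, rfl⟩ := step_neg.1 h0
      obtain ⟨a', s', rfl⟩ := List.exists_cons_of_length_pos (l := s) (by simp [hs])
      obtain ⟨b', s'', rfl⟩ := List.exists_cons_of_length_pos (l := s') (by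
        simp at hs; omega)
      simp only [List.cons_append, List.cons.injEq] at h1
      obtain ⟨rfl, rfl, rfl⟩ := h1
      exact ⟨_, rfl, Step.neg _ _ _, by simpa using hs⟩

theorem path_unright {w : Word C} {s0 t0 : List Unit}
    (h0 : Path (triv Unit) (erase w) s0 t0) {s r t : List C}
    (hs : s.length = s0.length) (h : Path P w (s ++ r) t) :
    ∃ t', t = t' ++ r ∧ Path P w s t' ∧ t'.length = t0.length := by
  induction w generalizing s0 s with
  | nil =>
    cases h
    cases h0
    exact ⟨s, rfl, Path.nil _, hs⟩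
  | cons x w ih =>
    obtain ⟨k, i⟩ := x
    obtain ⟨u0, h1, h2⟩ := path_cons_iff.1 h0
    obtain ⟨u, h3, h4⟩ := path_cons_iff.1 h
    obtain ⟨u', rfl, h5, h6⟩ := step_unright h1 hs h3
    obtain ⟨t', rfl, h7, h8⟩ := ih h2 h6 h4
    exact ⟨t', rfl, Path.cons h5 h7, h8⟩

/-- The labelled versions of a closure of two (1,1)-tangles, one on top of the other. -/
theorem closure_labelled {T U : Word Unit} (hT : Path (triv Unit) T [()] [()])
    (hU : Path (triv Unit) U [()] [()]) {W : Word C} (hW : erase W = closure () (T ++ U))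
    (h : Path P W [] []) :
    ∃ (c d : C) (T' U' : Word C), W = closure c (T' ++ U') ∧ erase T' = T ∧ erase U' = U ∧
      Path P T' [c] [d] ∧ Path P U' [d] [c] := by
  have hW' : wmap (fun _ => ()) W = (.cup (), 0) :: (T ++ U ++ [(.cap, 0)]) := hW
  obtain ⟨k, W1, rfl, hk, hW1⟩ := wmap_eq_cons hW'
  obtain ⟨c, rfl, -⟩ := Kind.map_eq_cup hk
  obtain ⟨TU, V, rfl, h1, h2⟩ := wmap_eq_append hW1
  obtain ⟨T', U', rfl, h3, h4⟩ := wmap_eq_append h1
  obtain ⟨k, V', rfl, hk', hV'⟩ := wmap_eq_cons h2
  obtain rfl := Kind.map_eq_cap hk'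
  obtain rfl := wmap_eq_nil.1 hV'
  obtain ⟨t1, h5, h6⟩ := path_cons_iff.1 h
  rw [step_cup] at h5
  subst h5
  obtain ⟨t2, h7, h8⟩ := path_append_iff.1 h6
  obtain ⟨t3, h9, h10⟩ := path_append_iff.1 h7
  obtain ⟨s3, rfl, h11, h12⟩ := path_unright (s := [c]) (r := [P.bar c]) (h3 ▸ hT) rfl h9
  obtain ⟨s2, rfl, h13, h14⟩ := path_unright (s := s3) (r := [P.bar c]) (h4 ▸ hU) h12 h10
  obtain ⟨d, rfl⟩ := List.length_eq_one_iff.1 h12
  obtain ⟨e, rfl⟩ := List.length_eq_one_iff.1 h14
  obtain ⟨x, hx⟩ := step_cap.1 (path_single_iff.1 h8)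
  simp only [List.cons_append, List.nil_append, List.cons.injEq, and_true] at hx
  obtain ⟨rfl, hx⟩ := hx
  have : e = c := by
    rw [← P.bar_bar e, ← hx, P.bar_bar]
  subst this
  exact ⟨e, d, T', U', rfl, h3, h4, h11, h13⟩

theorem closure_path2 {T U : Word C} {c d : C} (hT : Path P T [c] [d]) (hU : Path P U [d] [c]) :
    Path P (closure c (T ++ U)) [] [] := by
  refine Path.cons (Step.cup c []) ?_
  refine Path.append (t := [c, P.bar c]) ?_ (path_single_iff.2 (Step.cap c []))
  exact (hT.append hU).right [P.bar c]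

theorem closure_path' {T : Word C} {c : C} (hT : Path P T [c] [c]) :
    Path P (closure c T) [] [] := by
  refine Path.cons (Step.cup c []) ?_
  refine Path.append (t := [c, P.bar c]) ?_ (path_single_iff.2 (Step.cap c []))
  exact hT.right [P.bar c]

theorem erase_closure (c : C) (T : Word C) : erase (closure c T) = closure () (erase T) := by
  simp [closure, erase]

theorem wmap_closure (f : C → D) (c : C) (T : Word C) :
    wmap f (closure c T) = closure (f c) (wmap f T) := by
  simp [closure]

/-! ### Parity of the strands of one colour -/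

theorem step_parity {k : Kind Bool} {i : ℕ} {s t : List Bool} (h : Step (triv Bool) k i s t) :
    s.count true % 2 = t.count true % 2 := by
  induction h with
  | cup c s =>
    cases c
    · simp [triv]
    · simp only [triv, id, List.count_cons_self]; omega
  | cap c s =>
    cases c
    · simp [triv]
    · simp only [triv, id, List.count_cons_self]; omega
  | pos a b s => cases a <;> cases b <;> simp [triv]
  | neg a b s => cases a <;> cases b <;> simp [triv]
  | there a _ ih => cases a <;> simp <;> omega

theorem path_parity {w : Word Bool} {s t : List Bool} (h : Path (triv Bool) w s t) :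
    s.count true % 2 = t.count true % 2 := by
  induction h with
  | nil s => rfl
  | cons h1 _ ih => rw [step_parity h1, ih]

/-- The two ends of a (1,1)-tangle have the same colour. -/
theorem ends_bool {w : Word Bool} {c d : Bool} (h : Path (triv Bool) w [c] [d]) : c = d := by
  have := path_parity h
  cases c <;> cases d <;> simp at this ⊢

/-- The two ends of a (1,1)-tangle have the same colour. -/
theorem ends_triv {w : Word C} {c d : C} (h : Path (triv C) w [c] [d]) : c = d := by
  classical
  have h1 := h.map (isHom_triv fun x => decide (x = d))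
  have h2 := ends_bool h1
  simpa using h2

/-! ### Holonomy -/

section hol

variable {H Y Z : Type} [Group H]

/-- Labels in a group, and labels in a set on which the group acts. The strands with labels in the group
are subject to the Wirtinger relations; a strand with a label in the set changes its label when
it passes under a strand with a label in the group. -/
def hol (φ : H →* Equiv.Perm Y) : Palette (H ⊕ Y) where
  bar := fun x => match x with
    | .inl h => .inl h⁻¹
    | .inr y => .inr y
  act := fun x z => match x, z with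
    | .inl h, .inl k => .inl (k⁻¹ * h * k)
    | .inl h, .inr _ => .inl h
    | .inr y, .inl k => .inr (φ k⁻¹ y)
    | .inr y, .inr _ => .inr y
  bar_bar := fun x => by cases x <;> simp
  act_bar := fun x y => by
    cases x <;> cases y <;> simp [mul_assoc]
  act_act_bar := fun x y => by
    cases x <;> cases y <;> simp [mul_assoc]
  act_self := fun x => by cases x <;> simp
  act_dist := fun x y z => by
    cases x <;> cases y <;> cases z <;> simp [mul_assoc]

@[simp] theorem hol_bar_inl (φ : H →* Equiv.Perm Y) (h : H) :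
    (hol φ).bar (.inl h) = .inl h⁻¹ := rfl
@[simp] theorem hol_bar_inr (φ : H →* Equiv.Perm Y) (y : Y) :
    (hol φ).bar (.inr y) = .inr y := rfl
@[simp] theorem hol_act_ll (φ : H →* Equiv.Perm Y) (h k : H) :
    (hol φ).act (.inl h) (.inl k) = .inl (k⁻¹ * h * k) := rfl
@[simp] theorem hol_act_lr (φ : H →* Equiv.Perm Y) (h : H) (y : Y) :
    (hol φ).act (.inl h) (.inr y) = .inl h := rfl
@[simp] theorem hol_act_rl (φ : H →* Equiv.Perm Y) (k : H) (y : Y) :
    (hol φ).act (.inr y) (.inl k) = .inr (φ k⁻¹ y) := rfl
@[simp] theorem hol_act_rr (φ : H →* Equiv.Perm Y) (y z : Y) :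
    (hol φ).act (.inr y) (.inr z) = .inr y := rfl

theorem isHom_inl (φ : H →* Equiv.Perm Y) : IsHom (conj H) (hol φ) Sum.inl :=
  ⟨fun _ => rfl, fun _ _ => rfl⟩

theorem isHom_isLeft (φ : H →* Equiv.Perm Y) : IsHom (hol φ) (triv Bool) Sum.isLeft :=
  ⟨fun x => by cases x <;> rfl, fun x y => by cases x <;> cases y <;> rfl⟩

theorem compat_isLeft (φ : H →* Equiv.Perm Y) : Compat (hol φ) Sum.isLeft := by
  refine ⟨fun x => by cases x <;> rfl, fun x y => by cases x <;> cases y <;> rfl, ?_⟩
  intro x y hx hy
  cases x with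
  | inr x => simp at hx
  | inl x =>
    cases y with
    | inl y => simp at hy
    | inr y => rfl

/-- Change of the set on which the group acts. -/
theorem isHom_sum (φ : H →* Equiv.Perm Y) (ψ : H →* Equiv.Perm Z) (f : Y → Z)
    (hf : ∀ h y, f (φ h y) = ψ h (f y)) : IsHom (hol φ) (hol ψ) (Sum.map id f) := by
  refine ⟨fun x => by cases x <;> rfl, fun x y => ?_⟩
  cases x with
  | inl x => cases y <;> rfl
  | inr x =>
    cases y with
    | inr y => rfl
    | inl y =>
      change Sum.inr (f (φ y⁻¹ x)) = Sum.inr (ψ y⁻¹ (f x))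
      rw [hf]

/-- The labels on a strand with labels in the group. -/
theorem closed_left (φ : H →* Equiv.Perm Y) : Closed (hol φ) {x | x.isLeft = true} := by
  refine ⟨fun x hx => ?_, fun x hx y _ => ?_⟩
  · cases x <;> simp_all
  · cases x <;> cases y <;> simp_all

/-- The product of the labels of a level. -/
def lprod (s : List (H ⊕ Y)) : H := (s.map fun x => match x with
    | .inl h => h
    | .inr _ => 1).prod

theorem step_lprod {φ : H →* Equiv.Perm Y} {k : Kind (H ⊕ Y)} {i : ℕ} {s t : List (H ⊕ Y)}
    (h : Step (hol φ) k i s t) : lprod s = lprod t := by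
  induction h with
  | cup c s => cases c <;> simp [lprod]
  | cap c s => cases c <;> simp [lprod]
  | pos a b s => cases a <;> cases b <;> simp [lprod, mul_assoc]
  | neg a b s => cases a <;> cases b <;> simp [lprod, mul_assoc]
  | there a _ ih =>
    simp only [lprod, List.map_cons, List.prod_cons] at ih ⊢
    rw [ih]

theorem path_lprod {φ : H →* Equiv.Perm Y} {w : Word (H ⊕ Y)} {s t : List (H ⊕ Y)}
    (h : Path (hol φ) w s t) : lprod s = lprod t := by
  induction h with
  | nil s => rfl
  | cons h1 _ ih => rw [step_lprod h1, ih]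

/-- The labels at the two ends of a (1,1)-tangle. -/
theorem ends_hol {φ : H →* Equiv.Perm Y} {w : Word (H ⊕ Y)} {c d : H ⊕ Y}
    (h : Path (hol φ) w [c] [d]) :
    (∃ x, c = .inl x ∧ d = .inl x) ∨ (∃ y z, c = .inr y ∧ d = .inr z) := by
  have h1 : c.isLeft = d.isLeft := ends_bool (h.map (isHom_isLeft φ))
  have h2 := path_lprod h
  cases c with
  | inl x =>
    cases d with
    | inl y =>
      left
      simp [lprod] at h2
      exact ⟨x, rfl, by rw [h2]⟩
    | inr y => simp at h1
  | inr y =>
    cases d with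
    | inl y => simp at h1
    | inr z => exact Or.inr ⟨y, z, rfl, rfl⟩

end hol

end Pool.Agent.Lib.MP_131179_gt
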