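import Pool.Agent.Lib.MP_131179_gt.Lift

/-!
# Isotopies: interchange, sliding a strand over a tangle, rotation around infinity
-/

set_option autoImplicit false
set_option linter.unusedSimpArgs false

namespace Pool.Agent.Lib.MP_131179_gt

variable {C : Type} {P : Palette C}

theorem Eqv.of_eq {u v : Word C} {s t : List C} (h : Path P u s t) (e : u = v) :
    Eqv P u v s t := by
  subst e; exact Eqv.refl h

theorem Eqv.base {u v : Word C} {s t : List C} (h : Base u v) (h1 : Path P u s t)
    (h2 : Path P v s t) : Eqv P u v s t := by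
  have := Eqv.move 0 h (s := s) (t := t) (P := P) (by simpa using h1) (by simpa using h2)
  simpa using this

/-- The two letters `(k, i)` and `(l, j)` on disjoint sets of strands can be exchanged. -/
theorem interchange_letter {k l : Kind C} {i j : ℕ} {s t s' t' : List C} (h : Step P k i s t)
    (h' : Step P l j s' t') :
    Eqv P [(k, i), (l, j + t.length)] [(l, j + s.length), (k, i)] (s ++ s') (t ++ t') := by
  obtain ⟨w, s1, t1, hw, rfl, rfl, h1⟩ := (step_add_iff (i := 0) (n := i)).1 (by simpa using h)
  obtain ⟨a, b, r, ha, hb, rfl, rfl, hab⟩ := step_zero_append h1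
  have p1 : Path P [(k, 0), (l, k.out + (r.length + j))] (a ++ (r ++ s')) (b ++ (r ++ t')) := by
    refine Path.cons (hab _) (path_single_iff.2 ?_)
    have := h'.left (b ++ r)
    rw [List.append_assoc, List.append_assoc] at this
    refine Eq.mp ?_ this
    congr 1
    simp only [List.length_append, hb]
    omega
  have p2 : Path P [(l, k.inn + (r.length + j)), (k, 0)] (a ++ (r ++ s')) (b ++ (r ++ t')) :=
    far_path_iff.1 p1
  have p1' := p1.left w
  have p2' := p2.left w
  have e := Eqv.move w.length (Base.far k l (r.length + j)) p1' p2'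
  refine e.cast ?_ ?_ ?_ ?_
  · simp only [shift_cons, shift_nil, hw, List.length_append, ← hb]
    simp only [Nat.zero_add, List.cons.injEq, Prod.mk.injEq, true_and, and_true]
    omega
  · simp only [shift_cons, shift_nil, hw, List.length_append, ← ha]
    simp only [Nat.zero_add, List.cons.injEq, Prod.mk.injEq, true_and, and_true]
    omega
  · simp
  · simp

/-- A letter and a word on disjoint sets of strands can be exchanged. -/
theorem interchange_one {k : Kind C} {i : ℕ} {s t : List C} (h : Step P k i s t) {v : Word C}
    {s' t' : List C} (hv : Path P v s' t') :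
    Eqv P ((k, i) :: shift t.length v) (shift s.length v ++ [(k, i)]) (s ++ s') (t ++ t') := by
  induction hv with
  | nil s' =>
    refine Eqv.refl ?_
    exact path_single_iff.2 (h.right _)
  | @cons l j v s' u' t' h1 hv ih =>
    have e1 := (interchange_letter h h1).append (hv.left t)
    have e2 := Eqv.prepend (path_single_iff.2 (h1.left s)) ih
    exact e1.trans e2

/-- **Interchange.** Two words on disjoint sets of strands can be exchanged. -/
theorem interchange {u v : Word C} {s t s' t' : List C} (hu : Path P u s t)
    (hv : Path P v s' t') :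
    Eqv P (u ++ shift t.length v) (shift s.length v ++ u) (s ++ s') (t ++ t') := by
  induction hu with
  | nil s =>
    simp only [List.nil_append, List.append_nil]
    exact Eqv.refl (hv.left s)
  | @cons k i u s r t h hu ih =>
    have e1 := Eqv.prepend (path_single_iff.2 (h.right s')) ih
    have e2 := (interchange_one h hv).append (hu.right t')
    have e3 := e1.trans e2
    refine e3.cast ?_ ?_ rfl rfl <;> simp

/-! ### Colours -/

/-- The first strand passes over the next `n` strands. -/
def ovr : ℕ → Word C
  | 0 => []
  | n + 1 => (.pos, 0) :: shift 1 (ovr n)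

theorem ovr_path (x : C) (s : List C) : Path (triv C) (ovr s.length) (x :: s) (s ++ [x]) := by
  induction s with
  | nil => exact Path.nil _
  | cons y s ih => exact Path.cons (Step.pos x y s) (ih.left [y])

theorem ovr_path' {n : ℕ} (x : C) {s : List C} (h : s.length = n) :
    Path (triv C) (ovr n) (x :: s) (s ++ [x]) := by
  subst h; exact ovr_path x s

theorem ovr_add (m n : ℕ) : (ovr (m + n) : Word C) = ovr m ++ shift m (ovr n) := by
  induction m with
  | zero => simp [ovr]
  | succ m ih =>
    rw [Nat.add_right_comm, ovr, ih, ovr, shift_append, shift_shift, List.cons_append]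

@[simp] theorem cr_ovr (n : ℕ) : cr (ovr n : Word C) = n := by
  induction n with
  | zero => rfl
  | succ n ih => simp [ovr, ih, Nat.add_comm]

/-- A strand passing over one elementary tangle. -/
theorem slide_letter (x : C) {k : Kind C} {a b : List C} (ha : a.length = k.inn)
    (hb : b.length = k.out) (h : Step (triv C) k 0 a b) :
    Eqv (triv C) ((k, 1) :: ovr k.out) (ovr k.inn ++ [(k, 0)]) (x :: a) (b ++ [x]) := by
  have hx : ∀ {r : List C} (y z : C), Path (triv C) [(.pos, 0)] (y :: z :: r) (z :: y :: r) :=
    fun y z => path_single_iff.2 (Step.pos y z _)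
  have hn : ∀ {r : List C} (y z : C), Path (triv C) [(.neg, 0)] (y :: z :: r) (z :: y :: r) :=
    fun y z => path_single_iff.2 (Step.neg y z _)
  have h1x : ∀ {r : List C} (w y z : C),
      Path (triv C) [(.pos, 1)] (w :: y :: z :: r) (w :: z :: y :: r) :=
    fun w y z => path_single_iff.2 (Step.there w (Step.pos y z _))
  have h1n : ∀ {r : List C} (w y z : C),
      Path (triv C) [(.neg, 1)] (w :: y :: z :: r) (w :: z :: y :: r) :=
    fun w y z => path_single_iff.2 (Step.there w (Step.neg y z _))
  cases h with
  | cup y _ =>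
    obtain rfl : a = [] := by simpa [Kind.inn] using ha
    have e1 : Eqv (triv C) [(.cup y, 1), (.pos, 0)] [(.cup y, 0), (.neg, 1)] [x] [y, x, y] :=
      Eqv.base (Base.cupOver y y) (Path.cons (Step.there x (Step.cup y [])) (hx x y))
        (Path.cons (Step.cup y [x]) (h1n y y x))
    have e2 : Eqv (triv C) [(.neg, 0 + 1), (.pos, 0 + 1)] [] [y, y, x] [y, y, x] :=
      Eqv.move 1 Base.r2NegPos ((h1n y y x).append (h1x y x y)) (Path.nil _)
    have e3 := e1.append (h1x y x y)
    have e4 := Eqv.prepend (path_single_iff.2 (Step.cup y [x])) e2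
    exact e3.trans e4
  | cap y _ =>
    obtain rfl : b = [] := by simpa [Kind.out] using hb
    have e1 : Eqv (triv C) [(.pos, 0), (.neg, 0)] [] [x, y, y] [x, y, y] :=
      Eqv.base Base.r2PosNeg ((hx x y).append (hn y x)) (Path.nil _)
    have e2 : Eqv (triv C) [(.neg, 0), (.cap, 1)] [(.pos, 1), (.cap, 0)] [y, x, y] [x] :=
      Eqv.base Base.capUnder ((hn y x).append (path_single_iff.2 (Step.there x (Step.cap y []))))
        ((h1x y x y).append (path_single_iff.2 (Step.cap y [x])))
    have e3 := e1.append (path_single_iff.2 (Step.there x (Step.cap y [])))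
    have e4 := Eqv.prepend (hx x y) e2
    exact e3.symm.trans e4
  | pos y z s =>
    obtain rfl : s = [] := by simpa [Kind.inn] using ha
    exact (Eqv.base Base.r3 ((hx x y).append ((h1x y x z).append (hx y z)))
      ((h1x x y z).append ((hx x z).append (h1x z x y)))).symm
  | neg y z s =>
    obtain rfl : s = [] := by simpa [Kind.inn] using ha
    have e1 : Eqv (triv C) [(.pos, 0), (.neg, 0)] [] [z, y, x] [z, y, x] :=
      Eqv.base Base.r2PosNeg ((hx z y).append (hn y z)) (Path.nil _)
    have e2 : Eqv (triv C) [(.pos, 0), (.pos, 1), (.pos, 0)] [(.pos, 1), (.pos, 0), (.pos, 1)]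
        [x, z, y] [y, z, x] :=
      Eqv.base Base.r3 ((hx x z).append ((h1x z x y).append (hx z y)))
      ((h1x x z y).append ((hx x y).append (h1x y x z)))
    have e3 : Eqv (triv C) [(.neg, 0 + 1), (.pos, 0 + 1)] [] [x, y, z] [x, y, z] :=
      Eqv.move 1 Base.r2NegPos ((h1n x y z).append (h1x x z y)) (Path.nil _)
    have e4 := Eqv.prepend ((h1n x y z).append ((hx x z).append (h1x z x y))) e1
    have e5 := Eqv.context (h1n x y z) e2 (hn y z)
    have e6 := e3.append ((hx x y).append ((h1x y x z).append (hn y z)))
    exact e4.symm.trans (e5.trans e6)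

/-- A strand passing over one letter. -/
theorem slide_step (x : C) {k : Kind C} {i : ℕ} {s t : List C} (h : Step (triv C) k i s t) :
    Eqv (triv C) ((k, i + 1) :: ovr t.length) (ovr s.length ++ [(k, i)]) (x :: s) (t ++ [x]) := by
  obtain ⟨l, s1, t1, hl, rfl, rfl, h1⟩ := (step_add_iff (i := 0) (n := i)).1 (by simpa using h)
  obtain ⟨a, b, r, ha, hb, rfl, rfl, hab⟩ := step_zero_append h1
  have hk : Step (triv C) k 0 a b := by simpa using hab []
  have e1 := interchange (ovr_path x l) (path_single_iff.2 (hk.right r))
  have e2 := ((slide_letter x ha hb hk).right r).shift_left l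
  have e3 := interchange (path_single_iff.2 (hk.left l)) (ovr_path x r)
  have m1 : Path (triv C) (shift l.length (ovr b.length)) (l ++ (x :: (b ++ r)))
      (l ++ (b ++ x :: r)) := by
    have := ((ovr_path x b).right r).left l
    simpa using this
  have m2 : Path (triv C) (shift (l ++ b).length (ovr r.length)) (l ++ (b ++ x :: r))
      (l ++ (b ++ (r ++ [x]))) := by
    have := (ovr_path x r).left (l ++ b)
    simpa using this
  have m3 : Path (triv C) (ovr l.length) (x :: (l ++ (a ++ r))) (l ++ (x :: (a ++ r))) := by
    have := (ovr_path x l).right (a ++ r)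
    simpa using this
  have m4 : Path (triv C) (shift l.length (ovr a.length)) (l ++ (x :: (a ++ r)))
      (l ++ (a ++ x :: r)) := by
    have := ((ovr_path x a).right r).left l
    simpa using this
  have k1 := e1.symm.append ((m1.append m2).cast (s' := (l ++ [x]) ++ (b ++ r)) (by simp) rfl)
  have k2 := Eqv.context m3 (e2.cast rfl rfl (s' := l ++ (x :: (a ++ r)))
    (t' := l ++ (b ++ x :: r)) (by simp) (by simp)) m2
  have k3 := Eqv.prepend (m3.append m4) (e3.cast rfl rfl (s' := l ++ (a ++ x :: r))
    (t' := l ++ (b ++ (r ++ [x]))) (by simp) (by simp))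
  have f1 : ovr (l ++ (b ++ r)).length = ovr l.length ++ (shift l.length (ovr b.length) ++
      shift (l ++ b).length (ovr r.length) : Word C) := by
    rw [List.length_append, List.length_append, ovr_add, ovr_add, shift_append, shift_shift,
      List.length_append, Nat.add_comm b.length]
  have f2 : ovr (l ++ (a ++ r)).length = ovr l.length ++ (shift l.length (ovr a.length) ++
      shift (l ++ a).length (ovr r.length) : Word C) := by
    rw [List.length_append, List.length_append, ovr_add, ovr_add, shift_append, shift_shift,
      List.length_append, Nat.add_comm a.length]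
  rw [f1, f2]
  have hi : 0 + i = i := Nat.zero_add i
  have hi1 : 0 + (l.length + 1) = i + 1 := by omega
  have hi2 : 1 + l.length = i + 1 := by omega
  have hi3 : 0 + l.length = i := by omega
  simp only [shift_cons, shift_nil, shift_append, ← ha, ← hb, List.length_append,
    List.length_cons, List.length_nil, List.append_assoc, List.cons_append, List.nil_append,
    List.append_nil, hi1, hi2, hi3] at k1 k2 k3 ⊢
  exact k1.trans (k2.trans k3)

/-- **Sliding.** A strand passes over a whole tangle. -/
theorem slide (x : C) {w : Word C} {s t : List C} (h : Path (triv C) w s t) :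
    Eqv (triv C) (shift 1 w ++ ovr t.length) (ovr s.length ++ w) (x :: s) (t ++ [x]) := by
  induction h with
  | nil s =>
    simp only [shift_nil, List.nil_append, List.append_nil]
    exact Eqv.refl (ovr_path x s)
  | @cons k i w s r t h hw ih =>
    have e1 := Eqv.prepend (a := [(k, i + 1)]) (path_single_iff.2 (Step.there x h)) ih
    have e2 := (slide_step x h).append (hw.right [x])
    have e3 := e1.trans e2
    refine e3.cast ?_ ?_ rfl rfl <;> simp

/-- Closing a strand of a (1,1)-tangle on the left or on the right gives the same link. -/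
theorem close_swap (y : C) {w : Word C} (h : Path (triv C) w [y] [y]) :
    Eqv (triv C) ((.cup y, 0) :: (shift 1 w ++ [(.cap, 0)])) ((.cup y, 0) :: (w ++ [(.cap, 0)]))
      [] [] := by
  have n1 : Eqv (triv C) (shift 1 w ++ [(.pos, 0)]) ([(.pos, 0)] ++ w) [y, y] [y, y] := slide y h
  have mL : Path (triv C) (shift 1 w) [y, y] [y, y] := h.left [y]
  have mR : Path (triv C) w [y, y] [y, y] := h.right [y]
  have mc : Path (triv C) [(.cup y, 0)] [] [y, y] := path_single_iff.2 (Step.cup y [])
  have mp : Path (triv C) [(.pos, 0)] [y, y] [y, y] := path_single_iff.2 (Step.pos y y [])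
  have md : Path (triv C) [(.cap, 0)] [y, y] [] := path_single_iff.2 (Step.cap y [])
  have k1 : Eqv (triv C) [(.cap, 0)] [(.pos, 0), (.cap, 0)] [y, y] [] :=
    (Eqv.base Base.r1CapPos (mp.append md) md).symm
  have k2 : Eqv (triv C) [(.cup y, 0), (.pos, 0)] [(.cup y, 0)] [] [y, y] :=
    Eqv.base (Base.r1CupPos y y) (mc.append mp) mc
  have a1 := Eqv.prepend mc (Eqv.prepend mL k1)
  have a2 := Eqv.context mc n1 md
  have a3 := k2.append (mR.append md)
  have a4 : Eqv (triv C) ([(.cup y, 0)] ++ (shift 1 w ++ [(.pos, 0), (.cap, 0)]))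
      ([(.cup y, 0), (.pos, 0)] ++ (w ++ [(.cap, 0)])) [] [] := by
    refine a2.cast ?_ ?_ rfl rfl <;> simp
  exact a1.trans (a4.trans a3)

/-- Rotation of the last strand around infinity, lower part (`n` other strands). -/
def rotB (n : ℕ) (x : C) (b : Word C) : Word C :=
  (.cup x, 0) :: (shift 1 b ++ [(.cap, n + 1)])

/-- Rotation of the last strand around infinity, upper part (`n` other strands). -/
def rotA (n : ℕ) (x : C) (a : Word C) : Word C :=
  (.cup x, n + 1) :: (shift 1 a ++ [(.cap, 0)])

@[simp] theorem cr_rotB (n : ℕ) (x : C) (b : Word C) : cr (rotB n x b) = cr b := by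
  simp [rotB]

@[simp] theorem cr_rotA (n : ℕ) (x : C) (b : Word C) : cr (rotA n x b) = cr b := by
  simp [rotA]

theorem rotB_path {s : List C} {x : C} {b : Word C} (h : Path (triv C) b [] (s ++ [x])) :
    Path (triv C) (rotB s.length x b) [] (x :: s) := by
  refine Path.cons (Step.cup x []) ?_
  refine Path.append (t := x :: (s ++ [x] ++ [x])) ((h.right [x]).left [x]) ?_
  have := (Step.cap (P := triv C) x []).left (x :: s)
  refine path_single_iff.2 ?_
  simpa [triv] using this

theorem rotA_path {s : List C} {x : C} {a : Word C} (h : Path (triv C) a (s ++ [x]) []) :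
    Path (triv C) (rotA s.length x a) (x :: s) [] := by
  have h1 := (Step.cup (P := triv C) x []).left (x :: s)
  refine Path.cons (t := x :: (s ++ [x] ++ [x])) (by simpa [triv] using h1) ?_
  refine Path.append (t := [x, x]) ((h.right [x]).left [x]) ?_
  exact path_single_iff.2 (Step.cap x [])

/-- **Rotation around infinity** does not change the link. -/
theorem rot_eqv {s : List C} {x : C} {b a : Word C} (hb : Path (triv C) b [] (s ++ [x]))
    (ha : Path (triv C) a (s ++ [x]) []) :
    Eqv (triv C) (rotB s.length x b ++ rotA s.length x a) (b ++ a) [] [] := by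
  have cp : Path (triv C) [(.cap, s.length)] (s ++ [x, x]) s := by
    have := (Step.cap (P := triv C) x []).left s
    exact path_single_iff.2 (by simpa [triv] using this)
  have cq : Path (triv C) [(.cup x, s.length)] s (s ++ [x, x]) := by
    have := (Step.cup (P := triv C) x []).left s
    exact path_single_iff.2 (by simpa [triv] using this)
  have hM : Path (triv C) (b ++ ([(.cap, s.length), (.cup x, s.length)] ++ a)) [x] [x] := by
    refine Path.append (t := s ++ [x, x]) (by simpa using hb.right [x]) ?_
    refine Path.append (t := s ++ [x, x]) (cp.append cq) ?_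
    simpa using ha.right [x]
  have h1 := close_swap x hM
  have cc : Path (triv C) [(.cup x, 0)] [] [x, x] := path_single_iff.2 (Step.cup x [])
  have cd : Path (triv C) [(.cap, 0)] [x, x] [] := path_single_iff.2 (Step.cap x [])
  have f1 : Eqv (triv C) ([(.cup x, 0)] ++ (b ++ [(.cap, s.length)])) b [] (s ++ [x]) := by
    have h2 := (interchange hb cc).symm.append (b := [(.cap, s.length)]) (r := s ++ [x]) (by
      have := (Step.cap (P := triv C) x [x]).left s
      exact path_single_iff.2 (by simpa [triv] using this))
    have h4 : Path (triv C) [(.cup x, 1), (.cap, 0)] [x] [x] :=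
      path_zig.2 ⟨rfl, [], rfl⟩
    have h3 := ((Eqv.base (Base.zig x) h4 (Path.nil _)).shift_left s)
    have h5 := Eqv.prepend hb h3
    have e : 1 + s.length = s.length + 1 := Nat.add_comm _ _
    simp only [shift_cons, shift_nil, List.length_append, List.length_cons, List.length_nil,
      List.append_assoc, List.cons_append, List.nil_append, List.append_nil, Nat.zero_add, e]
      at h2 h5 ⊢
    exact h2.trans h5
  have f2 : Eqv (triv C) ([(.cup x, s.length)] ++ (a ++ [(.cap, 0)])) a (s ++ [x]) [] := by
    have h2 := Eqv.prepend (a := [(.cup x, s.length)]) (s := s ++ [x]) (by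
      have := (Step.cup (P := triv C) x [x]).left s
      exact path_single_iff.2 (by simpa [triv] using this)) (interchange ha cd)
    have h4 : Path (triv C) [(.cup x, 0), (.cap, 1)] [x] [x] :=
      path_zag.2 ⟨rfl, [], rfl⟩
    have h3 := ((Eqv.base (Base.zag x) h4 (Path.nil _)).shift_left s)
    have h5 := h3.append ha
    have e : 1 + s.length = s.length + 1 := Nat.add_comm _ _
    simp only [shift_cons, shift_nil, List.length_append, List.length_cons, List.length_nil,
      List.append_assoc, List.cons_append, List.nil_append, List.append_nil, Nat.zero_add, e]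
      at h2 h5 ⊢
    exact h2.trans h5
  have f3 := Eqv.comp f1 f2
  have e : 0 + (s.length + 1) = s.length + 1 := Nat.zero_add _
  simp only [shift_cons, shift_nil, shift_append, rotA, rotB,
        List.append_assoc, List.cons_append, List.nil_append, List.append_nil] at h1 f3 ⊢
  exact h1.trans f3

/-- **Rotation.** The strands `s2` on the right of a level of a closed diagram can be moved around
infinity to the left of the strands `s1`. -/
theorem rotate {s1 s2 : List C} {b a : Word C} (hb : Path (triv C) b [] (s1 ++ s2))
    (ha : Path (triv C) a (s1 ++ s2) []) :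
    ∃ b' a' : Word C, Path (triv C) b' [] (s2 ++ s1) ∧ Path (triv C) a' (s2 ++ s1) [] ∧
      cr b' = cr b ∧ cr a' = cr a ∧ Eqv (triv C) (b' ++ a') (b ++ a) [] [] := by
  induction s2 using List.reverseRecOn generalizing s1 b a with
  | nil =>
    refine ⟨b, a, by simpa using hb, by simpa using ha, rfl, rfl, ?_⟩
    exact Eqv.refl (hb.append ha)
  | append_singleton s2 x ih =>
    rw [← List.append_assoc] at hb ha
    obtain ⟨b', a', h1, h2, h3, h4, h5⟩ := ih (s1 := x :: s1) (rotB_path hb) (rotA_path ha)
    refine ⟨b', a', by simpa using h1, by simpa using h2, by simp [h3], by simp [h4], ?_⟩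
    exact h5.trans (rot_eqv hb ha)

/-! ### Mirror images -/

/-- Exchange the two kinds of crossings. -/
def Kind.mirror : Kind C → Kind C
  | .cup c => .cup c
  | .cap => .cap
  | .pos => .neg
  | .neg => .pos

/-- The mirror image of a word. -/
def mirror (w : Word C) : Word C := w.map fun l => (l.1.mirror, l.2)

@[simp] theorem mirror_nil : mirror ([] : Word C) = [] := rfl

@[simp] theorem mirror_cons (k : Kind C) (i : ℕ) (w : Word C) :
    mirror ((k, i) :: w) = (k.mirror, i) :: mirror w := rfl

@[simp] theorem mirror_append (u v : Word C) : mirror (u ++ v) = mirror u ++ mirror v := by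
  simp [mirror]

@[simp] theorem mirror_shift (n : ℕ) (w : Word C) : mirror (shift n w) = shift n (mirror w) := by
  simp [mirror, shift]

theorem Kind.mirror_mirror (k : Kind C) : k.mirror.mirror = k := by cases k <;> rfl

@[simp] theorem mirror_mirror (w : Word C) : mirror (mirror w) = w := by
  simp [mirror, Function.comp_def, Kind.mirror_mirror]

theorem Kind.inn_mirror (k : Kind C) : k.mirror.inn = k.inn := by cases k <;> rfl

theorem Kind.out_mirror (k : Kind C) : k.mirror.out = k.out := by cases k <;> rfl

theorem Step.mirror {k : Kind C} {i : ℕ} {s t : List C} (h : Step (triv C) k i s t) :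
    Step (triv C) k.mirror i s t := by
  induction h with
  | cup c s => exact Step.cup c s
  | cap c s => exact Step.cap c s
  | pos a b s => exact Step.neg a b s
  | neg a b s => exact Step.pos a b s
  | there a _ ih => exact Step.there a ih

theorem Path.mirror {w : Word C} {s t : List C} (h : Path (triv C) w s t) :
    Path (triv C) (mirror w) s t := by
  induction h with
  | nil s => exact Path.nil s
  | cons h _ ih => exact Path.cons h.mirror ih

theorem path_pos0 {r : List C} (y z : C) : Path (triv C) [(.pos, 0)] (y :: z :: r) (z :: y :: r) :=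
  path_single_iff.2 (Step.pos y z _)

theorem path_neg0 {r : List C} (y z : C) : Path (triv C) [(.neg, 0)] (y :: z :: r) (z :: y :: r) :=
  path_single_iff.2 (Step.neg y z _)

theorem path_pos1 {r : List C} (w y z : C) :
    Path (triv C) [(.pos, 1)] (w :: y :: z :: r) (w :: z :: y :: r) :=
  path_single_iff.2 (Step.there w (Step.pos y z _))

theorem path_neg1 {r : List C} (w y z : C) :
    Path (triv C) [(.neg, 1)] (w :: y :: z :: r) (w :: z :: y :: r) :=
  path_single_iff.2 (Step.there w (Step.neg y z _))

theorem r3_mirror' (a b c : C) (r : List C) :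
    Eqv (triv C) [(.neg, 0), (.neg, 1), (.neg, 0)] [(.neg, 1), (.neg, 0), (.neg, 1)]
      (a :: b :: c :: r) (c :: b :: a :: r) := by
  have pA : Path (triv C) [(.pos, 0), (.pos, 1), (.pos, 0)] (c :: b :: a :: r)
      (a :: b :: c :: r) := (path_pos0 c b).append ((path_pos1 b c a).append (path_pos0 b a))
  have pB : Path (triv C) [(.pos, 1), (.pos, 0), (.pos, 1)] (c :: b :: a :: r)
      (a :: b :: c :: r) := (path_pos1 c b a).append ((path_pos0 c a).append (path_pos1 a c b))
  have pA' : Path (triv C) [(.neg, 0), (.neg, 1), (.neg, 0)] (a :: b :: c :: r)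
      (c :: b :: a :: r) := (path_neg0 a b).append ((path_neg1 b a c).append (path_neg0 b c))
  have pB' : Path (triv C) [(.neg, 1), (.neg, 0), (.neg, 1)] (a :: b :: c :: r)
      (c :: b :: a :: r) := (path_neg1 a b c).append ((path_neg0 a c).append (path_neg1 c a b))
  have r0 : ∀ (y z : C) (r' : List C), Eqv (triv C) [(.pos, 0), (.neg, 0)] [] (y :: z :: r')
      (y :: z :: r') := fun y z r' =>
    Eqv.base Base.r2PosNeg ((path_pos0 y z).append (path_neg0 z y)) (Path.nil _)
  have r0' : ∀ (y z : C) (r' : List C), Eqv (triv C) [(.neg, 0), (.pos, 0)] [] (y :: z :: r')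
      (y :: z :: r') := fun y z r' =>
    Eqv.base Base.r2NegPos ((path_neg0 y z).append (path_pos0 z y)) (Path.nil _)
  have r1 : ∀ (x y z : C) (r' : List C), Eqv (triv C) [(.pos, 1), (.neg, 1)] []
      (x :: y :: z :: r') (x :: y :: z :: r') := fun x y z r' => (r0 y z r').shift_left [x]
  have r1' : ∀ (x y z : C) (r' : List C), Eqv (triv C) [(.neg, 1), (.pos, 1)] []
      (x :: y :: z :: r') (x :: y :: z :: r') := fun x y z r' => (r0' y z r').shift_left [x]
  have e1 : Eqv (triv C) ([(.pos, 1), (.pos, 0), (.pos, 1)] ++ [(.neg, 1), (.neg, 0), (.neg, 1)])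
      [] (c :: b :: a :: r) (c :: b :: a :: r) := by
    have k1 := Eqv.context ((path_pos1 c b a).append (path_pos0 c a)) (r1 a c b r)
      ((path_neg0 a c).append (path_neg1 c a b))
    have k2 := Eqv.context (path_pos1 c b a) (r0 c a (b :: r)) (path_neg1 c a b)
    exact k1.trans (k2.trans (r1 c b a r))
  have e2 : Eqv (triv C) ([(.neg, 0), (.neg, 1), (.neg, 0)] ++ [(.pos, 0), (.pos, 1), (.pos, 0)])
      [] (a :: b :: c :: r) (a :: b :: c :: r) := by
    have k1 := Eqv.context ((path_neg0 a b).append (path_neg1 b a c)) (r0' b c (a :: r))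
      ((path_pos1 b c a).append (path_pos0 b a))
    have k2 := Eqv.context (path_neg0 a b) (r1' b a c r) (path_pos0 b a)
    exact k1.trans (k2.trans (r0' a b (c :: r)))
  have e3 : Eqv (triv C) [(.pos, 0), (.pos, 1), (.pos, 0)] [(.pos, 1), (.pos, 0), (.pos, 1)]
      (c :: b :: a :: r) (a :: b :: c :: r) := Eqv.base Base.r3 pA pB
  have k1 := Eqv.prepend pA' e1
  have k2 := Eqv.context pA' e3 pB'
  have k3 := e2.append pB'
  exact k1.symm.trans (k2.symm.trans k3)

theorem r3_mirror {s t : List C}
    (h : Path (triv C) [(.neg, 0), (.neg, 1), (.neg, 0)] s t) :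
    Eqv (triv C) [(.neg, 0), (.neg, 1), (.neg, 0)] [(.neg, 1), (.neg, 0), (.neg, 1)] s t := by
  obtain ⟨a, b, c, r, rfl, rfl⟩ := path_r3_left.1 h.mirror
  exact r3_mirror' a b c r

theorem Base.mirror {u v : Word C} (h : Base u v) {s t : List C} (hu : Path (triv C) u s t)
    (hv : Path (triv C) v s t) :
    Eqv (triv C) (MP_131179_gt.mirror u) (MP_131179_gt.mirror v) s t := by
  have hu' := hu.mirror
  have hv' := hv.mirror
  cases h with
  | far k l g =>
    have := Base.far k.mirror l.mirror g
    rw [Kind.inn_mirror, Kind.out_mirror] at this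
    exact Eqv.base this hu' hv'
  | zig c => exact Eqv.base (Base.zig _) hu' hv'
  | zag c => exact Eqv.base (Base.zag _) hu' hv'
  | cupOver c d => exact Eqv.base (Base.cupUnder _ _) hu' hv'
  | cupUnder c d => exact Eqv.base (Base.cupOver _ _) hu' hv'
  | capOver => exact Eqv.base Base.capUnder hu' hv'
  | capUnder => exact Eqv.base Base.capOver hu' hv'
  | r1CupPos c d => exact Eqv.base (Base.r1CupNeg _ _) hu' hv'
  | r1CupNeg c d => exact Eqv.base (Base.r1CupPos _ _) hu' hv'
  | r1CapPos => exact Eqv.base Base.r1CapNeg hu' hv'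
  | r1CapNeg => exact Eqv.base Base.r1CapPos hu' hv'
  | r2PosNeg => exact Eqv.base Base.r2NegPos hu' hv'
  | r2NegPos => exact Eqv.base Base.r2PosNeg hu' hv'
  | r3 => exact r3_mirror hu'

theorem Eqv.mirror {u v : Word C} {s t : List C} (h : Eqv (triv C) u v s t) :
    Eqv (triv C) (MP_131179_gt.mirror u) (MP_131179_gt.mirror v) s t := by
  induction h with
  | refl h => exact Eqv.refl h.mirror
  | symm _ ih => exact ih.symm
  | trans _ _ ih1 ih2 => exact ih1.trans ih2
  | comp _ _ ih1 ih2 =>
    rw [mirror_append, mirror_append]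
    exact Eqv.comp ih1 ih2
  | @move u v i s t hb hu hv =>
    have hne : u ≠ [] := by cases hb <;> simp
    obtain ⟨l, s1, t1, hl, rfl, rfl, hu1⟩ := (path_shift_iff hne).1 hu
    obtain ⟨t2, h3, hv1⟩ := (path_shift_append_iff' hl).1 hv
    obtain rfl := List.append_cancel_left h3
    rw [mirror_shift, mirror_shift, ← hl]
    exact (hb.mirror hu1 hv1).shift_left l

/-- The first strand passes under the next `n` strands. -/
def und (n : ℕ) : Word C := mirror (ovr n)

theorem und_path (x : C) (s : List C) : Path (triv C) (und s.length) (x :: s) (s ++ [x]) :=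
  (ovr_path x s).mirror

theorem und_one : (und 1 : Word C) = [(.neg, 0)] := rfl

/-- **Sliding.** A strand passes under a whole tangle. -/
theorem slide_under (x : C) {w : Word C} {s t : List C} (h : Path (triv C) w s t) :
    Eqv (triv C) (shift 1 w ++ und t.length) (und s.length ++ w) (x :: s) (t ++ [x]) := by
  have h1 := (slide x h.mirror).mirror
  simpa [und] using h1

end Pool.Agent.Lib.MP_131179_gt
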