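import Pool.Agent.Lib.MP_131179_gt.Lab

/-!
# Every link diagram can be oriented
-/

set_option autoImplicit false
set_option linter.unusedSimpArgs false

namespace Pool.Agent.Lib.MP_131179_gt

/-- The palette of orientations: `true` is up, `false` is down. -/
def flip : Palette Bool where
  bar := not
  act := fun x _ => x
  bar_bar := fun x => by simp
  act_bar := fun _ _ => rfl
  act_act_bar := fun _ _ => rfl
  act_self := fun _ => rfl
  act_dist := fun _ _ _ => rfl

/-- Names of the oriented arcs. -/
def arcs : Palette (ℕ × Bool) where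
  bar := fun x => (x.1, !x.2)
  act := fun x _ => x
  bar_bar := fun x => by simp
  act_bar := fun _ _ => rfl
  act_act_bar := fun _ _ => rfl
  act_self := fun _ => rfl
  act_dist := fun _ _ _ => rfl

theorem isHom_arcs_flip : IsHom arcs flip Prod.snd := ⟨fun _ => rfl, fun _ _ => rfl⟩

/-- Each arc that reaches the top reaches it twice, once in each direction. -/
def Matched (s : List (ℕ × Bool)) : Prop := s.Nodup ∧ ∀ x ∈ s, arcs.bar x ∈ s

theorem Matched.perm {s t : List (ℕ × Bool)} (h : Matched s) (hst : s.Perm t) : Matched t :=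
  ⟨hst.nodup h.1, fun x hx => hst.mem_iff.1 (h.2 x (hst.mem_iff.2 hx))⟩

theorem Matched.cons {s : List (ℕ × Bool)} (h : Matched s) :
    ∃ v, Matched ((v, true) :: (v, false) :: s) := by
  obtain ⟨v, hv⟩ : ∃ v : ℕ, v ∉ (s.map Prod.fst).toFinset := Infinite.exists_notMem_finset _
  have hv' : ∀ e, (v, e) ∉ s := by
    intro e he
    apply hv
    simp only [List.mem_toFinset, List.mem_map]
    exact ⟨_, he, rfl⟩
  refine ⟨v, ?_, ?_⟩
  · simp [h.1, hv']
  · intro x hx
    simp only [List.mem_cons] at hx ⊢
    rcases hx with rfl | rfl | hx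
    · right; left; rfl
    · left; rfl
    · right; right; exact h.2 x hx

/-- Renaming the arc `w` into the arc `v`. -/
def ren (v w : ℕ) (e : Bool) (z : ℕ × Bool) : ℕ × Bool := if z.1 = w then (v, xor z.2 e) else z

theorem isHom_ren (v w : ℕ) (e : Bool) : IsHom arcs arcs (ren v w e) := by
  refine ⟨fun x => ?_, fun _ _ => rfl⟩
  obtain ⟨z, d⟩ := x
  by_cases h : z = w
  · simp [ren, arcs, h]
  · simp [ren, arcs, h]

theorem Matched.cap {x y : ℕ × Bool} {s : List (ℕ × Bool)} (h : Matched (x :: y :: s)) :
    ∃ f, IsHom arcs arcs f ∧ f y = arcs.bar (f x) ∧ Matched (s.map f) := by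
  obtain ⟨v, ε⟩ := x
  obtain ⟨w, δ⟩ := y
  by_cases hvw : v = w
  · subst hvw
    refine ⟨id, ⟨fun _ => rfl, fun _ _ => rfl⟩, ?_, ?_⟩
    · have h1 := h.1
      simp only [List.nodup_cons, List.mem_cons, Prod.mk.injEq, true_and, not_or] at h1
      have h2 := h1.1.1
      cases ε <;> cases δ <;> simp_all [arcs]
    · rw [List.map_id]
      have h1 := h.1
      simp only [List.nodup_cons, List.mem_cons, Prod.mk.injEq, true_and, not_or] at h1
      refine ⟨h1.2.2, fun z hz => ?_⟩
      have h3 := h.2 z (by simp [hz])
      simp only [List.mem_cons] at h3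
      rcases h3 with h3 | h3 | h3
      · exfalso
        have h4 : z = (v, !ε) := by
          rw [← arcs.bar_bar z, h3]; rfl
        have h5 : (!ε) = δ := by
          have := h1.1.1
          cases ε <;> cases δ <;> simp_all
        rw [h4, h5] at hz
        exact h1.2.1 hz
      · exfalso
        have h4 : z = (v, !δ) := by
          rw [← arcs.bar_bar z, h3]; rfl
        have h5 : (!δ) = ε := by
          have := h1.1.1
          cases ε <;> cases δ <;> simp_all
        rw [h4, h5] at hz
        exact h1.1.2 hz
      · exact h3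
  · have h1 := h.1
    simp only [List.nodup_cons, List.mem_cons, Prod.mk.injEq, not_or, not_and] at h1
    have hx : (v, !ε) ∈ s := by
      have := h.2 (v, ε) (by simp)
      simp only [arcs, List.mem_cons, Prod.mk.injEq] at this
      rcases this with h2 | h2 | h2
      · simp at h2
      · exact absurd h2.1 hvw
      · exact h2
    have hy : (w, !δ) ∈ s := by
      have := h.2 (w, δ) (by simp)
      simp only [arcs, List.mem_cons, Prod.mk.injEq] at this
      rcases this with h2 | h2 | h2
      · exact absurd h2.1.symm hvw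
      · simp at h2
      · exact h2
    have hv : ∀ e, (v, e) ∈ s → e = !ε := by
      intro e he
      by_contra hne
      have : e = ε := by
        revert hne
        cases e <;> cases ε <;> decide
      rw [this] at he
      exact h1.1.2 he
    have hw : ∀ e, (w, e) ∈ s → e = !δ := by
      intro e he
      by_contra hne
      have : e = δ := by
        revert hne
        cases e <;> cases δ <;> decide
      rw [this] at he
      exact h1.2.1 he
    refine ⟨ren v w (xor δ (!ε)), isHom_ren _ _ _, ?_, ?_, ?_⟩
    · simp [ren, arcs, hvw]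
    · refine h1.2.2.map_on ?_
      intro a ha b hb hab
      obtain ⟨a1, a2⟩ := a
      obtain ⟨b1, b2⟩ := b
      simp only [ren] at hab
      split_ifs at hab with h2 h3 h3
      · subst h2 h3
        simp only [Prod.mk.injEq, true_and, Bool.xor_left_inj] at hab ⊢
        simpa using hab
      · exfalso
        subst h2
        simp only [Prod.mk.injEq] at hab
        obtain ⟨rfl, hab⟩ := hab
        rw [hw _ ha, hv _ hb] at hab
        revert hab
        cases δ <;> cases ε <;> decide
      · exfalso
        subst h3
        simp only [Prod.mk.injEq] at hab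
        obtain ⟨rfl, hab⟩ := hab
        rw [hv _ ha, hw _ hb] at hab
        revert hab
        cases δ <;> cases ε <;> decide
      · exact hab
    · intro z hz
      obtain ⟨z0, hz0, rfl⟩ := List.mem_map.1 hz
      rw [← (isHom_ren _ _ _).bar]
      have h3 := h.2 z0 (by simp [hz0])
      simp only [List.mem_cons] at h3
      rcases h3 with h3 | h3 | h3
      · rw [h3]
        refine List.mem_map.2 ⟨_, hy, ?_⟩
        have e1 : ren v w (xor δ (!ε)) (w, !δ) = (v, xor (!δ) (xor δ (!ε))) := if_pos rfl
        have e2 : ren v w (xor δ (!ε)) (v, ε) = (v, ε) := if_neg hvw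
        rw [e1, e2]
        cases δ <;> cases ε <;> rfl
      · rw [h3]
        refine List.mem_map.2 ⟨_, hx, ?_⟩
        have e1 : ren v w (xor δ (!ε)) (w, δ) = (v, xor δ (xor δ (!ε))) := if_pos rfl
        have e2 : ren v w (xor δ (!ε)) (v, !ε) = (v, !ε) := if_neg hvw
        rw [e1, e2]
        cases δ <;> cases ε <;> rfl
      · exact List.mem_map.2 ⟨_, h3, rfl⟩

theorem orient_step {k : Kind Unit} {i : ℕ} {s t : List Unit} (h : Step (triv Unit) k i s t)
    {w' : Word (ℕ × Bool)} {s' : List (ℕ × Bool)} (hw : Path arcs w' [] s')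
    (hs : s'.length = s.length) (hm : Matched s') :
    ∃ (w'' : Word (ℕ × Bool)) (t' : List (ℕ × Bool)), erase w'' = erase w' ++ [(k, i)] ∧
      Path arcs w'' [] t' ∧ t'.length = t.length ∧ Matched t' := by
  obtain ⟨l, s1, t1, hl, rfl, rfl, h1⟩ := (step_add_iff (i := 0) (n := i)).1 (by simpa using h)
  obtain ⟨l', s1', rfl, hl', hs1'⟩ : ∃ l' s1', s' = l' ++ s1' ∧ l'.length = i ∧
      s1'.length = s1.length := by
    refine ⟨s'.take i, s'.drop i, (List.take_append_drop _ _).symm, ?_, ?_⟩
    · simp [hs, hl]
    · simp [hs, hl]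
  cases h1 with
  | cup c _ =>
    obtain ⟨v, hv⟩ := hm.cons
    refine ⟨w' ++ [(.cup (v, true), i)], l' ++ ((v, true) :: (v, false) :: s1'), ?_, ?_, ?_, ?_⟩
    · simp [erase]
    · refine hw.append (path_single_iff.2 ?_)
      have := (Step.cup (P := arcs) (v, true) s1').left l'
      rw [hl', Nat.zero_add] at this
      exact this
    · simp [hl, hl', hs1']
    · refine hv.perm ?_
      exact (List.perm_middle.trans ((List.perm_middle).cons _)).symm
  | cap c _ =>
    obtain ⟨x, s2, rfl⟩ := List.exists_cons_of_length_pos (l := s1') (by simp [hs1'])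
    obtain ⟨y, s3, rfl⟩ := List.exists_cons_of_length_pos (l := s2) (by
      simp at hs1'; omega)
    have hm' : Matched (x :: y :: (l' ++ s3)) := by
      refine hm.perm ?_
      exact (List.perm_middle.trans ((List.perm_middle).cons _))
    obtain ⟨f, hf, hxy, hmf⟩ := hm'.cap
    refine ⟨wmap f w' ++ [(.cap, i)], (l' ++ s3).map f, ?_, ?_, ?_, hmf⟩
    · simp [erase, wmap_wmap, Function.comp_def]
    · have hw2 := hw.map hf
      simp only [List.map_nil, List.map_append, List.map_cons, hxy] at hw2
      refine hw2.append (path_single_iff.2 ?_)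
      have := (Step.cap (P := arcs) (f x) (s3.map f)).left (l'.map f)
      simpa [hl'] using this
    · simp at hs1'
      simp [hl, hl', hs1']
  | pos a b r =>
    obtain ⟨x, s2, rfl⟩ := List.exists_cons_of_length_pos (l := s1') (by simp [hs1'])
    obtain ⟨y, s3, rfl⟩ := List.exists_cons_of_length_pos (l := s2) (by
      simp at hs1'; omega)
    refine ⟨w' ++ [(.pos, i)], l' ++ (y :: x :: s3), ?_, ?_, ?_, ?_⟩
    · simp [erase]
    · refine hw.append (path_single_iff.2 ?_)
      have := (Step.pos (P := arcs) x y s3).left l'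
      rw [hl', Nat.zero_add] at this
      exact this
    · simp at hs1'
      simp [hl, hl', hs1']
    · exact hm.perm ((List.Perm.swap _ _ _).append_left _)
  | neg a b r =>
    obtain ⟨x, s2, rfl⟩ := List.exists_cons_of_length_pos (l := s1') (by simp [hs1'])
    obtain ⟨y, s3, rfl⟩ := List.exists_cons_of_length_pos (l := s2) (by
      simp at hs1'; omega)
    refine ⟨w' ++ [(.neg, i)], l' ++ (y :: x :: s3), ?_, ?_, ?_, ?_⟩
    · simp [erase]
    · refine hw.append (path_single_iff.2 ?_)
      have := (Step.neg (P := arcs) x y s3).left l'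
      rw [hl', Nat.zero_add] at this
      exact this
    · simp at hs1'
      simp [hl, hl', hs1']
    · exact hm.perm ((List.Perm.swap _ _ _).append_left _)

theorem orient_aux {w : Word Unit} : ∀ {s : List Unit}, Path (triv Unit) w [] s →
    ∃ (w' : Word (ℕ × Bool)) (s' : List (ℕ × Bool)), erase w' = w ∧ Path arcs w' [] s' ∧
      s'.length = s.length ∧ Matched s' := by
  induction w using List.reverseRecOn with
  | nil =>
    intro s h
    cases h
    exact ⟨[], [], rfl, Path.nil _, rfl, List.nodup_nil, by simp⟩
  | append_singleton w l ih =>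
    obtain ⟨k, i⟩ := l
    intro s h
    obtain ⟨t, h1, h2⟩ := path_append_iff.1 h
    obtain ⟨w', s', e1, e2, e3, e4⟩ := ih h1
    obtain ⟨w'', t', f1, f2, f3, f4⟩ := orient_step (path_single_iff.1 h2) e2 e3 e4
    exact ⟨w'', t', by rw [f1, e1], f2, f3, f4⟩

/-- **Every link diagram can be oriented.** -/
theorem exists_orientation {w : Word Unit} (h : Path (triv Unit) w [] []) :
    ∃ o : Word Bool, erase o = w ∧ Path flip o [] [] := by
  obtain ⟨w', s', h1, h2, h3, -⟩ := orient_aux h
  have hs : s' = [] := List.length_eq_zero_iff.1 h3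
  subst hs
  exact ⟨wmap Prod.snd w', by rw [erase_wmap, h1], h2.map isHom_arcs_flip⟩

end Pool.Agent.Lib.MP_131179_gt
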