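import Pool.Agent.Lib.MP_131179_gt.ClaspPrime
import Pool.Agent.Lib.MP_131179_gt.Iso
import Pool.Agent.Lib.MP_131179_gt.Orient
import Pool.Agent.Lib.MP_131179_gt.Hol

/-!
# Beads

`bead`: if the closure of `s` is unknotted, then `s` can be cancelled in a connected sum.
-/

set_option autoImplicit false
set_option linter.unusedSimpArgs false

namespace Pool.Agent.Lib.MP_131179_gt

theorem closure_path {C : Type} {P : Palette C} {x : C} {t : Word C} (h : Path P t [x] [x]) :
    Path P (closure x t) [] [] := closure_path' h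

/-! ### Rotation of a tangle with one strand -/

/-- A word with one strand at the bottom and one strand at the top. -/
abbrev bd_Tan (t : Word Unit) : Prop := Path (triv Unit) t [()] [()]

/-- The rotated tangle. -/
def bd_rotL (t : Word Unit) : Word Unit := (.cup (), 0) :: (shift 1 t ++ [(.cap, 1)])

/-- The tangle rotated in the other direction. -/
def bd_rotR (t : Word Unit) : Word Unit := (.cup (), 1) :: (shift 1 t ++ [(.cap, 0)])

theorem bd_pcup (r : List Unit) : Path (triv Unit) [(.cup (), 0)] r (() :: () :: r) :=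
  path_single_iff.2 (Step.cup () r)

theorem bd_pcap (r : List Unit) : Path (triv Unit) [(.cap, 0)] (() :: () :: r) r :=
  path_single_iff.2 (Step.cap () r)

theorem bd_pcup1 (r : List Unit) : Path (triv Unit) [(.cup (), 1)] (() :: r) (() :: () :: () :: r) :=
  path_single_iff.2 (Step.there () (Step.cup () r))

theorem bd_pcap1 (r : List Unit) : Path (triv Unit) [(.cap, 1)] (() :: () :: () :: r) (() :: r) :=
  path_single_iff.2 (Step.there () (Step.cap () r))

theorem bd_pcup2 (r : List Unit) :
    Path (triv Unit) [(.cup (), 2)] (() :: () :: r) (() :: () :: () :: () :: r) :=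
  path_single_iff.2 (Step.there () (Step.there () (Step.cup () r)))

theorem bd_pcap2 (r : List Unit) :
    Path (triv Unit) [(.cap, 2)] (() :: () :: () :: () :: r) (() :: () :: r) :=
  path_single_iff.2 (Step.there () (Step.there () (Step.cap () r)))

theorem bd_Tan.p0 {t : Word Unit} (h : bd_Tan t) (r : List Unit) :
    Path (triv Unit) t (() :: r) (() :: r) := h.right r

theorem bd_Tan.p1 {t : Word Unit} (h : bd_Tan t) (r : List Unit) :
    Path (triv Unit) (shift 1 t) (() :: () :: r) (() :: () :: r) := (h.right r).left [()]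

theorem bd_Tan.p2 {t : Word Unit} (h : bd_Tan t) (r : List Unit) :
    Path (triv Unit) (shift 2 t) (() :: () :: () :: r) (() :: () :: () :: r) :=
  (h.right r).left [(), ()]

theorem bd_Tan.rotL {t : Word Unit} (h : bd_Tan t) : bd_Tan (bd_rotL t) :=
  (bd_pcup [()]).append ((h.p1 [()]).append (bd_pcap1 []))

theorem bd_Tan.rotR {t : Word Unit} (h : bd_Tan t) : bd_Tan (bd_rotR t) :=
  (bd_pcup1 []).append ((h.p1 [()]).append (bd_pcap [()]))

section slides

variable {t : Word Unit} (h : bd_Tan t)

include h

theorem bd_Tan.pos_of_right (r : List Unit) :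
    Eqv (triv Unit) (shift 1 t ++ [(.pos, 0)]) ([(.pos, 0)] ++ t) (() :: () :: r)
      (() :: () :: r) := (slide () h).right r

theorem bd_Tan.neg_of_right (r : List Unit) :
    Eqv (triv Unit) (shift 1 t ++ [(.neg, 0)]) ([(.neg, 0)] ++ t) (() :: () :: r)
      (() :: () :: r) := (slide_under () h).right r

theorem bd_Tan.neg_of_left (r : List Unit) :
    Eqv (triv Unit) (t ++ [(.neg, 0)]) ([(.neg, 0)] ++ shift 1 t) (() :: () :: r)
      (() :: () :: r) := by
  have e0 : Eqv (triv Unit) [(.neg, 0), (.pos, 0)] [] (() :: () :: r) (() :: () :: r) :=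
    Eqv.base Base.r2NegPos ((path_neg0 () ()).append (path_pos0 () ())) (Path.nil _)
  have e1 : Eqv (triv Unit) [(.pos, 0), (.neg, 0)] [] (() :: () :: r) (() :: () :: r) :=
    Eqv.base Base.r2PosNeg ((path_pos0 () ()).append (path_neg0 () ())) (Path.nil _)
  have k1 := Eqv.context (path_neg0 () ()) (h.pos_of_right r) (path_neg0 () ())
  have k2 := Eqv.prepend ((path_neg0 (r := r) () ()).append (h.p1 r)) e1
  have k3 := e0.append ((h.p0 (() :: r)).append (path_neg0 () ()))
  simp only [List.append_assoc, List.cons_append, List.nil_append, List.append_nil] at k1 k2 k3 ⊢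
  exact (k2.symm.trans (k1.trans k3)).symm

theorem bd_Tan.pos_of_left (r : List Unit) :
    Eqv (triv Unit) (t ++ [(.pos, 0)]) ([(.pos, 0)] ++ shift 1 t) (() :: () :: r)
      (() :: () :: r) := by
  have e0 : Eqv (triv Unit) [(.pos, 0), (.neg, 0)] [] (() :: () :: r) (() :: () :: r) :=
    Eqv.base Base.r2PosNeg ((path_pos0 () ()).append (path_neg0 () ())) (Path.nil _)
  have e1 : Eqv (triv Unit) [(.neg, 0), (.pos, 0)] [] (() :: () :: r) (() :: () :: r) :=
    Eqv.base Base.r2NegPos ((path_neg0 () ()).append (path_pos0 () ())) (Path.nil _)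
  have k1 := Eqv.context (path_pos0 () ()) (h.neg_of_right r) (path_pos0 () ())
  have k2 := Eqv.prepend ((path_pos0 (r := r) () ()).append (h.p1 r)) e1
  have k3 := e0.append ((h.p0 (() :: r)).append (path_pos0 () ()))
  simp only [List.append_assoc, List.cons_append, List.nil_append, List.append_nil] at k1 k2 k3 ⊢
  exact (k2.symm.trans (k1.trans k3)).symm

/-- The two rotations agree. -/
theorem bd_Tan.rotL_rotR : Eqv (triv Unit) (MP_131179_gt.bd_rotL t) (MP_131179_gt.bd_rotR t) [()] [()] := by
  -- a cap with a kink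
  have a1 : Eqv (triv Unit) [(.cap, 1)] [(.neg, 1), (.cap, 1)] [(), (), ()] [()] :=
    ((Eqv.base Base.r1CapNeg ((path_neg0 () ()).append (bd_pcap [])) (bd_pcap [])).shift_left
      [()]).symm
  have k1 := Eqv.prepend ((bd_pcup [()]).append (h.p1 [()])) a1
  have a2 := (h.neg_of_left []).shift_left [()]
  have k2 := Eqv.context (bd_pcup [()]) a2 (bd_pcap1 [])
  have a3 : Eqv (triv Unit) [(.cup (), 1), (.pos, 0)] [(.cup (), 0), (.neg, 1)] [()]
      [(), (), ()] :=
    Eqv.base (Base.cupOver () ()) ((bd_pcup1 []).append (path_pos0 () ()))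
      ((bd_pcup [()]).append (path_neg1 () () ()))
  have k3 := a3.append ((h.p2 []).append (bd_pcap1 []))
  have a4 : Eqv (triv Unit) ([(.pos, 0)] ++ shift 2 t) (shift 2 t ++ [(.pos, 0)])
      [(), (), ()] [(), (), ()] := interchange (path_pos0 (r := []) () ()) h
  have k4 := Eqv.context (bd_pcup1 []) a4 (bd_pcap1 [])
  have a5 : Eqv (triv Unit) [(.pos, 0), (.cap, 1)] [(.neg, 1), (.cap, 0)] [(), (), ()] [()] :=
    Eqv.base Base.capOver ((path_pos0 () ()).append (bd_pcap1 []))
      ((path_neg1 () () ()).append (bd_pcap [()]))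
  have k5 := Eqv.prepend ((bd_pcup1 []).append (h.p2 [])) a5
  have a6 := (h.neg_of_right []).shift_left [()]
  have k6 := Eqv.context (bd_pcup1 []) a6 (bd_pcap [()])
  have a7 : Eqv (triv Unit) [(.cup (), 1), (.neg, 1)] [(.cup (), 1)] [()] [(), (), ()] :=
    (Eqv.base (Base.r1CupNeg () ()) ((bd_pcup []).append (path_neg0 () ())) (bd_pcup [])).shift_left
      [()]
  have k7 := a7.append ((h.p1 [()]).append (bd_pcap [()]))
  simp only [shift_cons, shift_nil, shift_append, shift_shift, List.length_cons, List.length_nil,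
    List.append_assoc, List.cons_append, List.nil_append, List.append_nil, Nat.zero_add,
    Nat.reduceAdd] at k1 k2 k3 k4 k5 k6 k7
  rw [MP_131179_gt.bd_rotL, MP_131179_gt.bd_rotR]
  exact k1.trans (k2.trans (k3.symm.trans (k4.trans (k5.trans (k6.trans k7)))))

theorem bd_Tan.cup_rotR (r : List Unit) :
    Eqv (triv Unit) ([(.cup (), 0)] ++ shift 1 (MP_131179_gt.bd_rotR t)) ([(.cup (), 0)] ++ t)
      r (() :: () :: r) := by
  have a1 : Eqv (triv Unit) [(.cup (), 0), (.cup (), 2)] [(.cup (), 0), (.cup (), 0)] r
      (() :: () :: () :: () :: r) :=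
    Eqv.base (Base.far (.cup ()) (.cup ()) 0) ((bd_pcup r).append (bd_pcup2 r))
      ((bd_pcup r).append (bd_pcup _))
  have k1 := a1.append ((h.p2 (() :: r)).append (bd_pcap1 (() :: r)))
  have a2 : Eqv (triv Unit) ([(.cup (), 0)] ++ shift 2 t) (t ++ [(.cup (), 0)]) (() :: () :: r)
      (() :: () :: () :: () :: r) := by
    have := (interchange (bd_pcup []) h).right (() :: r)
    simpa using this
  have k2 := Eqv.context (bd_pcup r) a2 (bd_pcap1 (() :: r))
  have a3 : Eqv (triv Unit) [(.cup (), 0), (.cap, 1)] [] (() :: () :: r) (() :: () :: r) :=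
    Eqv.base (Base.zag ()) ((bd_pcup _).append (bd_pcap1 _)) (Path.nil _)
  have k3 := Eqv.prepend ((bd_pcup r).append (h.p0 (() :: r))) a3
  simp only [MP_131179_gt.bd_rotR, shift_cons, shift_nil, shift_append, shift_shift,
    List.append_assoc, List.cons_append, List.nil_append, List.append_nil, Nat.zero_add,
    Nat.reduceAdd] at k1 k2 k3 ⊢
  exact k1.trans (k2.trans k3)

theorem bd_Tan.cup_rotL (r : List Unit) :
    Eqv (triv Unit) ([(.cup (), 0)] ++ MP_131179_gt.bd_rotL t) ([(.cup (), 0)] ++ shift 1 t)
      r (() :: () :: r) := by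
  have a1 : Eqv (triv Unit) [(.cup (), 0), (.cup (), 2)] [(.cup (), 0), (.cup (), 0)] r
      (() :: () :: () :: () :: r) :=
    Eqv.base (Base.far (.cup ()) (.cup ()) 0) ((bd_pcup r).append (bd_pcup2 r))
      ((bd_pcup r).append (bd_pcup _))
  have k1 := a1.append ((h.p1 (() :: () :: r)).append (bd_pcap1 (() :: r)))
  have a2 : Eqv (triv Unit) (shift 1 t ++ [(.cup (), 2)]) ([(.cup (), 2)] ++ shift 1 t)
      (() :: () :: r) (() :: () :: () :: () :: r) := by
    have := (interchange (h.p1 []) (bd_pcup [])).right r
    simpa using this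
  have k2 := Eqv.context (bd_pcup r) a2 (bd_pcap1 (() :: r))
  have a3 : Eqv (triv Unit) [(.cup (), 2), (.cap, 1)] [] (() :: () :: r) (() :: () :: r) :=
    (Eqv.base (Base.zig ()) ((bd_pcup1 r).append (bd_pcap (() :: r))) (Path.nil _)).shift_left [()]
  have k3 := Eqv.prepend ((bd_pcup r).append (h.p1 r)) a3
  simp only [MP_131179_gt.bd_rotL, shift_cons, shift_nil, shift_append, shift_shift,
    List.append_assoc, List.cons_append, List.nil_append, List.append_nil, Nat.zero_add,
    Nat.reduceAdd] at k1 k2 k3 ⊢
  exact k1.symm.trans (k2.symm.trans k3)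

theorem bd_Tan.cap_rotL (r : List Unit) :
    Eqv (triv Unit) (shift 1 (MP_131179_gt.bd_rotL t) ++ [(.cap, 0)]) (t ++ [(.cap, 0)])
      (() :: () :: r) r := by
  have a1 : Eqv (triv Unit) [(.cap, 0), (.cap, 0)] [(.cap, 2), (.cap, 0)]
      (() :: () :: () :: () :: r) r :=
    Eqv.base (Base.far .cap .cap 0) ((bd_pcap _).append (bd_pcap r)) ((bd_pcap2 r).append (bd_pcap r))
  have k1 := Eqv.prepend ((bd_pcup1 (() :: r)).append (h.p2 (() :: r))) a1
  have a2 : Eqv (triv Unit) ([(.cap, 0)] ++ t) (shift 2 t ++ [(.cap, 0)])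
      (() :: () :: () :: () :: r) (() :: () :: r) := by
    have := (interchange (bd_pcap []) h).right (() :: r)
    simpa using this
  have k2 := Eqv.context (bd_pcup1 (() :: r)) a2 (bd_pcap r)
  have a3 : Eqv (triv Unit) [(.cup (), 1), (.cap, 0)] [] (() :: () :: r) (() :: () :: r) :=
    Eqv.base (Base.zig ()) ((bd_pcup1 _).append (bd_pcap _)) (Path.nil _)
  have k3 := a3.append ((h.p0 (() :: r)).append (bd_pcap r))
  simp only [MP_131179_gt.bd_rotL, shift_cons, shift_nil, shift_append, shift_shift,
    List.append_assoc, List.cons_append, List.nil_append, List.append_nil, Nat.zero_add,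
    Nat.reduceAdd] at k1 k2 k3 ⊢
  exact k1.symm.trans (k2.symm.trans k3)

theorem bd_Tan.cap_rotR (r : List Unit) :
    Eqv (triv Unit) (MP_131179_gt.bd_rotR t ++ [(.cap, 0)]) (shift 1 t ++ [(.cap, 0)])
      (() :: () :: r) r := by
  have a1 : Eqv (triv Unit) [(.cap, 0), (.cap, 0)] [(.cap, 2), (.cap, 0)]
      (() :: () :: () :: () :: r) r :=
    Eqv.base (Base.far .cap .cap 0) ((bd_pcap _).append (bd_pcap r)) ((bd_pcap2 r).append (bd_pcap r))
  have k1 := Eqv.prepend ((bd_pcup1 (() :: r)).append (h.p1 (() :: () :: r))) a1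
  have a2 : Eqv (triv Unit) (shift 1 t ++ [(.cap, 2)]) ([(.cap, 2)] ++ shift 1 t)
      (() :: () :: () :: () :: r) (() :: () :: r) := by
    have := (interchange (h.p1 []) (bd_pcap [])).right r
    simpa using this
  have k2 := Eqv.context (bd_pcup1 (() :: r)) a2 (bd_pcap r)
  have a3 : Eqv (triv Unit) [(.cup (), 1), (.cap, 2)] [] (() :: () :: r) (() :: () :: r) :=
    (Eqv.base (Base.zag ()) ((bd_pcup (() :: r)).append (bd_pcap1 r)) (Path.nil _)).shift_left [()]
  have k3 := a3.append ((h.p1 r).append (bd_pcap r))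
  simp only [MP_131179_gt.bd_rotR, shift_cons, shift_nil, shift_append, shift_shift,
    List.append_assoc, List.cons_append, List.nil_append, List.append_nil, Nat.zero_add,
    Nat.reduceAdd] at k1 k2 k3 ⊢
  exact k1.trans (k2.trans k3)

/-- A tangle slides through a minimum, from the right to the left. -/
theorem bd_Tan.cup_right (r : List Unit) :
    Eqv (triv Unit) ([(.cup (), 0)] ++ shift 1 (MP_131179_gt.bd_rotL t)) ([(.cup (), 0)] ++ t)
      r (() :: () :: r) :=
  (Eqv.prepend (bd_pcup r) ((h.rotL_rotR.right r).shift_left [()])).trans (h.cup_rotR r)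

/-- A tangle slides through a maximum, from the left to the right. -/
theorem bd_Tan.cap_left (r : List Unit) :
    Eqv (triv Unit) (MP_131179_gt.bd_rotL t ++ [(.cap, 0)]) (shift 1 t ++ [(.cap, 0)])
      (() :: () :: r) r :=
  ((h.rotL_rotR.right (() :: r)).append (bd_pcap r)).trans (h.cap_rotR r)

end slides

theorem closure_comm {t s : Word Unit} (ht : Path (triv Unit) t [()] [()])
    (hs : Path (triv Unit) s [()] [()]) :
    Eqv (triv Unit) (closure () (t ++ s)) (closure () (s ++ t)) [] [] := by
  have k1 := Eqv.prepend ((bd_pcup []).append (bd_Tan.p0 ht [()])) (bd_Tan.cap_rotL hs []).symm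
  have a2 : Eqv (triv Unit) (t ++ shift 1 (bd_rotL s)) (shift 1 (bd_rotL s) ++ t) [(), ()] [(), ()] :=
    interchange ht (bd_Tan.rotL hs)
  have k2 := Eqv.context (bd_pcup []) a2 (bd_pcap [])
  have k3 := (bd_Tan.cup_right hs []).append ((bd_Tan.p0 ht [()]).append (bd_pcap []))
  simp only [closure, List.append_assoc, List.cons_append, List.nil_append, List.append_nil]
    at k1 k2 k3 ⊢
  exact k1.trans (k2.trans k3)

theorem bd_closure_rotL {t : Word Unit} (ht : bd_Tan t) :
    Eqv (triv Unit) (closure () (bd_rotL t)) (closure () t) [] [] := by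
  have k1 := (bd_Tan.cup_rotL ht []).append (bd_pcap [])
  have k2 := close_swap () ht
  simp only [closure, List.append_assoc, List.cons_append, List.nil_append, List.append_nil]
    at k1 k2 ⊢
  exact k1.trans k2

/-! ### Inserting a bead -/

/-- The bead: the tangle, or the rotated tangle, according to the direction of the strand. -/
def bd_bd (t : Word Unit) (δ : Bool) : Word Unit := if δ then t else bd_rotL t

theorem bd_Tan.bd {t : Word Unit} (h : bd_Tan t) (δ : Bool) : bd_Tan (bd_bd t δ) := by
  cases δ
  · exact h.rotL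
  · exact h

/-- The diagram with a bead at position `n` between `u` and `v` is equivalent to `w0`. -/
def bd_Good (t w0 : Word Unit) (u : Word Bool) (n : ℕ) (δ : Bool) (v : Word Bool) : Prop :=
  Eqv (triv Unit) (erase u ++ (shift n (bd_bd t δ) ++ erase v)) w0 [] []

theorem bd_erase_path {u : Word Bool} {s t : List Bool} (h : Path flip u s t) :
    Path (triv Unit) (erase u) (s.map fun _ => ()) (t.map fun _ => ()) := h.map (isHom_unit _)

theorem bd_good_iff {t w0 : Word Unit} {u v : Word Bool} {k : Kind Bool} {i n n' : ℕ} {δ δ' : Bool}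
    {s s' : List Bool} (hu : Path flip u [] s) (hv : Path flip v s' [])
    (he : Eqv (triv Unit) (shift n (bd_bd t δ) ++ [(k.map fun _ => (), i)])
      ([(k.map fun _ => (), i)] ++ shift n' (bd_bd t δ')) (s.map fun _ => ()) (s'.map fun _ => ())) :
    bd_Good t w0 u n δ ((k, i) :: v) ↔ bd_Good t w0 (u ++ [(k, i)]) n' δ' v := by
  have hk := Eqv.context (bd_erase_path hu) he (bd_erase_path hv)
  have e1 : erase u ++ (shift n (bd_bd t δ) ++ [(k.map fun _ => (), i)] ++ erase v) =
      erase u ++ (shift n (bd_bd t δ) ++ erase ((k, i) :: v)) := by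
    simp [erase]
  have e2 : erase u ++ ([(k.map fun _ => (), i)] ++ shift n' (bd_bd t δ') ++ erase v) =
      erase (u ++ [(k, i)]) ++ (shift n' (bd_bd t δ') ++ erase v) := by
    simp [erase]
  rw [e1, e2] at hk
  exact ⟨fun h => hk.symm.trans h, fun h => hk.trans h⟩

open Classical in
/-- The level `s` between `u` and `v`, each strand coloured by the link which the bead creates. -/
noncomputable def bd_colr (t w0 : Word Unit) (u v : Word Bool) : ℕ → List Bool → List (Bool × Bool)
  | _, [] => []
  | n, δ :: r => (δ, decide (bd_Good t w0 u n δ v)) :: bd_colr t w0 u v (n + 1) r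

theorem bd_colr_append (t w0 : Word Unit) (u v : Word Bool) (n : ℕ) (a b : List Bool) :
    bd_colr t w0 u v n (a ++ b) = bd_colr t w0 u v n a ++ bd_colr t w0 u v (n + a.length) b := by
  induction a generalizing n with
  | nil => rfl
  | cons x a ih =>
    simp only [List.cons_append, bd_colr, ih, List.length_cons]
    rw [Nat.add_right_comm, Nat.add_assoc]

theorem bd_colr_length (t w0 : Word Unit) (u v : Word Bool) (n : ℕ) (a : List Bool) :
    (bd_colr t w0 u v n a).length = a.length := by
  induction a generalizing n with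
  | nil => rfl
  | cons x a ih => simp [bd_colr, ih]

theorem bd_colr_congr {t w0 : Word Unit} {u v u' v' : Word Bool} {n n' : ℕ} {a : List Bool}
    (h : ∀ l δ r, a = l ++ δ :: r →
      (bd_Good t w0 u (n + l.length) δ v ↔ bd_Good t w0 u' (n' + l.length) δ v')) :
    bd_colr t w0 u v n a = bd_colr t w0 u' v' n' a := by
  induction a generalizing n n' with
  | nil => rfl
  | cons x a ih =>
    have h0 := h [] x a rfl
    simp only [List.length_nil, Nat.add_zero] at h0
    simp only [bd_colr]
    refine congrArg₂ List.cons (congrArg (Prod.mk x) (decide_eq_decide.2 h0)) ?_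
    refine ih fun l δ r hl => ?_
    have := h (x :: l) δ r (by rw [hl]; rfl)
    rw [List.length_cons] at this
    rw [Nat.add_right_comm n, Nat.add_right_comm n']
    exact this

theorem bd_colr_mem {t w0 : Word Unit} {u v : Word Bool} {l r : List Bool} {δ : Bool} {b : Bool}
    (h : ∀ x ∈ bd_colr t w0 u v 0 (l ++ δ :: r), x.2 = b) :
    (bd_Good t w0 u l.length δ v ↔ b = true) := by
  classical
  have := h (δ, decide (bd_Good t w0 u l.length δ v)) (by
    rw [bd_colr_append]
    refine List.mem_append.2 (Or.inr ?_)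
    simp only [bd_colr, Nat.zero_add]
    exact List.mem_cons_self)
  simp only at this
  rw [← this, decide_eq_true_iff]

/-- A bead slides along the strands. -/
theorem bd_colr_step {t w0 : Word Unit} (ht : bd_Tan t) {u v : Word Bool} {k : Kind Bool} {i : ℕ}
    {s s' : List Bool} (hu : Path flip u [] s) (hk : Step flip k i s s')
    (hv : Path flip v s' []) :
    ∃ k', k'.map Prod.fst = k ∧ Step (flip.prod (triv Bool)) k' i
      (bd_colr t w0 u ((k, i) :: v) 0 s) (bd_colr t w0 (u ++ [(k, i)]) v 0 s') := by
  classical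
  obtain ⟨l, s1, t1, hl, rfl, rfl, h1⟩ := (step_add_iff (i := 0) (n := i)).1 (by simpa using hk)
  obtain ⟨a, b, r, ha, hb, rfl, rfl, hab⟩ := step_zero_append h1
  have hk0 : Step flip k 0 a b := by simpa using hab []
  have hku : Step (triv Unit) (k.map fun _ => ()) 0 (a.map fun _ => ()) (b.map fun _ => ()) :=
    hk0.map (isHom_unit _)
  have hki : Step (triv Unit) (k.map fun _ => ()) i ((l ++ a).map fun _ => ())
      ((l ++ b).map fun _ => ()) := by
    have := hku.left (l.map fun _ => ())
    simpa [hl] using this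
  -- strands on the left
  have hL : bd_colr t w0 u ((k, i) :: v) 0 l = bd_colr t w0 (u ++ [(k, i)]) v 0 l := by
    refine bd_colr_congr fun l1 δ r1 hl1 => ?_
    refine bd_good_iff hu hv ?_
    have hi : i = (r1.length) + (l1.map fun _ => ()).length + 1 := by
      rw [← hl, hl1]
      simp only [List.length_append, List.length_cons, List.length_map]
      omega
    have hB : Path (triv Unit) (shift (0 + l1.length) (bd_bd t δ)) ((l1 ++ [δ]).map fun _ => ())
        ((l1 ++ [δ]).map fun _ => ()) := by
      have := (ht.bd δ).left (l1.map fun _ => ())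
      simpa using this
    have hK : Path (triv Unit) [(k.map fun _ => (), r1.length)]
        ((r1 ++ (a ++ r)).map fun _ => ()) ((r1 ++ (b ++ r)).map fun _ => ()) := by
      refine path_single_iff.2 ?_
      have := (hku.right (r.map fun _ => ())).left (r1.map fun _ => ())
      simpa using this
    have e := interchange hB hK
    refine e.cast ?_ ?_ ?_ ?_
    · simp only [shift_cons, shift_nil, List.length_map, List.length_append, List.length_cons,
        List.length_nil, hi]
      rw [Nat.add_assoc]
    · simp only [shift_cons, shift_nil, List.length_map, List.length_append, List.length_cons,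
        List.length_nil, hi]
      rw [Nat.add_assoc]
    · rw [hl1]; simp
    · rw [hl1]; simp
  -- strands on the right
  have hR : bd_colr t w0 u ((k, i) :: v) (i + a.length) r =
      bd_colr t w0 (u ++ [(k, i)]) v (i + b.length) r := by
    refine bd_colr_congr fun l1 δ r1 hl1 => ?_
    refine bd_good_iff hu hv ?_
    have hB : Path (triv Unit) (shift l1.length (bd_bd t δ)) (r.map fun _ => ())
        (r.map fun _ => ()) := by
      have := ((ht.bd δ).right (r1.map fun _ => ())).left (l1.map fun _ => ())
      rw [hl1]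
      simpa using this
    have e := (interchange (path_single_iff.2 hki) hB).symm
    refine e.cast ?_ ?_ ?_ ?_
    · simp only [shift_shift, List.length_map, List.length_append, hl]
      rw [Nat.add_comm l1.length]
    · simp only [shift_shift, List.length_map, List.length_append, hl]
      rw [Nat.add_comm l1.length]
    · simp [Nat.add_assoc]
    · simp [Nat.add_assoc]
  -- strands of the letter
  have hctx : ∀ {δ δ' : Bool} {m m' : ℕ},
      Eqv (triv Unit) (shift m (bd_bd t δ) ++ [(k.map fun _ => (), 0)])
        ([(k.map fun _ => (), 0)] ++ shift m' (bd_bd t δ')) ((a ++ r).map fun _ => ())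
        ((b ++ r).map fun _ => ()) →
      (bd_Good t w0 u (i + m) δ ((k, i) :: v) ↔ bd_Good t w0 (u ++ [(k, i)]) (i + m') δ' v) := by
    intro δ δ' m m' e
    refine bd_good_iff hu hv ?_
    have e1 := e.shift_left (l.map fun _ => ())
    refine e1.cast ?_ ?_ ?_ ?_
    · simp only [shift_append, shift_shift, shift_cons, shift_nil, List.length_map, hl,
        Nat.zero_add]
      rw [Nat.add_comm i]
    · simp only [shift_append, shift_shift, shift_cons, shift_nil, List.length_map, hl,
        Nat.zero_add]
      rw [Nat.add_comm i]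
    · simp
    · simp
  have hfin : ∀ k', k'.map Prod.fst = k →
      Step (flip.prod (triv Bool)) k' 0 (bd_colr t w0 u ((k, i) :: v) i a)
        (bd_colr t w0 (u ++ [(k, i)]) v i b) →
      ∃ k', k'.map Prod.fst = k ∧ Step (flip.prod (triv Bool)) k' i
      (bd_colr t w0 u ((k, i) :: v) 0 (l ++ (a ++ r)))
        (bd_colr t w0 (u ++ [(k, i)]) v 0 (l ++ (b ++ r))) := by
    intro k' hk' hstep
    refine ⟨k', hk', ?_⟩
    rw [bd_colr_append, bd_colr_append, bd_colr_append, bd_colr_append, Nat.zero_add, hl, hR, hL]
    have := (hstep.right (bd_colr t w0 (u ++ [(k, i)]) v (i + b.length) r)).left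
      (bd_colr t w0 (u ++ [(k, i)]) v 0 l)
    rw [bd_colr_length, hl, Nat.zero_add] at this
    exact this
  clear hL hR hki
  cases hk0 with
  | cup c _ =>
    obtain rfl : a = [] := by simpa [Kind.inn] using ha
    have h0 : bd_Good t w0 (u ++ [(.cup c, i)]) i c v ↔
        bd_Good t w0 (u ++ [(.cup c, i)]) (i + 1) (flip.bar c) v := by
      have key : ∀ {X Y : Word Unit} {m m' : ℕ},
          Eqv (triv Unit) ([(.cup (), 0)] ++ shift m X) ([(.cup (), 0)] ++ shift m' Y)
            (r.map fun _ => ()) (() :: () :: (r.map fun _ => ())) →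
          Eqv (triv Unit) (erase (u ++ [(.cup c, i)]) ++ (shift (i + m) X ++ erase v))
            (erase (u ++ [(.cup c, i)]) ++ (shift (i + m') Y ++ erase v)) [] [] := by
        intro X Y m m' e
        have e1 := e.shift_left (l.map fun _ => ())
        have hu' := bd_erase_path hu
        have hv' := bd_erase_path hv
        simp only [List.nil_append, List.map_append, List.map_nil] at hu' hv'
        have e2 := Eqv.context hu' e1 hv'
        refine e2.cast ?_ ?_ rfl rfl
        · simp only [erase, wmap_append, wmap_cons, wmap_nil, Kind.map_cup, shift_append,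
            shift_shift, shift_cons, shift_nil, List.length_map, hl, Nat.zero_add,
            List.append_assoc, List.cons_append, List.nil_append]
          rw [Nat.add_comm i]
        · simp only [erase, wmap_append, wmap_cons, wmap_nil, Kind.map_cup, shift_append,
            shift_shift, shift_cons, shift_nil, List.length_map, hl, Nat.zero_add,
            List.append_assoc, List.cons_append, List.nil_append]
          rw [Nat.add_comm i]
      have e0 : Eqv (triv Unit) (erase (u ++ [(.cup c, i)]) ++ (shift i (bd_bd t c) ++ erase v))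
          (erase (u ++ [(.cup c, i)]) ++ (shift (i + 1) (bd_bd t (flip.bar c)) ++ erase v)) [] [] := by
        cases c
        · have := key (X := bd_rotL t) (Y := t) (m := 0) (m' := 1) (by
            simpa using bd_Tan.cup_rotL ht (r.map fun _ => ()))
          exact this
        · have := key (X := t) (Y := bd_rotL t) (m := 0) (m' := 1) (by
            simpa using (bd_Tan.cup_right ht (r.map fun _ => ())).symm)
          exact this
      exact ⟨fun h => e0.symm.trans h, fun h => e0.trans h⟩
    refine hfin (.cup (c, decide (bd_Good t w0 (u ++ [(.cup c, i)]) i c v))) rfl ?_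
    simp only [bd_colr]
    rw [show decide (bd_Good t w0 (u ++ [(.cup c, i)]) (i + 1) (flip.bar c) v) =
      decide (bd_Good t w0 (u ++ [(.cup c, i)]) i c v) from decide_eq_decide.2 h0.symm]
    exact Step.cup _ _
  | cap c _ =>
    obtain rfl : b = [] := by simpa [Kind.out] using hb
    have h0 : bd_Good t w0 u i c ((.cap, i) :: v) ↔
        bd_Good t w0 u (i + 1) (flip.bar c) ((.cap, i) :: v) := by
      have key : ∀ {X Y : Word Unit} {m m' : ℕ},
          Eqv (triv Unit) (shift m X ++ [(.cap, 0)]) (shift m' Y ++ [(.cap, 0)])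
            (() :: () :: (r.map fun _ => ())) (r.map fun _ => ()) →
          Eqv (triv Unit) (erase u ++ (shift (i + m) X ++ erase ((.cap, i) :: v)))
            (erase u ++ (shift (i + m') Y ++ erase ((.cap, i) :: v))) [] [] := by
        intro X Y m m' e
        have e1 := e.shift_left (l.map fun _ => ())
        have hu' := bd_erase_path hu
        have hv' := bd_erase_path hv
        simp only [List.nil_append, List.map_append, List.map_nil, List.map_cons] at hu' hv'
        have e2 := Eqv.context hu' e1 hv'
        refine e2.cast ?_ ?_ rfl rfl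
        · simp only [erase, wmap_append, wmap_cons, wmap_nil, Kind.map_cap, shift_append,
            shift_shift, shift_cons, shift_nil, List.length_map, hl, Nat.zero_add,
            List.append_assoc, List.cons_append, List.nil_append]
          rw [Nat.add_comm i]
        · simp only [erase, wmap_append, wmap_cons, wmap_nil, Kind.map_cap, shift_append,
            shift_shift, shift_cons, shift_nil, List.length_map, hl, Nat.zero_add,
            List.append_assoc, List.cons_append, List.nil_append]
          rw [Nat.add_comm i]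
      have e0 : Eqv (triv Unit) (erase u ++ (shift i (bd_bd t c) ++ erase ((.cap, i) :: v)))
          (erase u ++ (shift (i + 1) (bd_bd t (flip.bar c)) ++ erase ((.cap, i) :: v))) [] [] := by
        cases c
        · have := key (X := bd_rotL t) (Y := t) (m := 0) (m' := 1) (by
            simpa using bd_Tan.cap_left ht (r.map fun _ => ()))
          exact this
        · have := key (X := t) (Y := bd_rotL t) (m := 0) (m' := 1) (by
            simpa using (bd_Tan.cap_rotL ht (r.map fun _ => ())).symm)
          exact this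
      exact ⟨fun h => e0.symm.trans h, fun h => e0.trans h⟩
    refine hfin .cap rfl ?_
    simp only [bd_colr]
    rw [show decide (bd_Good t w0 u (i + 1) (flip.bar c) ((.cap, i) :: v)) =
      decide (bd_Good t w0 u i c ((.cap, i) :: v)) from decide_eq_decide.2 h0.symm]
    exact Step.cap (P := flip.prod (triv Bool)) _ _
  | pos x y r' =>
    obtain rfl : r' = [] := by simpa [Kind.inn] using ha
    have h0 : bd_Good t w0 u i x ((.pos, i) :: v) ↔ bd_Good t w0 (u ++ [(.pos, i)]) (i + 1) x v := by
      refine hctx (m := 0) (m' := 1) ?_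
      have := (bd_Tan.pos_of_left (ht.bd x) (r.map fun _ => ()))
      simpa using this
    have h1 : bd_Good t w0 u (i + 1) y ((.pos, i) :: v) ↔ bd_Good t w0 (u ++ [(.pos, i)]) i y v := by
      refine hctx (m := 1) (m' := 0) ?_
      have := (bd_Tan.pos_of_right (ht.bd y) (r.map fun _ => ()))
      simpa using this
    refine hfin .pos rfl ?_
    simp only [bd_colr]
    rw [decide_eq_decide.2 h0, decide_eq_decide.2 h1]
    exact Step.pos (P := flip.prod (triv Bool)) _ _ _
  | neg x y r' =>
    obtain rfl : r' = [] := by simpa [Kind.inn] using ha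
    have h0 : bd_Good t w0 u i x ((.neg, i) :: v) ↔ bd_Good t w0 (u ++ [(.neg, i)]) (i + 1) x v := by
      refine hctx (m := 0) (m' := 1) ?_
      have := (bd_Tan.neg_of_left (ht.bd x) (r.map fun _ => ()))
      simpa using this
    have h1 : bd_Good t w0 u (i + 1) y ((.neg, i) :: v) ↔ bd_Good t w0 (u ++ [(.neg, i)]) i y v := by
      refine hctx (m := 1) (m' := 0) ?_
      have := (bd_Tan.neg_of_right (ht.bd y) (r.map fun _ => ()))
      simpa using this
    refine hfin .neg rfl ?_
    simp only [bd_colr]
    rw [decide_eq_decide.2 h0, decide_eq_decide.2 h1]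
    exact Step.neg (P := flip.prod (triv Bool)) _ _ _

/-- The colours form a labelling by the trivial palette. -/
theorem bd_colr_mid {t w0 : Word Unit} (ht : bd_Tan t) {a b c : Word Bool} {s s' : List Bool}
    (ha : Path flip a [] s) (hb : Path flip b s s') (hc : Path flip c s' []) :
    ∃ B, wmap Prod.fst B = b ∧ Path (flip.prod (triv Bool)) B (bd_colr t w0 a (b ++ c) 0 s)
      (bd_colr t w0 (a ++ b) c 0 s') := by
  induction hb generalizing a with
  | nil s => exact ⟨[], rfl, by simpa using Path.nil _⟩
  | @cons k i b s r s' h1 h2 ih =>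
    obtain ⟨k', hk', hstep⟩ := bd_colr_step (w0 := w0) ht ha h1 (h2.append hc)
    obtain ⟨B, hB, hBp⟩ := ih (a := a ++ [(k, i)]) (ha.append (path_single_iff.2 h1)) hc
    refine ⟨(k', i) :: B, by rw [wmap_cons, hk', hB], Path.cons hstep ?_⟩
    simpa using hBp

theorem bd_prod_snd_closed {P : Palette Bool} (b : Bool) :
    Closed (P.prod (triv Bool)) {x | x.2 = b} := ⟨fun _ h => h, fun _ h _ _ => h⟩

/-- The link created by a bead does not depend on the position of the bead. -/
theorem bd_good_const {t w0 : Word Unit} (ht : bd_Tan t) {a b c : Word Bool} {l r l' r' : List Bool}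
    {δ δ' : Bool} (ha : Path flip a [] (l ++ δ :: r))
    (hb : Path flip b (l ++ δ :: r) (l' ++ δ' :: r')) (hc : Path flip c (l' ++ δ' :: r') [])
    (hU : IsDiag (erase (a ++ (b ++ c))) unknot) :
    bd_Good t w0 a l.length δ (b ++ c) ↔ bd_Good t w0 (a ++ b) l'.length δ' c := by
  obtain ⟨A, hA, pA⟩ := bd_colr_mid (w0 := w0) ht (Path.nil []) ha (hb.append hc)
  obtain ⟨B, hB, pB⟩ := bd_colr_mid (w0 := w0) ht ha hb hc
  obtain ⟨V, hV, pV⟩ := bd_colr_mid (w0 := w0) ht (ha.append hb) hc (Path.nil [])
  simp only [List.nil_append, List.append_nil] at pA pB pV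
  have e0 : bd_colr t w0 [] (a ++ (b ++ c)) 0 [] = [] := rfl
  have e1 : bd_colr t w0 (a ++ b ++ c) [] 0 [] = [] := rfl
  rw [e0] at pA
  rw [e1] at pV
  have hp : Path (triv Bool) (wmap Prod.snd (A ++ (B ++ V))) [] [] :=
    (pA.append (pB.append pV)).map isHom_snd
  have hd : IsDiag (erase (wmap Prod.snd (A ++ (B ++ V)))) unknot := by
    have : erase (wmap Prod.snd (A ++ (B ++ V))) = erase (a ++ (b ++ c)) := by
      rw [erase_wmap, ← hA, ← hB, ← hV]
      simp only [erase, wmap_append, wmap_wmap, Function.comp_def]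
    rw [this]
    exact hU
  have hAne : A ≠ [] := by
    rintro rfl
    have := pA
    cases hl : bd_colr t w0 a (b ++ c) 0 (l ++ δ :: r) with
    | nil =>
      have h1 := bd_colr_length t w0 a (b ++ c) 0 (l ++ δ :: r)
      rw [hl] at h1
      simp at h1
    | cons x y =>
      rw [hl] at this
      cases this
  obtain ⟨x, hx⟩ := closed_hasLabel pA hAne
  have hall : ∀ y, HasLabel y (A ++ (B ++ V)) → y.2 = x.2 := by
    intro y hy
    exact unknot_labels hp hd (hy.map Prod.snd)
      ((hasLabel_append.2 (Or.inl hx)).map Prod.snd)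
  have hlev1 := path_labels (bd_prod_snd_closed x.2) pA
    (fun y hy => hall y (hasLabel_append.2 (Or.inl hy))) (by simp)
  have hlev2 := path_labels (bd_prod_snd_closed x.2) pB
    (fun y hy => hall y (hasLabel_append.2 (Or.inr (hasLabel_append.2 (Or.inl hy))))) hlev1
  rw [bd_colr_mem hlev1, bd_colr_mem hlev2]

/-- All beads on the word `w` create the same link. -/
def bd_AllGood (t w0 : Word Unit) (w : Word Bool) : Prop :=
  ∀ (u v : Word Bool) (l : List Bool) (δ : Bool) (r : List Bool), w = u ++ v →
    Path flip u [] (l ++ δ :: r) → Path flip v (l ++ δ :: r) [] → bd_Good t w0 u l.length δ v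

theorem bd_allGood_of_good {t w0 : Word Unit} (ht : bd_Tan t) {u v : Word Bool} {l r : List Bool}
    {δ : Bool} (hu : Path flip u [] (l ++ δ :: r)) (hv : Path flip v (l ++ δ :: r) [])
    (hU : IsDiag (erase (u ++ v)) unknot) (h : bd_Good t w0 u l.length δ v) :
    bd_AllGood t w0 (u ++ v) := by
  intro u' v' l' δ' r' hw hu' hv'
  rcases List.append_eq_append_iff.1 hw with ⟨b, rfl, rfl⟩ | ⟨b, rfl, rfl⟩
  · obtain ⟨s1, h1, h2⟩ := path_append_iff.1 hu'
    obtain rfl := hu.det h1
    exact (bd_good_const ht hu h2 hv' hU).1 h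
  · obtain ⟨s1, h1, h2⟩ := path_append_iff.1 hu
    obtain rfl := hu'.det h1
    rw [List.append_assoc] at hU
    exact (bd_good_const ht hu' h2 hv hU).2 h

/-- Every move has a strand at the bottom or at the top. -/
theorem bd_base_strand {C : Type} {P : Palette C} {u v : Word C} (h : Base u v) {s t : List C}
    (hu : Path P u s t) : s ≠ [] ∨ t ≠ [] := by
  cases h with
  | far k l g =>
    obtain ⟨t1, h1, h2⟩ := path_cons_iff.1 hu
    rw [path_single_iff] at h2
    obtain ⟨a, b, r, ha, hb, rfl, rfl, hab⟩ := step_zero_append h1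
    by_contra hcon
    push Not at hcon
    obtain ⟨h3, rfl⟩ := hcon
    obtain ⟨rfl, rfl⟩ := List.append_eq_nil_iff.1 h3
    simp only [List.append_nil] at h2
    rw [← hb, Nat.add_comm] at h2
    have h4 := (step_append_cancel (s := []) (by simpa using h2))
    obtain ⟨t', h5, h6⟩ := h4
    have h7 := List.append_eq_nil_iff.1 h5.symm
    obtain ⟨rfl, rfl⟩ := h7
    cases k with
    | cup c => simp [Kind.out] at hb
    | cap => simp [Kind.inn] at ha
    | pos => simp [Kind.inn] at ha
    | neg => simp [Kind.inn] at ha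
  | zig c => obtain ⟨rfl, r, rfl⟩ := path_zig.1 hu; simp
  | zag c => obtain ⟨rfl, r, rfl⟩ := path_zag.1 hu; simp
  | cupOver c d => obtain ⟨x, r, rfl, -⟩ := path_cup_pos.1 hu; simp
  | cupUnder c d => obtain ⟨x, r, rfl, -⟩ := path_cup_neg.1 hu; simp
  | capOver => obtain ⟨a, b, r, rfl, -⟩ := path_pos_cap.1 hu; simp
  | capUnder => obtain ⟨a, b, r, rfl, -⟩ := path_neg_cap.1 hu; simp
  | r1CupPos c d => right; rw [path_r1CupPos.1 hu]; simp
  | r1CupNeg c d => right; rw [path_r1CupNeg.1 hu]; simp
  | r1CapPos => obtain ⟨a, rfl⟩ := path_r1CapPos.1 hu; simp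
  | r1CapNeg => obtain ⟨a, rfl⟩ := path_r1CapNeg.1 hu; simp
  | r2PosNeg => obtain ⟨rfl, a, b, r, rfl⟩ := path_r2PosNeg.1 hu; simp
  | r2NegPos => obtain ⟨rfl, a, b, r, rfl⟩ := path_r2NegPos.1 hu; simp
  | r3 => obtain ⟨a, b, c, r, rfl, -⟩ := path_r3_left.1 hu; simp

theorem bd_isDiag_context {x y : Word Bool} {s s' : List Bool} (h : Eqv flip x y s s')
    {a b : Word Bool} (ha : Path flip a [] s) (hb : Path flip b s' []) {L : Link}
    (hL : IsDiag (erase (a ++ (x ++ b))) L) : IsDiag (erase (a ++ (y ++ b))) L :=
  isDiag_erase_of_eqv (Eqv.context ha h hb) hL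

theorem bd_allGood_move {t w0 : Word Unit} (ht : bd_Tan t) {x y : Word Bool} {s s' : List Bool}
    (h : Eqv flip x y s s') (hne : s ≠ [] ∨ s' ≠ []) {a b : Word Bool}
    (ha : Path flip a [] s) (hb : Path flip b s' [])
    (hU : IsDiag (erase (a ++ (x ++ b))) unknot) (hg : bd_AllGood t w0 (a ++ (x ++ b))) :
    bd_AllGood t w0 (a ++ (y ++ b)) := by
  have hU' := bd_isDiag_context h ha hb hU
  have hx := h.path_left
  have hy := h.path_right
  have he : Eqv (triv Unit) (erase x) (erase y) (s.map fun _ => ()) (s'.map fun _ => ()) :=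
    h.map (isHom_unit _)
  rcases hne with hne | hne
  · obtain ⟨δ, r, rfl⟩ := List.exists_cons_of_ne_nil hne
    have h1 : bd_Good t w0 a ([] : List Bool).length δ (x ++ b) :=
      hg a (x ++ b) [] δ r rfl ha (hx.append hb)
    refine bd_allGood_of_good ht (l := []) (δ := δ) (r := r) ha (hy.append hb) hU' ?_
    have h2 : Eqv (triv Unit) (erase a ++ (shift 0 (bd_bd t δ) ++ erase (y ++ b)))
        (erase a ++ (shift 0 (bd_bd t δ) ++ erase (x ++ b))) [] [] := by
      have k0 := bd_erase_path ha
      have k1 := (ht.bd δ).right (r.map fun _ => ())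
      have k2 := Eqv.prepend (k0.append (t := () :: (r.map fun _ => ())) k1)
        (he.symm.append (bd_erase_path hb))
      refine k2.cast ?_ ?_ rfl rfl <;> simp [erase]
    exact h2.trans h1
  · obtain ⟨δ, r, rfl⟩ := List.exists_cons_of_ne_nil hne
    have h1 : bd_Good t w0 (a ++ x) ([] : List Bool).length δ b :=
      hg (a ++ x) b [] δ r (by simp) (ha.append hx) hb
    rw [← List.append_assoc] at hU' ⊢
    refine bd_allGood_of_good ht (l := []) (δ := δ) (r := r) (ha.append hy) hb hU' ?_
    have h2 : Eqv (triv Unit) (erase (a ++ y) ++ (shift 0 (bd_bd t δ) ++ erase b))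
        (erase (a ++ x) ++ (shift 0 (bd_bd t δ) ++ erase b)) [] [] := by
      have k0 := bd_erase_path ha
      have k1 := (ht.bd δ).right (r.map fun _ => ())
      have k2 := Eqv.context k0 he.symm (Path.append (t := () :: (r.map fun _ => ())) k1
        (bd_erase_path hb))
      refine k2.cast ?_ ?_ rfl rfl <;> simp [erase]
    exact h2.trans h1

theorem bd_allGood_eqv {t w0 : Word Unit} (ht : bd_Tan t) {x y : Word Bool} {s s' : List Bool}
    (h : Eqv flip x y s s') : ∀ {a b : Word Bool}, Path flip a [] s → Path flip b s' [] →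
    IsDiag (erase (a ++ (x ++ b))) unknot →
    (bd_AllGood t w0 (a ++ (x ++ b)) ↔ bd_AllGood t w0 (a ++ (y ++ b))) := by
  induction h with
  | refl h => exact fun _ _ _ => Iff.rfl
  | @move u v i s t' hb hu hv =>
    intro a b ha hb' hU
    have hne : s ≠ [] ∨ t' ≠ [] := by
      have hne : u ≠ [] := by cases hb <;> simp
      obtain ⟨l, s1, t1, hl, rfl, rfl, hu1⟩ := (path_shift_iff hne).1 hu
      rcases bd_base_strand hb hu1 with h1 | h1
      · left; simp [h1]
      · right; simp [h1]
    have e := Eqv.move i hb hu hv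
    exact ⟨bd_allGood_move ht e hne ha hb' hU,
      bd_allGood_move ht e.symm hne ha hb' (bd_isDiag_context e ha hb' hU)⟩
  | symm h ih =>
    intro a b ha hb hU
    exact (ih ha hb (bd_isDiag_context h.symm ha hb hU)).symm
  | trans h1 h2 ih1 ih2 =>
    intro a b ha hb hU
    exact (ih1 ha hb hU).trans (ih2 ha hb (bd_isDiag_context h1 ha hb hU))
  | @comp u u' v v' s t' r h1 h2 ih1 ih2 =>
    intro a b ha hb hU
    have e1 : a ++ (u ++ v ++ b) = a ++ (u ++ (v ++ b)) := by simp
    have e2 : a ++ (u' ++ v' ++ b) = (a ++ u') ++ (v' ++ b) := by simp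
    have e3 : a ++ (u' ++ (v ++ b)) = (a ++ u') ++ (v ++ b) := by simp
    rw [e1] at hU ⊢
    rw [e2, ih1 ha (h2.path_left.append hb) hU, e3]
    refine ih2 (ha.append h1.path_right) hb ?_
    rw [← e3]
    exact bd_isDiag_context h1 ha (h2.path_left.append hb) hU

theorem bd_closure_bd {t : Word Unit} (ht : bd_Tan t) (δ : Bool) :
    Eqv (triv Unit) (closure () (bd_bd t δ)) (closure () t) [] [] := by
  cases δ
  · exact bd_closure_rotL ht
  · exact Eqv.refl (closure_path ht)

theorem bd_allGood_unknot {t : Word Unit} (ht : bd_Tan t) (δ : Bool) :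
    bd_AllGood t (closure () t) (closure δ []) := by
  have hu : Path flip [(.cup δ, 0)] [] ([] ++ δ :: [flip.bar δ]) :=
    path_single_iff.2 (Step.cup δ [])
  have hv : Path flip [(.cap, 0)] ([] ++ δ :: [flip.bar δ]) [] :=
    path_single_iff.2 (Step.cap δ [])
  refine bd_allGood_of_good ht hu hv isDiag_unknot ?_
  have := bd_closure_bd ht δ
  simpa [bd_Good, closure, erase] using this

/-- **Bead.** If the closure of `s` is unknotted, then `s` can be cancelled in a connected sum. -/
theorem bead {t s : Word Unit} (ht : Path (triv Unit) t [()] [()])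
    (_hs : Path (triv Unit) s [()] [()]) (h : IsDiag (closure () s) unknot) :
    Eqv (triv Unit) (closure () (t ++ s)) (closure () t) [] [] := by
  have key : ∀ (δ : Bool) (W : Word Bool), erase W = closure () s →
      Eqv flip (closure δ []) W [] [] → ∀ c W', W = (.cup c, 0) :: W' → c = true →
      Eqv (triv Unit) (closure () (t ++ s)) (closure () t) [] [] := by
    rintro δ W hW hE c W' rfl rfl
    have h1 := (bd_allGood_eqv ht hE (Path.nil []) (Path.nil [])
      (by simpa [closure, erase] using isDiag_unknot)).1 (by simpa using bd_allGood_unknot ht δ)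
    simp only [List.nil_append, List.append_nil] at h1
    have hp := hE.path_right
    obtain ⟨t1, h2, h3⟩ := path_cons_iff.1 hp
    rw [step_cup] at h2
    subst h2
    have h4 := h1 [(.cup true, 0)] W' [] true [flip.bar true] rfl
      (path_single_iff.2 (Step.cup true [])) h3
    have h5 : erase [((.cup true : Kind Bool), 0)] ++ (shift ([] : List Bool).length (bd_bd t true) ++
        erase W') = closure () (t ++ s) := by
      have h6 : erase W' = s ++ [(.cap, 0)] := by
        simpa [erase, closure] using hW
      rw [h6]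
      simp [bd_bd, closure, erase]
    rw [bd_Good, h5] at h4
    exact h4
  have hU0 : Path flip (closure true []) [] [] := closure_path (Path.nil _)
  obtain ⟨W, hW, hE⟩ := lift_diag rfl hU0 isDiag_unknot h
  have hW' : wmap (fun _ => ()) W = (.cup (), 0) :: (s ++ [(.cap, 0)]) := hW
  obtain ⟨k, W1, rfl, hk, -⟩ := wmap_eq_cons hW'
  obtain ⟨c, rfl, -⟩ := Kind.map_eq_cup hk
  by_cases hc : c = true
  · exact key true _ hW hE c W1 rfl hc
  · have hn : IsHom flip flip not := ⟨fun _ => rfl, fun _ _ => rfl⟩
    have hE' := hE.map hn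
    refine key false (wmap not ((.cup c, 0) :: W1)) ?_ hE' (!c) (wmap not W1) rfl (by simpa using hc)
    rw [erase_wmap]
    exact hW

end Pool.Agent.Lib.MP_131179_gt
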