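import Pool.Agent.Lib.MP_131179_gt.Lab

/-!
# The objects of the main theorem
-/

set_option autoImplicit false

namespace Pool.Agent.Lib.MP_131179_gt

/-- Prime links with at least two components and crossing number `n`. -/
def P2 (n : ℕ) : Set Link := {L | IsPrime L ∧ AtLeastTwoComponents L ∧ crossingNumber L = n}

/-- Prime knots with crossing number `n` whose group has a nonabelian image. -/
def K1 (n : ℕ) : Set Link :=
  {L | IsPrime L ∧ ¬ AtLeastTwoComponents L ∧ HasNonabelianLabelling L ∧ crossingNumber L = n}

/-- Prime links with crossing number `n` which have at least two components or a nonabelian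
labelling. -/
def Pstar (n : ℕ) : Set Link :=
  {L | IsPrime L ∧ (AtLeastTwoComponents L ∨ HasNonabelianLabelling L) ∧ crossingNumber L = n}

/-- The unknot is not a connected sum in a nontrivial way. -/
def NoInverse : Prop := ∀ A B : Link, IsConnSum unknot A B → A = unknot ∧ B = unknot

/-- The pair of labels `(x, y)`. -/
def pr {C : Type} [DecidableEq C] (x y : C) : C → C → Bool := fun p q => decide (p = x) && decide (q = y)

/-- `L` is obtained from `L₁` and `L₂` by two clasps: the diagram `W` of `L` is labelled by pairs; the
first entry is `true` on `L₁` and `false` on `L₂`; the second entry is a labelling of the components of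
`L₁` and of `L₂`, and there is a clasp between two components with second entry `true` and another one
between two components with second entry `false`. -/
structure Clasp (m n : ℕ) (L₁ L₂ L : Link) (W : Word (Bool × Bool)) : Prop where
  path : Path (triv (Bool × Bool)) W [] []
  diag : IsDiag (erase W) L
  cr : cr W = m + n + 4
  diag₁ : IsDiag (erase (del (triv (Bool × Bool)) (fun x => x.1) W [])) L₁
  diag₂ : IsDiag (erase (del (triv (Bool × Bool)) (fun x => !x.1) W [])) L₂
  odd₁ : ∀ c : Bool, cnt (triv (Bool × Bool)) (pr (true, c) (false, c)) W [] % 2 = 1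
  odd₂ : ∀ c : Bool, cnt (triv (Bool × Bool)) (pr (false, c) (true, c)) W [] % 2 = 1

theorem pairInv_pr {C : Type} [DecidableEq C] {x y : C} (h : x ≠ y) :
    PairInv (triv C) (pr x y) := by
  refine pairInv_triv fun z => ?_
  rw [pr, Bool.and_eq_false_iff, decide_eq_false_iff_not, decide_eq_false_iff_not]
  by_contra hc
  rw [not_or, not_not, not_not] at hc
  exact h (hc.1.symm.trans hc.2)

/-! ### Some easy facts on links -/

theorem crossingNumber_le {w : Word Unit} {L : Link} (h : IsDiag w L) :
    crossingNumber L ≤ cr w := Nat.sInf_le ⟨w, h, rfl⟩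

theorem exists_minimal (L : Link) : ∃ w, IsDiag w L ∧ cr w = crossingNumber L := by
  obtain ⟨w, hw⟩ := exists_isDiag L
  have : (crossingNumber L) ∈ {n | ∃ w, IsDiag w L ∧ cr w = n} := Nat.sInf_mem ⟨_, w, hw, rfl⟩
  exact this

theorem isDiag_mk {w : Word Unit} (h : Path (triv Unit) w [] []) :
    ∃ L, IsDiag w L := ⟨_, h, rfl⟩

theorem path_erase {C : Type} {P : Palette C} {w : Word C} (h : Path P w [] []) :
    Path (triv Unit) (erase w) [] [] := h.map (isHom_unit P)

theorem eqv_erase {C : Type} {P : Palette C} {u v : Word C} (h : Eqv P u v [] []) :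
    Eqv (triv Unit) (erase u) (erase v) [] [] := h.map (isHom_unit P)

theorem isDiag_erase_of_eqv {C : Type} {P : Palette C} {u v : Word C} {L : Link}
    (h : Eqv P u v [] []) (hu : IsDiag (erase u) L) : IsDiag (erase v) L :=
  isDiag_of_eqv (eqv_erase h) hu

theorem isDiag_unknot : IsDiag [(.cup (), 0), (.cap, 0)] unknot := ⟨path_unknot _ _, rfl⟩

theorem isDiag_empty : IsDiag [] emptyLink := ⟨Path.nil _, rfl⟩

end Pool.Agent.Lib.MP_131179_gt
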