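import Pool.Agent.Lib.MP_131179_gt.Iso
import Pool.Agent.Lib.MP_131179_gt.Goals

/-!
# Diagrams as insertions of blocks followed by caps

A block is a cup (`none`) or a crossing with its four ends bent upwards (`some true`, `some false`); blocks have
no strands at the bottom.  Every link diagram is equivalent to insertions of blocks followed by caps
(`exists_ins_caps`).
-/

set_option autoImplicit false

namespace Pool.Agent.Lib.MP_131179_gt

/-- The blocks: a cup, or a crossing whose four ends point upwards. -/
def blk : Option Bool → Word Unit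
  | none => [(.cup (), 0)]
  | some true => [(.cup (), 0), (.cup (), 1), (.pos, 2)]
  | some false => [(.cup (), 0), (.cup (), 1), (.neg, 2)]

/-- The number of ends of a block. -/
def bsize : Option Bool → ℕ
  | none => 2
  | some _ => 4

/-- Insert blocks, one after the other. -/
def ins (I : List (Option Bool × ℕ)) : Word Unit := I.flatMap fun x => shift x.2 (blk x.1)

/-- A word of caps. -/
def caps (K : List ℕ) : Word Unit := K.map fun i => (.cap, i)

/-- Insert crossings. -/
def ex (J : List (Bool × ℕ)) : Word Unit := ins (J.map fun x => (some x.1, x.2))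

theorem blk_path' (b : Option Bool) (r : List Unit) :
    Path (triv Unit) (blk b) r (List.replicate (bsize b) () ++ r) := by
  match b with
  | none => exact Path.cons (Step.cup () r) (Path.nil _)
  | some true =>
    exact Path.cons (Step.cup () r) (Path.cons (Step.there () (Step.cup () _))
      (Path.cons (Step.there () (Step.there () (Step.pos () () _))) (Path.nil _)))
  | some false =>
    exact Path.cons (Step.cup () r) (Path.cons (Step.there () (Step.cup () _))
      (Path.cons (Step.there () (Step.there () (Step.neg () () _))) (Path.nil _)))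

theorem blk_path (b : Option Bool) (l r : List Unit) :
    Path (triv Unit) (shift l.length (blk b)) (l ++ r)
      (l ++ (List.replicate (bsize b) () ++ r)) := (blk_path' b r).left l

theorem blk_ne_nil (b : Option Bool) : blk b ≠ [] := by
  match b with
  | none => exact List.cons_ne_nil _ _
  | some true => exact List.cons_ne_nil _ _
  | some false => exact List.cons_ne_nil _ _

@[simp] theorem length_blkRep (b : Option Bool) :
    (List.replicate (bsize b) ()).length = bsize b := List.length_replicate

theorem push_one {j : ℕ} {b : Option Bool} {i : ℕ} {s t r : List Unit}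
    (hK : Step (triv Unit) .cap j s t) (hb : Path (triv Unit) (shift i (blk b)) t r) :
    ∃ i' j' : ℕ, Eqv (triv Unit) ((.cap, j) :: shift i (blk b)) (shift i' (blk b) ++ [(.cap, j')])
      s r := by
  obtain ⟨l, s1, t1, hl, rfl, rfl, h1⟩ := (step_add_iff (i := 0) (n := j)).1 (by simpa using hK)
  obtain ⟨l', s2, t2, hl', he, rfl, h2⟩ := (path_shift_iff (blk_ne_nil b)).1 hb
  obtain rfl := h2.det (blk_path' b s2)
  obtain ⟨c, rfl⟩ := step_cap.1 h1
  rcases List.append_eq_append_iff.1 he with ⟨m, rfl, rfl⟩ | ⟨m, rfl, rfl⟩
  · -- `l' = l ++ m`, `t1 = m ++ s2`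
    have hc : Path (triv Unit) [(.cap, 0)] [c, (triv Unit).bar c] [] :=
      path_single_iff.2 (Step.cap c [])
    have e := (interchange hc (blk_path b m s2)).shift_left l
    refine ⟨i + 2, j, e.cast ?_ ?_ ?_ ?_⟩
    · simp [shift_shift, ← hl, ← hl', Nat.add_comm]
    · simp only [shift_append, shift_shift, shift_cons, shift_nil, ← hl, ← hl',
        List.length_append, List.length_cons, List.length_nil, Nat.zero_add]
      rw [show m.length + (1 + 1) + l.length = l.length + m.length + 2 by omega]
    · simp
    · simp
  · -- `l = l' ++ m`, `s2 = m ++ t1`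
    have hc : Path (triv Unit) [(.cap, m.length)] (m ++ (c :: (triv Unit).bar c :: t1)) (m ++ t1) := by
      have := (path_single_iff.2 (Step.cap (P := triv Unit) c t1)).left m
      simpa using this
    have hb' : Path (triv Unit) (blk b) [] (List.replicate (bsize b) ()) := by
      have := blk_path' b []
      simpa using this
    have e := ((interchange hb' hc).symm).shift_left l'
    refine ⟨i, bsize b + j, e.cast ?_ ?_ ?_ ?_⟩
    · simp [← hl, ← hl', Nat.add_comm]
    · simp only [shift_append, shift_cons, shift_nil, ← hl, ← hl',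
        List.length_append, length_blkRep]
      rw [show m.length + bsize b + l'.length = bsize b + (l'.length + m.length) by omega]
    · simp
    · simp

theorem push {K : List ℕ} {b : Option Bool} {i : ℕ} {s t r : List Unit}
    (hK : Path (triv Unit) (caps K) s t) (hb : Path (triv Unit) (shift i (blk b)) t r) :
    ∃ (i' : ℕ) (K' : List ℕ),
      Eqv (triv Unit) (caps K ++ shift i (blk b)) (shift i' (blk b) ++ caps K') s r := by
  induction K generalizing s with
  | nil =>
    have : s = t := path_nil_iff.1 hK
    subst this
    refine ⟨i, [], ?_⟩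
    simp only [caps, List.map_nil, List.nil_append, List.append_nil]
    exact Eqv.refl hb
  | cons j K ih =>
    obtain ⟨s1, h1, h2⟩ := path_cons_iff.1 hK
    obtain ⟨i', K', e1⟩ := ih h2
    have e2 := Eqv.prepend (path_single_iff.2 h1) e1
    obtain ⟨q, hq1, hq2⟩ := path_append_iff.1 e1.path_right
    obtain ⟨i'', j', e3⟩ := push_one h1 hq1
    refine ⟨i'', j' :: K', ?_⟩
    have e4 := e3.append hq2
    refine (e2.trans (e4.cast ?_ rfl rfl rfl)).cast ?_ ?_ rfl rfl
    · simp
    · simp [caps]
    · simp [caps]

theorem crossing_aux {y : Kind Unit} (hy : ∀ r : List Unit,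
    Step (triv Unit) y 0 (() :: () :: r) (() :: () :: r)) (r : List Unit) :
    Eqv (triv Unit) [(y, 0)] [(.cup (), 2), (.cup (), 3), (y, 4), (.cap, 1), (.cap, 0)]
      (() :: () :: r) (() :: () :: r) := by
  have cap0 : ∀ s : List Unit, Path (triv Unit) [(.cap, 0)] (() :: () :: s) s := fun s =>
    path_single_iff.2 (Step.cap () s)
  have cap1 : ∀ s : List Unit, Path (triv Unit) [(.cap, 1)] (() :: () :: () :: s) (() :: s) :=
    fun s => path_single_iff.2 (Step.there () (Step.cap () s))
  have cup1 : ∀ s : List Unit, Path (triv Unit) [(.cup (), 1)] (() :: s) (() :: () :: () :: s) :=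
    fun s => path_single_iff.2 (Step.there () (Step.cup () s))
  have cup2 : ∀ s : List Unit, Path (triv Unit) [(.cup (), 2)] (() :: () :: s)
      (() :: () :: () :: () :: s) :=
    fun s => path_single_iff.2 (Step.there () (Step.there () (Step.cup () s)))
  have cup3 : ∀ s : List Unit, Path (triv Unit) [(.cup (), 3)] (() :: () :: () :: s)
      (() :: () :: () :: () :: () :: s) :=
    fun s => path_single_iff.2 (Step.there () (Step.there () (Step.there () (Step.cup () s))))
  have y0 : ∀ s : List Unit, Path (triv Unit) [(y, 0)] (() :: () :: s) (() :: () :: s) := fun s =>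
    path_single_iff.2 (hy s)
  have y2 : ∀ s : List Unit, Path (triv Unit) [(y, 2)] (() :: () :: () :: () :: s)
    (() :: () :: () :: () :: s) := fun s =>
    path_single_iff.2 (Step.there () (Step.there () (hy s)))
  have y1 : ∀ s : List Unit, Step (triv Unit) y 1 (() :: () :: () :: s)
    (() :: () :: () :: s) := fun s => Step.there () (hy s)
  have E1 : Eqv (triv Unit) [(.cap, 1), (y, 2)] [(y, 4), (.cap, 1)]
      (() :: () :: () :: () :: () :: () :: r) (() :: () :: () :: () :: r) :=
    interchange_letter (Step.there () (Step.cap () [])) (y1 r)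
  have E2 : Eqv (triv Unit) [(.cap, 0), (y, 0)] [(y, 2), (.cap, 0)]
      (() :: () :: () :: () :: r) (() :: () :: r) :=
    interchange_letter (Step.cap () []) (hy r)
  have E3 : Eqv (triv Unit) [(.cap, 1), (.cup (), 1)] [(.cup (), 3), (.cap, 1)]
      (() :: () :: () :: () :: r) (() :: () :: () :: () :: r) :=
    interchange_letter (Step.there () (Step.cap () [])) (Step.cup () (() :: r))
  have E4 : Eqv (triv Unit) [(.cup (), 2), (.cap, 1)] [] (() :: () :: r) (() :: () :: r) :=
    Eqv.move 1 (Base.zig ()) ((cup2 r).append (cap1 (() :: r))) (Path.nil _)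
  have E5 : Eqv (triv Unit) [(.cup (), 1), (.cap, 0)] [] (() :: () :: r) (() :: () :: r) :=
    Eqv.base (Base.zig ()) ((cup1 (() :: r)).append (cap0 (() :: () :: r))) (Path.nil _)
  -- the chain
  have C1 := Eqv.context ((cup2 r).append (cup3 (() :: r))) E1.symm (cap0 (() :: () :: r))
  have C2 := Eqv.prepend (((cup2 r).append (cup3 (() :: r))).append (cap1 (() :: () :: () :: r)))
    E2.symm
  have C3 := Eqv.context (cup2 r) E3.symm ((cap0 (() :: () :: r)).append (y0 r))
  have C4 := E4.append ((cup1 (() :: r)).append ((cap0 (() :: () :: r)).append (y0 r)))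
  have C5 := E5.append (y0 r)
  exact (C1.trans (C2.trans (C3.trans (C4.trans C5)))).symm

theorem crossing_block (k : Bool) : ∃ b : Bool, ∀ s t : List Unit,
    Path (triv Unit) [(if k then .pos else .neg, 0)] s t →
      Eqv (triv Unit) [(if k then .pos else .neg, 0)]
        (shift 2 (blk (some b)) ++ [(.cap, 1), (.cap, 0)]) s t := by
  refine ⟨k, fun s t h => ?_⟩
  cases k with
  | true =>
    obtain ⟨a, b, r, rfl, rfl⟩ := step_pos.1 (path_single_iff.1 h)
    exact crossing_aux (y := .pos) (fun r => Step.pos () () r) r
  | false =>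
    obtain ⟨a, b, r, rfl, rfl⟩ := step_neg.1 (path_single_iff.1 h)
    exact crossing_aux (y := .neg) (fun r => Step.neg () () r) r

theorem crossing_block_shift (k : Bool) (i : ℕ) {s t : List Unit}
    (h : Step (triv Unit) (if k then .pos else .neg) i s t) :
    ∃ b : Bool, Eqv (triv Unit) [(if k then .pos else .neg, i)]
        (shift (i + 2) (blk (some b)) ++ [(.cap, i + 1), (.cap, i)]) s t := by
  obtain ⟨b, hb⟩ := crossing_block k
  obtain ⟨l, s1, t1, hl, rfl, rfl, h1⟩ := (step_add_iff (i := 0) (n := i)).1 (by simpa using h)
  refine ⟨b, ((hb _ _ (path_single_iff.2 h1)).shift_left l).cast ?_ ?_ rfl rfl⟩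
  · simp [hl]
  · simp [hl, shift_shift, Nat.add_comm]

theorem ins_append (I I' : List (Option Bool × ℕ)) : ins (I ++ I') = ins I ++ ins I' := by
  simp [ins]

theorem caps_append (K K' : List ℕ) : caps (K ++ K') = caps K ++ caps K' := by
  simp [caps]

theorem ins_single (b : Option Bool) (i : ℕ) : ins [(b, i)] = shift i (blk b) := by
  simp [ins]

/-- Adding a block and some caps. -/
theorem add_block {w : Word Unit} {I : List (Option Bool × ℕ)} {K : List ℕ} {s t : List Unit}
    (h : Eqv (triv Unit) w (ins I ++ caps K) [] s) {b : Option Bool} {i : ℕ}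
    (hb : Path (triv Unit) (shift i (blk b)) s t) :
    ∃ (i' : ℕ) (K' : List ℕ),
      Eqv (triv Unit) (w ++ shift i (blk b)) (ins (I ++ [(b, i')]) ++ caps K') [] t := by
  obtain ⟨q, h1, h2⟩ := path_append_iff.1 h.path_right
  obtain ⟨i', K', e⟩ := push h2 hb
  refine ⟨i', K', ?_⟩
  have e1 := h.append hb
  have e2 := Eqv.prepend h1 e
  refine (e1.trans (e2.cast ?_ rfl rfl rfl)).cast rfl ?_ rfl rfl
  · simp
  · simp [ins_append, ins_single]

/-- Every diagram consists of insertions of blocks followed by caps. -/
theorem exists_ins_caps {w : Word Unit} {s : List Unit} (h : Path (triv Unit) w [] s) :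
    ∃ (I : List (Option Bool × ℕ)) (K : List ℕ),
      (I.countP fun x => x.1.isSome) = cr w ∧ Eqv (triv Unit) w (ins I ++ caps K) [] s := by
  induction w using List.reverseRecOn generalizing s with
  | nil => exact ⟨[], [], rfl, Eqv.refl h⟩
  | append_singleton w x ih =>
    obtain ⟨k, i⟩ := x
    obtain ⟨s0, h1, h2⟩ := path_append_iff.1 h
    obtain ⟨I, K, hc, e⟩ := ih h1
    have hx : ∀ (k : Bool) , Step (triv Unit) (if k then .pos else .neg) i s0 s →
        ∃ (I : List (Option Bool × ℕ)) (K : List ℕ),
          (I.countP fun x => x.1.isSome) = cr (w ++ [(if k then Kind.pos else .neg, i)]) ∧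
          Eqv (triv Unit) (w ++ [(if k then Kind.pos else .neg, i)]) (ins I ++ caps K) [] s := by
      intro k hk
      obtain ⟨b, e1⟩ := crossing_block_shift k i hk
      obtain ⟨q, p1, p2⟩ := path_append_iff.1 e1.path_right
      obtain ⟨i', K', e2⟩ := add_block e p1
      refine ⟨I ++ [(some b, i')], K' ++ [i + 1, i], ?_, ?_⟩
      · rw [List.countP_append, hc]
        cases k <;> simp
      · have e3 := Eqv.prepend h1 e1
        have e4 := e2.append p2
        refine (e3.trans (e4.cast ?_ rfl rfl rfl)).cast rfl ?_ rfl rfl
        · simp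
        · simp [caps]
    have h2' := path_single_iff.1 h2
    cases k with
    | cup c =>
      obtain ⟨i', K', e2⟩ := add_block e (b := none) (i := i) (t := s) (by
        show Path (triv Unit) [(.cup (), 0 + i)] s0 s
        rw [Nat.zero_add]
        exact h2)
      refine ⟨I ++ [(none, i')], K', ?_, ?_⟩
      · rw [List.countP_append, hc]; simp
      · have e3 : Eqv (triv Unit) (w ++ [(.cup (), 0 + i)]) (ins (I ++ [(none, i')]) ++ caps K') [] s :=
          e2
        rw [Nat.zero_add] at e3
        exact e3
    | cap =>
      refine ⟨I, K ++ [i], ?_, ?_⟩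
      · simp [hc]
      · have e3 := e.append h2
        refine e3.cast rfl ?_ rfl rfl
        simp [caps]
    | pos => exact hx true h2'
    | neg => exact hx false h2'

end Pool.Agent.Lib.MP_131179_gt
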