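import Pool.Agent.Lib.MP_131179_gt.Block

/-!
# Counting insertion words

Insertions of blocks can be sorted (strictly increasing positions), and caps can be sorted (strictly decreasing
positions); so the number of links with a diagram `ex J ++ caps K`, `J.length = n`, is at most `2 ^ (12 * n)`.
-/

set_option autoImplicit false

namespace Pool.Agent.Lib.MP_131179_gt

/-! ### Sorting the insertions -/

@[simp] theorem ins_nil' : ins [] = [] := rfl

theorem ins_cons' (x : Option Bool × ℕ) (I : List (Option Bool × ℕ)) :
    ins (x :: I) = shift x.2 (blk x.1) ++ ins I := rfl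

@[simp] theorem ex_nil' : ex [] = [] := rfl

theorem ex_cons' (x : Bool × ℕ) (J : List (Bool × ℕ)) :
    ex (x :: J) = shift x.2 (blk (some x.1)) ++ ex J := rfl

theorem blk_ne_nil' (b : Option Bool) : blk b ≠ [] := by
  rcases b with _ | b
  · simp [blk]
  · cases b <;> simp [blk]

/-- The strands after the insertion of a block. -/
theorem blk_end' {b : Bool} {i : ℕ} {s t : List Unit}
    (h : Path (triv Unit) (shift i (blk (some b))) s t) :
    ∃ l r : List Unit, l.length = i ∧ s = l ++ r ∧ t = l ++ (List.replicate 4 () ++ r) := by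
  have hi := path_shift_length (blk_ne_nil' _) h
  refine ⟨s.take i, s.drop i, by simp [hi], by simp, ?_⟩
  have h1 := blk_path (some b) (s.take i) (s.drop i)
  have h2 : (s.take i).length = i := by simp [hi]
  rw [h2, List.take_append_drop] at h1
  exact h.det h1

theorem unit_list_eq {s t : List Unit} (h : s.length = t.length) : s = t :=
  List.ext_getElem h fun _ _ _ => rfl

/-- A block which is inserted at the left of the previous block can be inserted first. -/
theorem blk_swap' {b c : Bool} {i j : ℕ} (hij : j ≤ i) {s t : List Unit}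
    (h : Path (triv Unit) (shift i (blk (some b)) ++ shift j (blk (some c))) s t) :
    Eqv (triv Unit) (shift i (blk (some b)) ++ shift j (blk (some c)))
      (shift j (blk (some c)) ++ shift (i + 4) (blk (some b))) s t := by
  obtain ⟨m, h1, h2⟩ := path_append_iff.1 h
  obtain ⟨l, r, hl, rfl, rfl⟩ := blk_end' h1
  have hlj : (l.take j).length = j := by simp; omega
  have p1 := blk_path (some c) (l.take j) (l.drop j)
  rw [hlj, List.take_append_drop] at p1
  have p2 := blk_path (some b) [] r
  simp only [List.length_nil, List.nil_append, shift_zero] at p2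
  have e := interchange p1 p2
  have hlen : (l.take j ++ (List.replicate (bsize (some c)) () ++ l.drop j)).length = i + 4 := by
    simp [bsize]; omega
  rw [hlen, hl] at e
  have ht := h.det e.path_right
  rw [ht]
  exact e.symm

/-- Insertion of an insertion into a sorted list. -/
def insJ : Bool × ℕ → List (Bool × ℕ) → List (Bool × ℕ)
  | x, [] => [x]
  | x, y :: J => if x.2 < y.2 then x :: y :: J else y :: insJ (x.1, x.2 + 4) J

theorem insJ_length (x : Bool × ℕ) (J : List (Bool × ℕ)) : (insJ x J).length = J.length + 1 := by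
  induction J generalizing x with
  | nil => rfl
  | cons y J ih =>
    rw [insJ]
    split_ifs
    · rfl
    · simp [ih]

theorem insJ_gt {k : ℕ} {x : Bool × ℕ} {J : List (Bool × ℕ)} (hx : k < x.2)
    (hJ : ∀ y ∈ J, k < y.2) : ∀ y ∈ insJ x J, k < y.2 := by
  induction J generalizing x with
  | nil =>
    intro y hy
    rw [insJ, List.mem_singleton] at hy
    exact hy ▸ hx
  | cons z J ih =>
    intro y hy
    rw [insJ] at hy
    split_ifs at hy with h
    · rcases List.mem_cons.1 hy with rfl | hy
      · exact hx
      · exact hJ y hy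
    · rcases List.mem_cons.1 hy with rfl | hy
      · exact hJ _ (by simp)
      · exact ih (by simp only; omega) (fun w hw => hJ w (by simp [hw])) y hy

theorem insJ_sorted {x : Bool × ℕ} {J : List (Bool × ℕ)}
    (hJ : J.Pairwise fun a b => a.2 < b.2) : (insJ x J).Pairwise fun a b => a.2 < b.2 := by
  induction J generalizing x with
  | nil => simp [insJ]
  | cons z J ih =>
    obtain ⟨h1, h2⟩ := List.pairwise_cons.1 hJ
    rw [insJ]
    split_ifs with h
    · refine List.pairwise_cons.2 ⟨?_, hJ⟩
      intro y hy
      rcases List.mem_cons.1 hy with rfl | hy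
      · exact h
      · exact h.trans (h1 y hy)
    · refine List.pairwise_cons.2 ⟨?_, ih h2⟩
      exact insJ_gt (by simp only; omega) h1

theorem insJ_eqv {x : Bool × ℕ} {J : List (Bool × ℕ)} {s t : List Unit}
    (h : Path (triv Unit) (ex (x :: J)) s t) :
    Eqv (triv Unit) (ex (x :: J)) (ex (insJ x J)) s t := by
  induction J generalizing x s with
  | nil => exact Eqv.refl h
  | cons z J ih =>
    rw [insJ]
    split_ifs with hlt
    · exact Eqv.refl h
    · have h0 : ex (x :: z :: J) = (shift x.2 (blk (some x.1)) ++ shift z.2 (blk (some z.1))) ++ ex J := by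
        rw [ex_cons', ex_cons', List.append_assoc]
      rw [h0] at h ⊢
      obtain ⟨m, h1, h2⟩ := path_append_iff.1 h
      have e1 := blk_swap' (not_lt.1 hlt) h1
      have e2 := e1.append h2
      refine e2.trans ?_
      obtain ⟨m', h3, h4⟩ := path_append_iff.1 e1.path_right
      have h5 : Path (triv Unit) (ex ((x.1, x.2 + 4) :: J)) m' t := by
        rw [ex_cons']; exact h4.append h2
      have e3 := (ih h5).prepend h3
      rw [ex_cons']
      rw [ex_cons' (x.1, x.2 + 4) J, ← List.append_assoc] at e3
      exact e3

/-- Sorting of the insertions. -/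
def sortJ : List (Bool × ℕ) → List (Bool × ℕ)
  | [] => []
  | x :: J => insJ x (sortJ J)

theorem sortJ_length (J : List (Bool × ℕ)) : (sortJ J).length = J.length := by
  induction J with
  | nil => rfl
  | cons x J ih => rw [sortJ, insJ_length, ih, List.length_cons]

theorem sortJ_sorted (J : List (Bool × ℕ)) : (sortJ J).Pairwise fun a b => a.2 < b.2 := by
  induction J with
  | nil => simp [sortJ]
  | cons x J ih => exact insJ_sorted ih

theorem sortJ_eqv {J : List (Bool × ℕ)} {s t : List Unit} (h : Path (triv Unit) (ex J) s t) :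
    Eqv (triv Unit) (ex J) (ex (sortJ J)) s t := by
  induction J generalizing s with
  | nil => exact Eqv.refl h
  | cons x J ih =>
    rw [ex_cons'] at h ⊢
    obtain ⟨m, h1, h2⟩ := path_append_iff.1 h
    have e1 := (ih h2).prepend h1
    refine e1.trans ?_
    have e2 := e1.path_right
    rw [← ex_cons'] at e2 ⊢
    exact insJ_eqv e2

theorem ex_length {J : List (Bool × ℕ)} {s t : List Unit} (h : Path (triv Unit) (ex J) s t) :
    t.length = s.length + 4 * J.length ∧ ∀ x ∈ J, x.2 < s.length + 4 * J.length := by
  induction J generalizing s with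
  | nil =>
    rw [ex_nil', path_nil_iff] at h
    subst h
    simp
  | cons x J ih =>
    rw [ex_cons'] at h
    obtain ⟨m, h1, h2⟩ := path_append_iff.1 h
    obtain ⟨l, r, hl, rfl, rfl⟩ := blk_end' h1
    obtain ⟨h3, h4⟩ := ih h2
    simp only [List.length_append, List.length_replicate, List.length_cons] at h3 h4 ⊢
    refine ⟨by omega, ?_⟩
    intro y hy
    rcases List.mem_cons.1 hy with rfl | hy
    · omega
    · have := h4 y hy
      omega

/-! ### Sorting the caps -/

@[simp] theorem caps_nil' : caps [] = [] := rfl

theorem caps_cons' (j : ℕ) (K : List ℕ) : caps (j :: K) = (.cap, j) :: caps K := rfl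

theorem cap_end' {i : ℕ} {s t : List Unit} (h : Step (triv Unit) .cap i s t) :
    s.length = t.length + 2 ∧ i ≤ t.length := by
  obtain ⟨l, s1, t1, hl, rfl, rfl, h1⟩ := (step_add_iff (i := 0) (n := i)).1 (by simpa using h)
  cases h1
  simp; omega

theorem cap_step' (l r : List Unit) :
    Path (triv Unit) [(.cap, l.length)] (l ++ (() :: () :: r)) (l ++ r) := by
  have h1 : Path (triv Unit) [(.cap, 0)] (() :: () :: r) r :=
    path_single_iff.2 (Step.cap (P := triv Unit) () r)
  have h2 := h1.left l
  simpa using h2

/-- A cap at the right of the previous cap can come first. -/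
theorem cap_swap' {i j : ℕ} (hij : i ≤ j) {s t : List Unit}
    (h : Path (triv Unit) [(.cap, i), (.cap, j)] s t) :
    Eqv (triv Unit) [(.cap, i), (.cap, j)] [(.cap, j + 2), (.cap, i)] s t := by
  obtain ⟨m, h1, h2⟩ := path_cons_iff.1 h
  rw [path_single_iff] at h2
  obtain ⟨h3, h4⟩ := cap_end' h1
  obtain ⟨h5, h6⟩ := cap_end' h2
  have p1 : Path (triv Unit) [(.cap, i)] (List.replicate (i + 2) ()) (List.replicate i ()) := by
    have := cap_step' (List.replicate i ()) []
    rw [List.length_replicate] at this
    exact this.cast (unit_list_eq (by simp)) (unit_list_eq (by simp))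
  have p2 : Path (triv Unit) [(.cap, j - i)] (List.replicate (t.length - i + 2) ())
      (List.replicate (t.length - i) ()) := by
    have := cap_step' (List.replicate (j - i) ()) (List.replicate (t.length - j) ())
    rw [List.length_replicate] at this
    exact this.cast (unit_list_eq (by simp; omega)) (unit_list_eq (by simp; omega))
  have e := interchange p1 p2
  rw [List.length_replicate, List.length_replicate] at e
  refine e.cast ?_ ?_ (unit_list_eq (by simp; omega)) (unit_list_eq (by simp; omega))
  · simp [shift]; omega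
  · simp [shift]; omega

/-- Insertion of a cap into a sorted list. -/
def insC : ℕ → List ℕ → List ℕ
  | i, [] => [i]
  | i, j :: K => if j < i then i :: j :: K else (j + 2) :: insC i K

theorem insC_lt {m i : ℕ} {K : List ℕ} (hi : i < m + 2) (hK : ∀ y ∈ K, y < m) :
    ∀ y ∈ insC i K, y < m + 2 := by
  induction K with
  | nil =>
    intro y hy
    rw [insC, List.mem_singleton] at hy
    omega
  | cons z K ih =>
    intro y hy
    rw [insC] at hy
    have hz := hK z (by simp)
    split_ifs at hy with h
    · rcases List.mem_cons.1 hy with rfl | hy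
      · exact hi
      · have := hK y hy
        omega
    · rcases List.mem_cons.1 hy with rfl | hy
      · omega
      · exact ih (fun w hw => hK w (by simp [hw])) y hy

theorem insC_sorted {i : ℕ} {K : List ℕ} (hK : K.Pairwise fun a b => b < a) :
    (insC i K).Pairwise fun a b => b < a := by
  induction K with
  | nil => simp [insC]
  | cons z K ih =>
    obtain ⟨h1, h2⟩ := List.pairwise_cons.1 hK
    rw [insC]
    split_ifs with h
    · refine List.pairwise_cons.2 ⟨?_, hK⟩
      intro y hy
      rcases List.mem_cons.1 hy with rfl | hy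
      · exact h
      · exact (h1 y hy).trans h
    · refine List.pairwise_cons.2 ⟨?_, ih h2⟩
      exact insC_lt (by omega) h1

theorem insC_eqv {i : ℕ} {K : List ℕ} {s t : List Unit}
    (h : Path (triv Unit) (caps (i :: K)) s t) :
    Eqv (triv Unit) (caps (i :: K)) (caps (insC i K)) s t := by
  induction K generalizing s with
  | nil => exact Eqv.refl h
  | cons z K ih =>
    rw [insC]
    split_ifs with hlt
    · exact Eqv.refl h
    · have h0 : caps (i :: z :: K) = [(.cap, i), (.cap, z)] ++ caps K := rfl
      rw [h0] at h ⊢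
      obtain ⟨m, h1, h2⟩ := path_append_iff.1 h
      have e1 := cap_swap' (not_lt.1 hlt) h1
      have e2 := e1.append h2
      refine e2.trans ?_
      obtain ⟨m', h3, h4⟩ := path_cons_iff.1 e1.path_right
      have h5 : Path (triv Unit) (caps (i :: K)) m' t := h4.append h2
      have e3 := (ih h5).prepend (path_single_iff.2 h3)
      exact e3

/-- Sorting of the caps. -/
def sortC : List ℕ → List ℕ
  | [] => []
  | x :: K => insC x (sortC K)

theorem sortC_sorted (K : List ℕ) : (sortC K).Pairwise fun a b => b < a := by
  induction K with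
  | nil => simp [sortC]
  | cons x K ih => exact insC_sorted ih

theorem sortC_eqv {K : List ℕ} {s t : List Unit} (h : Path (triv Unit) (caps K) s t) :
    Eqv (triv Unit) (caps K) (caps (sortC K)) s t := by
  induction K generalizing s with
  | nil => exact Eqv.refl h
  | cons x K ih =>
    rw [caps_cons'] at h ⊢
    obtain ⟨m, h1, h2⟩ := path_cons_iff.1 h
    have e1 := (ih h2).prepend (path_single_iff.2 h1)
    refine e1.trans ?_
    exact insC_eqv e1.path_right

theorem caps_lt {K : List ℕ} {s t : List Unit} (h : Path (triv Unit) (caps K) s t) :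
    ∀ x ∈ K, x < s.length := by
  induction K generalizing s with
  | nil => simp
  | cons x K ih =>
    rw [caps_cons'] at h
    obtain ⟨m, h1, h2⟩ := path_cons_iff.1 h
    obtain ⟨h3, h4⟩ := cap_end' h1
    intro y hy
    rcases List.mem_cons.1 hy with rfl | hy
    · omega
    · have := ih h2 y hy
      omega

/-! ### Counting -/

theorem isDiag_unique {w : Word Unit} {L L' : Link} (h : IsDiag w L) (h' : IsDiag w L') :
    L = L' := by
  obtain ⟨_, rfl⟩ := h
  obtain ⟨_, rfl⟩ := h'
  rfl

theorem exists_sorted {n : ℕ} {L : Link} (h : ∃ (J : List (Bool × ℕ)) (K : List ℕ), J.length = n ∧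
      IsDiag (ex J ++ caps K) L) :
    ∃ (J : List (Bool × ℕ)) (K : List ℕ), IsDiag (ex J ++ caps K) L ∧
      (J.Pairwise fun a b => a.2 < b.2) ∧ (K.Pairwise fun a b => b < a) ∧
      (∀ x ∈ J, x.2 < 4 * n) ∧ (∀ x ∈ K, x < 4 * n) := by
  obtain ⟨J, K, hn, hJ, rfl⟩ := h
  obtain ⟨m, h1, h2⟩ := path_append_iff.1 hJ
  have e1 := sortJ_eqv h1
  have e2 := sortC_eqv h2
  have e := e1.comp e2
  have h3 := ex_length e1.path_right
  have h4 := caps_lt e2.path_right
  rw [sortJ_length, hn] at h3
  simp only [List.length_nil, Nat.zero_add] at h3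
  refine ⟨sortJ J, sortC K, ⟨e.path_right, Quotient.sound e⟩, sortJ_sorted J, sortC_sorted K, h3.2,
    ?_⟩
  rw [h3.1] at h4
  exact h4

theorem count_blocks (n : ℕ) :
    {L : Link | ∃ (J : List (Bool × ℕ)) (K : List ℕ), J.length = n ∧
      IsDiag (ex J ++ caps K) L}.encard ≤ ((2 ^ (12 * n) : ℕ) : ℕ∞) := by
  classical
  set S : Set Link := {L : Link | ∃ (J : List (Bool × ℕ)) (K : List ℕ), J.length = n ∧
      IsDiag (ex J ++ caps K) L} with hS
  have hex : ∀ L : Link, ∃ (J : List (Bool × ℕ)) (K : List ℕ), L ∈ S →
      IsDiag (ex J ++ caps K) L ∧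
      (J.Pairwise fun a b => a.2 < b.2) ∧ (K.Pairwise fun a b => b < a) ∧
      (∀ x ∈ J, x.2 < 4 * n) ∧ (∀ x ∈ K, x < 4 * n) := by
    intro L
    by_cases hL : L ∈ S
    · obtain ⟨J, K, h⟩ := exists_sorted hL
      exact ⟨J, K, fun _ => h⟩
    · exact ⟨[], [], fun h => absurd h hL⟩
  choose J K hJK using hex
  let f : Link → Finset (Bool × Fin (4 * n)) × Finset (Fin (4 * n)) := fun L =>
    (Finset.univ.filter fun y => (y.1, (y.2 : ℕ)) ∈ J L, Finset.univ.filter fun y => (y : ℕ) ∈ K L)
  have hf : Set.InjOn f S := by
    intro L hL L' hL' hLL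
    obtain ⟨d1, a1, b1, p1, q1⟩ := hJK L hL
    obtain ⟨d2, a2, b2, p2, q2⟩ := hJK L' hL'
    have hLL1 := congrArg Prod.fst hLL
    have hLL2 := congrArg Prod.snd hLL
    have hJ : J L = J L' := by
      have hmem : ∀ x, x ∈ J L ↔ x ∈ J L' := by
        intro x
        by_cases hx : x.2 < 4 * n
        · have := congrArg (fun A => (x.1, (⟨x.2, hx⟩ : Fin (4 * n))) ∈ A) hLL1
          simpa [f] using this
        · exact ⟨fun h => absurd (p1 x h) hx, fun h => absurd (p2 x h) hx⟩
      have nd1 : (J L).Nodup := a1.imp fun h e => by subst e; exact lt_irrefl _ h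
      have nd2 : (J L').Nodup := a2.imp fun h e => by subst e; exact lt_irrefl _ h
      have hperm := (List.perm_ext_iff_of_nodup nd1 nd2).2 hmem
      exact hperm.eq_of_pairwise (fun a b _ _ h h' => absurd (h.trans h') (lt_irrefl _)) a1 a2
    have hK : K L = K L' := by
      have hmem : ∀ x, x ∈ K L ↔ x ∈ K L' := by
        intro x
        by_cases hx : x < 4 * n
        · have := congrArg (fun A => (⟨x, hx⟩ : Fin (4 * n)) ∈ A) hLL2
          simpa [f] using this
        · exact ⟨fun h => absurd (q1 x h) hx, fun h => absurd (q2 x h) hx⟩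
      have nd1 : (K L).Nodup := b1.imp fun h e => by subst e; exact lt_irrefl _ h
      have nd2 : (K L').Nodup := b2.imp fun h e => by subst e; exact lt_irrefl _ h
      have hperm := (List.perm_ext_iff_of_nodup nd1 nd2).2 hmem
      exact hperm.eq_of_pairwise (fun a b _ _ h h' => absurd (h.trans h') (lt_irrefl _)) b1 b2
    rw [← hJ, ← hK] at d2
    exact isDiag_unique d1 d2
  have h1 := Set.encard_le_encard_of_injOn (t := Set.univ) (fun _ _ => Set.mem_univ _) hf
  refine h1.trans ?_
  rw [Set.encard_univ, ENat.card_eq_coe_fintype_card, Nat.cast_le]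
  simp only [Fintype.card_prod, Fintype.card_finset, Fintype.card_bool, Fintype.card_fin]
  rw [← pow_add]
  exact le_of_eq (by congr 1; ring)

end Pool.Agent.Lib.MP_131179_gt
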