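import Pool.Agent.Lib.MP_131179_gt.BlockRot

/-!
# Elimination of plain cups
-/

set_option autoImplicit false

namespace Pool.Agent.Lib.MP_131179_gt

/-- `n` strands -/
private abbrev be_UL (n : ℕ) : List Unit := List.replicate n ()

private theorem be_uext {s t : List Unit} (h : s.length = t.length) : s = t := by
  rw [List.eq_replicate_of_mem (a := ()) (l := s) (fun _ _ => rfl),
    List.eq_replicate_of_mem (a := ()) (l := t) (fun _ _ => rfl), h]

private theorem be_ul_eq (s : List Unit) : s = be_UL s.length := be_uext (by simp)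

/-- paths with `a` strands at the bottom and `b` strands at the top -/
private def be_PU (w : Word Unit) (a b : ℕ) : Prop := Path (triv Unit) w (be_UL a) (be_UL b)

/-- equivalence with `a` strands at the bottom and `b` strands at the top -/
private def be_EU (u v : Word Unit) (a b : ℕ) : Prop := Eqv (triv Unit) u v (be_UL a) (be_UL b)

private theorem be_PU.of {w : Word Unit} {s t : List Unit} (h : Path (triv Unit) w s t) :
    be_PU w s.length t.length := h.cast (be_ul_eq s) (be_ul_eq t)

private theorem be_EU.of {u v : Word Unit} {s t : List Unit} (h : Eqv (triv Unit) u v s t) :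
    be_EU u v s.length t.length := h.cast rfl rfl (be_ul_eq s) (be_ul_eq t)

private theorem be_PU.cast {w w' : Word Unit} {a b a' b' : ℕ} (h : be_PU w a b) (hw : w = w')
    (ha : a = a') (hb : b = b') : be_PU w' a' b' := by
  subst hw ha hb; exact h

private theorem be_EU.cast {u v u' v' : Word Unit} {a b a' b' : ℕ} (h : be_EU u v a b) (hu : u = u')
    (hv : v = v') (ha : a = a') (hb : b = b') : be_EU u' v' a' b' := by
  subst hu hv ha hb; exact h

private theorem be_PU.left {w : Word Unit} {a b : ℕ} (h : be_PU w a b) (k : ℕ) :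
    be_PU (shift k w) (k + a) (k + b) := by
  have h1 := be_PU.of (Path.left h (be_UL k))
  exact h1.cast (by simp) (by simp) (by simp)

private theorem be_PU.right {w : Word Unit} {a b : ℕ} (h : be_PU w a b) (k : ℕ) :
    be_PU w (a + k) (b + k) := by
  have h1 := be_PU.of (Path.right h (be_UL k))
  exact h1.cast rfl (by simp) (by simp)

private theorem be_EU.left {u v : Word Unit} {a b : ℕ} (h : be_EU u v a b) (k : ℕ) :
    be_EU (shift k u) (shift k v) (k + a) (k + b) := by
  have h1 := be_EU.of (Eqv.shift_left h (be_UL k))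
  exact h1.cast (by simp) (by simp) (by simp) (by simp)

private theorem be_EU.right {u v : Word Unit} {a b : ℕ} (h : be_EU u v a b) (k : ℕ) :
    be_EU u v (a + k) (b + k) := by
  have h1 := be_EU.of (Eqv.right h (be_UL k))
  exact h1.cast rfl rfl (by simp) (by simp)

private theorem be_PU.append {u v : Word Unit} {a b c : ℕ} (h : be_PU u a b) (h' : be_PU v b c) :
    be_PU (u ++ v) a c := Path.append h h'

private theorem be_EU.refl {w : Word Unit} {a b : ℕ} (h : be_PU w a b) : be_EU w w a b := Eqv.refl h

private theorem be_EU.symm {u v : Word Unit} {a b : ℕ} (h : be_EU u v a b) : be_EU v u a b := Eqv.symm h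

private theorem be_EU.trans {u v w : Word Unit} {a b : ℕ} (h : be_EU u v a b) (h' : be_EU v w a b) :
    be_EU u w a b := Eqv.trans h h'

private theorem be_EU.comp {u u' v v' : Word Unit} {a b c : ℕ} (h : be_EU u u' a b)
    (h' : be_EU v v' b c) : be_EU (u ++ v) (u' ++ v') a c := Eqv.comp h h'

private theorem be_EU.pl {u v : Word Unit} {a b : ℕ} (h : be_EU u v a b) : be_PU u a b := Eqv.path_left h

private theorem be_EU.pr {u v : Word Unit} {a b : ℕ} (h : be_EU u v a b) : be_PU v a b := Eqv.path_right h

private theorem be_EU.interchange {u v : Word Unit} {a b c d : ℕ} (hu : be_PU u a b) (hv : be_PU v c d) :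
    be_EU (u ++ shift b v) (shift a v ++ u) (a + c) (b + d) := by
  have h1 := be_EU.of (MP_131179_gt.interchange hu hv)
  exact h1.cast (by simp) (by simp) (by simp) (by simp)

private theorem be_PU.det {w : Word Unit} {a b b' : ℕ} (h : be_PU w a b) (h' : be_PU w a b') : b = b' := by
  have := congrArg List.length (Path.det h h')
  simpa using this

private theorem be_PU.nil (a : ℕ) : be_PU [] a a := Path.nil _

private theorem be_PU.nil_eq {a b : ℕ} (h : be_PU [] a b) : a = b := by
  have := congrArg List.length (path_nil_iff.1 h)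
  simpa using this

private theorem be_PU.split {u v : Word Unit} {a c : ℕ} (h : be_PU (u ++ v) a c) :
    ∃ b, be_PU u a b ∧ be_PU v b c := by
  obtain ⟨t, h1, h2⟩ := path_append_iff.1 h
  exact ⟨t.length, (be_PU.of h1).cast rfl (by simp) rfl, (be_PU.of h2).cast rfl rfl (by simp)⟩

/-! ### Items: caps and blocks of crossings -/

/-- the letter or block at position `0` -/
private def be_iw0 : Option Bool → Word Unit
  | none => [(.cap, 0)]
  | some b => blk (some b)

private def be_iin : Option Bool → ℕ
  | none => 2
  | some _ => 0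

private def be_iout : Option Bool → ℕ
  | none => 0
  | some _ => 4

private def be_isome : Option Bool → ℕ
  | none => 0
  | some _ => 1

private theorem be_iw0_ne (x : Option Bool) : be_iw0 x ≠ [] := by
  rcases x with _ | _ | _ <;> simp [be_iw0, blk]

private theorem be_pu_iw0 (x : Option Bool) : be_PU (be_iw0 x) (be_iin x) (be_iout x) := by
  rcases x with _ | b
  · exact path_single_iff.2 (Step.cap () [])
  · have h1 := be_PU.of (blk_path (some b) [] [])
    exact h1.cast (by simp [be_iw0]) (by simp [be_iin]) (by simp [be_iout, bsize])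

private theorem be_pu_item {x : Option Bool} {j a b : ℕ} :
    be_PU (shift j (be_iw0 x)) a b ↔ j + be_iin x ≤ a ∧ b + be_iin x = a + be_iout x := by
  constructor
  · intro h
    obtain ⟨l, s', t', hl, hs, ht, h1⟩ := (path_shift_iff (be_iw0_ne x)).1 h
    have ha : a = j + s'.length := by
      have := congrArg List.length hs
      simpa [hl] using this
    have hb : b = j + t'.length := by
      have := congrArg List.length ht
      simpa [hl] using this
    rcases x with _ | c
    · obtain ⟨c, hc⟩ := step_cap.1 (path_single_iff.1 h1)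
      have := congrArg List.length hc
      simp only [List.length_cons] at this
      simp only [be_iin, be_iout]
      omega
    · have h2 : Path (triv Unit) (be_iw0 (some c)) s' (List.replicate 4 () ++ s') := by
        have := blk_path (some c) [] s'
        simpa [be_iw0, bsize] using this
      have := congrArg List.length (Path.det h1 h2)
      simp only [List.length_append, List.length_replicate] at this
      simp only [be_iin, be_iout]
      omega
  · rintro ⟨h1, h2⟩
    obtain ⟨k, hk⟩ := Nat.exists_eq_add_of_le h1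
    have h3 := ((be_pu_iw0 x).right k).left j
    exact h3.cast rfl (by omega) (by omega)

/-- words of items -/
private def be_iws (R : List (Option Bool × ℕ)) : Word Unit := R.flatMap fun x => shift x.2 (be_iw0 x.1)

private def be_cs (R : List (Option Bool × ℕ)) : ℕ := R.countP fun x => x.1.isSome

private theorem be_iws_cons (x : Option Bool × ℕ) (R : List (Option Bool × ℕ)) :
    be_iws (x :: R) = shift x.2 (be_iw0 x.1) ++ be_iws R := by simp [be_iws]

private theorem be_iws_append (R R' : List (Option Bool × ℕ)) : be_iws (R ++ R') = be_iws R ++ be_iws R' := by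
  simp [be_iws]

private theorem be_cs_cons (x : Option Bool) (j : ℕ) (R : List (Option Bool × ℕ)) :
    be_cs ((x, j) :: R) = be_isome x + be_cs R := by
  rcases x with _ | b <;> simp [be_cs, be_isome, Nat.add_comm]

private theorem be_cs_append (R R' : List (Option Bool × ℕ)) : be_cs (R ++ R') = be_cs R + be_cs R' := by
  simp [be_cs]

private theorem be_iws_caps (K : List ℕ) : be_iws (K.map fun j => (none, j)) = caps K := by
  induction K with
  | nil => rfl
  | cons j K ih => rw [List.map_cons, be_iws_cons, ih]; simp [be_iw0, caps]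

private theorem be_cs_caps (K : List ℕ) : be_cs (K.map fun j => ((none : Option Bool), j)) = 0 := by
  induction K with
  | nil => rfl
  | cons j K ih => rw [List.map_cons, be_cs_cons, ih]; rfl

private theorem be_iws_some {R : List (Option Bool × ℕ)} (h : ∀ x ∈ R, x.1.isSome = true) :
    be_iws R = ins R := by
  induction R with
  | nil => rfl
  | cons x R ih =>
    obtain ⟨x, j⟩ := x
    have h1 := h (x, j) (by simp)
    obtain ⟨b, rfl⟩ := Option.isSome_iff_exists.1 h1
    rw [be_iws_cons, ih fun y hy => h y (by simp [hy])]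
    simp [ins, be_iw0]

private theorem be_shift_iws (k : ℕ) (R : List (Option Bool × ℕ)) :
    shift k (be_iws R) = be_iws (R.map fun x => (x.1, x.2 + k)) := by
  induction R with
  | nil => rfl
  | cons x R ih => rw [be_iws_cons, shift_append, ih, List.map_cons, be_iws_cons, shift_shift]

private theorem be_cs_map (k : ℕ) (R : List (Option Bool × ℕ)) :
    be_cs (R.map fun x => (x.1, x.2 + k)) = be_cs R := by
  simp [be_cs, List.countP_map, Function.comp_def]

private theorem be_ins_append (I I' : List (Option Bool × ℕ)) : ins (I ++ I') = ins I ++ ins I' := by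
  simp [ins]

private theorem be_ins_single (x : Option Bool) (i : ℕ) : ins [(x, i)] = shift i (blk x) := by
  simp [ins]

private theorem be_caps_append (K K' : List ℕ) : caps (K ++ K') = caps K ++ caps K' := by
  simp [caps]

/-! ### Words equivalent to insertions followed by caps -/

private def be_Pre (m n : ℕ) (A : Word Unit) (a : ℕ) : Prop :=
  ∃ (I : List (Option Bool × ℕ)) (K : List ℕ), (I.countP fun x => x.1.isNone) = m ∧ be_cs I = n ∧
    be_EU A (ins I ++ caps K) 0 a

private theorem be_Pre.pu {m n : ℕ} {A : Word Unit} {a : ℕ} (h : be_Pre m n A a) : be_PU A 0 a := by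
  obtain ⟨I, K, -, -, h1⟩ := h
  exact h1.pl

private theorem be_Pre.congr {m n : ℕ} {A A' : Word Unit} {a : ℕ} (h : be_Pre m n A' a)
    (he : be_EU A A' 0 a) : be_Pre m n A a := by
  obtain ⟨I, K, h1, h2, h3⟩ := h
  exact ⟨I, K, h1, h2, he.trans h3⟩

private theorem be_Pre.item {m n : ℕ} {A : Word Unit} {a b : ℕ} (h : be_Pre m n A a) {x : Option Bool}
    {j : ℕ} (hx : be_PU (shift j (be_iw0 x)) a b) :
    be_Pre m (n + be_isome x) (A ++ shift j (be_iw0 x)) b := by
  obtain ⟨I, K, h1, h2, h3⟩ := h
  rcases x with _ | c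
  · refine ⟨I, K ++ [j], h1, h2, ?_⟩
    have h4 := h3.comp (be_EU.refl hx)
    refine h4.cast rfl ?_ rfl rfl
    simp [caps, be_iw0]
  · obtain ⟨t, p1, p2⟩ := path_append_iff.1 h3.pr
    obtain ⟨i', K', h4⟩ := push p2 hx
    refine ⟨I ++ [(some c, i')], K', ?_, ?_, ?_⟩
    · simpa using h1
    · rw [be_cs_append, h2]; rfl
    · have h5 := h3.comp (be_EU.refl hx)
      have h6 : be_EU ((ins I ++ caps K) ++ shift j (be_iw0 (some c)))
          (ins (I ++ [(some c, i')]) ++ caps K') 0 b := by
        have h7 := Eqv.prepend p1 h4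
        refine Eqv.cast h7 ?_ ?_ rfl rfl
        · simp [be_iw0]
        · rw [be_ins_append, be_ins_single]; simp
      exact h5.trans h6

private theorem be_Pre.items {R : List (Option Bool × ℕ)} : ∀ {m n : ℕ} {A : Word Unit} {a b : ℕ},
    be_Pre m n A a → be_PU (be_iws R) a b → be_Pre m (n + be_cs R) (A ++ be_iws R) b := by
  induction R with
  | nil =>
    intro m n A a b h hR
    have : a = b := hR.nil_eq
    subst this
    simpa [be_iws, be_cs] using h
  | cons x R ih =>
    obtain ⟨x, j⟩ := x
    intro m n A a b h hR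
    rw [be_iws_cons] at hR
    obtain ⟨c, h1, h2⟩ := hR.split
    have h3 := ih (h.item h1) h2
    rw [be_iws_cons, be_cs_cons, ← List.append_assoc, ← Nat.add_assoc]
    exact h3

private theorem be_good_items {n : ℕ} {B : Word Unit} {s : List Unit} (h : Good n B s) :
    ∃ R : List (Option Bool × ℕ), be_cs R = n ∧ be_EU B (be_iws R) 0 s.length := by
  obtain ⟨J, K, h1, h2⟩ := h
  refine ⟨(J.map fun x => (some x.1, x.2)) ++ K.map fun j => (none, j), ?_, ?_⟩
  · rw [be_cs_append, be_cs_caps, Nat.add_zero, ← h1]
    simp [be_cs, List.countP_map, Function.comp_def, List.countP_true]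
  · rw [be_iws_append, be_iws_caps, be_iws_some fun x hx => by
      obtain ⟨y, -, rfl⟩ := List.mem_map.1 hx
      rfl]
    exact be_EU.of h2

private theorem be_Pre.good {m n n' p q r : ℕ} {A B : Word Unit} (h : be_Pre m n A (p + r))
    (hB : Good n' B (be_UL q)) : be_Pre m (n + n') (A ++ shift p B) (p + q + r) := by
  obtain ⟨R, hR, he⟩ := be_good_items hB
  have he' : be_EU (shift p B) (shift p (be_iws R)) (p + r) (p + q + r) :=
    ((he.left p).right r).cast rfl rfl (by omega) (by simp)
  have h1 : be_PU (be_iws (R.map fun x => (x.1, x.2 + p))) (p + r) (p + q + r) := by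
    rw [← be_shift_iws]; exact he'.pr
  have h2 := h.items h1
  rw [be_cs_map, hR, ← be_shift_iws] at h2
  exact h2.congr ((be_EU.refl h.pu).comp he')

private theorem Good.item {n : ℕ} {B : Word Unit} {a b : ℕ} (h : Good n B (be_UL a))
    {x : Option Bool} {j : ℕ} (hx : be_PU (shift j (be_iw0 x)) a b) :
    Good (n + be_isome x) (B ++ shift j (be_iw0 x)) (be_UL b) := by
  obtain ⟨J, K, h1, h2⟩ := h
  rcases x with _ | c
  · refine ⟨J, K ++ [j], h1, ?_⟩
    have h4 := Eqv.append h2 hx
    refine h4.cast rfl ?_ rfl rfl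
    simp [caps, be_iw0]
  · obtain ⟨t, p1, p2⟩ := path_append_iff.1 h2.path_right
    obtain ⟨i', K', h4⟩ := push p2 hx
    refine ⟨J ++ [(c, i')], K', ?_, ?_⟩
    · simp [h1, be_isome]
    · have h5 := Eqv.append h2 hx
      have h6 : Eqv (triv Unit) ((ex J ++ caps K) ++ shift j (be_iw0 (some c)))
          (ex (J ++ [(c, i')]) ++ caps K') [] (be_UL b) := by
        have h7 := Eqv.prepend p1 h4
        refine Eqv.cast h7 ?_ ?_ rfl rfl
        · simp [be_iw0]
        · simp [ex, ins]
      exact h5.trans h6

private theorem be_good_nil : Good 0 [] (be_UL 0) := ⟨[], [], rfl, Eqv.refl (Path.nil _)⟩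

private theorem Good.pu {n : ℕ} {B : Word Unit} {q : ℕ} (h : Good n B (be_UL q)) : be_PU B 0 q := by
  obtain ⟨J, K, -, h1⟩ := h
  exact h1.path_left

/-! ### A blob under a cup -/

/-- a blob between the ends of a cup -/
private def be_cupB (B : Word Unit) : Word Unit := (.cup (), 0) :: shift 1 B

private theorem be_pu_cup (a j : ℕ) (h : j ≤ a) : be_PU [(.cup (), j)] a (a + 2) := by
  obtain ⟨k, rfl⟩ := Nat.exists_eq_add_of_le h
  have h1 : be_PU [(.cup (), 0)] 0 2 := path_single_iff.2 (Step.cup () [])
  have h2 := (h1.right k).left j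
  exact h2.cast (by simp [shift]) (by omega) (by omega)

private theorem be_pu_cap (a j : ℕ) (h : j ≤ a) : be_PU [(.cap, j)] (a + 2) a := by
  obtain ⟨k, rfl⟩ := Nat.exists_eq_add_of_le h
  have h1 : be_PU [(.cap, 0)] 2 0 := path_single_iff.2 (Step.cap () [])
  have h2 := (h1.right k).left j
  exact h2.cast (by simp [shift]) (by omega) (by omega)

private theorem be_pu_cupB {B : Word Unit} {q : ℕ} (h : be_PU B 0 q) : be_PU (be_cupB B) 0 (q + 2) := by
  have h1 := (be_pu_cup 0 0 le_rfl).append (((h.left 1).right 1).cast rfl (by omega) rfl)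
  exact h1.cast rfl rfl (by omega)

private theorem be_zig_case {B : Word Unit} {q : ℕ} (h : be_PU B 0 q) :
    be_EU (shift 1 (be_cupB B) ++ [(.cap, 0)]) B 1 (q + 1) := by
  have h1 : be_EU ([(.cap, 0)] ++ B) (shift 2 B ++ [(.cap, 0)]) 3 (q + 1) :=
    ((be_EU.interchange (be_pu_cap 0 0 le_rfl) h).right 1).cast (by simp) rfl (by omega) (by omega)
  have h2 : be_EU [(.cup (), 1), (.cap, 0)] [] 1 1 :=
    Eqv.base (Base.zig ()) (path_zig.2 ⟨rfl, [], rfl⟩) (Path.nil _)
  have h3 : be_EU ([(.cup (), 1)] ++ (shift 2 B ++ [(.cap, 0)])) ([(.cup (), 1)] ++ ([(.cap, 0)] ++ B))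
      1 (q + 1) := (be_EU.refl (be_pu_cup 1 1 le_rfl)).comp h1.symm
  have h4 : be_EU ([(.cup (), 1), (.cap, 0)] ++ B) ([] ++ B) 1 (q + 1) :=
    h2.comp (be_EU.refl ((h.right 1).cast rfl (by omega) rfl))
  refine (h3.trans h4).cast ?_ rfl rfl rfl
  simp [be_cupB, shift_shift]

private theorem be_zag_case {B : Word Unit} {q : ℕ} (h : be_PU B 0 q) :
    be_EU (be_cupB B ++ [(.cap, q + 1)]) (shift 1 B) 1 (q + 1) := by
  have h1 : be_EU (shift 1 B ++ [(.cap, q + 1)]) ([(.cap, 1)] ++ shift 1 B) 3 (q + 1) :=
    ((be_EU.interchange h (be_pu_cap 0 0 le_rfl)).left 1).cast (by simp [shift, Nat.add_comm])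
      (by simp) (by omega) (by omega)
  have h2 : be_EU [(.cup (), 0), (.cap, 1)] [] 1 1 :=
    Eqv.base (Base.zag ()) (path_zag.2 ⟨rfl, [], rfl⟩) (Path.nil _)
  have h3 : be_EU ([(.cup (), 0)] ++ (shift 1 B ++ [(.cap, q + 1)]))
      ([(.cup (), 0)] ++ ([(.cap, 1)] ++ shift 1 B)) 1 (q + 1) :=
    (be_EU.refl (be_pu_cup 1 0 (by omega))).comp h1
  have h4 : be_EU ([(.cup (), 0), (.cap, 1)] ++ shift 1 B) ([] ++ shift 1 B) 1 (q + 1) :=
    h2.comp (be_EU.refl ((h.left 1).cast rfl (by omega) (by omega)))
  refine (h3.trans h4).cast ?_ rfl rfl rfl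
  simp [be_cupB]

/-- a closed word can be moved across the strands at its left -/
private theorem be_closed_left {B : Word Unit} (h : be_PU B 0 0) (k : ℕ) :
    be_EU (shift k B) B k k := by
  induction k with
  | zero => exact (be_EU.refl h).cast (by simp) rfl rfl rfl
  | succ k ih =>
    have h1 : be_EU (shift 1 B) B 1 1 := by
      have := slide () h
      refine Eqv.cast this ?_ ?_ rfl rfl
      · simp [ovr]
      · simp [ovr]
    have h2 : be_EU (shift (k + 1) B) (shift k B) (k + 1) (k + 1) :=
      (h1.left k).cast (by rw [shift_shift, Nat.add_comm]) rfl rfl rfl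
    exact h2.trans (ih.right 1)

private theorem be_circle_case {B : Word Unit} (h : be_PU B 0 0) :
    be_EU (be_cupB B ++ [(.cap, 0)]) (B ++ [(.cup (), 0), (.cap, 0)]) 0 0 := by
  have h1 : be_EU (shift 1 B) B 2 2 := (be_closed_left h 1).right 1
  have h2 : be_EU (B ++ [(.cup (), 0)]) ([(.cup (), 0)] ++ B) 0 2 :=
    (be_EU.interchange h (be_pu_cup 0 0 le_rfl)).cast (by simp) (by simp) rfl (by omega)
  have h3 : be_EU ([(.cup (), 0)] ++ shift 1 B) (B ++ [(.cup (), 0)]) 0 2 :=
    ((be_EU.refl (be_pu_cup 0 0 le_rfl)).comp h1).trans h2.symm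
  have h4 := h3.comp (be_EU.refl (be_pu_cap 0 0 le_rfl))
  exact h4.cast (by simp [be_cupB]) (by simp) rfl rfl

private theorem be_diag_congr {u v : Word Unit} {L : Link} (h : be_EU u v 0 0) (h1 : IsDiag u L) :
    IsDiag v L := isDiag_of_eqv h h1

/-- **Elimination of a cup.** -/
private theorem be_elim {L : Link} (hs : ¬ IsSplit L) (hu : L ≠ unknot)
    (R : List (Option Bool × ℕ)) : ∀ (m n n' p q r : ℕ) (A B : Word Unit),
    be_Pre m n A (p + r) → Good n' B (be_UL q) →
    IsDiag (A ++ (shift p (be_cupB B) ++ be_iws R)) L →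
    ∃ A' : Word Unit, be_Pre m (n + n' + be_cs R) A' 0 ∧ IsDiag A' L := by
  induction R with
  | nil =>
    intro m n n' p q r A B hA hB hd
    exfalso
    have h1 : be_PU (A ++ (shift p (be_cupB B) ++ be_iws [])) 0 0 := hd.path
    obtain ⟨a, h2, h3⟩ := h1.split
    obtain ⟨b, h4, h5⟩ := h3.split
    have e1 : a = p + r := h2.det hA.pu
    subst e1
    have h6 : be_PU (shift p (be_cupB B)) (p + r) (p + (q + 2) + r) :=
      (((be_pu_cupB hB.pu).left p).right r).cast rfl (by omega) rfl
    have e2 := h4.det h6
    have e3 := h5.nil_eq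
    omega
  | cons x R ih =>
    obtain ⟨x, j⟩ := x
    intro m n n' p q r A B hA hB hd
    rw [be_iws_cons] at hd
    have hcB : be_PU (be_cupB B) 0 (q + 2) := be_pu_cupB hB.pu
    have h6 : be_PU (shift p (be_cupB B)) (p + r) (p + (q + 2) + r) :=
      ((hcB.left p).right r).cast rfl (by omega) rfl
    obtain ⟨c, h7, h8⟩ : ∃ c, be_PU (shift j (be_iw0 x)) (p + (q + 2) + r) c ∧ be_PU (be_iws R) c 0 := by
      have h1 : be_PU (A ++ (shift p (be_cupB B) ++ (shift j (be_iw0 x) ++ be_iws R))) 0 0 := hd.path
      obtain ⟨a, h2, h3⟩ := h1.split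
      obtain ⟨b, h4, h5⟩ := h3.split
      have e1 : a = p + r := h2.det hA.pu
      subst e1
      have e2 := h4.det h6
      subst e2
      exact h5.split
    obtain ⟨g1, g2⟩ := be_pu_item.1 h7
    have hcs : be_cs ((x, j) :: R) = be_isome x + be_cs R := be_cs_cons x j R
    rw [hcs]
    -- when the cup is gone
    have gone : ∀ (k q' r' : ℕ) (B' : Word Unit), Good n' B' (be_UL q') → p + r = k + r' →
        c = k + q' + r' → be_isome x = 0 →
        be_EU (shift p (be_cupB B) ++ shift j (be_iw0 x)) (shift k B') (p + r) c →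
        ∃ A' : Word Unit, be_Pre m (n + n' + (be_isome x + be_cs R)) A' 0 ∧ IsDiag A' L := by
      intro k q' r' B' hB' e1 e2 e3 he
      refine ⟨(A ++ shift k B') ++ be_iws R, ?_, ?_⟩
      · rw [e3, Nat.zero_add]
        rw [e1] at hA
        have h9 := hA.good hB'
        rw [← e2] at h9
        exact h9.items h8
      · refine be_diag_congr ?_ hd
        have h9 := (be_EU.refl hA.pu).comp (he.comp (be_EU.refl h8))
        exact h9.cast (by simp) (by simp) rfl rfl
    by_cases c1 : j + be_iin x ≤ p
    · -- the item is at the left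
      obtain ⟨p', hp'⟩ : ∃ p', p' + be_iin x = p + be_iout x := ⟨p + be_iout x - be_iin x, by omega⟩
      have h9 : be_PU (shift j (be_iw0 x)) p p' := be_pu_item.2 ⟨c1, hp'⟩
      have h10 : be_EU (shift j (be_iw0 x) ++ shift p' (be_cupB B)) (shift p (be_cupB B) ++ shift j (be_iw0 x))
          (p + r) c :=
        ((be_EU.interchange h9 hcB).right r).cast rfl rfl (by omega) (by omega)
      have h11 : be_PU (shift j (be_iw0 x)) (p + r) (p' + r) := h9.right r
      have h12 := ih m (n + be_isome x) n' p' q r (A ++ shift j (be_iw0 x)) B (hA.item h11) hB ?_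
      · obtain ⟨A', h13, h14⟩ := h12
        refine ⟨A', ?_, h14⟩
        have e : n + be_isome x + n' + be_cs R = n + n' + (be_isome x + be_cs R) := by omega
        rwa [e] at h13
      · refine be_diag_congr ?_ hd
        have h13 := (be_EU.refl hA.pu).comp (h10.symm.comp (be_EU.refl h8))
        exact h13.cast (by simp) (by simp) rfl rfl
    by_cases c2 : p + q + 2 ≤ j
    · -- the item is at the right
      obtain ⟨j', rfl⟩ := Nat.exists_eq_add_of_le c2
      obtain ⟨r', hr'⟩ : ∃ r', r' + be_iin x = r + be_iout x := ⟨r + be_iout x - be_iin x, by omega⟩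
      have h9 : be_PU (shift j' (be_iw0 x)) r r' := be_pu_item.2 ⟨by omega, hr'⟩
      have h10 : be_EU (shift p (be_cupB B) ++ shift (p + q + 2 + j') (be_iw0 x))
          (shift p (shift j' (be_iw0 x)) ++ shift p (be_cupB B)) (p + r) c :=
        (be_EU.interchange ((hcB.left p).cast rfl (Nat.add_zero p) rfl) h9).cast
          (by rw [shift_shift]; congr 2; omega) rfl rfl (by omega)
      rw [shift_shift] at h10
      have h11 : be_PU (shift (j' + p) (be_iw0 x)) (p + r) (p + r') :=
        (h9.left p).cast (by rw [shift_shift]) rfl rfl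
      have h12 := ih m (n + be_isome x) n' p q r' (A ++ shift (j' + p) (be_iw0 x)) B (hA.item h11) hB ?_
      · obtain ⟨A', h13, h14⟩ := h12
        refine ⟨A', ?_, h14⟩
        have e : n + be_isome x + n' + be_cs R = n + n' + (be_isome x + be_cs R) := by omega
        rwa [e] at h13
      · refine be_diag_congr ?_ hd
        have h13 := (be_EU.refl hA.pu).comp (h10.comp (be_EU.refl h8))
        exact h13.cast (by simp) (by simp) rfl rfl
    by_cases c3 : p + 1 ≤ j ∧ j + be_iin x ≤ p + 1 + q
    · -- the item is inside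
      obtain ⟨j', rfl⟩ := Nat.exists_eq_add_of_le c3.1
      obtain ⟨q', hq'⟩ : ∃ q', q' + be_iin x = q + be_iout x := ⟨q + be_iout x - be_iin x, by omega⟩
      have h9 : be_PU (shift j' (be_iw0 x)) q q' := be_pu_item.2 ⟨by omega, hq'⟩
      have h10 : shift p (be_cupB B) ++ shift (p + 1 + j') (be_iw0 x) =
          shift p (be_cupB (B ++ shift j' (be_iw0 x))) := by
        have e0 : p + 1 + j' = j' + 1 + p := by omega
        rw [e0]
        simp only [be_cupB, shift_cons, shift_append, shift_shift, List.cons_append]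
      have h12 := ih m n (n' + be_isome x) p q' r A (B ++ shift j' (be_iw0 x)) hA (hB.item h9) ?_
      · obtain ⟨A', h13, h14⟩ := h12
        refine ⟨A', ?_, h14⟩
        have e : n + (n' + be_isome x) + be_cs R = n + n' + (be_isome x + be_cs R) := by omega
        rwa [e] at h13
      · rw [← h10]
        simpa using hd
    -- the item is a cap at an end of the cup
    rcases x with _ | b
    swap
    · exfalso
      simp only [be_iin] at c1 c3
      omega
    simp only [be_iin, be_iout, Nat.add_zero] at g1 g2 c1 c3
    have hx0 : shift j (be_iw0 none) = [(.cap, j)] := by simp [be_iw0, shift]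
    rw [hx0] at gone
    by_cases c4 : j + 1 = p
    · subst c4
      have h9 := be_zig_case hB.pu
      refine gone j q (1 + r) B hB (by omega) (by omega) rfl ?_
      exact ((h9.left j).right r).cast (by simp [shift_shift, Nat.add_comm]) rfl (by omega)
        (by omega)
    by_cases c5 : j = p
    · subst c5
      rcases Nat.eq_zero_or_pos q with hq | hq
      · -- a circle
        exfalso
        subst hq
        have hB0 : be_PU B 0 0 := hB.pu
        have h9 : be_EU (shift j (be_cupB B) ++ [(.cap, j)])
            (shift j B ++ shift j [(.cup (), 0), (.cap, 0)]) (j + r) c :=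
          (((be_circle_case hB0).left j).right r).cast (by simp [shift]) (by simp) (by omega)
            (by omega)
        have hc0 : be_PU [(.cup (), 0), (.cap, 0)] 0 0 :=
          (be_pu_cup 0 0 le_rfl).append (be_pu_cap 0 0 le_rfl)
        have hcc : c = j + r := by omega
        have hjB : be_PU (shift j B) (j + r) (j + r) :=
          ((hB0.left j).right r).cast rfl (by omega) (by omega)
        have h10 : be_EU (shift j [(.cup (), 0), (.cap, 0)]) [(.cup (), 0), (.cap, 0)] (j + r) c :=
          ((be_closed_left hc0 j).right r).cast rfl rfl rfl hcc.symm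
        have h11 : be_EU (shift j (be_cupB B) ++ [(.cap, j)])
            (shift j B ++ [(.cup (), 0), (.cap, 0)]) (j + r) c :=
          h9.trans ((be_EU.refl hjB).comp h10)
        have hAB : be_PU (A ++ shift j B) 0 (j + r) := hA.pu.append hjB
        have h12 : be_EU ([(.cup (), 0), (.cap, 0)] ++ (A ++ shift j B))
            ((A ++ shift j B) ++ [(.cup (), 0), (.cap, 0)]) 0 c :=
          (be_EU.interchange hc0 hAB).cast (by simp) (by simp) rfl (by omega)
        rw [hx0] at hd
        have h13 : be_EU (A ++ (shift j (be_cupB B) ++ [(.cap, j)]))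
            ([(.cup (), 0), (.cap, 0)] ++ (A ++ shift j B)) 0 c := by
          refine ((be_EU.refl hA.pu).comp h11).trans ?_
          exact h12.symm.cast (by simp) rfl rfl rfl
        have h14 : IsDiag ([(.cup (), 0), (.cap, 0)] ++ ((A ++ shift j B) ++ be_iws R)) L := by
          refine be_diag_congr ?_ hd
          exact (h13.comp (be_EU.refl h8)).cast (by simp) (by simp) rfl rfl
        have h15 : be_PU ((A ++ shift j B) ++ be_iws R) 0 0 :=
          hAB.append (h8.cast rfl hcc rfl)
        by_cases hD : (A ++ shift j B) ++ be_iws R = []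
        · rw [hD, List.append_nil] at h14
          exact hu (h14.unique isDiag_unknot)
        · exact hs ⟨[(.cup (), 0), (.cap, 0)], _, by simp, hD, hc0, h15, h14⟩
      · obtain ⟨q', rfl⟩ := Nat.exists_eq_add_of_le' hq
        have h9 : Good n' (rotR B) (be_UL (q' + 1)) := by
          have h10 : Good n' B (() :: be_UL q') := hB
          have h11 := good_rotR h10
          have e : be_UL q' ++ [()] = be_UL (q' + 1) := be_uext (by simp)
          rwa [e] at h11
        have e : shift j (be_cupB B) ++ [(.cap, j)] = shift j (rotR B) := by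
          simp [be_cupB, rotR, shift]
        refine gone j (q' + 1) r (rotR B) h9 rfl (by omega) rfl ?_
        rw [e]
        refine be_EU.refl ?_
        rw [← e]
        exact h6.append (h7.cast hx0 rfl rfl)
    by_cases c6 : j = p + q
    · -- the last end of the blob
      have hq : 1 ≤ q := by omega
      obtain ⟨q', rfl⟩ := Nat.exists_eq_add_of_le' hq
      have h9 : Good n' (rotL (q' + 1) B) (be_UL (q' + 1)) := by
        have e : be_UL (q' + 1) = be_UL q' ++ [()] := be_uext (by simp)
        have h10 : Good n' B (be_UL q' ++ [()]) := by rw [← e]; exact hB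
        have h11 := good_rotL h10
        have e2 : (be_UL q').length + 1 = q' + 1 := by simp
        rw [e2] at h11
        exact h11
      have e : shift p (be_cupB B) ++ [(.cap, j)] = shift p (rotL (q' + 1) B) := by
        rw [c6]
        simp [be_cupB, rotL, shift, Nat.add_comm]
      refine gone p (q' + 1) r (rotL (q' + 1) B) h9 rfl (by omega) rfl ?_
      rw [e]
      refine be_EU.refl ?_
      rw [← e]
      exact h6.append (h7.cast hx0 rfl rfl)
    · have c7 : j = p + (q + 1) := by omega
      have hr : 1 ≤ r := by omega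
      obtain ⟨r', rfl⟩ := Nat.exists_eq_add_of_le' hr
      have h9 := be_zag_case hB.pu
      refine gone (p + 1) q r' B hB (by omega) (by omega) rfl ?_
      refine ((h9.left p).right r').cast ?_ (by rw [shift_shift, Nat.add_comm]) (by omega)
        (by omega)
      rw [c7]
      simp [shift, Nat.add_comm]

private theorem be_split_last {m : ℕ} {I : List (Option Bool × ℕ)}
    (h : (I.countP fun x => x.1.isNone) = m + 1) :
    ∃ (I' : List (Option Bool × ℕ)) (p : ℕ) (I'' : List (Option Bool × ℕ)),
      I = I' ++ (none, p) :: I'' ∧ (∀ x ∈ I'', x.1.isSome = true) ∧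
      (I'.countP fun x => x.1.isNone) = m := by
  induction I using List.reverseRecOn with
  | nil => simp at h
  | append_singleton I x ih =>
    obtain ⟨x, p⟩ := x
    rcases x with _ | b
    · refine ⟨I, p, [], by simp, by simp, ?_⟩
      simpa using h
    · have h1 : (I.countP fun x => x.1.isNone) = m + 1 := by simpa using h
      obtain ⟨I', p', I'', rfl, h2, h3⟩ := ih h1
      refine ⟨I', p', I'' ++ [(some b, p)], by simp, ?_, h3⟩
      intro y hy
      rcases List.mem_append.1 hy with hy | hy
      · exact h2 y hy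
      · simp only [List.mem_singleton] at hy
        subst hy
        rfl

private theorem be_all_some {I : List (Option Bool × ℕ)} (h : (I.countP fun x => x.1.isNone) = 0) :
    ∃ J : List (Bool × ℕ), J.length = be_cs I ∧ ex J = ins I := by
  induction I with
  | nil => exact ⟨[], rfl, rfl⟩
  | cons x I ih =>
    obtain ⟨x, p⟩ := x
    rcases x with _ | b
    · simp at h
    · have h1 : (I.countP fun x => x.1.isNone) = 0 := by simpa using h
      obtain ⟨J, h2, h3⟩ := ih h1
      refine ⟨(b, p) :: J, ?_, ?_⟩
      · rw [be_cs_cons, List.length_cons, h2, be_isome]; omega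
      · simp only [ex, ins, List.map_cons, List.flatMap_cons] at h3 ⊢
        rw [h3]

private theorem be_finish {L : Link} (hs : ¬ IsSplit L) (hu : L ≠ unknot) (m : ℕ) :
    ∀ (n : ℕ) (A : Word Unit), be_Pre m n A 0 → IsDiag A L →
    ∃ (J : List (Bool × ℕ)) (K : List ℕ), J.length = n ∧ IsDiag (ex J ++ caps K) L := by
  induction m with
  | zero =>
    rintro n A ⟨I, K, h1, h2, h3⟩ hA
    obtain ⟨J, h4, h5⟩ := be_all_some h1
    exact ⟨J, K, by rw [h4, h2], by rw [h5]; exact be_diag_congr h3 hA⟩
  | succ m ih =>
    rintro n A ⟨I, K, h1, h2, h3⟩ hA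
    obtain ⟨I', p, I'', rfl, h4, h5⟩ := be_split_last h1
    have hd := be_diag_congr h3 hA
    have e : ins (I' ++ (none, p) :: I'') ++ caps K =
        ins I' ++ (shift p (be_cupB []) ++ be_iws (I'' ++ K.map fun j => (none, j))) := by
      rw [be_ins_append, be_iws_append, be_iws_caps, be_iws_some h4]
      simp [ins, blk, be_cupB, shift]
    rw [e] at hd h3
    obtain ⟨a, h6, h7⟩ := (show be_PU _ 0 0 from h3.pr).split
    obtain ⟨b, h8, h9⟩ := h7.split
    have h10 : p ≤ a := by
      have h11 : shift p (be_cupB []) ≠ ([] : Word Unit) := by simp [be_cupB]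
      have := path_shift_length (by simp [be_cupB]) h8
      simpa using this
    obtain ⟨r, rfl⟩ := Nat.exists_eq_add_of_le h10
    have hpre : be_Pre m (be_cs I') (ins I') (p + r) :=
      ⟨I', [], h5, rfl, (be_EU.refl h6).cast rfl (by simp [caps]) rfl rfl⟩
    obtain ⟨A', h11, h12⟩ := be_elim hs hu _ m (be_cs I') 0 p 0 r (ins I') [] hpre be_good_nil hd
    have e2 : be_cs I' + 0 + be_cs (I'' ++ K.map fun j => (none, j)) = n := by
      rw [← h2, be_cs_append, be_cs_append, be_cs_caps, be_cs_cons, be_isome]
      omega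
    rw [e2] at h11
    exact ih n A' h11 h12

theorem exists_good {w : Word Unit} {L : Link} (hw : IsDiag w L) (hs : ¬ IsSplit L)
    (hu : L ≠ unknot) (he : L ≠ emptyLink) :
    ∃ (J : List (Bool × ℕ)) (K : List ℕ), J.length = cr w ∧ IsDiag (ex J ++ caps K) L := by
  have _ := he
  obtain ⟨I, K, h1, h2⟩ := exists_ins_caps hw.path
  exact be_finish hs hu _ (cr w) w ⟨I, K, rfl, h1, h2⟩ hw

end Pool.Agent.Lib.MP_131179_gt
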