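import Pool.Agent.Lib.MP_131179_gt.Block

/-!
# Rotation of blobs

A blob is a word from no strands to some strands which is equivalent to insertions of crossings (no plain
cups) followed by caps.  The first (last) end of a blob can be moved below the blob to the other side.
-/

set_option autoImplicit false

namespace Pool.Agent.Lib.MP_131179_gt

/-- A blob with `n` crossings. -/
def Good (n : ℕ) (B : Word Unit) (s : List Unit) : Prop :=
  ∃ (J : List (Bool × ℕ)) (K : List ℕ), J.length = n ∧
    Eqv (triv Unit) B (ex J ++ caps K) [] s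

/-- Move the first end below the blob to the right. -/
def rotR (B : Word Unit) : Word Unit := (.cup (), 0) :: (shift 1 B ++ [(.cap, 0)])

/-- Move the last end below the blob to the left; `k` is the number of ends. -/
def rotL (k : ℕ) (B : Word Unit) : Word Unit := (.cup (), 0) :: (shift 1 B ++ [(.cap, k)])

/-! ### Unlabelled paths -/

theorem br_unit_ext {s t : List Unit} (h : s.length = t.length) : s = t :=
  List.ext_getElem h fun _ _ _ => rfl

theorem br_step_unit {k : Kind Unit} {i : ℕ} {s t : List Unit} :
    Step (triv Unit) k i s t ↔ i + k.inn ≤ s.length ∧ t.length + k.inn = s.length + k.out := by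
  constructor
  · intro h
    induction h with
    | cup c s => simp [Kind.inn, Kind.out]
    | cap c s => simp [Kind.inn, Kind.out]
    | pos a b s => simp [Kind.inn, Kind.out]
    | neg a b s => simp [Kind.inn, Kind.out]
    | there a _ ih =>
      simp only [List.length_cons]
      omega
  · induction i generalizing s t with
    | zero =>
      rintro ⟨h1, h2⟩
      cases k with
      | cup c =>
        have : t = () :: () :: s := br_unit_ext (by simp [Kind.inn, Kind.out] at h2 ⊢; omega)
        rw [this]; exact Step.cup _ _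
      | cap =>
        have : s = () :: () :: t := br_unit_ext (by simp [Kind.inn, Kind.out] at h2 ⊢; omega)
        rw [this]; exact Step.cap _ _
      | pos =>
        obtain ⟨r, rfl⟩ : ∃ r : List Unit, s = () :: () :: r :=
          ⟨List.replicate (s.length - 2) (), br_unit_ext (by simp [Kind.inn] at h1 ⊢; omega)⟩
        have h5 : t = () :: () :: r :=
          br_unit_ext (by simp [Kind.inn, Kind.out] at h1 h2 ⊢; omega)
        rw [h5]; exact Step.pos _ _ _
      | neg =>
        obtain ⟨r, rfl⟩ : ∃ r : List Unit, s = () :: () :: r :=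
          ⟨List.replicate (s.length - 2) (), br_unit_ext (by simp [Kind.inn] at h1 ⊢; omega)⟩
        have h5 : t = () :: () :: r :=
          br_unit_ext (by simp [Kind.inn, Kind.out] at h1 h2 ⊢; omega)
        rw [h5]; exact Step.neg _ _ _
    | succ i ih =>
      rintro ⟨h1, h2⟩
      cases s with
      | nil => simp at h1
      | cons a s =>
        cases t with
        | nil =>
          simp only [List.length_cons, List.length_nil] at h1 h2
          cases k <;> (simp [Kind.inn, Kind.out] at h1 h2; try omega)
        | cons b t =>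
          simp only [List.length_cons] at h1 h2
          exact Step.there _ (ih ⟨by omega, by omega⟩)

/-- Unlabelled words, by numbers of strands. -/
def br_PathN : Word Unit → ℕ → ℕ → Prop
  | [], m, n => m = n
  | (k, i) :: w, m, n => i + k.inn ≤ m ∧ br_PathN w (m - k.inn + k.out) n

theorem br_path_unit {w : Word Unit} {s t : List Unit} :
    Path (triv Unit) w s t ↔ br_PathN w s.length t.length := by
  induction w generalizing s with
  | nil => simpa [path_nil_iff, br_PathN] using ⟨fun h => by rw [h], br_unit_ext⟩
  | cons x w ih =>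
    obtain ⟨k, i⟩ := x
    rw [path_cons_iff, br_PathN]
    constructor
    · rintro ⟨r, h1, h2⟩
      have h3 := br_step_unit.1 h1
      have h4 := ih.1 h2
      refine ⟨h3.1, ?_⟩
      have : s.length - k.inn + k.out = r.length := by omega
      rwa [this]
    · rintro ⟨h1, h2⟩
      refine ⟨List.replicate (s.length - k.inn + k.out) (), br_step_unit.2 ⟨h1, ?_⟩, ih.2 ?_⟩
      · simp; omega
      · simpa using h2

theorem br_pathN_append {u v : Word Unit} {m n : ℕ} :
    br_PathN (u ++ v) m n ↔ ∃ p, br_PathN u m p ∧ br_PathN v p n := by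
  have h := path_append_iff (P := triv Unit) (u := u) (v := v) (s := List.replicate m ())
    (r := List.replicate n ())
  simp only [br_path_unit, List.length_replicate] at h
  rw [h]
  exact ⟨fun ⟨t, h⟩ => ⟨t.length, h⟩, fun ⟨p, h⟩ => ⟨List.replicate p (), by simpa using h⟩⟩

/-- Two lists of units with the same length. -/
theorem br_eqv_unit_cast {u v u' v' : Word Unit} {s t s' t' : List Unit}
    (h : Eqv (triv Unit) u v s t) (hu : u = u') (hv : v = v') (hs : s.length = s'.length)
    (ht : t.length = t'.length) : Eqv (triv Unit) u' v' s' t' :=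
  h.cast hu hv (br_unit_ext hs) (br_unit_ext ht)

theorem br_path_len {w : Word Unit} {s t s' t' : List Unit} (h : Path (triv Unit) w s t)
    (hs : s.length = s'.length) (ht : t.length = t'.length) : Path (triv Unit) w s' t' :=
  h.cast (br_unit_ext hs) (br_unit_ext ht)

/-! ### Rotation to the right -/

theorem br_rotR_congr {B B' : Word Unit} {s : List Unit} (h : Eqv (triv Unit) B B' [] (() :: s)) :
    Eqv (triv Unit) (rotR B) (rotR B') [] (s ++ [()]) := by
  have e := (h.right [()]).shift_left [()]
  have a : Path (triv Unit) [(.cup (), 0)] [] [(), ()] := by simp [br_path_unit, br_PathN, Kind.inn, Kind.out]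
  have c : Path (triv Unit) [(.cap, 0)] (() :: ((() :: s) ++ [()])) (s ++ [()]) := by
    simp [br_path_unit, br_PathN, Kind.inn, Kind.out]
  exact Eqv.context a e c

theorem br_rotR_path {B : Word Unit} {s : List Unit} (h : Path (triv Unit) B [] (() :: s)) :
    Path (triv Unit) (rotR B) [] (s ++ [()]) := (br_rotR_congr (Eqv.refl h)).path_left

theorem br_rotR_append {B v : Word Unit} {t s : List Unit} (hB : Path (triv Unit) B [] (() :: t))
    (hv : Path (triv Unit) v t s) :
    Eqv (triv Unit) (rotR (B ++ shift 1 v)) (rotR B ++ v) [] (s ++ [()]) := by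
  have c : Path (triv Unit) [(.cap, 0)] [(), ()] [] := by simp [br_path_unit, br_PathN, Kind.inn, Kind.out]
  have e := interchange c (hv.right [()])
  have a : Path (triv Unit) ((.cup (), 0) :: shift 1 B) [] ([(), ()] ++ (t ++ [()])) := by
    refine br_path_len (Path.append (u := [(.cup (), 0)]) (t := [(), ()]) ?_
      ((hB.right [()]).left [()])) rfl (by simp)
    simp [br_path_unit, br_PathN, Kind.inn, Kind.out]
  exact ((e.prepend a).symm).cast (by simp [rotR, shift_shift]) (by simp [rotR]) rfl rfl

theorem br_rotR_rotR {B : Word Unit} {s : List Unit} (hB : Path (triv Unit) B [] (() :: () :: s)) :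
    Eqv (triv Unit) (rotR (rotR B) ++ [(.cap, s.length)]) (B ++ [(.cap, 0)]) [] s := by
  have hu : Path (triv Unit) (shift 2 B ++ [(.cap, 1), (.cap, 0)]) [(), ()] s := by
    refine Path.append (t := [(), ()] ++ (() :: () :: s)) (hB.left [(), ()]) ?_
    simp [br_path_unit, br_PathN, Kind.inn, Kind.out]
  have hc : Path (triv Unit) [(.cap, 0)] [(), ()] [] := by simp [br_path_unit, br_PathN, Kind.inn, Kind.out]
  have e1 := interchange hu hc
  have a1 : Path (triv Unit) [(.cup (), 0), (.cup (), 1)] [] ([(), ()] ++ [(), ()]) := by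
    simp [br_path_unit, br_PathN, Kind.inn, Kind.out]
  have f1 := e1.prepend a1
  -- zag
  have z1 : Eqv (triv Unit) [(.cup (), 1), (.cap, 2)] [] [(), ()] [(), ()] :=
    Eqv.move 1 (Base.zag ()) (by simp [br_path_unit, br_PathN, Kind.inn, Kind.out])
      (by simp [br_path_unit, br_PathN])
  have a2 : Path (triv Unit) [(.cup (), 0)] [] [(), ()] := by simp [br_path_unit, br_PathN, Kind.inn, Kind.out]
  have f2 := Eqv.context a2 z1 hu
  -- commute
  have e3 := interchange a2 hB
  have b3 : Path (triv Unit) [(.cap, 1), (.cap, 0)] ([(), ()] ++ (() :: () :: s)) s := by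
    simp [br_path_unit, br_PathN, Kind.inn, Kind.out]
  have f3 := e3.append b3
  have z4 : Eqv (triv Unit) [(.cup (), 0), (.cap, 1)] [] (() :: () :: s) (() :: () :: s) :=
    Eqv.base (Base.zag ()) (by simp [br_path_unit, br_PathN, Kind.inn, Kind.out])
      (by simp [br_path_unit, br_PathN])
  have b4 : Path (triv Unit) [(.cap, 0)] (() :: () :: s) s := by
    simp [br_path_unit, br_PathN, Kind.inn, Kind.out]
  have f4 := Eqv.context hB z4 b4
  have g1 : Eqv (triv Unit) (rotR (rotR B) ++ [(.cap, s.length)])
      ([(.cup (), 0)] ++ ([(.cup (), 1), (.cap, 2)] ++ (shift 2 B ++ [(.cap, 1), (.cap, 0)]))) [] s :=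
    f1.cast (by simp [rotR, shift_shift]) (by simp) rfl (by simp)
  refine g1.trans (f2.trans ?_)
  refine Eqv.trans (v := B ++ ([(.cup (), 0), (.cap, 1)] ++ [(.cap, 0)])) ?_ (by simpa using f4)
  exact f3.cast (by simp) (by simp) rfl rfl

theorem br_rotR_blk (b : Bool) :
    Eqv (triv Unit) (rotR (blk (some b))) (blk (some (!b))) [] [(), (), (), ()] := by
  cases b with
  | true =>
    -- cup0 cup1 cup2 pos3 cap0
    have hc : Path (triv Unit) [(.cap, 0)] [(), ()] [] := by simp [br_path_unit, br_PathN, Kind.inn, Kind.out]
    have hv : Path (triv Unit) [(.cup (), 0), (.pos, 1)] [(), ()] [(), (), (), ()] := by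
      simp [br_path_unit, br_PathN, Kind.inn, Kind.out]
    have e1 := (interchange hc hv).symm
    have a1 : Path (triv Unit) [(.cup (), 0), (.cup (), 1)] [] ([(), ()] ++ [(), ()]) := by
      simp [br_path_unit, br_PathN, Kind.inn, Kind.out]
    have f1 := e1.prepend a1
    have z2 : Eqv (triv Unit) [(.cup (), 1), (.cap, 0)] [] [(), ()] [(), ()] :=
      Eqv.base (Base.zig ()) (by simp [br_path_unit, br_PathN, Kind.inn, Kind.out])
        (by simp [br_path_unit, br_PathN])
    have a2 : Path (triv Unit) [(.cup (), 0)] [] [(), ()] := by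
      simp [br_path_unit, br_PathN, Kind.inn, Kind.out]
    have f2 := Eqv.context a2 z2 hv
    have z3 : Eqv (triv Unit) [(.cup (), 0), (.cup (), 0)] [(.cup (), 0), (.cup (), 2)] []
        [(), (), (), ()] :=
      (Eqv.base (Base.far (.cup ()) (.cup ()) 0) (by simp [br_path_unit, br_PathN, Kind.inn, Kind.out])
        (by simp [br_path_unit, br_PathN, Kind.inn, Kind.out])).symm
    have b3 : Path (triv Unit) [(.pos, 1)] [(), (), (), ()] [(), (), (), ()] := by
      simp [br_path_unit, br_PathN, Kind.inn, Kind.out]
    have f3 := z3.append b3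
    have z4 : Eqv (triv Unit) [(.cup (), 2), (.pos, 1)] [(.cup (), 1), (.neg, 2)] [(), ()]
        [(), (), (), ()] :=
      Eqv.move 1 (Base.cupOver () ()) (by simp [br_path_unit, br_PathN, Kind.inn, Kind.out])
        (by simp [br_path_unit, br_PathN, Kind.inn, Kind.out])
    have f4 := z4.prepend a2
    exact f1.trans (f2.trans (f3.trans f4))
  | false =>
    have hc : Path (triv Unit) [(.cap, 0)] [(), ()] [] := by simp [br_path_unit, br_PathN, Kind.inn, Kind.out]
    have hv : Path (triv Unit) [(.cup (), 0), (.neg, 1)] [(), ()] [(), (), (), ()] := by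
      simp [br_path_unit, br_PathN, Kind.inn, Kind.out]
    have e1 := (interchange hc hv).symm
    have a1 : Path (triv Unit) [(.cup (), 0), (.cup (), 1)] [] ([(), ()] ++ [(), ()]) := by
      simp [br_path_unit, br_PathN, Kind.inn, Kind.out]
    have f1 := e1.prepend a1
    have z2 : Eqv (triv Unit) [(.cup (), 1), (.cap, 0)] [] [(), ()] [(), ()] :=
      Eqv.base (Base.zig ()) (by simp [br_path_unit, br_PathN, Kind.inn, Kind.out])
        (by simp [br_path_unit, br_PathN])
    have a2 : Path (triv Unit) [(.cup (), 0)] [] [(), ()] := by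
      simp [br_path_unit, br_PathN, Kind.inn, Kind.out]
    have f2 := Eqv.context a2 z2 hv
    have z3 : Eqv (triv Unit) [(.cup (), 0), (.cup (), 0)] [(.cup (), 0), (.cup (), 2)] []
        [(), (), (), ()] :=
      (Eqv.base (Base.far (.cup ()) (.cup ()) 0) (by simp [br_path_unit, br_PathN, Kind.inn, Kind.out])
        (by simp [br_path_unit, br_PathN, Kind.inn, Kind.out])).symm
    have b3 : Path (triv Unit) [(.neg, 1)] [(), (), (), ()] [(), (), (), ()] := by
      simp [br_path_unit, br_PathN, Kind.inn, Kind.out]
    have f3 := z3.append b3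
    have z4 : Eqv (triv Unit) [(.cup (), 2), (.neg, 1)] [(.cup (), 1), (.pos, 2)] [(), ()]
        [(), (), (), ()] :=
      Eqv.move 1 (Base.cupUnder () ()) (by simp [br_path_unit, br_PathN, Kind.inn, Kind.out])
        (by simp [br_path_unit, br_PathN, Kind.inn, Kind.out])
    have f4 := z4.prepend a2
    exact f1.trans (f2.trans (f3.trans f4))

theorem br_rotL_blk (b : Bool) :
    Eqv (triv Unit) (rotL 4 (blk (some b))) (blk (some (!b))) [] [(), (), (), ()] := by
  cases b with
  | true =>
    -- cup0 cup1 cup2 pos3 cap4
    have z1 : Eqv (triv Unit) [(.pos, 3), (.cap, 4)] [(.neg, 4), (.cap, 3)]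
        [(), (), (), (), (), ()] [(), (), (), ()] :=
      Eqv.move 3 Base.capOver (by simp [br_path_unit, br_PathN, Kind.inn, Kind.out])
        (by simp [br_path_unit, br_PathN, Kind.inn, Kind.out])
    have a1 : Path (triv Unit) [(.cup (), 0), (.cup (), 1), (.cup (), 2)] []
        [(), (), (), (), (), ()] := by
      simp [br_path_unit, br_PathN, Kind.inn, Kind.out]
    have f1 := z1.prepend a1
    have z2 : Eqv (triv Unit) [(.cup (), 2), (.neg, 4)] [(.neg, 2), (.cup (), 2)]
        [(), (), (), ()] [(), (), (), (), (), ()] :=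
      Eqv.move 2 (Base.far (.cup ()) .neg 0) (by simp [br_path_unit, br_PathN, Kind.inn, Kind.out, shift])
        (by simp [br_path_unit, br_PathN, Kind.inn, Kind.out, shift])
    have a2 : Path (triv Unit) [(.cup (), 0), (.cup (), 1)] [] [(), (), (), ()] := by
      simp [br_path_unit, br_PathN, Kind.inn, Kind.out]
    have b2 : Path (triv Unit) [(.cap, 3)] [(), (), (), (), (), ()] [(), (), (), ()] := by
      simp [br_path_unit, br_PathN, Kind.inn, Kind.out]
    have f2 := Eqv.context a2 z2 b2
    have z3 : Eqv (triv Unit) [(.cup (), 2), (.cap, 3)] [] [(), (), (), ()] [(), (), (), ()] :=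
      Eqv.move 2 (Base.zag ()) (by simp [br_path_unit, br_PathN, Kind.inn, Kind.out])
        (by simp [br_path_unit, br_PathN])
    have a3 : Path (triv Unit) [(.cup (), 0), (.cup (), 1), (.neg, 2)] [] [(), (), (), ()] := by
      simp [br_path_unit, br_PathN, Kind.inn, Kind.out]
    have f3 := z3.prepend a3
    exact f1.trans (f2.trans f3)
  | false =>
    have z1 : Eqv (triv Unit) [(.neg, 3), (.cap, 4)] [(.pos, 4), (.cap, 3)]
        [(), (), (), (), (), ()] [(), (), (), ()] :=
      Eqv.move 3 Base.capUnder (by simp [br_path_unit, br_PathN, Kind.inn, Kind.out])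
        (by simp [br_path_unit, br_PathN, Kind.inn, Kind.out])
    have a1 : Path (triv Unit) [(.cup (), 0), (.cup (), 1), (.cup (), 2)] []
        [(), (), (), (), (), ()] := by
      simp [br_path_unit, br_PathN, Kind.inn, Kind.out]
    have f1 := z1.prepend a1
    have z2 : Eqv (triv Unit) [(.cup (), 2), (.pos, 4)] [(.pos, 2), (.cup (), 2)]
        [(), (), (), ()] [(), (), (), (), (), ()] :=
      Eqv.move 2 (Base.far (.cup ()) .pos 0) (by simp [br_path_unit, br_PathN, Kind.inn, Kind.out, shift])
        (by simp [br_path_unit, br_PathN, Kind.inn, Kind.out, shift])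
    have a2 : Path (triv Unit) [(.cup (), 0), (.cup (), 1)] [] [(), (), (), ()] := by
      simp [br_path_unit, br_PathN, Kind.inn, Kind.out]
    have b2 : Path (triv Unit) [(.cap, 3)] [(), (), (), (), (), ()] [(), (), (), ()] := by
      simp [br_path_unit, br_PathN, Kind.inn, Kind.out]
    have f2 := Eqv.context a2 z2 b2
    have z3 : Eqv (triv Unit) [(.cup (), 2), (.cap, 3)] [] [(), (), (), ()] [(), (), (), ()] :=
      Eqv.move 2 (Base.zag ()) (by simp [br_path_unit, br_PathN, Kind.inn, Kind.out])
        (by simp [br_path_unit, br_PathN])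
    have a3 : Path (triv Unit) [(.cup (), 0), (.cup (), 1), (.pos, 2)] [] [(), (), (), ()] := by
      simp [br_path_unit, br_PathN, Kind.inn, Kind.out]
    have f3 := z3.prepend a3
    exact f1.trans (f2.trans f3)

/-! ### Insertions -/

theorem br_ex_nil : ex [] = [] := rfl

theorem br_ex_cons (x : Bool × ℕ) (J : List (Bool × ℕ)) :
    ex (x :: J) = shift x.2 (blk (some x.1)) ++ ex J := by
  simp [ex, ins]

theorem br_ex_append (J J' : List (Bool × ℕ)) : ex (J ++ J') = ex J ++ ex J' := by
  simp [ex, ins]

theorem br_shift_ex (n : ℕ) (J : List (Bool × ℕ)) :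
    shift n (ex J) = ex (J.map fun x => (x.1, x.2 + n)) := by
  induction J with
  | nil => rfl
  | cons x J ih =>
    rw [br_ex_cons, shift_append, ih, shift_shift, List.map_cons, br_ex_cons]

theorem br_caps_append (K K' : List ℕ) : caps (K ++ K') = caps K ++ caps K' := by
  simp [caps]

theorem br_path_shift_blk {b : Bool} {i : ℕ} {s t : List Unit} :
    Path (triv Unit) (shift i (blk (some b))) s t ↔ i ≤ s.length ∧ t.length = s.length + 4 := by
  rw [br_path_unit]
  cases b <;> simp [blk, br_PathN, Kind.inn, Kind.out] <;> omega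

theorem br_path_cap_iff {i : ℕ} {s t : List Unit} :
    Path (triv Unit) [(.cap, i)] s t ↔ i + 2 ≤ s.length ∧ s.length = t.length + 2 := by
  rw [br_path_unit]
  simp [br_PathN, Kind.inn, Kind.out]; omega

/-- A blob with `n` crossings and `k` caps. -/
def br_Good2 (n k : ℕ) (B : Word Unit) (s : List Unit) : Prop :=
  ∃ (J : List (Bool × ℕ)) (K : List ℕ), J.length = n ∧ K.length = k ∧
    Eqv (triv Unit) B (ex J ++ caps K) [] s

theorem br_Good2.path {n k : ℕ} {B : Word Unit} {s : List Unit} (h : br_Good2 n k B s) :
    Path (triv Unit) B [] s := by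
  obtain ⟨J, K, -, -, h⟩ := h
  exact h.path_left

theorem br_Good2.congr {n k : ℕ} {B B' : Word Unit} {s : List Unit} (h : br_Good2 n k B s)
    (e : Eqv (triv Unit) B' B [] s) : br_Good2 n k B' s := by
  obtain ⟨J, K, h1, h2, h⟩ := h
  exact ⟨J, K, h1, h2, e.trans h⟩

theorem br_Good2.cast {n k : ℕ} {B : Word Unit} {s t : List Unit} (h : br_Good2 n k B s)
    (e : s.length = t.length) : br_Good2 n k B t := by
  rwa [← br_unit_ext e]

theorem br_Good2.cap {n k i : ℕ} {B : Word Unit} {s t : List Unit} (h : br_Good2 n k B s)
    (e : Path (triv Unit) [(.cap, i)] s t) : br_Good2 n (k + 1) (B ++ [(.cap, i)]) t := by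
  obtain ⟨J, K, h1, h2, h⟩ := h
  refine ⟨J, K ++ [i], h1, by simp [h2], ?_⟩
  rw [br_caps_append, ← List.append_assoc]
  exact h.append e

theorem br_Good2.blk {n i : ℕ} {b : Bool} {B : Word Unit} {s t : List Unit} (h : br_Good2 n 0 B s)
    (e : Path (triv Unit) (shift i (blk (some b))) s t) :
    br_Good2 (n + 1) 0 (B ++ shift i (blk (some b))) t := by
  obtain ⟨J, K, h1, h2, h⟩ := h
  have h3 : K = [] := List.length_eq_zero_iff.1 h2
  subst h3
  refine ⟨J ++ [(b, i)], [], by simp [h1], rfl, ?_⟩
  have e1 : ex (J ++ [(b, i)]) = ex J ++ shift i (MP_131179_gt.blk (some b)) := by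
    rw [br_ex_append, br_ex_cons, br_ex_nil, List.append_nil]
  rw [e1]
  have := h.append e
  simpa [caps] using this

theorem br_good2_rotR_zero {n : ℕ} {B : Word Unit} {s : List Unit} (h : br_Good2 n 0 B (() :: s)) :
    br_Good2 n 0 (rotR B) (s ++ [()]) := by
  induction n generalizing B s with
  | zero =>
    obtain ⟨J, K, h1, h2, h⟩ := h
    obtain rfl := List.length_eq_zero_iff.1 h1
    obtain rfl := List.length_eq_zero_iff.1 h2
    have := h.path_right
    rw [br_path_unit] at this
    simp [br_ex_nil, caps, br_PathN] at this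
  | succ n ih =>
    obtain ⟨J, K, h1, h2, h⟩ := h
    obtain rfl := List.length_eq_zero_iff.1 h2
    refine br_Good2.congr ?_ (br_rotR_congr h)
    have hp := h.path_right
    rcases List.eq_nil_or_concat J with rfl | ⟨J₀, ⟨b, i⟩, rfl⟩
    · simp at h1
    rw [List.concat_eq_append] at *
    simp only [List.length_append, List.length_cons, List.length_nil, zero_add,
      Nat.add_right_cancel_iff] at h1
    rw [br_ex_append, br_ex_cons, br_ex_nil, List.append_nil] at hp ⊢
    simp only [caps, List.map_nil, List.append_nil] at hp ⊢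
    obtain ⟨t, ht1, ht2⟩ := path_append_iff.1 hp
    have ht3 := br_path_shift_blk.1 ht2
    simp only [List.length_cons] at ht3
    cases i with
    | succ i =>
      obtain ⟨a, t, rfl⟩ : ∃ a t', t = a :: t' := by
        cases t with
        | nil => simp at ht3
        | cons a t => exact ⟨a, t, rfl⟩
      simp only [List.length_cons] at ht3
      have hv : Path (triv Unit) (shift i (blk (some b))) t s :=
        br_path_shift_blk.2 ⟨by omega, by omega⟩
      have e := br_rotR_append ht1 hv
      rw [shift_shift] at e
      refine br_Good2.congr ?_ e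
      have g : br_Good2 n 0 (ex J₀) (() :: t) :=
        ⟨J₀, [], h1, rfl, Eqv.of_eq ht1 (by simp [caps])⟩
      exact (ih g).blk (hv.right [()])
    | zero =>
      simp only [shift_zero] at *
      have hY : Path (triv Unit) (shift 1 (blk (some b)) ++ [(.cap, 0)]) [()] [(), (), ()] := by
        refine Path.append (t := [(), (), (), (), ()]) (br_path_shift_blk.2 (by simp))
          (br_path_cap_iff.2 (by simp))
      have e1 := (interchange hY (ht1.right [()])).symm
      have a1 : Path (triv Unit) [(.cup (), 0)] [] ([()] ++ [()]) := by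
        simp [br_path_unit, br_PathN, Kind.inn, Kind.out]
      have f1 := e1.prepend a1
      have hex : Path (triv Unit) (shift 3 (ex J₀)) [(), (), (), ()] (s ++ [()]) := by
        refine br_path_len ((ht1.right [()]).left [(), (), ()]) (by simp) ?_
        simp; omega
      have f2 := (br_rotR_blk b).append hex
      refine br_Good2.congr ?_ (br_eqv_unit_cast f1 (u' := rotR (ex J₀ ++ blk (some b)))
        (v' := rotR (blk (some b)) ++ shift 3 (ex J₀)) (by simp [rotR]) (by simp [rotR]) rfl
        (by simp; omega))
      refine br_Good2.congr ?_ f2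
      refine ⟨(!b, 0) :: J₀.map fun x => (x.1, x.2 + 3), [], by simp [h1], rfl, ?_⟩
      refine Eqv.of_eq f2.path_right ?_
      rw [br_ex_cons, shift_zero, br_shift_ex]
      simp [caps]

theorem br_good2_rotR {n k : ℕ} {B : Word Unit} {s : List Unit} (h : br_Good2 n k B (() :: s)) :
    br_Good2 n k (rotR B) (s ++ [()]) := by
  induction k generalizing B s with
  | zero => exact br_good2_rotR_zero h
  | succ k ih =>
    obtain ⟨J, K, h1, h2, h⟩ := h
    refine br_Good2.congr ?_ (br_rotR_congr h)
    have hp := h.path_right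
    rcases List.eq_nil_or_concat K with rfl | ⟨K₀, j, rfl⟩
    · simp at h2
    rw [List.concat_eq_append] at *
    simp only [List.length_append, List.length_cons, List.length_nil, zero_add,
      Nat.add_right_cancel_iff] at h2
    have e0 : ex J ++ caps (K₀ ++ [j]) = (ex J ++ caps K₀) ++ [(.cap, j)] := by
      rw [br_caps_append, List.append_assoc]; rfl
    rw [e0] at hp ⊢
    obtain ⟨t, ht1, ht2⟩ := path_append_iff.1 hp
    have ht3 := br_path_cap_iff.1 ht2
    simp only [List.length_cons] at ht3
    have g0 : br_Good2 n k (ex J ++ caps K₀) t := ⟨J, K₀, h1, h2, Eqv.refl ht1⟩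
    cases j with
    | succ j =>
      obtain ⟨a, t, rfl⟩ : ∃ a t', t = a :: t' := by
        cases t with
        | nil => simp at ht3
        | cons a t => exact ⟨a, t, rfl⟩
      simp only [List.length_cons] at ht3
      have hv : Path (triv Unit) [(.cap, j)] t s := br_path_cap_iff.2 ⟨by omega, by omega⟩
      have e := br_rotR_append ht1 hv
      refine br_Good2.congr ?_ e
      exact (ih g0).cap (hv.right [()])
    | zero =>
      obtain rfl : t = () :: () :: () :: s := br_unit_ext (by simp; omega)
      have r1 := br_rotR_rotR ht1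
      have p1 := br_rotR_path ht1
      have p2 : Path (triv Unit) (rotR (rotR (ex J ++ caps K₀))) [] (() :: (s ++ [(), ()])) :=
        br_path_len (br_rotR_path (s := () :: s ++ [()]) p1) rfl (by simp)
      have r2 := br_rotR_congr r1
      have hv : Path (triv Unit) [(.cap, s.length)] (s ++ [(), ()]) s :=
        br_path_cap_iff.2 (by simp)
      have e := br_rotR_append p2 hv
      have e' : Eqv (triv Unit) (rotR (rotR (rotR (ex J ++ caps K₀)) ++ [(.cap, s.length + 1)]))
          (rotR (rotR (rotR (ex J ++ caps K₀))) ++ [(.cap, s.length)]) [] (s ++ [()]) := e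
      refine br_Good2.congr ?_ (r2.symm.trans e')
      have g1 := ih g0
      have g2 : br_Good2 n k (rotR (rotR (ex J ++ caps K₀))) (() :: (s ++ [(), ()])) :=
        (ih (s := () :: s ++ [()]) g1).cast (by simp)
      have g3 := ih g2
      exact g3.cap (br_path_cap_iff.2 (by simp))

theorem Good.exists_good2 {n : ℕ} {B : Word Unit} {s : List Unit} (h : Good n B s) :
    ∃ k, br_Good2 n k B s := by
  obtain ⟨J, K, h1, h2⟩ := h
  exact ⟨K.length, J, K, h1, rfl, h2⟩

theorem br_Good2.good {n k : ℕ} {B : Word Unit} {s : List Unit} (h : br_Good2 n k B s) : Good n B s := by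
  obtain ⟨J, K, h1, -, h2⟩ := h
  exact ⟨J, K, h1, h2⟩

theorem good_rotR {n : ℕ} {B : Word Unit} {s : List Unit} (h : Good n B (() :: s)) :
    Good n (rotR B) (s ++ [()]) := by
  obtain ⟨k, h⟩ := h.exists_good2
  exact (br_good2_rotR h).good

/-! ### Rotation to the left -/

theorem br_rotL_congr {B B' : Word Unit} {s : List Unit} {k : ℕ} (hk : k = s.length + 1)
    (h : Eqv (triv Unit) B B' [] (s ++ [()])) :
    Eqv (triv Unit) (rotL k B) (rotL k B') [] (() :: s) := by
  have e := (h.right [()]).shift_left [()]
  have a : Path (triv Unit) [(.cup (), 0)] [] [(), ()] := by simp [br_path_unit, br_PathN, Kind.inn, Kind.out]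
  have c : Path (triv Unit) [(.cap, k)] ([()] ++ ((s ++ [()]) ++ [()])) (() :: s) := by
    rw [br_path_cap_iff]; simp; omega
  exact Eqv.context a e c

theorem br_rotL_path {B : Word Unit} {s : List Unit} {k : ℕ} (hk : k = s.length + 1)
    (h : Path (triv Unit) B [] (s ++ [()])) :
    Path (triv Unit) (rotL k B) [] (() :: s) := (br_rotL_congr hk (Eqv.refl h)).path_left

theorem br_rotL_append {B v : Word Unit} {t s : List Unit} (hB : Path (triv Unit) B [] (t ++ [()]))
    (hv : Path (triv Unit) v t s) :
    Eqv (triv Unit) (rotL (s.length + 1) (B ++ v)) (rotL (t.length + 1) B ++ shift 1 v) []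
      (() :: s) := by
  have c : Path (triv Unit) [(.cap, 0)] [(), ()] [] := by simp [br_path_unit, br_PathN, Kind.inn, Kind.out]
  have e := interchange (hv.left [()]) c
  have a : Path (triv Unit) ((.cup (), 0) :: shift 1 B) [] (([()] ++ t) ++ [(), ()]) := by
    refine br_path_len (Path.append (u := [(.cup (), 0)]) (t := [(), ()]) ?_
      ((hB.right [()]).left [()])) rfl (by simp)
    simp [br_path_unit, br_PathN, Kind.inn, Kind.out]
  refine (e.prepend a).cast ?_ ?_ rfl (by simp)
  · simp [rotL]
  · simp [rotL]

theorem br_rotL_rotL {B : Word Unit} {s : List Unit} (hB : Path (triv Unit) B [] (s ++ [(), ()])) :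
    Eqv (triv Unit) (rotL (s.length + 2) (rotL (s.length + 2) B) ++ [(.cap, 0)])
      (B ++ [(.cap, s.length)]) [] s := by
  have hv : Path (triv Unit) (B ++ [(.cap, s.length + 1), (.cap, s.length)]) [(), ()] s := by
    refine Path.append (t := (s ++ [(), ()]) ++ [(), ()]) (hB.right [(), ()]) ?_
    simp [br_path_unit, br_PathN, Kind.inn, Kind.out]
  have hc : Path (triv Unit) [(.cap, 0)] [(), ()] [] := by simp [br_path_unit, br_PathN, Kind.inn, Kind.out]
  have e1 := (interchange hc hv).symm
  have a1 : Path (triv Unit) [(.cup (), 0), (.cup (), 1)] [] ([(), ()] ++ [(), ()]) := by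
    simp [br_path_unit, br_PathN, Kind.inn, Kind.out]
  have f1 := e1.prepend a1
  have z1 : Eqv (triv Unit) [(.cup (), 1), (.cap, 0)] [] [(), ()] [(), ()] :=
    Eqv.base (Base.zig ()) (by simp [br_path_unit, br_PathN, Kind.inn, Kind.out])
      (by simp [br_path_unit, br_PathN])
  have a2 : Path (triv Unit) [(.cup (), 0)] [] [(), ()] := by simp [br_path_unit, br_PathN, Kind.inn, Kind.out]
  have f2 := Eqv.context a2 z1 hv
  have e3 := (interchange hB a2).symm
  have b3 : Path (triv Unit) [(.cap, s.length + 1), (.cap, s.length)] ((s ++ [(), ()]) ++ [(), ()]) s := by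
    simp [br_path_unit, br_PathN, Kind.inn, Kind.out]
  have f3 := e3.append b3
  have z4 : Eqv (triv Unit) [(.cup (), 1 + (s.length + 1)), (.cap, 0 + (s.length + 1))] []
      (s ++ [(), ()]) (s ++ [(), ()]) :=
    Eqv.move (s.length + 1) (Base.zig ()) (by simp [br_path_unit, br_PathN, Kind.inn, Kind.out]; omega)
      (by simp [br_path_unit, br_PathN])
  have b4 : Path (triv Unit) [(.cap, s.length)] (s ++ [(), ()]) s := by
    simp [br_path_unit, br_PathN, Kind.inn, Kind.out]
  have f4 := Eqv.context hB z4 b4
  have g1 : Eqv (triv Unit) (rotL (s.length + 2) (rotL (s.length + 2) B) ++ [(.cap, 0)])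
      ([(.cup (), 0)] ++ ([(.cup (), 1), (.cap, 0)] ++
        (B ++ [(.cap, s.length + 1), (.cap, s.length)]))) [] s :=
    f1.cast (by simp [rotL, shift_shift]) (by simp) rfl (by simp)
  refine g1.trans (f2.trans ?_)
  refine Eqv.trans (v := B ++ ([(.cup (), 1 + (s.length + 1)), (.cap, 0 + (s.length + 1))] ++
    [(.cap, s.length)])) ?_ (by simpa using f4)
  exact f3.cast (by simp) (by simp; omega) rfl rfl

theorem br_good2_rotL_zero {n : ℕ} {B : Word Unit} {s : List Unit} (h : br_Good2 n 0 B (s ++ [()])) :
    br_Good2 n 0 (rotL (s.length + 1) B) (() :: s) := by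
  induction n generalizing B s with
  | zero =>
    obtain ⟨J, K, h1, h2, h⟩ := h
    obtain rfl := List.length_eq_zero_iff.1 h1
    obtain rfl := List.length_eq_zero_iff.1 h2
    have := h.path_right
    rw [br_path_unit] at this
    simp [br_ex_nil, caps, br_PathN] at this
  | succ n ih =>
    obtain ⟨J, K, h1, h2, h⟩ := h
    obtain rfl := List.length_eq_zero_iff.1 h2
    refine br_Good2.congr ?_ (br_rotL_congr rfl h)
    have hp := h.path_right
    rcases List.eq_nil_or_concat J with rfl | ⟨J₀, ⟨b, i⟩, rfl⟩
    · simp at h1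
    rw [List.concat_eq_append] at *
    simp only [List.length_append, List.length_cons, List.length_nil, zero_add,
      Nat.add_right_cancel_iff] at h1
    rw [br_ex_append, br_ex_cons, br_ex_nil, List.append_nil] at hp ⊢
    simp only [caps, List.map_nil, List.append_nil] at hp ⊢
    obtain ⟨t, ht1, ht2⟩ := path_append_iff.1 hp
    have ht3 := br_path_shift_blk.1 ht2
    simp only [List.length_append, List.length_cons, List.length_nil] at ht3
    have g : br_Good2 n 0 (ex J₀) t := ⟨J₀, [], h1, rfl, Eqv.of_eq ht1 (by simp [caps])⟩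
    by_cases hi : i < t.length
    · obtain ⟨t', rfl⟩ : ∃ t' : List Unit, t = t' ++ [()] :=
        ⟨List.replicate (t.length - 1) (), br_unit_ext (by simp; omega)⟩
      simp only [List.length_append, List.length_cons, List.length_nil] at ht3 hi
      have hv : Path (triv Unit) (shift i (blk (some b))) t' s :=
        br_path_shift_blk.2 ⟨by omega, by omega⟩
      have e := br_rotL_append ht1 hv
      rw [shift_shift] at e
      refine br_Good2.congr ?_ e
      have := (ih g).blk (b := b) (i := i + 1) (t := () :: s) (br_path_shift_blk.2 (by simp; omega))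
      exact this
    · have hi' : i = t.length := by omega
      subst hi'
      have hY : Path (triv Unit) (blk (some b) ++ [(.cap, 3)]) [()] [(), (), ()] := by
        refine Path.append (t := [(), (), (), (), ()]) ?_
          (br_path_cap_iff.2 (by simp))
        have := (br_path_shift_blk (b := b) (i := 0) (s := [()]) (t := [(), (), (), (), ()])).2 (by simp)
        simpa using this
      have e1 := ((interchange ht1 hY).shift_left [()])
      have a1 : Path (triv Unit) [(.cup (), 0)] [] ([()] ++ ([] ++ [()])) := by
        simp [br_path_unit, br_PathN, Kind.inn, Kind.out]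
      have f1 := e1.prepend a1
      have hex : Path (triv Unit) (shift 1 (ex J₀)) [(), (), (), ()] (() :: s) := by
        refine br_path_len ((ht1.right [(), (), ()]).left [()]) (by simp) ?_
        simp; omega
      have f2 := (br_rotL_blk b).append hex
      refine br_Good2.congr ?_ (br_eqv_unit_cast f1
        (u' := rotL (s.length + 1) (ex J₀ ++ shift t.length (blk (some b))))
        (v' := rotL 4 (blk (some b)) ++ shift 1 (ex J₀)) ?_ (by simp [rotL]) rfl
        (by simp; omega))
      · refine br_Good2.congr ?_ f2
        refine ⟨(!b, 0) :: J₀.map fun x => (x.1, x.2 + 1), [], by simp [h1], rfl, ?_⟩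
        refine Eqv.of_eq f2.path_right ?_
        rw [br_ex_cons, shift_zero, br_shift_ex]
        simp [caps]
      · simp [rotL, shift_shift]
        omega

theorem br_good2_rotL {n k : ℕ} {B : Word Unit} {s : List Unit} (h : br_Good2 n k B (s ++ [()])) :
    br_Good2 n k (rotL (s.length + 1) B) (() :: s) := by
  induction k generalizing B s with
  | zero => exact br_good2_rotL_zero h
  | succ k ih =>
    obtain ⟨J, K, h1, h2, h⟩ := h
    refine br_Good2.congr ?_ (br_rotL_congr rfl h)
    have hp := h.path_right
    rcases List.eq_nil_or_concat K with rfl | ⟨K₀, j, rfl⟩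
    · simp at h2
    rw [List.concat_eq_append] at *
    simp only [List.length_append, List.length_cons, List.length_nil, zero_add,
      Nat.add_right_cancel_iff] at h2
    have e0 : ex J ++ caps (K₀ ++ [j]) = (ex J ++ caps K₀) ++ [(.cap, j)] := by
      rw [br_caps_append, List.append_assoc]; rfl
    rw [e0] at hp ⊢
    obtain ⟨t, ht1, ht2⟩ := path_append_iff.1 hp
    have ht3 := br_path_cap_iff.1 ht2
    simp only [List.length_append, List.length_cons, List.length_nil] at ht3
    have g0 : br_Good2 n k (ex J ++ caps K₀) t := ⟨J, K₀, h1, h2, Eqv.refl ht1⟩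
    by_cases hj : j + 2 < t.length
    · obtain ⟨t', rfl⟩ : ∃ t' : List Unit, t = t' ++ [()] :=
        ⟨List.replicate (t.length - 1) (), br_unit_ext (by simp; omega)⟩
      simp only [List.length_append, List.length_cons, List.length_nil] at ht3 hj
      have hv : Path (triv Unit) [(.cap, j)] t' s := br_path_cap_iff.2 ⟨by omega, by omega⟩
      have e := br_rotL_append ht1 hv
      refine br_Good2.congr ?_ e
      exact (ih g0).cap (br_path_cap_iff.2 (by simp; omega))
    · obtain rfl : t = (s ++ [()]) ++ [(), ()] := br_unit_ext (by simp; omega)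
      obtain rfl : j = (s ++ [()]).length := by simp at hj ht3 ⊢; omega
      have r1 := br_rotL_rotL ht1
      have l1 : (s ++ [()]).length + 2 = (s ++ [(), ()]).length + 1 := by simp
      have p1 : Path (triv Unit) (rotL ((s ++ [()]).length + 2) (ex J ++ caps K₀)) []
          ((() :: (s ++ [()])) ++ [()]) :=
        br_path_len (br_rotL_path (s := s ++ [(), ()]) l1 (br_path_len ht1 rfl (by simp))) rfl (by simp)
      have p2 : Path (triv Unit) (rotL ((s ++ [()]).length + 2) (rotL ((s ++ [()]).length + 2)
          (ex J ++ caps K₀))) [] ((() :: () :: s) ++ [()]) :=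
        br_path_len (br_rotL_path (s := () :: (s ++ [()])) (by simp) p1) rfl (by simp)
      have r2 := br_rotL_congr (k := s.length + 1) rfl r1
      have hv : Path (triv Unit) [(.cap, 0)] (() :: () :: s) s := br_path_cap_iff.2 (by simp)
      have e := br_rotL_append p2 hv
      refine br_Good2.congr ?_ (r2.symm.trans e)
      have g1 : br_Good2 n k (rotL ((s ++ [()]).length + 2) (ex J ++ caps K₀))
          ((() :: (s ++ [()])) ++ [()]) := by
        have := ih (s := s ++ [(), ()]) (g0.cast (by simp))
        rw [← l1] at this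
        exact this.cast (by simp)
      have g2 : br_Good2 n k (rotL ((s ++ [()]).length + 2) (rotL ((s ++ [()]).length + 2)
          (ex J ++ caps K₀))) ((() :: () :: s) ++ [()]) := by
        have := ih (s := () :: (s ++ [()])) g1
        have l2 : (() :: (s ++ [()])).length + 1 = (s ++ [()]).length + 2 := by simp
        rw [l2] at this
        exact this.cast (by simp)
      have g3 := ih g2
      exact g3.cap (br_path_cap_iff.2 (by simp))

theorem good_rotL {n : ℕ} {B : Word Unit} {s : List Unit} (h : Good n B (s ++ [()])) :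
    Good n (rotL (s.length + 1) B) (() :: s) := by
  obtain ⟨k, h⟩ := h.exists_good2
  exact (br_good2_rotL h).good

end Pool.Agent.Lib.MP_131179_gt
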