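import Pool.Agent.Lib.MP_131179_gt.Layer

/-!
# Construction of the clasp sum of two links
-/

set_option autoImplicit false

namespace Pool.Agent.Lib.MP_131179_gt

variable {C : Type} {P : Palette C}

/-- A minimal diagram of a link with at least two components, with labels. -/
private theorem exists_minimal_labelled {L : Link} (h : AtLeastTwoComponents L) :
    ∃ w : Word Bool, Path (triv Bool) w [] [] ∧ IsDiag (erase w) L ∧ cr w = crossingNumber L ∧
      HasLabel true w ∧ HasLabel false w := by
  obtain ⟨w₀, h1, h2, h3, h4⟩ := h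
  obtain ⟨v, hv, hcr⟩ := exists_minimal L
  obtain ⟨v', rfl, he⟩ := lift_diag rfl h1 h2 hv
  refine ⟨v', he.path_right, hv, ?_, (hasLabel_iff he true).1 h3, (hasLabel_iff he false).1 h4⟩
  rw [← hcr, cr_wmap]

private theorem xlL_level {k : Kind C} {i : ℕ} {s : List C} {p : C × C} (h : p ∈ xlL k i s) :
    ∃ (l : List C) (a b : C) (r : List C), s = l ++ a :: b :: r ∧ (p = (a, b) ∨ p = (b, a)) := by
  induction s generalizing i with
  | nil => cases k <;> cases i <;> simp [xlL] at h
  | cons x s ih =>
    cases i with
    | succ i =>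
      rw [xlL_succ] at h
      obtain ⟨l, a, b, r, rfl, h2⟩ := ih h
      exact ⟨x :: l, a, b, r, rfl, h2⟩
    | zero =>
      cases s with
      | nil => cases k <;> simp [xlL] at h
      | cons y s =>
        cases k with
        | cup c => simp [xlL] at h
        | cap => simp [xlL] at h
        | pos =>
          simp only [xlL, List.mem_singleton] at h
          exact ⟨[], x, y, s, rfl, Or.inl h⟩
        | neg =>
          simp only [xlL, List.mem_singleton] at h
          exact ⟨[], x, y, s, rfl, Or.inr h⟩

/-- At every crossing there is a level where its two strands are neighbours. -/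
private theorem xl_level {w : Word C} {s t : List C} (h : Path P w s t) {p : C × C} (hp : p ∈ xl P w s) :
    ∃ (u v : Word C) (l : List C) (a b : C) (r : List C), w = u ++ v ∧
      Path P u s (l ++ a :: b :: r) ∧ Path P v (l ++ a :: b :: r) t ∧
      (p = (a, b) ∨ p = (b, a)) := by
  induction h with
  | nil s => simp at hp
  | @cons k i w s t r h1 h2 ih =>
    rw [xl_cons, h1.nxt_eq, List.mem_append] at hp
    rcases hp with hp | hp
    · obtain ⟨l, a, b, r, rfl, hp'⟩ := xlL_level hp
      exact ⟨[], (k, i) :: w, l, a, b, r, rfl, Path.nil _, Path.cons h1 h2, hp'⟩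
    · obtain ⟨u, v, l, a, b, r, rfl, h3, h4, hp'⟩ := ih hp
      exact ⟨(k, i) :: u, v, l, a, b, r, rfl, Path.cons h1 h3, h4, hp'⟩

private theorem compat_false (P : Palette C) : Compat P (fun _ => false) :=
  ⟨fun _ => rfl, fun _ _ => rfl, fun _ _ h _ => by simp at h⟩

private theorem delL_false {k : Kind C} {i : ℕ} {s t : List C} (h : Step P k i s t) :
    delL (fun _ => false) k i s = [] := by
  induction h with
  | cup c s => rfl
  | cap c s => rfl
  | pos a b s => rfl
  | neg a b s => rfl
  | there a _ ih => rw [delL_succ, ih]; rfl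

private theorem del_false {w : Word C} {s t : List C} (h : Path P w s t) :
    del P (fun _ => false) w s = [] := by
  induction h with
  | nil s => rfl
  | cons h1 _ ih => rw [del_cons, h1.nxt_eq, ih, delL_false h1]; rfl

/-- Everything is deleted if no label is kept. -/
private theorem del_eq_nil' {κ : C → Bool} (hκ : Compat P κ) {w : Word C} {s t : List C}
    (h : Path P w s t) (hw : ∀ x, HasLabel x w → κ x = false) (hs : ∀ x ∈ s, κ x = false) :
    del P κ w s = [] := by
  rw [del_congr hκ (compat_false P) h hw hs, del_false h]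

private theorem cnt_false {w : Word C} {s : List C} : cnt P (fun _ _ => false) w s = 0 := by
  simp [cnt]

/-- A double crossing. -/
private theorem clasp_path (x y : C) (s : List C) :
    Path (triv C) [(.pos, 0), (.pos, 0)] (x :: y :: s) (x :: y :: s) :=
  Path.cons (Step.pos x y s) (Path.cons (Step.pos y x s) (Path.nil _))

theorem exists_clasp {L₁ L₂ : Link} (h₁ : ¬ IsSplit L₁) (h₂ : ¬ IsSplit L₂)
    (c₁ : AtLeastTwoComponents L₁) (c₂ : AtLeastTwoComponents L₂) :
    ∃ (L : Link) (W : Word (Bool × Bool)),
      Clasp (crossingNumber L₁) (crossingNumber L₂) L₁ L₂ L W := by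
  obtain ⟨w₁, p₁, d₁, cr₁, t₁, f₁⟩ := exists_minimal_labelled c₁
  obtain ⟨w₂, p₂, d₂, cr₂, t₂, f₂⟩ := exists_minimal_labelled c₂
  obtain ⟨u, v, l, a, b, r, rfl, hu, hv, hab⟩ := xl_level p₁ (exists_mixed p₁ d₁ h₁ t₁ f₁).1
  obtain ⟨u', v', l', c, d, r', rfl, hu', hv', hcd⟩ :=
    xl_level p₂ (exists_mixed p₂ d₂ h₂ t₂ f₂).1
  have hab' : a ≠ b := by
    rcases hab with h | h <;> (rw [Prod.mk.injEq] at h; rw [← h.1, ← h.2]; decide)
  have hcd' : c ≠ d := by
    rcases hcd with h | h <;> (rw [Prod.mk.injEq] at h; rw [← h.1, ← h.2]; decide)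
  have e0 : l' ++ c :: d :: r' = (l' ++ [c]) ++ (d :: r') := by simp
  rw [e0] at hu' hv'
  obtain ⟨b', a', hb', ha', crb, cra, heq⟩ := rotate hu' hv'
  set M := r' ++ l' with hM
  have e1 : (d :: r') ++ (l' ++ [c]) = d :: (M ++ [c]) := by simp [hM]
  rw [e1] at hb' ha'
  -- the relabelling of the second diagram
  set f : Bool → Bool := fun x => if d = a then x else !x with hf
  have hfd : f d = a := by
    rw [hf]
    by_cases h : d = a
    · simp [h]
    · simp only [h, if_false]
      revert h; cases d <;> cases a <;> simp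
  have hfc : f c = b := by
    rw [hf]
    by_cases h : d = a
    · simp only [h, if_true]
      revert h hab' hcd'; cases a <;> cases b <;> cases c <;> cases d <;> simp
    · simp only [h, if_false]
      revert h hab' hcd'; cases a <;> cases b <;> cases c <;> cases d <;> simp
  set g₁ : Bool → Bool × Bool := fun x => (true, x) with hg₁
  set g₂ : Bool → Bool × Bool := fun x => (false, f x) with hg₂
  set U := wmap g₁ u with hU
  set V := wmap g₁ v with hV
  set B := wmap g₂ b' with hB
  set A := wmap g₂ a' with hA
  set l₁ := l.map g₁ with hl₁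
  set r₁ := r.map g₁ with hr₁
  set M₂ := M.map g₂ with hM₂
  have pU : Path (triv (Bool × Bool)) U [] (l₁ ++ (true, a) :: (true, b) :: r₁) := by
    have := hu.map (isHom_triv g₁)
    simpa [hg₁] using this
  have pV : Path (triv (Bool × Bool)) V (l₁ ++ (true, a) :: (true, b) :: r₁) [] := by
    have := hv.map (isHom_triv g₁)
    simpa [hg₁] using this
  have pB : Path (triv (Bool × Bool)) B [] ((false, a) :: (M₂ ++ [(false, b)])) := by
    have := hb'.map (isHom_triv g₂)
    have e : List.map g₂ (d :: (M ++ [c])) = (false, a) :: (M₂ ++ [(false, b)]) := by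
      simp only [List.map_cons, List.map_append, List.map_nil, hM₂, hg₂, hfd, hfc]
    rw [e] at this
    exact this
  have pA : Path (triv (Bool × Bool)) A ((false, a) :: (M₂ ++ [(false, b)])) [] := by
    have := ha'.map (isHom_triv g₂)
    have e : List.map g₂ (d :: (M ++ [c])) = (false, a) :: (M₂ ++ [(false, b)]) := by
      simp only [List.map_cons, List.map_append, List.map_nil, hM₂, hg₂, hfd, hfc]
    rw [e] at this
    exact this
  -- the levels
  set lev : List (Bool × Bool) :=
    (l₁ ++ [(true, a)]) ++ (((false, a) :: (M₂ ++ [(false, b)])) ++ ((true, b) :: r₁)) with hlev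
  have pU' : Path (triv (Bool × Bool)) U [] ((l₁ ++ [(true, a)]) ++ ([] ++ ((true, b) :: r₁))) := by
    simpa using pU
  have pV' : Path (triv (Bool × Bool)) V ((l₁ ++ [(true, a)]) ++ ([] ++ ((true, b) :: r₁))) [] := by
    simpa using pV
  have pB' : Path (triv (Bool × Bool)) (shift (l₁ ++ [(true, a)]).length B)
      ((l₁ ++ [(true, a)]) ++ ([] ++ ((true, b) :: r₁))) lev :=
    (pB.right ((true, b) :: r₁)).left (l₁ ++ [(true, a)])
  have pA' : Path (triv (Bool × Bool)) (shift (l₁ ++ [(true, a)]).length A) lev
      ((l₁ ++ [(true, a)]) ++ ([] ++ ((true, b) :: r₁))) :=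
    (pA.right ((true, b) :: r₁)).left (l₁ ++ [(true, a)])
  have el1 : lev = l₁ ++ ((true, a) :: (false, a) :: (M₂ ++ [(false, b)] ++ ((true, b) :: r₁))) := by
    simp [hlev]
  have el2 : lev = (l₁ ++ ((true, a) :: (false, a) :: M₂)) ++ ((false, b) :: (true, b) :: r₁) := by
    simp [hlev]
  set K₁ : Word (Bool × Bool) := shift l₁.length [(.pos, 0), (.pos, 0)] with hK₁
  set K₂ : Word (Bool × Bool) :=
    shift (l₁ ++ ((true, a) :: (false, a) :: M₂)).length [(.pos, 0), (.pos, 0)] with hK₂
  have pK₁ : Path (triv (Bool × Bool)) K₁ lev lev := by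
    rw [el1]; exact (clasp_path _ _ _).left _
  have pK₂ : Path (triv (Bool × Bool)) K₂ lev lev := by
    rw [el2]; exact (clasp_path _ _ _).left _
  set W : Word (Bool × Bool) := U ++ (shift (l₁ ++ [(true, a)]).length B ++ (K₁ ++ (K₂ ++
    (shift (l₁ ++ [(true, a)]).length A ++ V)))) with hW
  have pW : Path (triv (Bool × Bool)) W [] [] :=
    pU'.append (pB'.append (pK₁.append (pK₂.append (pA'.append pV'))))
  have labU : ∀ x, HasLabel x U → x.1 = true := by
    intro x hx
    obtain ⟨y, -, rfl⟩ := hasLabel_wmap.1 hx
    rfl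
  have labV : ∀ x, HasLabel x V → x.1 = true := by
    intro x hx
    obtain ⟨y, -, rfl⟩ := hasLabel_wmap.1 hx
    rfl
  have labB : ∀ x, HasLabel x B → x.1 = false := by
    intro x hx
    obtain ⟨y, -, rfl⟩ := hasLabel_wmap.1 hx
    rfl
  have labA : ∀ x, HasLabel x A → x.1 = false := by
    intro x hx
    obtain ⟨y, -, rfl⟩ := hasLabel_wmap.1 hx
    rfl
  have labl : ∀ x ∈ l₁, x.1 = true := by
    intro x hx
    obtain ⟨y, -, rfl⟩ := List.mem_map.1 hx
    rfl
  have labr : ∀ x ∈ r₁, x.1 = true := by
    intro x hx
    obtain ⟨y, -, rfl⟩ := List.mem_map.1 hx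
    rfl
  have labM : ∀ x ∈ M₂, x.1 = false := by
    intro x hx
    obtain ⟨y, -, rfl⟩ := List.mem_map.1 hx
    rfl
  have labmid : ∀ x ∈ (false, a) :: (M₂ ++ [(false, b)]), x.1 = false := by
    intro x hx
    simp only [List.mem_cons, List.mem_append, List.not_mem_nil, or_false] at hx
    rcases hx with rfl | hx | rfl
    · rfl
    · exact labM x hx
    · rfl
  have labout : ∀ x ∈ (l₁ ++ [(true, a)]) ++ ([] ++ ((true, b) :: r₁)), x.1 = true := by
    intro x hx
    simp only [List.nil_append, List.mem_cons, List.mem_append, List.not_mem_nil, or_false] at hx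
    rcases hx with (hx | rfl) | rfl | hx
    · exact labl x hx
    · rfl
    · rfl
    · exact labr x hx
  have del₁ : del (triv (Bool × Bool)) (fun x => x.1) W [] = U ++ V := by
    rw [hW, del_append pU', del_append pB', del_append pK₁, del_append pK₂, del_append pA',
      del_eq_self (compat_triv _) pU' labU (by simp), del_left,
      del_right pB, del_eq_nil' (compat_triv _) pB labB (by simp), hlev, del_left,
      del_right pA, del_eq_nil' (compat_triv _) pA labA labmid,
      del_eq_self (compat_triv _) pV' labV labout, ← hlev]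
    have h1 : del (triv (Bool × Bool)) (fun x => x.1) K₁ lev = [] := by
      rw [el1, hK₁, del_left]
      simp [del, delL, nxt, triv]
    have h2 : del (triv (Bool × Bool)) (fun x => x.1) K₂ lev = [] := by
      rw [el2, hK₂, del_left]
      simp [del, delL, nxt, triv]
    rw [h1, h2]
    simp
  have filt : (l₁ ++ [(true, a)]).filter (fun x => !x.1) = [] := by
    rw [List.filter_eq_nil_iff]
    intro x hx
    simp only [List.mem_append, List.mem_cons, List.not_mem_nil, or_false] at hx
    rcases hx with hx | rfl
    · simp [labl x hx]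
    · simp
  have del₂ : del (triv (Bool × Bool)) (fun x => !x.1) W [] = B ++ A := by
    rw [hW, del_append pU', del_append pB', del_append pK₁, del_append pK₂, del_append pA',
      del_eq_nil' (compat_triv _) pU' (fun x hx => by simp [labU x hx]) (by simp), del_left,
      del_right pB, del_eq_self (compat_triv _) pB (fun x hx => by simp [labB x hx]) (by simp),
      hlev, del_left,
      del_right pA, del_eq_self (compat_triv _) pA (fun x hx => by simp [labA x hx])
        (fun x hx => by simp [labmid x hx]),
      del_eq_nil' (compat_triv _) pV' (fun x hx => by simp [labV x hx])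
        (fun x hx => by simp [labout x hx]), ← hlev, filt]
    have h1 : del (triv (Bool × Bool)) (fun x => !x.1) K₁ lev = [] := by
      rw [el1, hK₁, del_left]
      simp [del, delL, nxt, triv]
    have h2 : del (triv (Bool × Bool)) (fun x => !x.1) K₂ lev = [] := by
      rw [el2, hK₂, del_left]
      simp [del, delL, nxt, triv]
    rw [h1, h2]
    simp
  -- counting the mixed crossings
  have count : ∀ q : Bool × Bool → Bool × Bool → Bool,
      (∀ x y : Bool × Bool, x.1 = y.1 → q x y = false) →
      cnt (triv (Bool × Bool)) q W [] =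
        (if q (true, a) (false, a) then 1 else 0) + (if q (false, a) (true, a) then 1 else 0) +
        ((if q (false, b) (true, b) then 1 else 0) +
          (if q (true, b) (false, b) then 1 else 0)) := by
    intro q hq
    have hq1 : (fun x y => q (g₁ x) (g₁ y)) = fun _ _ => false := by
      funext x y; exact hq _ _ rfl
    have hq2 : (fun x y => q (g₂ x) (g₂ y)) = fun _ _ => false := by
      funext x y; exact hq _ _ rfl
    have cU : cnt (triv (Bool × Bool)) q U [] = 0 := by
      have := cnt_map (isHom_triv g₁) (p := q) hu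
      rw [hq1, cnt_false] at this
      exact this
    have cB : cnt (triv (Bool × Bool)) q B [] = 0 := by
      have := cnt_map (isHom_triv g₂) (p := q) hb'
      rw [hq2, cnt_false] at this
      exact this
    have cV : cnt (triv (Bool × Bool)) q V
        ((l₁ ++ [(true, a)]) ++ ([] ++ ((true, b) :: r₁))) = 0 := by
      have := cnt_map (isHom_triv g₁) (p := q) hv
      rw [hq1, cnt_false] at this
      simpa [hg₁] using this
    have cA : cnt (triv (Bool × Bool)) q A ((false, a) :: (M₂ ++ [(false, b)])) = 0 := by
      have := cnt_map (isHom_triv g₂) (p := q) ha'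
      have e : List.map g₂ (d :: (M ++ [c])) = (false, a) :: (M₂ ++ [(false, b)]) := by
        simp only [List.map_cons, List.map_append, List.map_nil, hM₂, hg₂, hfd, hfc]
      rw [hq2, cnt_false, e] at this
      exact this
    have cK₁ : cnt (triv (Bool × Bool)) q K₁ lev =
        (if q (true, a) (false, a) then 1 else 0) +
          (if q (false, a) (true, a) then 1 else 0) := by
      rw [el1, hK₁, cnt_left]
      simp [cnt, xl, xlL, nxt, triv, List.countP_cons, Nat.add_comm]
    have cK₂ : cnt (triv (Bool × Bool)) q K₂ lev =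
        (if q (false, b) (true, b) then 1 else 0) +
          (if q (true, b) (false, b) then 1 else 0) := by
      rw [el2, hK₂, cnt_left]
      simp [cnt, xl, xlL, nxt, triv, List.countP_cons, Nat.add_comm]
    rw [hW, cnt_append pU', cnt_append pB', cnt_append pK₁, cnt_append pK₂, cnt_append pA',
      cU, cnt_left, cnt_right pB, cB, cK₁, cK₂, hlev, cnt_left, cnt_right pA, cA, cV]
    omega
  obtain ⟨L, hL⟩ := isDiag_mk (path_erase pW)
  refine ⟨L, W, pW, hL, ?_, ?_, ?_, ?_, ?_⟩
  · rw [← cr₁, ← cr₂]
    simp only [hW, hU, hV, hB, hA, hK₁, hK₂, cr_append, cr_shift, cr_wmap, crb, cra, cr_pos,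
      cr_nil]
    omega
  · rw [del₁, hU, hV, ← wmap_append, erase_wmap]
    exact d₁
  · rw [del₂, hB, hA, ← wmap_append, erase_wmap]
    exact isDiag_erase_of_eqv heq.symm d₂
  · intro e
    rw [count _ (fun x y hxy => by
      rcases x with ⟨x1, x2⟩
      rcases y with ⟨y1, y2⟩
      simp only at hxy
      subst hxy
      cases x1 <;> simp [pr])]
    revert hab'
    cases e <;> cases a <;> cases b <;> simp [pr]
  · intro e
    rw [count _ (fun x y hxy => by
      rcases x with ⟨x1, x2⟩
      rcases y with ⟨y1, y2⟩
      simp only at hxy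
      subst hxy
      cases x1 <;> simp [pr])]
    revert hab'
    cases e <;> cases a <;> cases b <;> simp [pr]

end Pool.Agent.Lib.MP_131179_gt
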