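import Pool.Agent.Lib.MP_131179_gt.Goals

/-!
# Properties of the clasp sum

The clasp sum of two prime links is a prime link with at least two components, and its crossing number is
the sum of the two crossing numbers plus 4.
-/

set_option autoImplicit false

namespace Pool.Agent.Lib.MP_131179_gt

theorem cp_step_count_even {C : Type} [DecidableEq C] {k : Kind C} {i : ℕ} {s t : List C}
    (h : Step (triv C) k i s t) (z : C) : (s.count z + t.count z) % 2 = 0 := by
  induction h with
  | cup c s =>
    have e : (triv C).bar c = c := rfl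
    rw [e, List.count_cons, List.count_cons]
    split_ifs <;> omega
  | cap c s =>
    have e : (triv C).bar c = c := rfl
    rw [e, List.count_cons, List.count_cons]
    split_ifs <;> omega
  | pos a b s =>
    have e : (triv C).act b ((triv C).bar a) = b := rfl
    rw [e, List.count_cons, List.count_cons, List.count_cons, List.count_cons]
    omega
  | neg a b s =>
    have e : (triv C).act a b = a := rfl
    rw [e, List.count_cons, List.count_cons, List.count_cons, List.count_cons]
    omega
  | there a _ ih =>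
    rw [List.count_cons, List.count_cons]
    omega

/-- In a trivial palette, the number of ends with a given label is even. -/
theorem count_even {C : Type} [DecidableEq C] {w : Word C} {s t : List C}
    (h : Path (triv C) w s t) (z : C) : (s.count z + t.count z) % 2 = 0 := by
  induction h with
  | nil s => omega
  | cons h1 _ ih =>
    have := cp_step_count_even h1 z
    omega

/-- A labelled diagram of the unknot has only one label. -/
theorem unknot_labels {C : Type} {w : Word C} (h : Path (triv C) w [] [])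
    (hw : IsDiag (erase w) unknot) {x y : C} (hx : HasLabel x w) (hy : HasLabel y w) : x = y := by
  obtain ⟨v, hv, e⟩ := lift_diag rfl h hw isDiag_unknot
  obtain ⟨k, v1, rfl, hk, hv1⟩ := wmap_eq_cons hv
  obtain ⟨k', v2, rfl, hk', hv2⟩ := wmap_eq_cons hv1
  obtain ⟨c, rfl, -⟩ := Kind.map_eq_cup hk
  have hk'' := Kind.map_eq_cap hk'
  subst hk''
  have hv3 := wmap_eq_nil.1 hv2
  subst hv3
  have key : ∀ z, HasLabel z w → c = z := by
    intro z hz
    have := (hasLabel_iff e z).1 hz
    rcases hasLabel_cons.1 this with h1 | h1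
    · cases h1; rfl
    · rcases hasLabel_cons.1 h1 with h2 | h2
      · cases h2
      · exact absurd h2 (not_hasLabel_nil _)
  rw [← key x hx, ← key y hy]

theorem unknot_ne_empty : unknot ≠ emptyLink := by
  intro h
  have h1 : IsDiag [] unknot := h ▸ isDiag_empty
  have e := eqv_of_isDiag isDiag_unknot h1
  have h2 : HasLabel () ([(.cup (), 0), (.cap, 0)] : Word Unit) := ⟨0, by simp⟩
  exact not_hasLabel_nil _ ((hasLabel_iff e ()).1 h2)

theorem not_isSplit_unknot : ¬ IsSplit unknot := by
  rintro ⟨u, v, hu, hv, pu, pv, hd⟩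
  have h1 : Path (triv Bool) (wmap (fun _ => true) u) [] [] := pu.map (isHom_triv _)
  have h2 : Path (triv Bool) (wmap (fun _ => false) v) [] [] := pv.map (isHom_triv _)
  have h3 := h1.append h2
  have e : erase (wmap (fun _ => true) u ++ wmap (fun _ => false) v) = u ++ v := by
    have e1 : erase (wmap (fun _ => true) u) = u := by
      rw [erase_wmap]
      exact wmap_id' u
    have e2 : erase (wmap (fun _ => false) v) = v := by
      rw [erase_wmap]
      exact wmap_id' v
    show wmap _ _ = _
    rw [wmap_append]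
    rw [show wmap (fun _ => ()) (wmap (fun _ => true) u) = u from e1,
      show wmap (fun _ => ()) (wmap (fun _ => false) v) = v from e2]
  obtain ⟨x, hx⟩ := closed_hasLabel pu hu
  obtain ⟨y, hy⟩ := closed_hasLabel pv hv
  have hx' : HasLabel true (wmap (fun _ => true) u ++ wmap (fun _ => false) v) :=
    hasLabel_append.2 (Or.inl (hx.map _))
  have hy' : HasLabel false (wmap (fun _ => true) u ++ wmap (fun _ => false) v) :=
    hasLabel_append.2 (Or.inr (hy.map _))
  have := unknot_labels h3 (by rw [e]; exact hd) hx' hy'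
  cases this

/-! ### The parts of the structure which are preserved by moves -/

/-- The labels of a clasp sum, without the crossing number. -/
structure cp_Core (L₁ L₂ : Link) (W : Word (Bool × Bool)) : Prop where
  path : Path (triv (Bool × Bool)) W [] []
  diag₁ : IsDiag (erase (del (triv (Bool × Bool)) (fun x => x.1) W [])) L₁
  diag₂ : IsDiag (erase (del (triv (Bool × Bool)) (fun x => !x.1) W [])) L₂
  odd₁ : ∀ c : Bool, cnt (triv (Bool × Bool)) (pr (true, c) (false, c)) W [] % 2 = 1
  odd₂ : ∀ c : Bool, cnt (triv (Bool × Bool)) (pr (false, c) (true, c)) W [] % 2 = 1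

theorem Clasp.core {m n : ℕ} {L₁ L₂ L : Link} {W : Word (Bool × Bool)}
    (h : Clasp m n L₁ L₂ L W) : cp_Core L₁ L₂ W := ⟨h.path, h.diag₁, h.diag₂, h.odd₁, h.odd₂⟩

theorem cp_Core.of_eqv {L₁ L₂ : Link} {V W : Word (Bool × Bool)} (h : cp_Core L₁ L₂ W)
    (e : Eqv (triv (Bool × Bool)) W V [] []) : cp_Core L₁ L₂ V where
  path := e.path_right
  diag₁ := isDiag_erase_of_eqv (e.del (compat_triv _)) h.diag₁
  diag₂ := isDiag_erase_of_eqv (e.del (compat_triv _)) h.diag₂
  odd₁ := fun c => by
    rw [← e.cnt (pairInv_pr (by simp))]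
    exact h.odd₁ c
  odd₂ := fun c => by
    rw [← e.cnt (pairInv_pr (by simp))]
    exact h.odd₂ c

/-- Exchange the two links. -/
def cp_swp (x : Bool × Bool) : Bool × Bool := (!x.1, x.2)

theorem cp_swp_pr (a b : Bool) (c : Bool) (x y : Bool × Bool) :
    pr (a, c) (b, c) (cp_swp x) (cp_swp y) = pr (!a, c) (!b, c) x y := by
  obtain ⟨x1, x2⟩ := x
  obtain ⟨y1, y2⟩ := y
  revert a b c x1 x2 y1 y2
  unfold pr cp_swp
  decide

theorem cp_Core.swap {L₁ L₂ : Link} {W : Word (Bool × Bool)} (h : cp_Core L₁ L₂ W) :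
    cp_Core L₂ L₁ (wmap cp_swp W) where
  path := h.path.map (isHom_triv cp_swp)
  diag₁ := by
    have e := del_wmap (Q := triv (Bool × Bool)) (isHom_triv cp_swp) (κ := fun x => x.1) h.path
    rw [List.map_nil] at e
    rw [e, erase_wmap]
    exact h.diag₂
  diag₂ := by
    have e := del_wmap (Q := triv (Bool × Bool)) (isHom_triv cp_swp) (κ := fun x => !x.1) h.path
    rw [List.map_nil] at e
    rw [e, erase_wmap]
    have e2 : (fun x : Bool × Bool => !(cp_swp x).1) = fun x => x.1 := by
      funext x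
      simp [cp_swp]
    rw [e2]
    exact h.diag₁
  odd₁ := fun c => by
    have e := cnt_map (Q := triv (Bool × Bool)) (isHom_triv cp_swp) (p := pr (true, c) (false, c))
      h.path
    rw [List.map_nil] at e
    rw [e]
    have e2 : (fun x y => pr (true, c) (false, c) (cp_swp x) (cp_swp y)) = pr (false, c) (true, c) := by
      funext x y
      exact cp_swp_pr _ _ _ _ _
    rw [e2]
    exact h.odd₂ c
  odd₂ := fun c => by
    have e := cnt_map (Q := triv (Bool × Bool)) (isHom_triv cp_swp) (p := pr (false, c) (true, c))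
      h.path
    rw [List.map_nil] at e
    rw [e]
    have e2 : (fun x y => pr (false, c) (true, c) (cp_swp x) (cp_swp y)) = pr (true, c) (false, c) := by
      funext x y
      exact cp_swp_pr _ _ _ _ _
    rw [e2]
    exact h.odd₁ c

theorem Clasp.swap {m n : ℕ} {L₁ L₂ L : Link} {W : Word (Bool × Bool)}
    (h : Clasp m n L₁ L₂ L W) : Clasp n m L₂ L₁ L (wmap (fun x => (!x.1, x.2)) W) := by
  have hc := h.core.swap
  exact ⟨hc.path, by rw [erase_wmap]; exact h.diag, by rw [cr_wmap, h.cr]; omega, hc.diag₁, hc.diag₂,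
    hc.odd₁, hc.odd₂⟩

/-- A positive count gives a crossing. -/
theorem cp_exists_of_cnt {C : Type} [DecidableEq C] {P : Palette C} {x y : C} {w : Word C} {s : List C}
    (h : 0 < cnt P (pr x y) w s) : (x, y) ∈ xl P w s := by
  obtain ⟨p, hp, h1⟩ := List.countP_pos_iff.1 h
  simp only [pr, Bool.and_eq_true, decide_eq_true_eq] at h1
  obtain ⟨p1, p2⟩ := p
  obtain ⟨rfl, rfl⟩ := h1
  exact hp

theorem cp_Core.hasLabel {L₁ L₂ : Link} {W : Word (Bool × Bool)} (h : cp_Core L₁ L₂ W) (c : Bool) :
    HasLabel (true, c) W ∧ HasLabel (false, c) W := by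
  have h1 := h.odd₁ c
  have h2 := cp_exists_of_cnt (P := triv (Bool × Bool)) (w := W) (s := []) (x := (true, c))
    (y := (false, c)) (by omega)
  exact xl_mem h.path h2

theorem Clasp.twoComponents {m n : ℕ} {L₁ L₂ L : Link} {W : Word (Bool × Bool)}
    (h : Clasp m n L₁ L₂ L W) : AtLeastTwoComponents L := by
  refine ⟨wmap Prod.fst W, h.path.map (isHom_triv _), ?_, ?_, ?_⟩
  · have e : wmap (fun _ => ()) (wmap Prod.fst W) = erase W := erase_wmap _ _
    rw [e]
    exact h.diag
  · exact (h.core.hasLabel true).1.map Prod.fst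
  · exact (h.core.hasLabel true).2.map Prod.fst

/-- A diagram of the clasp sum inherits the labels. -/
theorem Clasp.lift {m n : ℕ} {L₁ L₂ L : Link} {W : Word (Bool × Bool)}
    (h : Clasp m n L₁ L₂ L W) {v : Word Unit} (hv : IsDiag v L) :
    ∃ V : Word (Bool × Bool), erase V = v ∧ cp_Core L₁ L₂ V := by
  obtain ⟨V, h1, h2⟩ := lift_diag rfl h.path h.diag hv
  exact ⟨V, h1, h.core.of_eqv h2⟩

theorem cp_six_le (l : List ((Bool × Bool) × (Bool × Bool))) :
    (l.countP fun p => p.1.1 && p.2.1) + (l.countP fun p => !p.1.1 && !p.2.1)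
      + (l.countP fun p => pr (true, true) (false, true) p.1 p.2)
      + (l.countP fun p => pr (true, false) (false, false) p.1 p.2)
      + (l.countP fun p => pr (false, true) (true, true) p.1 p.2)
      + (l.countP fun p => pr (false, false) (true, false) p.1 p.2) ≤ l.length := by
  induction l with
  | nil => simp
  | cons q l ih =>
    simp only [List.countP_cons, List.length_cons]
    have key : (if (q.1.1 && q.2.1) = true then 1 else 0)
      + (if (!q.1.1 && !q.2.1) = true then 1 else 0)
      + (if pr (true, true) (false, true) q.1 q.2 = true then 1 else 0)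
      + (if pr (true, false) (false, false) q.1 q.2 = true then 1 else 0)
      + (if pr (false, true) (true, true) q.1 q.2 = true then 1 else 0)
      + (if pr (false, false) (true, false) q.1 q.2 = true then 1 else 0) ≤ 1 := by
      obtain ⟨⟨a, b⟩, ⟨c, d⟩⟩ := q
      revert a b c d
      unfold pr
      decide
    omega

theorem cp_Core.le {L₁ L₂ : Link} {V : Word (Bool × Bool)} (h : cp_Core L₁ L₂ V) :
    crossingNumber L₁ + crossingNumber L₂ + 4 ≤ cr V := by
  have h1 := crossingNumber_le h.diag₁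
  have h2 := crossingNumber_le h.diag₂
  rw [cr_wmap, cr_del (compat_triv _) h.path] at h1 h2
  have h3 := cp_six_le (xl (triv (Bool × Bool)) V [])
  rw [length_xl h.path] at h3
  have h4 := h.odd₁ true
  have h5 := h.odd₁ false
  have h6 := h.odd₂ true
  have h7 := h.odd₂ false
  unfold cnt at h4 h5 h6 h7
  omega

theorem Clasp.crossingNumber_eq {L₁ L₂ L : Link} {W : Word (Bool × Bool)}
    (h : Clasp (crossingNumber L₁) (crossingNumber L₂) L₁ L₂ L W) :
    crossingNumber L = crossingNumber L₁ + crossingNumber L₂ + 4 := by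
  apply le_antisymm
  · have := crossingNumber_le h.diag
    rwa [cr_wmap, h.cr] at this
  · obtain ⟨v, hv, hc⟩ := exists_minimal L
    obtain ⟨V, h1, h2⟩ := h.lift hv
    rw [← hc, ← h1, cr_wmap]
    exact h2.le

/-! ### The clasp sum is not split -/

theorem cp_path_split {C : Type} {P : Palette C} {V₁ V₂ : Word C} (h : Path P (V₁ ++ V₂) [] [])
    (h1 : Path (triv Unit) (erase V₁) [] []) : Path P V₁ [] [] ∧ Path P V₂ [] [] := by
  obtain ⟨s, h2, h3⟩ := path_append_iff.1 h
  have h4 := h2.map (isHom_unit P)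
  have h5 := h1.det h4
  have h6 : s = [] := List.map_eq_nil_iff.1 h5.symm
  subst h6
  exact ⟨h2, h3⟩

theorem cp_del_closed_append {C : Type} {P : Palette C} {κ : C → Bool} {V₁ V₂ : Word C}
    (h : Path P V₁ [] []) : del P κ (V₁ ++ V₂) [] = del P κ V₁ [] ++ del P κ V₂ [] :=
  del_append h

/-- If the diagram `u ++ v` belongs to a link which is not split, `u` or `v` is empty. -/
theorem cp_nil_or_nil {C : Type} {u v : Word C} {L : Link} (hL : ¬ IsSplit L)
    (hu : Path (triv C) u [] []) (hv : Path (triv C) v [] [])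
    (h : IsDiag (erase (u ++ v)) L) : u = [] ∨ v = [] := by
  by_contra hc
  rw [not_or] at hc
  refine hL ⟨erase u, erase v, fun e => hc.1 (wmap_eq_nil.1 e), fun e => hc.2 (wmap_eq_nil.1 e),
    path_erase hu, path_erase hv, ?_⟩
  have : erase (u ++ v) = erase u ++ erase v := wmap_append _ _ _
  rwa [this] at h

/-- No mixed crossings if all labels have the same first entry. -/
theorem cp_cnt_eq_zero {w : Word (Bool × Bool)} {s t : List (Bool × Bool)} {b : Bool}
    (h : Path (triv (Bool × Bool)) w s t) (hw : ∀ x, HasLabel x w → x.1 = b)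
    (hs : ∀ x ∈ s, x.1 = b) (c : Bool) :
    cnt (triv (Bool × Bool)) (pr (true, c) (false, c)) w s = 0 := by
  by_contra hc
  have h1 := cp_exists_of_cnt (Nat.pos_of_ne_zero hc)
  have h2 := xl_mem_closed (P := triv (Bool × Bool)) (S := {x | x.1 = b})
    ⟨fun x hx => hx, fun x hx y _ => hx⟩ h hw hs _ h1
  have h3 : true = b := h2.1
  have h4 : false = b := h2.2
  rw [← h3] at h4
  cases h4

theorem cp_Core.not_isSplit {L₁ L₂ : Link} {V₁ V₂ : Word (Bool × Bool)} (h : cp_Core L₁ L₂ (V₁ ++ V₂))
    (p₁ : Path (triv (Bool × Bool)) V₁ [] []) (p₂ : Path (triv (Bool × Bool)) V₂ [] [])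
    (h₁ : ¬ IsSplit L₁) (h₂ : ¬ IsSplit L₂) (n₁ : V₁ ≠ []) (n₂ : V₂ ≠ []) : False := by
  have d₁ := h.diag₁
  have d₂ := h.diag₂
  rw [cp_del_closed_append p₁] at d₁ d₂
  have q : ∀ {κ : Bool × Bool → Bool} {V : Word (Bool × Bool)}, Path (triv (Bool × Bool)) V [] [] →
      Path (triv (Bool × Bool)) (del (triv (Bool × Bool)) κ V []) [] [] := fun hV =>
    del_path (compat_triv _) hV
  have e₁ := cp_nil_or_nil h₁ (q p₁) (q p₂) d₁
  have e₂ := cp_nil_or_nil h₂ (q p₁) (q p₂) d₂
  rw [del_eq_nil (compat_triv _) p₁, del_eq_nil (compat_triv _) p₂] at e₁ e₂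
  have hodd := h.odd₁ true
  rw [cnt_append p₁] at hodd
  obtain ⟨x₁, hx₁⟩ := closed_hasLabel p₁ n₁
  obtain ⟨x₂, hx₂⟩ := closed_hasLabel p₂ n₂
  rcases e₁ with e₁ | e₁ <;> rcases e₂ with e₂ | e₂
  · have h1 := e₁ x₁ hx₁
    have h2 := e₂ x₁ hx₁
    simp [h1] at h2
  · have z₁ := cp_cnt_eq_zero (b := false) p₁ (fun x hx => e₁ x hx) (by simp) true
    have z₂ := cp_cnt_eq_zero (b := true) p₂ (fun x hx => by simpa using e₂ x hx) (by simp) true
    omega
  · have z₁ := cp_cnt_eq_zero (b := true) p₁ (fun x hx => by simpa using e₂ x hx) (by simp) true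
    have z₂ := cp_cnt_eq_zero (b := false) p₂ (fun x hx => e₁ x hx) (by simp) true
    omega
  · have h1 := e₁ x₂ hx₂
    have h2 := e₂ x₂ hx₂
    simp [h1] at h2

/-! ### The clasp sum is not a connected sum -/

theorem cp_step_unright {C : Type} {P : Palette C} {k : Kind C} {i : ℕ} {s r s' : List C}
    {q : List Unit} (h : Step P k i (s ++ r) s')
    (h' : Step (triv Unit) (k.map fun _ => ()) i (s.map fun _ => ()) q) :
    ∃ t, s' = t ++ r ∧ t.map (fun _ => ()) = q ∧ Step P k i s t := by
  suffices ∃ t, s' = t ++ r ∧ Step P k i s t by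
    obtain ⟨t, h1, h2⟩ := this
    exact ⟨t, h1, ((h2.map (isHom_unit P)).det h').symm ▸ rfl, h2⟩
  induction i generalizing s s' q with
  | zero =>
    cases k with
    | cup c =>
      rw [step_cup] at h
      exact ⟨_, h, Step.cup c s⟩
    | cap =>
      rw [Kind.map_cap, step_cap] at h'
      obtain ⟨c, hc⟩ := h'
      obtain ⟨a, s1, rfl, -, hs1⟩ := List.map_eq_cons_iff.1 hc
      obtain ⟨b, s2, rfl, -, -⟩ := List.map_eq_cons_iff.1 hs1
      rw [step_cap] at h
      obtain ⟨d, hd⟩ := h
      simp only [List.cons_append, List.cons.injEq] at hd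
      obtain ⟨rfl, rfl, rfl⟩ := hd
      exact ⟨s2, rfl, Step.cap _ _⟩
    | pos =>
      rw [Kind.map_pos, step_pos] at h'
      obtain ⟨a', b', r', hc, -⟩ := h'
      obtain ⟨a, s1, rfl, -, hs1⟩ := List.map_eq_cons_iff.1 hc
      obtain ⟨b, s2, rfl, -, -⟩ := List.map_eq_cons_iff.1 hs1
      rw [step_pos] at h
      obtain ⟨x, y, z, hd, rfl⟩ := h
      simp only [List.cons_append, List.cons.injEq] at hd
      obtain ⟨rfl, rfl, rfl⟩ := hd
      exact ⟨_, rfl, Step.pos _ _ _⟩
    | neg =>
      rw [Kind.map_neg, step_neg] at h'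
      obtain ⟨a', b', r', hc, -⟩ := h'
      obtain ⟨a, s1, rfl, -, hs1⟩ := List.map_eq_cons_iff.1 hc
      obtain ⟨b, s2, rfl, -, -⟩ := List.map_eq_cons_iff.1 hs1
      rw [step_neg] at h
      obtain ⟨x, y, z, hd, rfl⟩ := h
      simp only [List.cons_append, List.cons.injEq] at hd
      obtain ⟨rfl, rfl, rfl⟩ := hd
      exact ⟨_, rfl, Step.neg _ _ _⟩
  | succ i ih =>
    obtain ⟨a', s1', t1', e1, rfl, h2⟩ := step_succ_iff.1 h'
    obtain ⟨a, s1, rfl, -, rfl⟩ := List.map_eq_cons_iff.1 e1
    obtain ⟨b, s2, t2, e2, rfl, h3⟩ := step_succ_iff.1 h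
    simp only [List.cons_append, List.cons.injEq] at e2
    obtain ⟨rfl, rfl⟩ := e2
    obtain ⟨t, rfl, h4⟩ := ih h3 h2
    exact ⟨a :: t, rfl, Step.there _ h4⟩

theorem cp_path_unright {C : Type} {P : Palette C} {w : Word C} {s r s' : List C}
    {q : List Unit} (h : Path P w (s ++ r) s')
    (h' : Path (triv Unit) (erase w) (s.map fun _ => ()) q) :
    ∃ t, s' = t ++ r ∧ t.map (fun _ => ()) = q ∧ Path P w s t := by
  induction w generalizing s with
  | nil =>
    rw [path_nil_iff] at h
    have h1 := path_nil_iff.1 h'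
    exact ⟨s, h.symm, h1, Path.nil _⟩
  | cons l w ih =>
    obtain ⟨k, i⟩ := l
    obtain ⟨s1, h1, h2⟩ := path_cons_iff.1 h
    obtain ⟨q1, h3, h4⟩ := path_cons_iff.1 h'
    obtain ⟨t1, rfl, h5, h6⟩ := cp_step_unright h1 h3
    subst h5
    obtain ⟨t, h7, h8, h9⟩ := ih h2 h4
    exact ⟨t, h7, h8, Path.cons h6 h9⟩

theorem cp_path_one {C : Type} {w : Word C} {x : C} {r s' : List C}
    (h : Path (triv C) w (x :: r) s') (h' : Path (triv Unit) (erase w) [()] [()]) :
    s' = x :: r ∧ Path (triv C) w [x] [x] := by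
  classical
  obtain ⟨t, h1, h2, h3⟩ := cp_path_unright (s := [x]) (r := r) h h'
  obtain ⟨y, t1, rfl, -, h4⟩ := List.map_eq_cons_iff.1 h2
  have h5 : t1 = [] := List.map_eq_nil_iff.1 h4
  subst h5
  have h6 := count_even h3 x
  have h7 : y = x := by
    by_contra hc
    rw [List.count_singleton_self, List.count_cons_of_ne hc, List.count_nil] at h6
    omega
  subst h7
  exact ⟨h1, h3⟩

theorem cp_closure_split {x0 : Unit} {V : Word (Bool × Bool)} {t u : Word Unit}
    (hV : Path (triv (Bool × Bool)) V [] []) (e : erase V = closure x0 (t ++ u))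
    (ht : Path (triv Unit) t [()] [()]) (hu : Path (triv Unit) u [()] [()]) :
    ∃ (x : Bool × Bool) (T U : Word (Bool × Bool)), V = closure x (T ++ U) ∧ erase T = t ∧
      erase U = u ∧ Path (triv (Bool × Bool)) T [x] [x] ∧ Path (triv (Bool × Bool)) U [x] [x] := by
  obtain ⟨k, V1, rfl, hk, h1⟩ := wmap_eq_cons e
  obtain ⟨x, rfl, -⟩ := Kind.map_eq_cup hk
  obtain ⟨TU, E, rfl, h2, h3⟩ := wmap_eq_append h1
  obtain ⟨T, U, rfl, h4, h5⟩ := wmap_eq_append h2
  obtain ⟨k', E1, rfl, hk', h6⟩ := wmap_eq_cons h3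
  have h7 := Kind.map_eq_cap hk'
  subst h7
  have h8 := wmap_eq_nil.1 h6
  subst h8
  obtain ⟨s1, p1, p2⟩ := path_cons_iff.1 hV
  rw [step_cup] at p1
  subst p1
  obtain ⟨s2, p3, p4⟩ := path_append_iff.1 p2
  obtain ⟨s3, p5, p6⟩ := path_append_iff.1 p3
  have h4' : erase T = t := h4
  have h5' : erase U = u := h5
  obtain ⟨rfl, p7⟩ := cp_path_one p5 (by rw [h4']; exact ht)
  obtain ⟨rfl, p8⟩ := cp_path_one p6 (by rw [h5']; exact hu)
  exact ⟨x, T, U, rfl, h4, h5, p7, p8⟩

theorem cp_del_closure_true {κ : Bool × Bool → Bool} {x : Bool × Bool} {w : Word (Bool × Bool)}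
    (hw : Path (triv (Bool × Bool)) w [x] [x]) (hx : κ x = true) :
    del (triv (Bool × Bool)) κ (closure x w) [] =
      closure x (del (triv (Bool × Bool)) κ w [x]) := by
  have h1 : Path (triv (Bool × Bool)) w (x :: x :: []) (x :: x :: []) := hw.right [x]
  unfold closure
  rw [del_cons]
  have e1 : delL κ (.cup x) 0 [] = [(.cup x, 0)] := by simp [delL, hx]
  have e2 : nxt (triv (Bool × Bool)) (.cup x) 0 [] = x :: x :: [] := rfl
  rw [e1, e2, del_append h1]
  have e3 : del (triv (Bool × Bool)) κ w (x :: x :: []) = del (triv (Bool × Bool)) κ w [x] :=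
    del_right hw [x]
  rw [e3, del_cons]
  have e4 : delL κ (.cap) 0 [x, x] = [(.cap, 0)] := by simp [delL, hx]
  rw [e4]
  simp

theorem cp_del_closure_false {κ : Bool × Bool → Bool} {x : Bool × Bool} {w : Word (Bool × Bool)}
    (hw : Path (triv (Bool × Bool)) w [x] [x]) (hx : κ x = false) :
    del (triv (Bool × Bool)) κ (closure x w) [] = del (triv (Bool × Bool)) κ w [x] := by
  have h1 : Path (triv (Bool × Bool)) w (x :: x :: []) (x :: x :: []) := hw.right [x]
  unfold closure
  rw [del_cons]
  have e1 : delL κ (.cup x) 0 [] = [] := by simp [delL, hx]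
  have e2 : nxt (triv (Bool × Bool)) (.cup x) 0 [] = x :: x :: [] := rfl
  rw [e1, e2, del_append h1]
  have e3 : del (triv (Bool × Bool)) κ w (x :: x :: []) = del (triv (Bool × Bool)) κ w [x] :=
    del_right hw [x]
  rw [e3, del_cons]
  have e4 : delL κ (.cap) 0 [x, x] = [] := by simp [delL, hx]
  rw [e4]
  simp

theorem cp_cnt_closure {p : Bool × Bool → Bool × Bool → Bool} {x : Bool × Bool}
    {w : Word (Bool × Bool)} (hw : Path (triv (Bool × Bool)) w [x] [x]) :
    cnt (triv (Bool × Bool)) p (closure x w) [] = cnt (triv (Bool × Bool)) p w [x] := by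
  have h1 : Path (triv (Bool × Bool)) w (x :: x :: []) (x :: x :: []) := hw.right [x]
  have h2 : Path (triv (Bool × Bool)) [(.cup x, 0)] [] [x, x] := Path.cons (Step.cup x []) (Path.nil _)
  have h3 : closure x w = [(.cup x, 0)] ++ (w ++ [(.cap, 0)]) := rfl
  rw [h3, cnt_append h2, cnt_append h1]
  have e3 : cnt (triv (Bool × Bool)) p w (x :: x :: []) = cnt (triv (Bool × Bool)) p w [x] :=
    cnt_right hw [x]
  rw [e3]
  have e1 : cnt (triv (Bool × Bool)) p [(.cup x, 0)] [] = 0 := rfl
  have e2 : cnt (triv (Bool × Bool)) p [(.cap, 0)] [x, x] = 0 := rfl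
  rw [e1, e2]
  omega

theorem cp_closure_path {C : Type} {x : C} {w : Word C} (hw : Path (triv C) w [x] [x]) :
    Path (triv C) (closure x w) [] [] :=
  Path.cons (Step.cup x []) ((hw.right [x]).append (Path.cons (Step.cap x []) (Path.nil _)))

theorem cp_erase_closure {C : Type} (x : C) (w : Word C) :
    erase (closure x w) = closure () (erase w) := by
  simp [closure]

/-- The part of a mixed tangle which belongs to the first link is not unknotted. -/
theorem cp_side {T : Word (Bool × Bool)} {x : Bool × Bool} (hT : Path (triv (Bool × Bool)) T [x] [x])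
    (hx : x.1 = true)
    (hodd : ∀ c, 0 < cnt (triv (Bool × Bool)) (pr (true, c) (false, c)) T [x]) :
    ¬ IsDiag (erase (closure x (del (triv (Bool × Bool)) (fun y => y.1) T [x]))) unknot := by
  intro hd
  set T₁ := del (triv (Bool × Bool)) (fun y => y.1) T [x] with hT₁
  have p1 : Path (triv (Bool × Bool)) T₁ [x] [x] := by
    have := del_path (κ := fun y : Bool × Bool => y.1) (compat_triv _) hT
    simpa [hx] using this
  have key : ∀ c, HasLabel (true, c) (closure x T₁) := by
    intro c
    have h1 := cp_exists_of_cnt (hodd c)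
    have h2 := xl_mem_closed (P := triv (Bool × Bool)) (S := {y | HasLabel y T ∨ y = x})
      ⟨fun y hy => hy, fun y hy z _ => hy⟩ hT (fun y hy => Or.inl hy)
      (fun y hy => Or.inr (List.mem_singleton.1 hy)) _ h1
    rcases h2.1 with h3 | h3
    · refine hasLabel_cons.2 (Or.inr (hasLabel_append.2 (Or.inl ?_)))
      exact (hasLabel_del hT).2 ⟨h3, rfl⟩
    · exact hasLabel_cons.2 (Or.inl (by rw [← h3]))
  have := unknot_labels (cp_closure_path p1) hd (key true) (key false)
  cases this

theorem cp_Core.sum {L₁ L₂ : Link} {T U : Word (Bool × Bool)} {x : Bool × Bool}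
    (h : cp_Core L₁ L₂ (closure x (T ++ U))) (hT : Path (triv (Bool × Bool)) T [x] [x])
    (hU : Path (triv (Bool × Bool)) U [x] [x]) (hx : x.1 = true) (h₁ : IsPrime L₁)
    (h₂ : ¬ IsSplit L₂) :
    IsDiag (closure () (erase T)) unknot ∨ IsDiag (closure () (erase U)) unknot := by
  have d₂ := h.diag₂
  rw [cp_del_closure_false (hT.append hU) (by simp [hx]), del_append hT] at d₂
  have q : ∀ {V : Word (Bool × Bool)}, Path (triv (Bool × Bool)) V [x] [x] →
      Path (triv (Bool × Bool)) (del (triv (Bool × Bool)) (fun x => !x.1) V [x]) [] [] := by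
    intro V hV
    have := del_path (κ := fun y : Bool × Bool => !y.1) (compat_triv _) hV
    simpa [hx] using this
  have q₁ : ∀ {V : Word (Bool × Bool)}, Path (triv (Bool × Bool)) V [x] [x] →
      Path (triv (Bool × Bool)) (del (triv (Bool × Bool)) (fun x => x.1) V [x]) [x] [x] := by
    intro V hV
    have := del_path (κ := fun y : Bool × Bool => y.1) (compat_triv _) hV
    simpa [hx] using this
  have e₂ := cp_nil_or_nil h₂ (q hT) (q hU) d₂
  -- a tangle whose second part is empty lies in the first link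
  have r : ∀ {V : Word (Bool × Bool)}, Path (triv (Bool × Bool)) V [x] [x] →
      del (triv (Bool × Bool)) (fun x => !x.1) V [x] = [] →
      (∀ c, cnt (triv (Bool × Bool)) (pr (true, c) (false, c)) V [x] = 0) ∧
        del (triv (Bool × Bool)) (fun x => x.1) V [x] = V := by
    intro V hV hn
    have hl : ∀ z, HasLabel z V → z.1 = true := by
      intro z hz
      by_contra hc
      have : HasLabel z (del (triv (Bool × Bool)) (fun x => !x.1) V [x]) :=
        (hasLabel_del hV).2 ⟨hz, by simpa using hc⟩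
      rw [hn] at this
      exact not_hasLabel_nil _ this
    exact ⟨cp_cnt_eq_zero hV hl (by simpa using hx),
      del_eq_self (compat_triv _) hV hl (by simpa using hx)⟩
  have d₁ := h.diag₁
  rw [cp_del_closure_true (hT.append hU) hx, del_append hT, cp_erase_closure] at d₁
  have hodd : ∀ c, (cnt (triv (Bool × Bool)) (pr (true, c) (false, c)) T [x]
      + cnt (triv (Bool × Bool)) (pr (true, c) (false, c)) U [x]) % 2 = 1 := by
    intro c
    have := h.odd₁ c
    rwa [cp_cnt_closure (hT.append hU), cnt_append hT] at this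
  have eu : ∀ {V : Word (Bool × Bool)}, Path (triv (Bool × Bool)) V [x] [x] →
      ∃ A, IsDiag (closure () (erase V)) A := by
    intro V hV
    have := path_erase (cp_closure_path hV)
    rw [cp_erase_closure] at this
    exact isDiag_mk this
  have pe : ∀ {V : Word (Bool × Bool)}, Path (triv (Bool × Bool)) V [x] [x] →
      Path (triv Unit) (erase V) [()] [()] := fun hV => hV.map (isHom_unit _)
  have pr1 := h₁.2.2.2
  rcases e₂ with e₂ | e₂
  · obtain ⟨r1, r2⟩ := r hT e₂
    rw [r2] at d₁
    obtain ⟨A, hA⟩ := eu hT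
    obtain ⟨B, hB⟩ := eu (q₁ hU)
    have := pr1 A B ⟨_, _, pe hT, pe (q₁ hU), hA, hB, by
      have e : erase (T ++ del (triv (Bool × Bool)) (fun x => x.1) U [x]) =
        erase T ++ erase (del (triv (Bool × Bool)) (fun x => x.1) U [x]) := wmap_append _ _ _
      rwa [e] at d₁⟩
    rcases this with rfl | rfl
    · exact Or.inl hA
    · exfalso
      refine cp_side hU hx (fun c => ?_) (by rw [cp_erase_closure]; exact hB)
      have h1 := hodd c
      have h2 := r1 c
      omega
  · obtain ⟨r1, r2⟩ := r hU e₂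
    rw [r2] at d₁
    obtain ⟨A, hA⟩ := eu (q₁ hT)
    obtain ⟨B, hB⟩ := eu hU
    have := pr1 A B ⟨_, _, pe (q₁ hT), pe hU, hA, hB, by
      have e : erase (del (triv (Bool × Bool)) (fun x => x.1) T [x] ++ U) =
        erase (del (triv (Bool × Bool)) (fun x => x.1) T [x]) ++ erase U := wmap_append _ _ _
      rwa [e] at d₁⟩
    rcases this with rfl | rfl
    · exfalso
      refine cp_side hT hx (fun c => ?_) (by rw [cp_erase_closure]; exact hA)
      have h1 := hodd c
      have h2 := r1 c
      omega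
    · exact Or.inr hB

theorem Clasp.isPrime {m n : ℕ} {L₁ L₂ L : Link} {W : Word (Bool × Bool)}
    (h : Clasp m n L₁ L₂ L W) (h₁ : IsPrime L₁) (h₂ : IsPrime L₂) : IsPrime L := by
  refine ⟨?_, ?_, ?_, ?_⟩
  · rintro rfl
    obtain ⟨V, hV, hc⟩ := h.lift isDiag_empty
    have hV' : V = [] := wmap_eq_nil.1 hV
    subst hV'
    exact not_hasLabel_nil _ (hc.hasLabel true).1
  · rintro ⟨u, v, hu, hv, pu, pv, hd⟩
    obtain ⟨V, hV, hc⟩ := h.lift hd
    obtain ⟨V₁, V₂, rfl, rfl, rfl⟩ := wmap_eq_append hV
    obtain ⟨p₁, p₂⟩ := cp_path_split hc.path pu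
    exact hc.not_isSplit p₁ p₂ h₁.2.1 h₂.2.1 (fun e => hu (by rw [e]; rfl))
      (fun e => hv (by rw [e]; rfl))
  · rintro rfl
    have h1 := h.core.hasLabel true
    have := unknot_labels h.path h.diag h1.1 h1.2
    cases this
  · rintro A B ⟨t, u, ht, hu, hA, hB, hd⟩
    obtain ⟨V, hV, hc⟩ := h.lift hd
    obtain ⟨x, T, U, rfl, rfl, rfl, hT, hU⟩ := cp_closure_split hc.path hV ht hu
    by_cases hx : x.1 = true
    · rcases hc.sum hT hU hx h₁ h₂.2.1 with h3 | h3
      · exact Or.inl (hA.unique h3)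
      · exact Or.inr (hB.unique h3)
    · have hc' := hc.swap
      have e : wmap cp_swp (closure x (T ++ U)) = closure (cp_swp x) (wmap cp_swp T ++ wmap cp_swp U) := by
        simp [closure]
      rw [e] at hc'
      have hT' : Path (triv (Bool × Bool)) (wmap cp_swp T) [cp_swp x] [cp_swp x] :=
        hT.map (isHom_triv cp_swp)
      have hU' : Path (triv (Bool × Bool)) (wmap cp_swp U) [cp_swp x] [cp_swp x] :=
        hU.map (isHom_triv cp_swp)
      rcases hc'.sum hT' hU' (by simp [cp_swp, hx]) h₂ h₁.2.1 with h3 | h3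
      · rw [erase_wmap] at h3
        exact Or.inl (hA.unique h3)
      · rw [erase_wmap] at h3
        exact Or.inr (hB.unique h3)

end Pool.Agent.Lib.MP_131179_gt
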