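import Pool.Agent.Lib.MP_131179_gt.Del

/-!
# Counting crossings

`xl P w s` is the list of the crossings of the word `w` (with labels `s` at the bottom): each crossing
is recorded as the pair (label of the over-strand, label of the under-strand before the crossing).
-/

set_option autoImplicit false
set_option linter.unusedSimpArgs false

namespace Pool.Agent.Lib.MP_131179_gt

variable {C D : Type} {P : Palette C} {Q : Palette D}

/-- The crossing in an elementary tangle. -/
def xlL : Kind C → ℕ → List C → List (C × C)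
  | .pos, 0, a :: b :: _ => [(a, b)]
  | .neg, 0, a :: b :: _ => [(b, a)]
  | k, i + 1, _ :: s => xlL k i s
  | _, _, _ => []

/-- The crossings of a word. -/
def xl (P : Palette C) : Word C → List C → List (C × C)
  | [], _ => []
  | (k, i) :: w, s => xlL k i s ++ xl P w (nxt P k i s)

@[simp] theorem xl_nil (s : List C) : xl P [] s = [] := rfl

theorem xl_cons (k : Kind C) (i : ℕ) (w : Word C) (s : List C) :
    xl P ((k, i) :: w) s = xlL k i s ++ xl P w (nxt P k i s) := rfl

theorem xlL_succ (k : Kind C) (i : ℕ) (a : C) (s : List C) :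
    xlL k (i + 1) (a :: s) = xlL k i s := by
  cases k <;> rfl

theorem xl_append {u v : Word C} {s t : List C} (h : Path P u s t) :
    xl P (u ++ v) s = xl P u s ++ xl P v t := by
  induction h with
  | nil s => simp
  | cons hs _ ih => rw [List.cons_append, xl_cons, xl_cons, hs.nxt_eq, ih, List.append_assoc]

theorem xlL_left {k : Kind C} {i : ℕ} (l s : List C) :
    xlL k (i + l.length) (l ++ s) = xlL k i s := by
  induction l with
  | nil => simp
  | cons a l ih => rw [List.length_cons, ← Nat.add_assoc, List.cons_append, xlL_succ, ih]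

theorem xl_left {w : Word C} (l s : List C) :
    xl P (shift l.length w) (l ++ s) = xl P w s := by
  induction w generalizing s with
  | nil => rfl
  | cons x w ih =>
    obtain ⟨k, i⟩ := x
    rw [shift_cons, xl_cons, xl_cons, xlL_left, nxt_left, ih]

theorem xlL_right {k : Kind C} {i : ℕ} {s t : List C} (h : Step P k i s t)
    (r : List C) : xlL k i (s ++ r) = xlL k i s := by
  induction h with
  | cup c s => rfl
  | cap c s => rfl
  | pos a b s => rfl
  | neg a b s => rfl
  | there a _ ih => rw [List.cons_append, xlL_succ, xlL_succ, ih]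

theorem xl_right {w : Word C} {s t : List C} (h : Path P w s t) (r : List C) :
    xl P w (s ++ r) = xl P w s := by
  induction h with
  | nil s => rfl
  | cons hs _ ih =>
    rw [xl_cons, xl_cons, xlL_right hs, hs.nxt_eq, (hs.right r).nxt_eq, ih]

theorem xlL_length {k : Kind C} {i : ℕ} {s t : List C} (h : Step P k i s t) :
    (xlL k i s).length = if k.isX then 1 else 0 := by
  induction h with
  | cup c s => rfl
  | cap c s => rfl
  | pos a b s => rfl
  | neg a b s => rfl
  | there a _ ih => rw [xlL_succ, ih]

/-- The number of recorded crossings is the number of crossings. -/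
theorem length_xl {w : Word C} {s t : List C} (h : Path P w s t) :
    (xl P w s).length = cr w := by
  induction h with
  | nil s => rfl
  | cons hs _ ih => rw [xl_cons, List.length_append, hs.nxt_eq, ih, xlL_length hs, cr_cons]

theorem xlL_map (f : C → D) {k : Kind C} {i : ℕ} {s t : List C} (h : Step P k i s t) :
    xlL (k.map f) i (s.map f) = (xlL k i s).map (Prod.map f f) := by
  induction h with
  | cup c s => rfl
  | cap c s => rfl
  | pos a b s => rfl
  | neg a b s => rfl
  | there a _ ih => rw [List.map_cons, xlL_succ, xlL_succ, ih]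

theorem xl_map {f : C → D} (hf : IsHom P Q f) {w : Word C} {s t : List C} (h : Path P w s t) :
    xl Q (wmap f w) (s.map f) = (xl P w s).map (Prod.map f f) := by
  induction h with
  | nil s => rfl
  | cons hs _ ih =>
    rw [wmap_cons, xl_cons, xl_cons, (hs.map hf).nxt_eq, hs.nxt_eq, ih, xlL_map f hs,
      List.map_append]

/-- A crossing survives the deletion of strands iff both its strands are kept. -/
theorem xlL_del {κ : C → Bool} (hκ : Compat P κ) {k : Kind C} {i : ℕ} {s t : List C}
    (h : Step P k i s t) :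
    xl P (delL κ k i s) (s.filter κ) = (xlL k i s).filter fun p => κ p.1 && κ p.2 := by
  induction h with
  | cup c s => by_cases h : κ c = true <;> simp [delL, h, xl, xlL]
  | cap c s => by_cases h : κ c = true <;> simp [delL, h, xl, xlL, hκ.bar]
  | pos a b s =>
    by_cases ha : κ a = true <;> by_cases hb : κ b = true <;> simp [delL, ha, hb, xl, xlL]
  | neg a b s =>
    by_cases ha : κ a = true <;> by_cases hb : κ b = true <;> simp [delL, ha, hb, xl, xlL]
  | @there a k i s t h' ih =>
    rw [delL_succ, xlL_succ, ← ih]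
    by_cases ha : κ a = true
    · simp only [ha, if_true, List.filter_cons]
      exact xl_left [a] _
    · simp [ha]

theorem xl_del {κ : C → Bool} (hκ : Compat P κ) {w : Word C} {s t : List C}
    (h : Path P w s t) :
    xl P (del P κ w s) (s.filter κ) = (xl P w s).filter fun p => κ p.1 && κ p.2 := by
  induction h with
  | nil s => rfl
  | cons hs _ ih =>
    rw [del_cons, xl_append (delL_path hκ hs), xlL_del hκ hs, hs.nxt_eq, ih, xl_cons, hs.nxt_eq,
      List.filter_append]

/-- The number of crossings after deletion of strands. -/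
theorem cr_del {κ : C → Bool} (hκ : Compat P κ) {w : Word C} {s t : List C}
    (h : Path P w s t) :
    cr (del P κ w s) = (xl P w s).countP fun p => κ p.1 && κ p.2 := by
  rw [← length_xl (del_path hκ h), xl_del hκ h, List.countP_eq_length_filter]

/-! ### Parities of the numbers of crossings of two families of components -/

/-- A set of pairs of labels which only depends on the components and contains no pair of
equal labels. -/
structure PairInv (P : Palette C) (p : C → C → Bool) : Prop where
  bar_left : ∀ x y, p (P.bar x) y = p x y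
  bar_right : ∀ x y, p x (P.bar y) = p x y
  act_left : ∀ x y z, p (P.act x z) y = p x y
  act_right : ∀ x y z, p x (P.act y z) = p x y
  diag : ∀ x, p x x = false

theorem pairInv_triv {p : C → C → Bool} (h : ∀ x, p x x = false) : PairInv (triv C) p :=
  ⟨fun _ _ => rfl, fun _ _ => rfl, fun _ _ _ => rfl, fun _ _ _ => rfl, h⟩

/-- The number of crossings whose pair of labels (over, under) is in the set `p`. -/
def cnt (P : Palette C) (p : C → C → Bool) (w : Word C) (s : List C) : ℕ :=
  (xl P w s).countP fun x => p x.1 x.2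

@[simp] theorem cnt_nil (p : C → C → Bool) (s : List C) : cnt P p [] s = 0 := rfl

theorem cnt_append {p : C → C → Bool} {u v : Word C} {s t : List C} (h : Path P u s t) :
    cnt P p (u ++ v) s = cnt P p u s + cnt P p v t := by
  rw [cnt, xl_append h, List.countP_append]
  rfl

theorem cnt_left {p : C → C → Bool} {w : Word C} (l s : List C) :
    cnt P p (shift l.length w) (l ++ s) = cnt P p w s := by
  rw [cnt, xl_left]
  rfl

theorem cnt_right {p : C → C → Bool} {w : Word C} {s t : List C} (h : Path P w s t)
    (r : List C) : cnt P p w (s ++ r) = cnt P p w s := by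
  rw [cnt, xl_right h]
  rfl

theorem cnt_le_cr {p : C → C → Bool} {w : Word C} {s t : List C} (h : Path P w s t) :
    cnt P p w s ≤ cr w := by
  rw [← length_xl h]
  exact List.countP_le_length

theorem cnt_map {f : C → D} (hf : IsHom P Q f) {p : D → D → Bool} {w : Word C} {s t : List C}
    (h : Path P w s t) :
    cnt Q p (wmap f w) (s.map f) = cnt P (fun x y => p (f x) (f y)) w s := by
  rw [cnt, xl_map hf h, List.countP_map]
  rfl

theorem far_cnt {p : C → C → Bool} {k l : Kind C} {g : ℕ} {s t : List C}
    (h : Path P [(k, 0), (l, k.out + g)] s t) :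
    cnt P p [(k, 0), (l, k.out + g)] s = cnt P p [(l, k.inn + g), (k, 0)] s := by
  obtain ⟨t1, h1, h2⟩ := path_cons_iff.1 h
  rw [path_single_iff] at h2
  have h0 : ∃ a b r : List C, a.length = k.inn ∧ b.length = k.out ∧ s = a ++ r ∧ t1 = b ++ r ∧
      ∀ r' : List C, xlL k 0 (a ++ r') = xlL k 0 (a ++ r) := by
    cases h1 with
    | cup c s => exact ⟨[], [c, P.bar c], s, rfl, rfl, rfl, rfl, fun r' => rfl⟩
    | cap c s => exact ⟨[c, P.bar c], [], t1, rfl, rfl, rfl, rfl, fun r' => rfl⟩
    | pos a b s =>
      exact ⟨[a, b], [P.act b (P.bar a), a], s, rfl, rfl, rfl, rfl, fun r' => rfl⟩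
    | neg a b s => exact ⟨[a, b], [b, P.act a b], s, rfl, rfl, rfl, rfl, fun r' => rfl⟩
  obtain ⟨a, b, r, ha, hb, rfl, rfl, hab⟩ := h0
  have h3 := h1.nxt_eq
  rw [← hb, Nat.add_comm] at h2
  obtain ⟨r', rfl, h4⟩ := step_append_cancel h2
  have e1 : xl P [(k, 0), (l, k.out + g)] (a ++ r) = xlL k 0 (a ++ r) ++ xlL l g r := by
    rw [xl_cons, h3, xl_cons, ← hb, Nat.add_comm b.length g, xlL_left, xl_nil, List.append_nil]
  have e2 : xl P [(l, k.inn + g), (k, 0)] (a ++ r) = xlL l g r ++ xlL k 0 (a ++ r') := by
    rw [xl_cons, ← ha, Nat.add_comm a.length g, xlL_left, nxt_left, h4.nxt_eq, xl_cons, xl_nil,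
      List.append_nil]
  rw [cnt, cnt, e1, e2, hab r', List.countP_append, List.countP_append, Nat.add_comm]

theorem Base.cnt {p : C → C → Bool} (hp : PairInv P p) {u v : Word C} (h : Base u v)
    {s t : List C} (hu : Path P u s t) (hv : Path P v s t) :
    MP_131179_gt.cnt P p u s % 2 = MP_131179_gt.cnt P p v s % 2 := by
  cases h with
  | far k l g => rw [far_cnt hu]
  | zig c =>
    obtain ⟨rfl, r, rfl⟩ := path_zig.1 hu
    simp [MP_131179_gt.cnt, xl, xlL, nxt]
  | zag c =>
    obtain ⟨rfl, r, rfl⟩ := path_zag.1 hu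
    simp [MP_131179_gt.cnt, xl, xlL, nxt]
  | cupOver c d =>
    obtain ⟨x, r, rfl, h1⟩ := path_cup_pos.1 hu
    obtain ⟨y, r', h2, h3⟩ := path_cup_neg'.1 hv
    simp only [List.cons.injEq] at h2
    obtain ⟨rfl, rfl⟩ := h2
    rw [h1] at h3
    simp only [List.cons.injEq] at h3
    obtain ⟨h4, -⟩ := h3
    subst h4
    simp [MP_131179_gt.cnt, xl, xlL, nxt, hp.bar_right, hp.act_right]
  | cupUnder c d =>
    obtain ⟨x, r, rfl, h1⟩ := path_cup_neg.1 hu
    obtain ⟨y, r', h2, h3⟩ := path_cup_pos'.1 hv
    simp only [List.cons.injEq] at h2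
    obtain ⟨rfl, rfl⟩ := h2
    rw [h1] at h3
    simp only [List.cons.injEq] at h3
    obtain ⟨rfl, -⟩ := h3
    simp [MP_131179_gt.cnt, xl, xlL, nxt, hp.bar_left]
  | capOver =>
    obtain ⟨a, b, r, rfl, -⟩ := path_pos_cap.1 hu
    simp [MP_131179_gt.cnt, xl, xlL, nxt, hp.bar_left]
  | capUnder =>
    obtain ⟨a, b, r, rfl, -⟩ := path_neg_cap.1 hu
    simp [MP_131179_gt.cnt, xl, xlL, nxt, hp.bar_right, hp.act_right]
  | r1CupPos c d =>
    simp [MP_131179_gt.cnt, xl, xlL, nxt, hp.bar_right, hp.diag]
  | r1CupNeg c d =>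
    simp [MP_131179_gt.cnt, xl, xlL, nxt, hp.bar_left, hp.diag]
  | r1CapPos =>
    obtain ⟨a, rfl⟩ := path_r1CapPos.1 hu
    simp [MP_131179_gt.cnt, xl, xlL, nxt, hp.bar_right, hp.diag]
  | r1CapNeg =>
    obtain ⟨a, rfl⟩ := path_r1CapNeg.1 hu
    simp [MP_131179_gt.cnt, xl, xlL, nxt, hp.bar_left, hp.diag]
  | r2PosNeg =>
    obtain ⟨rfl, a, b, r, rfl⟩ := path_r2PosNeg.1 hu
    by_cases h : p a b = true <;>
      simp [MP_131179_gt.cnt, xl, xlL, nxt, hp.act_right, h]
  | r2NegPos =>
    obtain ⟨rfl, a, b, r, rfl⟩ := path_r2NegPos.1 hu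
    by_cases h : p b a = true <;>
      simp [MP_131179_gt.cnt, xl, xlL, nxt, hp.act_right, h]
  | r3 =>
    obtain ⟨a, b, c, r, rfl, -⟩ := path_r3_left.1 hu
    by_cases h1 : p a b = true <;> by_cases h2 : p a c = true <;> by_cases h3 : p b c = true <;>
      simp [MP_131179_gt.cnt, xl, xlL, nxt, hp.act_right, hp.act_left, h1, h2, h3]

/-- **Parity.** The parity of the number of crossings where a strand of one family of components
passes over a strand of another family does not change under the moves. -/
theorem Eqv.cnt {p : C → C → Bool} (hp : PairInv P p) {u v : Word C} {s t : List C}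
    (h : Eqv P u v s t) : MP_131179_gt.cnt P p u s % 2 = MP_131179_gt.cnt P p v s % 2 := by
  induction h with
  | refl _ => rfl
  | symm _ ih => exact ih.symm
  | trans _ _ ih1 ih2 => exact ih1.trans ih2
  | comp h1 h2 ih1 ih2 =>
    rw [cnt_append h1.path_left, cnt_append h1.path_right]
    omega
  | @move u v i s t hb hu hv =>
    have hne : u ≠ [] := by cases hb <;> simp
    obtain ⟨l, s1, t1, hl, rfl, rfl, hu1⟩ := (path_shift_iff hne).1 hu
    obtain ⟨t2, h3, hv1⟩ := (path_shift_append_iff' hl).1 hv
    obtain rfl := List.append_cancel_left h3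
    rw [← hl, cnt_left, cnt_left]
    exact hb.cnt hp hu1 hv1

end Pool.Agent.Lib.MP_131179_gt
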