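import Mathlib

/-!
# Link diagrams as words of elementary tangles

A link diagram in Morse position is a word whose letters are elementary tangles: cups (local minima),
caps (local maxima) and the two kinds of crossings, read from bottom to top.  The letter `(k, i)` acts
on the strands number `i`, `i + 1` of the current level (a cup is inserted at position `i`).

Strands may carry labels in a set `C`; `Palette C` describes how a label changes when the strand
is read in the other direction and when it passes under another strand.
-/

set_option autoImplicit false

namespace Pool.Agent.Lib.MP_131179_gt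

/-- The kinds of elementary tangles: cups (carrying the label of the new strand), caps, and the two
kinds of crossings.  In `pos` the over-strand goes from the bottom left to the top right, in `neg`
it goes from the bottom right to the top left. -/
inductive Kind (C : Type) : Type
  | cup (c : C)
  | cap
  | pos
  | neg

/-- A word of elementary tangles, read from bottom to top; the number is the number of strands to
the left of the tangle. -/
abbrev Word (C : Type) : Type := List (Kind C × ℕ)

/-- A palette: `bar c` is the label `c` of a strand read in the opposite direction, and `act x y` is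
the label of a strand with label `x` after it has passed from left to right under a strand
with label `y` (labels are read upwards). -/
structure Palette (C : Type) where
  bar : C → C
  act : C → C → C
  bar_bar : ∀ x, bar (bar x) = x
  act_bar : ∀ x y, act (bar x) y = bar (act x y)
  act_act_bar : ∀ x y, act (act x y) (bar y) = x
  act_self : ∀ x, act x x = x
  act_dist : ∀ x y z, act (act x y) z = act (act x z) (act y z)

/-- The trivial palette: labels never change.  Labels in a trivial palette are constant along the
components of a link. -/
def triv (C : Type) : Palette C where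
  bar := id
  act := fun x _ => x
  bar_bar := fun _ => rfl
  act_bar := fun _ _ => rfl
  act_act_bar := fun _ _ => rfl
  act_self := fun _ => rfl
  act_dist := fun _ _ _ => rfl

variable {C : Type}

/-- `Step P k i s t`: the elementary tangle `k` at position `i` leads from the strands with labels `s`
to the strands with labels `t`. -/
inductive Step (P : Palette C) : Kind C → ℕ → List C → List C → Prop
  | cup (c : C) (s : List C) : Step P (.cup c) 0 s (c :: P.bar c :: s)
  | cap (c : C) (s : List C) : Step P .cap 0 (c :: P.bar c :: s) s
  | pos (a b : C) (s : List C) : Step P .pos 0 (a :: b :: s) (P.act b (P.bar a) :: a :: s)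
  | neg (a b : C) (s : List C) : Step P .neg 0 (a :: b :: s) (b :: P.act a b :: s)
  | there (a : C) {k : Kind C} {i : ℕ} {s t : List C} :
      Step P k i s t → Step P k (i + 1) (a :: s) (a :: t)

/-- `Path P w s t`: the word `w` is a (labelled) tangle leading from the strands `s` to the
strands `t`. -/
inductive Path (P : Palette C) : Word C → List C → List C → Prop
  | nil (s : List C) : Path P [] s s
  | cons {k : Kind C} {i : ℕ} {w : Word C} {s t r : List C} :
      Step P k i s t → Path P w t r → Path P ((k, i) :: w) s r

/-- Move a word `n` strands to the right. -/
def shift (n : ℕ) (w : Word C) : Word C := w.map fun l => (l.1, l.2 + n)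

/-- Number of strands at the bottom of an elementary tangle. -/
def Kind.inn : Kind C → ℕ
  | .cup _ => 0
  | _ => 2

/-- Number of strands at the top of an elementary tangle. -/
def Kind.out : Kind C → ℕ
  | .cap => 0
  | _ => 2

/-- The moves: planar isotopies (distant tangles commute, a maximum and a minimum cancel, a strand
slides over or under a minimum or maximum) and the three Reidemeister moves.  The labels of the cups
are arbitrary here; they are determined by the labels at the ends. -/
inductive Base : Word C → Word C → Prop
  | far (k l : Kind C) (g : ℕ) : Base [(k, 0), (l, k.out + g)] [(l, k.inn + g), (k, 0)]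
  | zig (c : C) : Base [(.cup c, 1), (.cap, 0)] []
  | zag (c : C) : Base [(.cup c, 0), (.cap, 1)] []
  | cupOver (c d : C) : Base [(.cup c, 1), (.pos, 0)] [(.cup d, 0), (.neg, 1)]
  | cupUnder (c d : C) : Base [(.cup c, 1), (.neg, 0)] [(.cup d, 0), (.pos, 1)]
  | capOver : Base [(.pos, 0), (.cap, 1)] [(.neg, 1), (.cap, 0)]
  | capUnder : Base [(.neg, 0), (.cap, 1)] [(.pos, 1), (.cap, 0)]
  | r1CupPos (c d : C) : Base [(.cup c, 0), (.pos, 0)] [(.cup d, 0)]
  | r1CupNeg (c d : C) : Base [(.cup c, 0), (.neg, 0)] [(.cup d, 0)]
  | r1CapPos : Base [(.pos, 0), (.cap, 0)] [(.cap, 0)]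
  | r1CapNeg : Base [(.neg, 0), (.cap, 0)] [(.cap, 0)]
  | r2PosNeg : Base [(.pos, 0), (.neg, 0)] []
  | r2NegPos : Base [(.neg, 0), (.pos, 0)] []
  | r3 : Base [(.pos, 0), (.pos, 1), (.pos, 0)] [(.pos, 1), (.pos, 0), (.pos, 1)]

/-- `Eqv P u v s t`: the labelled tangles `u` and `v`, both leading from `s` to `t`, are related by a
finite sequence of moves, each applied to a part of the diagram. -/
inductive Eqv (P : Palette C) : Word C → Word C → List C → List C → Prop
  | refl {w : Word C} {s t : List C} : Path P w s t → Eqv P w w s t
  | move {u v : Word C} (i : ℕ) {s t : List C} : Base u v → Path P (shift i u) s t →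
      Path P (shift i v) s t → Eqv P (shift i u) (shift i v) s t
  | symm {u v : Word C} {s t : List C} : Eqv P u v s t → Eqv P v u s t
  | trans {u v w : Word C} {s t : List C} : Eqv P u v s t → Eqv P v w s t → Eqv P u w s t
  | comp {u u' v v' : Word C} {s t r : List C} : Eqv P u u' s t → Eqv P v v' t r →
      Eqv P (u ++ v) (u' ++ v') s r

/-- Change the label of a kind. -/
def Kind.map {D : Type} (f : C → D) : Kind C → Kind D
  | .cup c => .cup (f c)
  | .cap => .cap
  | .pos => .pos
  | .neg => .neg

/-- Change the labels of a word. -/
def wmap {D : Type} (f : C → D) (w : Word C) : Word D := w.map fun l => (l.1.map f, l.2)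

/-- Is the elementary tangle a crossing? -/
def Kind.isX : Kind C → Bool
  | .pos => true
  | .neg => true
  | _ => false

/-- The number of crossings of a word. -/
def cr (w : Word C) : ℕ := w.countP fun l => l.1.isX

/-! ### Links -/

/-- Link diagrams: unlabelled words from no strands to no strands. -/
abbrev Diagram : Type := {w : Word Unit // Path (triv Unit) w [] []}

theorem Eqv.left {P : Palette C} {u v : Word C} {s t : List C} (h : Eqv P u v s t) :
    Path P u s t ∧ Path P v s t := by
  have happ : ∀ {u v : Word C} {s t r : List C}, Path P u s t → Path P v t r →
      Path P (u ++ v) s r := by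
    intro u v s t r h1 h2
    induction h1 with
    | nil s => exact h2
    | cons hs _ ih => exact Path.cons hs (ih h2)
  induction h with
  | refl h => exact ⟨h, h⟩
  | move i _ h1 h2 => exact ⟨h1, h2⟩
  | symm _ ih => exact ⟨ih.2, ih.1⟩
  | trans _ _ ih1 ih2 => exact ⟨ih1.1, ih2.2⟩
  | comp _ _ ih1 ih2 => exact ⟨happ ih1.1 ih2.1, happ ih1.2 ih2.2⟩

/-- Two diagrams represent the same link if they are related by moves. -/
instance linkSetoid : Setoid Diagram where
  r u v := Eqv (triv Unit) u.1 v.1 [] []
  iseqv := ⟨fun u => Eqv.refl u.2, fun h => Eqv.symm h, fun h h' => Eqv.trans h h'⟩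

/-- Link types. -/
def Link : Type := Quotient linkSetoid

/-- `IsDiag w L`: the word `w` is a diagram of the link `L`. -/
def IsDiag (w : Word Unit) (L : Link) : Prop :=
  ∃ h : Path (triv Unit) w [] [], L = Quotient.mk linkSetoid ⟨w, h⟩

/-- The crossing number of a link. -/
noncomputable def crossingNumber (L : Link) : ℕ := sInf {n | ∃ w, IsDiag w L ∧ cr w = n}

/-- A link is split if it has a diagram consisting of two nonempty diagrams, one above the other. -/
def IsSplit (L : Link) : Prop :=
  ∃ u v : Word Unit, u ≠ [] ∧ v ≠ [] ∧ Path (triv Unit) u [] [] ∧ Path (triv Unit) v [] [] ∧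
    IsDiag (u ++ v) L

/-- The closure of a tangle with one strand at the bottom and one strand at the top. -/
def closure (c : C) (t : Word C) : Word C := (.cup c, 0) :: (t ++ [(.cap, 0)])

/-- `L` is a connected sum of `A` and `B`: there are tangles `t`, `u`, each with one strand at the
bottom and one strand at the top, such that `A`, `B`, `L` are the closures of `t`, `u` and of
`t` followed by `u`. -/
def IsConnSum (L A B : Link) : Prop :=
  ∃ t u : Word Unit, Path (triv Unit) t [()] [()] ∧ Path (triv Unit) u [()] [()] ∧
    IsDiag (closure () t) A ∧ IsDiag (closure () u) B ∧ IsDiag (closure () (t ++ u)) L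

theorem path_unknot (P : Palette C) (c : C) : Path P [(.cup c, 0), (.cap, 0)] [] [] :=
  Path.cons (Step.cup c []) (Path.cons (Step.cap c []) (Path.nil _))

/-- The unknot. -/
def unknot : Link := Quotient.mk linkSetoid ⟨[(.cup (), 0), (.cap, 0)], path_unknot _ _⟩

/-- The empty link. -/
def emptyLink : Link := Quotient.mk linkSetoid ⟨[], Path.nil _⟩

/-- A link is prime if it is not empty, not split, not the unknot, and not a connected sum of two
links neither of which is the unknot. -/
def IsPrime (L : Link) : Prop :=
  L ≠ emptyLink ∧ ¬ IsSplit L ∧ L ≠ unknot ∧
    ∀ A B : Link, IsConnSum L A B → A = unknot ∨ B = unknot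

/-- A link has at least two components: the strands of some diagram can be labelled by two labels,
constant along the components, such that both labels occur. -/
def AtLeastTwoComponents (L : Link) : Prop :=
  ∃ w : Word Bool, Path (triv Bool) w [] [] ∧ IsDiag (wmap (fun _ => ()) w) L ∧
    (∃ i, (Kind.cup true, i) ∈ w) ∧ (∃ i, (Kind.cup false, i) ∈ w)

/-- The palette of a group: reading a label backwards inverts it, and a strand which passes under
another one is conjugated (the relations of Wirtinger). -/
def conj (G : Type) [Group G] : Palette G where
  bar := fun x => x⁻¹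
  act := fun x y => y⁻¹ * x * y
  bar_bar := fun x => inv_inv x
  act_bar := fun x y => by group
  act_act_bar := fun x y => by group
  act_self := fun x => by group
  act_dist := fun x y z => by group

/-- The fundamental group of the complement of the link has a nonabelian image: some diagram has a
labelling of its strands by elements of a group, subject to the Wirtinger relations, in which some
two labels do not commute. -/
def HasNonabelianLabelling (L : Link) : Prop :=
  ∃ (G : Type) (_ : Group G) (w : Word G), Path (conj G) w [] [] ∧
    IsDiag (wmap (fun _ => ()) w) L ∧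
    ∃ a b i j, (Kind.cup a, i) ∈ w ∧ (Kind.cup b, j) ∈ w ∧ a * b ≠ b * a

end Pool.Agent.Lib.MP_131179_gt
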