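import Pool.Agent.Lib.MP_131179_gt.Count

/-!
# Labels of closed words
-/

set_option autoImplicit false
set_option linter.unusedSimpArgs false

namespace Pool.Agent.Lib.MP_131179_gt

variable {C D : Type} {P : Palette C} {Q : Palette D}

/-- The product of two palettes. -/
def Palette.prod (P : Palette C) (Q : Palette D) : Palette (C × D) where
  bar := fun x => (P.bar x.1, Q.bar x.2)
  act := fun x y => (P.act x.1 y.1, Q.act x.2 y.2)
  bar_bar := fun x => by simp [P.bar_bar, Q.bar_bar]
  act_bar := fun x y => by simp [P.act_bar, Q.act_bar]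
  act_act_bar := fun x y => by simp [P.act_act_bar, Q.act_act_bar]
  act_self := fun x => by simp [P.act_self, Q.act_self]
  act_dist := fun x y z => Prod.ext (P.act_dist _ _ _) (Q.act_dist _ _ _)

theorem triv_prod : (triv C).prod (triv D) = triv (C × D) := rfl

theorem isHom_fst : IsHom (P.prod Q) P Prod.fst := ⟨fun _ => rfl, fun _ _ => rfl⟩

theorem isHom_snd : IsHom (P.prod Q) Q Prod.snd := ⟨fun _ => rfl, fun _ _ => rfl⟩

/-- Forget the labels. -/
abbrev erase (w : Word C) : Word Unit := wmap (fun _ => ()) w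

@[simp] theorem erase_wmap (f : C → D) (w : Word C) : erase (wmap f w) = erase w :=
  wmap_wmap f _ w

/-- The label `x` occurs in the closed word `w`. -/
def HasLabel (x : C) (w : Word C) : Prop := ∃ i, (Kind.cup x, i) ∈ w

@[simp] theorem not_hasLabel_nil (x : C) : ¬ HasLabel x ([] : Word C) := by simp [HasLabel]

theorem hasLabel_append {x : C} {u v : Word C} :
    HasLabel x (u ++ v) ↔ HasLabel x u ∨ HasLabel x v := by
  simp only [HasLabel, List.mem_append]
  exact exists_or

theorem hasLabel_cons {x : C} {k : Kind C} {i : ℕ} {w : Word C} :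
    HasLabel x ((k, i) :: w) ↔ k = .cup x ∨ HasLabel x w := by
  simp only [HasLabel, List.mem_cons, Prod.mk.injEq]
  constructor
  · rintro ⟨j, ⟨h, -⟩ | h⟩
    · exact Or.inl h.symm
    · exact Or.inr ⟨j, h⟩
  · rintro (rfl | ⟨j, h⟩)
    · exact ⟨i, Or.inl ⟨rfl, rfl⟩⟩
    · exact ⟨j, Or.inr h⟩

@[simp] theorem hasLabel_shift {x : C} {n : ℕ} {w : Word C} :
    HasLabel x (shift n w) ↔ HasLabel x w := by
  induction w with
  | nil => simp
  | cons l w ih =>
    obtain ⟨k, i⟩ := l
    rw [shift_cons, hasLabel_cons, hasLabel_cons, ih]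

theorem hasLabel_wmap {f : C → D} {y : D} {w : Word C} :
    HasLabel y (wmap f w) ↔ ∃ x, HasLabel x w ∧ f x = y := by
  induction w with
  | nil => simp
  | cons l w ih =>
    obtain ⟨k, i⟩ := l
    rw [wmap_cons, hasLabel_cons, ih]
    constructor
    · rintro (h | ⟨x, h1, h2⟩)
      · obtain ⟨c, rfl, h1⟩ := Kind.map_eq_cup h
        exact ⟨c, hasLabel_cons.2 (Or.inl rfl), h1⟩
      · exact ⟨x, hasLabel_cons.2 (Or.inr h1), h2⟩
    · rintro ⟨x, h1, h2⟩
      rcases hasLabel_cons.1 h1 with rfl | h1
      · left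
        simp [h2]
      · exact Or.inr ⟨x, h1, h2⟩

theorem HasLabel.map {x : C} {w : Word C} (h : HasLabel x w) (f : C → D) :
    HasLabel (f x) (wmap f w) := hasLabel_wmap.2 ⟨x, h, rfl⟩

/-- Words with the same labels after relabelling. -/
theorem wmap_congr {f g : C → D} {w : Word C} (h : ∀ x, HasLabel x w → f x = g x) :
    wmap f w = wmap g w := by
  induction w with
  | nil => rfl
  | cons l w ih =>
    obtain ⟨k, i⟩ := l
    rw [wmap_cons, wmap_cons, ih fun x hx => h x (hasLabel_cons.2 (Or.inr hx))]
    congr 2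
    cases k with
    | cup c => simp [h c (hasLabel_cons.2 (Or.inl rfl))]
    | cap => rfl
    | pos => rfl
    | neg => rfl

/-! ### Restricting the set of labels -/

/-- A set of labels closed under the operations of the palette. -/
structure Closed (P : Palette C) (S : Set C) : Prop where
  bar : ∀ x ∈ S, P.bar x ∈ S
  act : ∀ x ∈ S, ∀ y ∈ S, P.act x y ∈ S

/-- The palette on a closed set of labels. -/
def Palette.restrict (P : Palette C) {S : Set C} (hS : Closed P S) : Palette S where
  bar := fun x => ⟨P.bar x, hS.bar x x.2⟩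
  act := fun x y => ⟨P.act x y, hS.act x x.2 y y.2⟩
  bar_bar := fun x => Subtype.ext (P.bar_bar x)
  act_bar := fun x y => Subtype.ext (P.act_bar x y)
  act_act_bar := fun x y => Subtype.ext (P.act_act_bar x y)
  act_self := fun x => Subtype.ext (P.act_self x)
  act_dist := fun x y z => Subtype.ext (P.act_dist x y z)

theorem isHom_restrict {S : Set C} (hS : Closed P S) :
    IsHom (P.restrict hS) P Subtype.val := ⟨fun _ => rfl, fun _ _ => rfl⟩

theorem Step.restrict {S : Set C} (hS : Closed P S) {k : Kind C} {i : ℕ} {s t : List C}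
    (h : Step P k i s t) (hk : ∀ c, k = .cup c → c ∈ S) (hs : ∀ x ∈ s, x ∈ S) :
    ∃ (k' : Kind S) (s' t' : List S), k'.map Subtype.val = k ∧ s'.map Subtype.val = s ∧
      t'.map Subtype.val = t ∧ Step (P.restrict hS) k' i s' t' := by
  induction h with
  | cup c s =>
    refine ⟨.cup ⟨c, hk c rfl⟩, s.attach.map fun x => ⟨x.1, hs x.1 x.2⟩, _, rfl, ?_, ?_,
      Step.cup _ _⟩
    · simp [List.map_attach_eq_pmap]
    · simp [List.map_attach_eq_pmap, Palette.restrict]
  | cap c s =>
    have h1 : c ∈ S := hs c (by simp)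
    refine ⟨.cap, _, s.attach.map fun x => ⟨x.1, hs x.1 (by simp [x.2])⟩, rfl, ?_, ?_,
      Step.cap ⟨c, h1⟩ _⟩
    · simp [List.map_attach_eq_pmap, Palette.restrict]
    · simp [List.map_attach_eq_pmap]
  | pos a b s =>
    have h1 : a ∈ S := hs a (by simp)
    have h2 : b ∈ S := hs b (by simp)
    refine ⟨.pos, _, _, rfl, ?_, ?_,
      Step.pos ⟨a, h1⟩ ⟨b, h2⟩ (s.attach.map fun x => ⟨x.1, hs x.1 (by simp [x.2])⟩)⟩
    · simp [List.map_attach_eq_pmap]
    · simp [List.map_attach_eq_pmap, Palette.restrict]
  | neg a b s =>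
    have h1 : a ∈ S := hs a (by simp)
    have h2 : b ∈ S := hs b (by simp)
    refine ⟨.neg, _, _, rfl, ?_, ?_,
      Step.neg ⟨a, h1⟩ ⟨b, h2⟩ (s.attach.map fun x => ⟨x.1, hs x.1 (by simp [x.2])⟩)⟩
    · simp [List.map_attach_eq_pmap]
    · simp [List.map_attach_eq_pmap, Palette.restrict]
  | @there a k i s t _ ih =>
    obtain ⟨k', s', t', h1, h2, h3, h4⟩ := ih hk fun x hx => hs x (by simp [hx])
    exact ⟨k', ⟨a, hs a (by simp)⟩ :: s', ⟨a, hs a (by simp)⟩ :: t', h1, by simp [h2],
      by simp [h3], Step.there _ h4⟩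

theorem map_val_injective {S : Set C} {s t : List S}
    (h : s.map Subtype.val = t.map Subtype.val) : s = t :=
  List.map_injective_iff.2 Subtype.val_injective h

/-- A word whose labels lie in a closed set comes from a word labelled by this set. -/
theorem Path.restrict {S : Set C} (hS : Closed P S) {w : Word C} {s t : List C}
    (h : Path P w s t) (hw : ∀ x, HasLabel x w → x ∈ S) (hs : ∀ x ∈ s, x ∈ S) :
    ∃ (w' : Word S) (s' t' : List S), wmap Subtype.val w' = w ∧ s'.map Subtype.val = s ∧
      t'.map Subtype.val = t ∧ Path (P.restrict hS) w' s' t' := by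
  induction h with
  | nil s =>
    refine ⟨[], s.attach.map fun x => ⟨x.1, hs x.1 x.2⟩, _, rfl, ?_, ?_, Path.nil _⟩ <;>
      simp [List.map_attach_eq_pmap]
  | @cons k i w s t r h1 _ ih =>
    obtain ⟨k', s', t', h2, h3, h4, h5⟩ := h1.restrict hS
      (fun c hc => hw c (hasLabel_cons.2 (Or.inl hc))) hs
    obtain ⟨w', t'', r', h6, h7, h8, h9⟩ := ih (fun x hx => hw x (hasLabel_cons.2 (Or.inr hx)))
      (fun x hx => by
        rw [← h4] at hx
        obtain ⟨y, -, rfl⟩ := List.mem_map.1 hx
        exact y.2)
    have h10 : t'' = t' := map_val_injective (by rw [h7, h4])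
    subst h10
    exact ⟨(k', i) :: w', s', r', by simp [h2, h6], h3, h8, Path.cons h5 h9⟩

/-- **The labels stay in a closed set.** -/
theorem labels_of_eqv {S : Set C} (hS : Closed P S) {u v : Word C} (h : Eqv P u v [] [])
    (hu : ∀ x, HasLabel x u → x ∈ S) : ∀ x, HasLabel x v → x ∈ S := by
  obtain ⟨u', s', t', h1, h2, h3, h4⟩ := h.path_left.restrict hS hu (by simp)
  simp only [List.map_eq_nil_iff] at h2 h3
  subst h2 h3
  obtain ⟨v', h5, -⟩ := h.lift (isHom_restrict hS) h1 rfl h4
  intro x hx
  rw [← h5, hasLabel_wmap] at hx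
  obtain ⟨y, -, rfl⟩ := hx
  exact y.2

/-- In a trivial palette, equivalent closed words have the same labels. -/
theorem hasLabel_iff {u v : Word C} (h : Eqv (triv C) u v [] []) (x : C) :
    HasLabel x u ↔ HasLabel x v := by
  have key : ∀ {u v : Word C}, Eqv (triv C) u v [] [] → HasLabel x v → HasLabel x u := by
    intro u v h hv
    by_contra hu
    have hS : Closed (triv C) {y | y ≠ x} := ⟨fun _ h => h, fun _ h _ _ => h⟩
    exact labels_of_eqv hS h (fun y hy hyx => hu (hyx ▸ hy)) x hv rfl
  exact ⟨key h.symm, key h⟩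

/-! ### Labels of the strands -/

theorem step_labels {S : Set C} (hS : Closed P S) {k : Kind C} {i : ℕ} {s t : List C}
    (h : Step P k i s t) (hk : ∀ c, k = .cup c → c ∈ S) (hs : ∀ x ∈ s, x ∈ S) :
    ∀ x ∈ t, x ∈ S := by
  obtain ⟨k', s', t', -, -, h3, -⟩ := h.restrict hS hk hs
  intro x hx
  rw [← h3] at hx
  obtain ⟨y, -, rfl⟩ := List.mem_map.1 hx
  exact y.2

theorem xlL_mem {k : Kind C} {i : ℕ} {s : List C} {p : C × C} (h : p ∈ xlL k i s) :
    p.1 ∈ s ∧ p.2 ∈ s := by
  induction s generalizing i with
  | nil => cases k <;> cases i <;> simp [xlL] at h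
  | cons a s ih =>
    cases i with
    | succ i =>
      rw [xlL_succ] at h
      obtain ⟨h1, h2⟩ := ih h
      exact ⟨List.mem_cons_of_mem _ h1, List.mem_cons_of_mem _ h2⟩
    | zero =>
      cases s with
      | nil => cases k <;> simp [xlL] at h
      | cons b s =>
        cases k with
        | cup c => simp [xlL] at h
        | cap => simp [xlL] at h
        | pos => simp only [xlL, List.mem_singleton] at h; subst h; simp
        | neg => simp only [xlL, List.mem_singleton] at h; subst h; simp

theorem xl_mem_closed {S : Set C} (hS : Closed P S) {w : Word C} {s t : List C}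
    (h : Path P w s t) (hw : ∀ x, HasLabel x w → x ∈ S) (hs : ∀ x ∈ s, x ∈ S) :
    ∀ p ∈ xl P w s, p.1 ∈ S ∧ p.2 ∈ S := by
  induction h with
  | nil s => simp
  | @cons k i w s t r h1 _ ih =>
    intro p hp
    rw [xl_cons, h1.nxt_eq, List.mem_append] at hp
    rcases hp with hp | hp
    · obtain ⟨h2, h3⟩ := xlL_mem hp
      exact ⟨hs _ h2, hs _ h3⟩
    · exact ih (fun x hx => hw x (hasLabel_cons.2 (Or.inr hx)))
        (step_labels hS h1 (fun c hc => hw c (hasLabel_cons.2 (Or.inl hc))) hs) p hp

/-- In a trivial palette, the labels of the crossings are labels of the word. -/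
theorem xl_mem {w : Word C} {t : List C} (h : Path (triv C) w [] t) {p : C × C}
    (hp : p ∈ xl (triv C) w []) : HasLabel p.1 w ∧ HasLabel p.2 w := by
  have hS : Closed (triv C) {y | HasLabel y w} := ⟨fun _ h => h, fun _ h _ _ => h⟩
  exact xl_mem_closed hS h (fun x hx => hx) (by simp) p hp

/-! ### Deleting strands and labels -/

theorem hasLabel_delL {κ : C → Bool} {k : Kind C} {i : ℕ} {s t : List C} {x : C}
    (h : Step P k i s t) : HasLabel x (delL κ k i s) ↔ k = .cup x ∧ κ x = true := by
  induction h with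
  | cup c s =>
    by_cases hc : κ c = true
    · simp only [delL, hc, if_true, hasLabel_cons, Kind.cup.injEq, not_hasLabel_nil, or_false]
      constructor
      · rintro rfl; exact ⟨rfl, hc⟩
      · exact fun h => h.1
    · simp only [delL, hc, Kind.cup.injEq]
      constructor
      · intro h; simp at h
      · rintro ⟨rfl, h⟩; exact absurd h hc
  | cap c s => by_cases hc : κ c = true <;> simp [delL, hc, hasLabel_cons]
  | pos a b s =>
    by_cases ha : κ a = true <;> by_cases hb : κ b = true <;>
      simp [delL, ha, hb, hasLabel_cons]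
  | neg a b s =>
    by_cases ha : κ a = true <;> by_cases hb : κ b = true <;>
      simp [delL, ha, hb, hasLabel_cons]
  | there a _ ih => rw [delL_succ, hasLabel_shift, ih]

theorem hasLabel_del {κ : C → Bool} {w : Word C} {s t : List C} {x : C}
    (h : Path P w s t) : HasLabel x (del P κ w s) ↔ HasLabel x w ∧ κ x = true := by
  induction h with
  | nil s => simp
  | @cons k i w s t r h1 _ ih =>
    rw [del_cons, hasLabel_append, hasLabel_delL h1, h1.nxt_eq, ih, hasLabel_cons]
    tauto

theorem closed_hasLabel {w : Word C} {s : List C} (h : Path P w [] s) (hw : w ≠ []) :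
    ∃ x, HasLabel x w := by
  cases h with
  | nil => exact absurd rfl hw
  | @cons k i w _ t _ h1 h2 =>
    cases h1 with
    | cup c => exact ⟨c, hasLabel_cons.2 (Or.inl rfl)⟩

theorem del_eq_nil {κ : C → Bool} (hκ : Compat P κ) {w : Word C}
    (h : Path P w [] []) : del P κ w [] = [] ↔ ∀ x, HasLabel x w → κ x = false := by
  constructor
  · intro h1 x hx
    by_contra hκx
    have := (hasLabel_del (κ := κ) h).2 ⟨hx, by simpa using hκx⟩
    rw [h1] at this
    simp at this
  · intro h1
    by_contra h2
    have h3 : Path P (del P κ w []) [] [] := del_path hκ h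
    obtain ⟨x, hx⟩ := closed_hasLabel h3 h2
    obtain ⟨h4, h5⟩ := (hasLabel_del h).1 hx
    rw [h1 x h4] at h5
    simp at h5

theorem delL_wmap {f : C → D} {κ : D → Bool} {k : Kind C} {i : ℕ} {s t : List C}
    (h : Step P k i s t) :
    delL κ (k.map f) i (s.map f) = wmap f (delL (fun x => κ (f x)) k i s) := by
  induction h with
  | cup c s => by_cases hc : κ (f c) = true <;> simp [delL, hc]
  | cap c s => by_cases hc : κ (f c) = true <;> simp [delL, hc]
  | pos a b s =>
    by_cases ha : κ (f a) = true <;> by_cases hb : κ (f b) = true <;> simp [delL, ha, hb]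
  | neg a b s =>
    by_cases ha : κ (f a) = true <;> by_cases hb : κ (f b) = true <;> simp [delL, ha, hb]
  | there a _ ih => rw [List.map_cons, delL_succ, delL_succ, ih, wmap_shift]

/-- Deletion commutes with relabelling. -/
theorem del_wmap {f : C → D} (hf : IsHom P Q f) {κ : D → Bool} {w : Word C} {s t : List C}
    (h : Path P w s t) :
    del Q κ (wmap f w) (s.map f) = wmap f (del P (fun x => κ (f x)) w s) := by
  induction h with
  | nil s => rfl
  | @cons k i w s t r h1 _ ih =>
    rw [wmap_cons, del_cons, del_cons, (h1.map hf).nxt_eq, h1.nxt_eq, ih, delL_wmap h1,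
      wmap_append]

theorem delL_congr {κ κ' : C → Bool} {k : Kind C} {i : ℕ} {s t : List C} (h : Step P k i s t)
    (hk : ∀ c, k = .cup c → κ c = κ' c) (hs : ∀ x ∈ s, κ x = κ' x) :
    delL κ k i s = delL κ' k i s := by
  induction h with
  | cup c s => simp [delL, hk c rfl]
  | cap c s => simp [delL, hs c (by simp)]
  | pos a b s => simp [delL, hs a (by simp), hs b (by simp)]
  | neg a b s => simp [delL, hs a (by simp), hs b (by simp)]
  | there a _ ih =>
    rw [delL_succ, delL_succ, ih hk fun x hx => hs x (by simp [hx]), hs a (by simp)]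

/-- Deletion only depends on the labels that occur. -/
theorem del_congr {κ κ' : C → Bool} (hκ : Compat P κ) (hκ' : Compat P κ') {w : Word C}
    {s t : List C} (h : Path P w s t) (hw : ∀ x, HasLabel x w → κ x = κ' x)
    (hs : ∀ x ∈ s, κ x = κ' x) : del P κ w s = del P κ' w s := by
  induction h with
  | nil s => rfl
  | @cons k i w s t r h1 _ ih =>
    have hS : Closed P {x | κ x = κ' x} :=
      ⟨fun x (hx : κ x = κ' x) => show κ _ = κ' _ by rw [hκ.bar, hκ'.bar, hx],
        fun x (hx : κ x = κ' x) y _ => show κ _ = κ' _ by rw [hκ.act, hκ'.act, hx]⟩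
    have h2 : ∀ c, k = .cup c → κ c = κ' c := fun c hc => hw c (hasLabel_cons.2 (Or.inl hc))
    rw [del_cons, del_cons, h1.nxt_eq, delL_congr h1 h2 hs,
      ih (fun x hx => hw x (hasLabel_cons.2 (Or.inr hx))) (step_labels hS h1 h2 hs)]

theorem delL_true {k : Kind C} {i : ℕ} {s t : List C} (h : Step P k i s t) :
    delL (fun _ => true) k i s = [(k, i)] := by
  induction h with
  | cup c s => rfl
  | cap c s => rfl
  | pos a b s => rfl
  | neg a b s => rfl
  | there a _ ih => rw [delL_succ, ih]; rfl

theorem del_true {w : Word C} {s t : List C} (h : Path P w s t) :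
    del P (fun _ => true) w s = w := by
  induction h with
  | nil s => rfl
  | @cons k i w s t r h1 _ ih =>
    rw [del_cons, h1.nxt_eq, ih, delL_true h1]
    rfl

/-- Nothing is deleted if all labels are kept. -/
theorem del_eq_self {κ : C → Bool} (hκ : Compat P κ) {w : Word C} {s t : List C}
    (h : Path P w s t) (hw : ∀ x, HasLabel x w → κ x = true) (hs : ∀ x ∈ s, κ x = true) :
    del P κ w s = w := by
  rw [← del_true h]
  have h1 : Compat P (fun _ : C => true) := ⟨fun _ => rfl, fun _ _ => rfl, fun _ _ _ h => by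
    simp at h⟩
  conv_rhs => rw [del_true h]
  rw [del_true h, del_congr hκ h1 h hw hs, del_true h]

theorem nxt_filter {κ : C → Bool} (hκ : Compat P κ) {k : Kind C} {i : ℕ} {s t : List C}
    (h : Step P k i s t) (κ' : C → Bool) (w : Word C) :
    del P κ' (delL κ k i s ++ w) (s.filter κ) =
      del P κ' (delL κ k i s) (s.filter κ) ++ del P κ' w (t.filter κ) :=
  del_append (delL_path hκ h)

theorem delL_delL {κ κ' : C → Bool} (hκ : Compat P κ) {k : Kind C} {i : ℕ}
    {s t : List C} (h : Step P k i s t) :
    del P κ' (delL κ k i s) (s.filter κ) = delL (fun x => κ x && κ' x) k i s := by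
  induction h with
  | cup c s => by_cases hc : κ c = true <;> by_cases hc' : κ' c = true <;> simp [delL, hc, hc', del]
  | cap c s =>
    by_cases hc : κ c = true <;> by_cases hc' : κ' c = true <;>
      simp [delL, hc, hc', del, hκ.bar]
  | pos a b s =>
    by_cases ha : κ a = true <;> by_cases hb : κ b = true <;> by_cases ha' : κ' a = true <;>
      by_cases hb' : κ' b = true <;> simp [delL, ha, hb, ha', hb', del]
  | neg a b s =>
    by_cases ha : κ a = true <;> by_cases hb : κ b = true <;> by_cases ha' : κ' a = true <;>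
      by_cases hb' : κ' b = true <;> simp [delL, ha, hb, ha', hb', del]
  | @there a k i s t h' ih =>
    rw [delL_succ, delL_succ, ← ih]
    by_cases ha : κ a = true
    · simp only [ha, if_true, List.filter_cons, Bool.true_and]
      have := del_left (P := P) (κ := κ') (w := delL κ k i s) [a] (s.filter κ)
      simp only [List.length_singleton, List.singleton_append] at this
      rw [this, List.filter_singleton]
      by_cases ha' : κ' a = true <;> simp [ha']
    · simp [ha]

/-- Deleting in two steps. -/
theorem del_del {κ κ' : C → Bool} (hκ : Compat P κ) {w : Word C} {s t : List C}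
    (h : Path P w s t) :
    del P κ' (del P κ w s) (s.filter κ) = del P (fun x => κ x && κ' x) w s := by
  induction h with
  | nil s => rfl
  | @cons k i w s t r h1 _ ih =>
    rw [del_cons, nxt_filter hκ h1, delL_delL hκ h1, h1.nxt_eq, ih, del_cons, h1.nxt_eq]

/-! ### Combining two labellings -/

theorem step_zip {k : Kind C} {l : Kind D} {i : ℕ} {s t : List C} {s' t' : List D}
    (h : Step P k i s t) (h' : Step Q l i s' t')
    (hkl : k.map (fun _ => ()) = l.map (fun _ => ())) (z : List (C × D))
    (hz : z.map Prod.fst = s) (hz' : z.map Prod.snd = s') :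
    ∃ (m : Kind (C × D)) (y : List (C × D)), m.map Prod.fst = k ∧ m.map Prod.snd = l ∧
      y.map Prod.fst = t ∧ y.map Prod.snd = t' ∧ Step (P.prod Q) m i z y := by
  induction h generalizing z s' t' with
  | cup c s =>
    cases h' with
    | cup d s' =>
      exact ⟨.cup (c, d), _, rfl, rfl, by simp [Palette.prod, hz], by simp [Palette.prod, hz'],
        Step.cup _ _⟩
    | cap d s' => simp [Kind.map] at hkl
    | pos a b s' => simp [Kind.map] at hkl
    | neg a b s' => simp [Kind.map] at hkl
  | cap c s =>
    cases h' with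
    | cup d s' => simp [Kind.map] at hkl
    | cap d s' =>
      obtain ⟨x, z1, rfl, hx, hz1⟩ := List.map_eq_cons_iff.1 hz
      obtain ⟨y, z2, rfl, hy, hz2⟩ := List.map_eq_cons_iff.1 hz1
      simp only [List.map_cons, List.cons.injEq] at hz'
      obtain ⟨h1, h2, h3⟩ := hz'
      have : y = (P.prod Q).bar x := by
        refine Prod.ext ?_ ?_
        · rw [hy, ← hx]; rfl
        · rw [h2, ← h1]; rfl
      subst this
      exact ⟨.cap, z2, rfl, rfl, hz2, h3, Step.cap _ _⟩
    | pos a b s' => simp [Kind.map] at hkl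
    | neg a b s' => simp [Kind.map] at hkl
  | pos a b s =>
    cases h' with
    | cup d s' => simp [Kind.map] at hkl
    | cap d s' => simp [Kind.map] at hkl
    | pos a' b' s' =>
      obtain ⟨x, z1, rfl, hx, hz1⟩ := List.map_eq_cons_iff.1 hz
      obtain ⟨y, z2, rfl, hy, hz2⟩ := List.map_eq_cons_iff.1 hz1
      simp only [List.map_cons, List.cons.injEq] at hz'
      obtain ⟨h1, h2, h3⟩ := hz'
      exact ⟨.pos, _, rfl, rfl, by simp [Palette.prod, hx, hy, hz2],
        by simp [Palette.prod, h1, h2, h3], Step.pos _ _ _⟩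
    | neg a' b' s' => simp [Kind.map] at hkl
  | neg a b s =>
    cases h' with
    | cup d s' => simp [Kind.map] at hkl
    | cap d s' => simp [Kind.map] at hkl
    | pos a' b' s' => simp [Kind.map] at hkl
    | neg a' b' s' =>
      obtain ⟨x, z1, rfl, hx, hz1⟩ := List.map_eq_cons_iff.1 hz
      obtain ⟨y, z2, rfl, hy, hz2⟩ := List.map_eq_cons_iff.1 hz1
      simp only [List.map_cons, List.cons.injEq] at hz'
      obtain ⟨h1, h2, h3⟩ := hz'
      exact ⟨.neg, _, rfl, rfl, by simp [Palette.prod, hx, hy, hz2],
        by simp [Palette.prod, h1, h2, h3], Step.neg _ _ _⟩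
  | there a _ ih =>
    cases h' with
    | there a' h' =>
      obtain ⟨x, z1, rfl, hx, hz1⟩ := List.map_eq_cons_iff.1 hz
      simp only [List.map_cons, List.cons.injEq] at hz'
      obtain ⟨m, y, h1, h2, h3, h4, h5⟩ := ih h' hkl z1 hz1 hz'.2
      exact ⟨m, x :: y, h1, h2, by simp [hx, h3], by simp [hz'.1, h4], Step.there _ h5⟩

/-- Two labellings of the same word can be combined. -/
theorem path_zip {u : Word C} {v : Word D} {s t : List C} {s' t' : List D}
    (h : Path P u s t) (h' : Path Q v s' t') (huv : erase u = erase v) (z : List (C × D))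
    (hz : z.map Prod.fst = s) (hz' : z.map Prod.snd = s') :
    ∃ (w : Word (C × D)) (y : List (C × D)), wmap Prod.fst w = u ∧ wmap Prod.snd w = v ∧
      y.map Prod.fst = t ∧ y.map Prod.snd = t' ∧ Path (P.prod Q) w z y := by
  induction h generalizing v z s' with
  | nil s =>
    have hv : v = [] := wmap_eq_nil.1 (huv.symm.trans rfl)
    subst hv
    cases h'
    exact ⟨[], z, rfl, rfl, hz, hz', Path.nil _⟩
  | @cons k i w s t r h1 _ ih =>
    have h2 : wmap (fun _ => ()) v = (k.map (fun _ => ()), i) :: wmap (fun _ => ()) w := huv.symm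
    obtain ⟨l, v', rfl, hl, hv'⟩ := wmap_eq_cons h2
    cases h' with
    | cons h3 h4 =>
      obtain ⟨m, y, e1, e2, e3, e4, e5⟩ := step_zip h1 h3 hl.symm z hz hz'
      obtain ⟨w', y', g1, g2, g3, g4, g5⟩ := ih h4 hv'.symm y e3 e4
      exact ⟨(m, i) :: w', y', by simp [e1, g1], by simp [e2, g2], g3, g4, Path.cons e5 g5⟩

/-- Two labellings of the same closed word can be combined. -/
theorem closed_zip {u : Word C} {v : Word D} (h : Path P u [] []) (h' : Path Q v [] [])
    (huv : erase u = erase v) :
    ∃ w : Word (C × D), wmap Prod.fst w = u ∧ wmap Prod.snd w = v ∧ Path (P.prod Q) w [] [] := by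
  obtain ⟨w, y, h1, h2, h3, -, h5⟩ := path_zip h h' huv [] rfl rfl
  simp only [List.map_eq_nil_iff] at h3
  subst h3
  exact ⟨w, h1, h2, h5⟩

/-- The set of the labels equal to `x`, as a labelling by Booleans. -/
def ind [DecidableEq C] (x : C) (w : Word C) : Word Bool := wmap (fun y => decide (y = x)) w

/-- The strands of the closed word `w` with label `true` form one component. -/
structure IsComp (w : Word Bool) : Prop where
  path : Path (triv Bool) w [] []
  nonempty : HasLabel true w
  conn : ∀ v : Word (Bool × Bool), Path (triv (Bool × Bool)) v [] [] → wmap Prod.fst v = w →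
    HasLabel (true, true) v → ¬ HasLabel (true, false) v

end Pool.Agent.Lib.MP_131179_gt
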