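import Pool.Agent.Lib.MP_131179_gt.Iso
import Pool.Agent.Lib.MP_131179_gt.Goals

/-!
# Two families of components, one above the other

If one family of components of a closed word always passes over the other one, then the two
families can be separated.
-/

set_option autoImplicit false

namespace Pool.Agent.Lib.MP_131179_gt

section slide

variable {C : Type}

theorem lay_und_succ (n : ℕ) : (und (n + 1) : Word C) = (.neg, 0) :: shift 1 (und n) := by
  simp [und, ovr, Kind.mirror]

/-- A strand passes over `n` strands from the right to the left. -/
def layNov : ℕ → Word C
  | 0 => []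
  | n + 1 => shift 1 (layNov n) ++ [(.neg, 0)]

theorem layNov_path (y : C) (s : List C) : Path (triv C) (layNov s.length) (s ++ [y]) (y :: s) := by
  induction s with
  | nil => exact Path.nil _
  | cons x s ih => exact (ih.left [x]).append (path_neg0 x y)

theorem lay_ovr_nov (y : C) (s : List C) :
    Eqv (triv C) (ovr s.length ++ layNov s.length) [] (y :: s) (y :: s) := by
  induction s with
  | nil => exact Eqv.refl (Path.nil _)
  | cons x s ih =>
    have e1 := Eqv.context (path_pos0 (r := s) y x) (ih.shift_left [x]) (path_neg0 (r := s) x y)
    have e2 : Eqv (triv C) [(.pos, 0), (.neg, 0)] [] (y :: x :: s) (y :: x :: s) :=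
      Eqv.base Base.r2PosNeg ((path_pos0 y x).append (path_neg0 x y)) (Path.nil _)
    have e3 := e1.trans (e2.cast (u' := [(.pos, 0)] ++ ([] ++ [(.neg, 0)])) rfl rfl rfl rfl)
    refine e3.cast ?_ rfl rfl rfl
    simp [ovr, layNov]

theorem lay_nov_ovr (y : C) (s : List C) :
    Eqv (triv C) (layNov s.length ++ ovr s.length) [] (s ++ [y]) (s ++ [y]) := by
  induction s with
  | nil => exact Eqv.refl (Path.nil _)
  | cons x s ih =>
    have p1 : Path (triv C) (shift 1 (layNov s.length)) (x :: (s ++ [y])) (x :: y :: s) :=
      (layNov_path y s).left [x]
    have p2 : Path (triv C) (shift 1 (ovr s.length)) (x :: y :: s) (x :: (s ++ [y])) :=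
      (ovr_path y s).left [x]
    have e2 : Eqv (triv C) [(.neg, 0), (.pos, 0)] [] (x :: y :: s) (x :: y :: s) :=
      Eqv.base Base.r2NegPos ((path_neg0 x y).append (path_pos0 y x)) (Path.nil _)
    have e1 := Eqv.context p1 e2 p2
    have e3 := ih.shift_left [x]
    have e4 : Eqv (triv C) (shift 1 (layNov s.length) ++ ([] ++ shift 1 (ovr s.length)))
        (shift 1 []) (x :: (s ++ [y])) (x :: (s ++ [y])) := by
      refine e3.cast ?_ rfl rfl rfl
      simp
    refine (e1.trans e4).cast ?_ rfl rfl rfl
    simp [ovr, layNov]

/-- A strand passes over a whole tangle, from the right to the left. -/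
theorem lay_slide_left (y : C) {w : Word C} {s t : List C} (h : Path (triv C) w s t) :
    Eqv (triv C) (w ++ layNov t.length) (layNov s.length ++ shift 1 w) (s ++ [y]) (y :: t) := by
  have a1 := (lay_nov_ovr y s).append ((h.right [y]).append (layNov_path y t))
  have a2 := Eqv.context (layNov_path y s) (slide y h).symm (layNov_path y t)
  have a3 := Eqv.prepend ((layNov_path y s).append (h.left [y])) (lay_ovr_nov y t)
  simp only [List.append_assoc, List.nil_append, List.append_nil, List.length_cons,
    List.length_nil, Nat.zero_add] at a1 a2 a3 ⊢
  exact a1.symm.trans (a2.trans a3)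

/-- `m` strands pass under `n` strands. -/
def layX : ℕ → ℕ → Word C
  | 0, _ => []
  | m + 1, n => shift 1 (layX m n) ++ und n

theorem layX_path (a l : List C) : Path (triv C) (layX a.length l.length) (a ++ l) (l ++ a) := by
  induction a with
  | nil =>
    rw [List.append_nil]
    exact Path.nil _
  | cons x a ih =>
    have h := (ih.left [x]).append ((und_path x l).right a)
    exact h.cast rfl (by simp)

theorem layX_zero (m : ℕ) : (layX m 0 : Word C) = [] := by
  induction m with
  | zero => rfl
  | succ m ih =>
    show shift 1 (layX m 0) ++ und 0 = []
    rw [ih]
    rfl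

theorem layX_succ (y : C) (a l : List C) :
    Eqv (triv C) (layX a.length (l.length + 1)) (layNov a.length ++ shift 1 (layX a.length l.length))
      (a ++ (y :: l)) (y :: (l ++ a)) := by
  induction a with
  | nil =>
    rw [List.append_nil]
    exact Eqv.refl (Path.nil _)
  | cons x a ih =>
    have p0 : Path (triv C) (und (l.length + 1)) (x :: y :: (l ++ a)) (y :: (l ++ x :: a)) :=
      ((und_path x (y :: l)).right a).cast rfl (by simp)
    have p1 : Path (triv C) (shift 1 (layNov a.length)) (x :: (a ++ (y :: l)))
        (x :: y :: (a ++ l)) := (((layNov_path y a).right l).left [x]).cast (by simp) rfl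
    have p2 : Path (triv C) (shift 1 (und l.length)) (y :: x :: (l ++ a)) (y :: (l ++ x :: a)) :=
      (((und_path x l).right a).left [y]).cast rfl (by simp)
    have e1 := (ih.shift_left [x]).append p0
    have e2 := Eqv.context p1
      (interchange (path_neg0 (r := []) x y) (layX_path a l)).symm p2
    simp only [layX, layNov, lay_und_succ, shift_append, shift_shift, List.append_assoc, List.length_cons,
      List.length_nil, List.nil_append, List.cons_append, Nat.zero_add] at e1 e2 ⊢
    exact e1.trans e2

/-- **Sliding.** A tangle passes under some strands. -/
theorem lay_slide {w : Word C} {a b : List C} (h : Path (triv C) w a b) (l : List C) :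
    Eqv (triv C) (w ++ layX b.length l.length) (layX a.length l.length ++ shift l.length w)
      (a ++ l) (l ++ b) := by
  induction l with
  | nil =>
    rw [List.length_nil, layX_zero, layX_zero, shift_zero, List.append_nil, List.append_nil,
      List.nil_append, List.nil_append]
    exact Eqv.refl h
  | cons y l ih =>
    have e1 := Eqv.prepend (h.right (y :: l)) (layX_succ y b l)
    have p1 : Path (triv C) (shift 1 (layX b.length l.length)) (y :: (b ++ l)) (y :: (l ++ b)) :=
      (layX_path b l).left [y]
    have e2 := ((lay_slide_left y h).right l).append (p1.cast rfl rfl)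
    have p2 : Path (triv C) (layNov a.length) (a ++ y :: l) (y :: (a ++ l)) :=
      ((layNov_path y a).right l).cast (by simp) rfl
    have e3 := Eqv.prepend p2 (ih.shift_left [y])
    have e4 := (layX_succ y a l).symm.append (b := shift (l.length + 1) w) (r := y :: (l ++ b)) (by
      have := h.left (y :: l)
      simpa using this)
    simp only [shift_append, shift_shift, List.append_assoc, List.length_cons,
      List.length_nil, List.nil_append, List.cons_append, Nat.zero_add] at e1 e2 e3 e4 ⊢
    exact e1.trans (e2.trans (e3.trans e4))

end slide

/-- The strands with label `true`. -/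
def layT (s : List Bool) : List Bool := s.filter fun x => x

/-- The strands with label `false`. -/
def layF (s : List Bool) : List Bool := s.filter fun x => !x

/-- The word which moves the strands with label `false` to the right, under the strands with
label `true`. -/
def laySh : List Bool → Word Bool
  | [] => []
  | true :: s => shift 1 (laySh s)
  | false :: s => shift 1 (laySh s) ++ und (layT s).length

theorem laySh_path (s : List Bool) : Path (triv Bool) (laySh s) s (layT s ++ layF s) := by
  induction s with
  | nil => exact Path.nil _
  | cons a s ih =>
    cases a with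
    | true => exact ih.left [true]
    | false =>
      have h := (ih.left [false]).append ((und_path false (layT s)).right (layF s))
      exact h.cast rfl (by simp [layT, layF])

/-- The right hand side of the layer theorem. -/
abbrev layR (u v : Word Bool) (s t : List Bool) : Word Bool :=
  laySh s ++ (u ++ shift (layT t).length v)

/-- A letter whose labels are all `true`. -/
theorem layer_letter_true {k : Kind Bool} {a b : List Bool} (h : Step (triv Bool) k 0 a b)
    (s : List Bool) :
    Eqv (triv Bool) ((k, 0) :: shift b.length (laySh s)) (shift a.length (laySh s) ++ [(k, 0)])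
      (a ++ s) (b ++ (layT s ++ layF s)) :=
  interchange_one h (laySh_path s)

/-- A letter whose labels are all `false`. -/
theorem layer_letter_false {k : Kind Bool} {a b : List Bool} (h : Step (triv Bool) k 0 a b)
    (s : List Bool) :
    Eqv (triv Bool) ((k, 0) :: (shift b.length (laySh s) ++ layX b.length (layT s).length))
      (shift a.length (laySh s) ++ layX a.length (layT s).length ++ [(k, (layT s).length)])
      (a ++ s) (layT s ++ (b ++ layF s)) := by
  have p1 : Path (triv Bool) (layX b.length (layT s).length) (b ++ (layT s ++ layF s))
      (layT s ++ (b ++ layF s)) := ((layX_path b (layT s)).right (layF s)).cast (by simp) (by simp)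
  have e1 := (interchange_one h (laySh_path s)).append p1
  have p2 : Path (triv Bool) (shift a.length (laySh s)) (a ++ s) (a ++ layT s ++ layF s) :=
    ((laySh_path s).left a).cast rfl (by simp)
  have e2 := Eqv.prepend p2 ((lay_slide (path_single_iff.2 h) (layT s)).right (layF s))
  have e3 := e2.cast (t' := layT s ++ (b ++ layF s)) rfl rfl rfl (by simp)
  simp only [List.append_assoc, List.cons_append, List.nil_append, shift_cons, shift_nil,
    Nat.zero_add] at e1 e3 ⊢
  exact e1.trans e3

theorem layer_step {k : Kind Bool} {i : ℕ} {s t : List Bool} (h : Step (triv Bool) k i s t)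
    (hx : ∀ p ∈ xlL k i s, ¬ (p.1 = false ∧ p.2 = true)) :
    Eqv (triv Bool) ((k, i) :: laySh t)
      (layR (delL (fun x => x) k i s) (delL (fun x => !x) k i s) s t) s (layT t ++ layF t) := by
  induction h with
  | cup c s =>
    cases c with
    | true =>
      have e := layer_letter_true (Step.cup true []) s
      refine e.cast ?_ ?_ ?_ ?_
      · simp [laySh, triv, shift_shift]
      · simp [layR, delL]
      · rfl
      · simp [layT, layF, triv]
    | false =>
      have e := layer_letter_false (Step.cup false []) s
      refine e.cast ?_ ?_ ?_ ?_
      · simp [laySh, triv, shift_shift, layX, layT]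
      · simp [layR, delL, layX, layT, triv]
      · rfl
      · simp [layT, layF, triv]
  | cap c s =>
    cases c with
    | true =>
      have e := layer_letter_true (Step.cap true []) s
      refine e.cast ?_ ?_ ?_ ?_
      · simp
      · simp [layR, delL, laySh, triv, shift_shift]
      · rfl
      · simp
    | false =>
      have e := layer_letter_false (Step.cap false []) s
      refine e.cast ?_ ?_ ?_ ?_
      · simp [layX]
      · simp [layR, delL, laySh, triv, shift_shift, layX, layT]
      · rfl
      · simp
  | pos a b s =>
    cases a with
    | true =>
      cases b with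
      | true =>
        have e := layer_letter_true (Step.pos true true []) s
        refine e.cast ?_ ?_ ?_ ?_
        · simp [laySh, triv, shift_shift]
        · simp [layR, delL, laySh, shift_shift]
        · rfl
        · simp [layT, layF, triv]
      | false =>
        have e1 := interchange_one (Step.pos (P := triv Bool) true false []) (laySh_path s)
        have p1 : Path (triv Bool) (und (layT (true :: s)).length)
            (false :: true :: (layT s ++ layF s)) (layT (true :: s) ++ ([false] ++ layF s)) :=
          ((und_path false (layT (true :: s))).right (layF s)).cast (by simp [layT]) (by simp)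
        have e2 := e1.append p1
        have e3 : Eqv (triv Bool) [(.pos, 0), (.neg, 0)] [] (true :: false :: (layT s ++ layF s))
            (true :: false :: (layT s ++ layF s)) :=
          Eqv.base Base.r2PosNeg ((path_pos0 true false).append (path_neg0 false true))
            (Path.nil _)
        have p2 : Path (triv Bool) (shift 2 (laySh s)) (true :: false :: s)
            (true :: false :: (layT s ++ layF s)) := (laySh_path s).left [true, false]
        have p3 : Path (triv Bool) (shift 1 (und (layT s).length))
            (true :: false :: (layT s ++ layF s)) (layT (true :: s) ++ ([false] ++ layF s)) :=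
          (((und_path false (layT s)).right (layF s)).left [true]).cast rfl (by simp [layT])
        have e4 := Eqv.context p2 e3 p3
        have hT : (layT (true :: s)).length = (layT s).length + 1 := by simp [layT]
        rw [hT, lay_und_succ] at e2
        simp only [List.append_assoc, List.cons_append, List.nil_append, List.length_cons,
          List.length_nil, Nat.zero_add] at e2 e4
        refine (e2.trans e4).cast ?_ ?_ ?_ ?_
        · simp [laySh, triv, shift_shift, hT, lay_und_succ]
        · simp [layR, delL, laySh, shift_shift]
        · rfl
        · simp [layT, layF, triv]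
    | false =>
      cases b with
      | true => exact absurd ⟨rfl, rfl⟩ (hx (false, true) (by simp [xlL]))
      | false =>
        have e := layer_letter_false (Step.pos false false []) s
        refine e.cast ?_ ?_ ?_ ?_
        · simp [laySh, triv, shift_shift, layX, layT]
        · simp [layR, delL, laySh, triv, shift_shift, layX, layT]
        · rfl
        · simp [layT, layF, triv]
  | neg a b s =>
    cases a with
    | true =>
      cases b with
      | true =>
        have e := layer_letter_true (Step.neg true true []) s
        refine e.cast ?_ ?_ ?_ ?_
        · simp [laySh, triv, shift_shift]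
        · simp [layR, delL, laySh, shift_shift]
        · rfl
        · simp [layT, layF, triv]
      | false => exact absurd ⟨rfl, rfl⟩ (hx (false, true) (by simp [xlL]))
    | false =>
      cases b with
      | true =>
        have p3 : Path (triv Bool) (shift 1 (und (layT s).length))
            (true :: false :: (layT s ++ layF s)) (layT (true :: s) ++ ([false] ++ layF s)) :=
          (((und_path false (layT s)).right (layF s)).left [true]).cast rfl (by simp [layT])
        have e1 := (interchange_one (Step.neg (P := triv Bool) false true []) (laySh_path s)).append p3
        have hT : (layT (true :: s)).length = (layT s).length + 1 := by simp [layT]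
        refine e1.cast ?_ ?_ ?_ ?_
        · simp [laySh, triv, shift_shift]
        · simp [layR, delL, laySh, shift_shift, hT, lay_und_succ]
        · rfl
        · simp [layT, layF, triv]
      | false =>
        have e := layer_letter_false (Step.neg false false []) s
        refine e.cast ?_ ?_ ?_ ?_
        · simp [laySh, triv, shift_shift, layX, layT]
        · simp [layR, delL, laySh, triv, shift_shift, layX, layT]
        · rfl
        · simp [layT, layF, triv]
  | @there a k i s t h ih =>
    rw [xlL_succ] at hx
    have e1 := (ih hx).shift_left [a]
    cases a with
    | true =>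
      refine e1.cast ?_ ?_ ?_ ?_
      · simp [laySh]
      · simp [layR, delL_succ, laySh, shift_shift, layT]
      · rfl
      · simp [layT, layF]
    | false =>
      have c1 := delL_path (compat_triv fun x => x) h
      have c2 := delL_path (compat_triv fun x => !x) h
      change Path (triv Bool) (delL (fun x => x) k i s) (layT s) (layT t) at c1
      change Path (triv Bool) (delL (fun x => !x) k i s) (layF s) (layF t) at c2
      have p0 : Path (triv Bool) (und (layT t).length) (false :: (layT t ++ layF t))
          (layT t ++ (false :: layF t)) :=
        ((und_path false (layT t)).right (layF t)).cast (by simp) (by simp)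
      have p1 : Path (triv Bool) (shift 1 (laySh s)) (false :: s) (false :: (layT s ++ layF s)) :=
        (laySh_path s).left [false]
      have p2 : Path (triv Bool) (shift 1 (delL (fun x => x) k i s))
          (false :: (layT s ++ layF s)) (false :: (layT t ++ layF s)) := (c1.right (layF s)).left [false]
      have e2 := e1.append p0
      have e3 := Eqv.prepend (p1.append p2) (interchange (und_path false (layT t)) c2).symm
      have e4 := (slide_under false c1).right (layF s)
      have p3 : Path (triv Bool) (shift ((layT t).length + 1) (delL (fun x => !x) k i s))
          (layT t ++ [false] ++ layF s) (layT t ++ (false :: layF t)) := by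
        have h1 := c2.left (layT t ++ [false])
        rw [List.length_append] at h1
        exact h1.cast rfl (by simp)
      have e5 := Eqv.prepend p1 (e4.append p3)
      have e3' := e3.cast (t' := layT t ++ (false :: layF t)) rfl rfl rfl (by simp)
      simp only [layR, List.append_assoc, List.cons_append, List.nil_append, List.length_cons,
        List.length_nil, List.length_append, Nat.zero_add, shift_append, shift_shift, shift_cons]
        at e2 e3' e5
      refine (e2.trans (e3'.trans e5)).cast ?_ ?_ ?_ ?_
      · simp [laySh]
      · simp [layR, delL_succ, laySh, shift_shift, layT, Nat.add_comm]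
      · rfl
      · simp [layT, layF]

theorem layer_word {w : Word Bool} {s t : List Bool} (h : Path (triv Bool) w s t)
    (hx : ∀ p ∈ xl (triv Bool) w s, ¬ (p.1 = false ∧ p.2 = true)) :
    Eqv (triv Bool) (w ++ laySh t)
      (layR (del (triv Bool) (fun x => x) w s) (del (triv Bool) (fun x => !x) w s) s t)
      s (layT t ++ layF t) := by
  induction h with
  | nil s =>
    refine (Eqv.refl (laySh_path s)).cast ?_ ?_ rfl rfl <;> simp
  | @cons k i w s t r h1 h2 ih =>
    rw [xl_cons, h1.nxt_eq] at hx
    have ih' := ih fun p hp => hx p (List.mem_append_right _ hp)
    have e0 := layer_step h1 fun p hp => hx p (List.mem_append_left _ hp)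
    have c1 := delL_path (compat_triv fun x => x) h1
    have c2 := delL_path (compat_triv fun x => !x) h1
    have d1 := del_path (compat_triv fun x => x) h2
    have d2 := del_path (compat_triv fun x => !x) h2
    change Path (triv Bool) (delL (fun x => x) k i s) (layT s) (layT t) at c1
    change Path (triv Bool) (delL (fun x => !x) k i s) (layF s) (layF t) at c2
    change Path (triv Bool) (del (triv Bool) (fun x => x) w t) (layT t) (layT r) at d1
    change Path (triv Bool) (del (triv Bool) (fun x => !x) w t) (layF t) (layF r) at d2
    have e1 := Eqv.prepend (path_single_iff.2 h1) ih'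
    have e2 := e0.append ((d1.right (layF t)).append (d2.left (layT r)))
    have e3 := Eqv.context ((laySh_path s).append (c1.right (layF s))) (interchange d1 c2).symm
      (d2.left (layT r))
    rw [del_cons, del_cons, h1.nxt_eq]
    simp only [layR, List.append_assoc, List.cons_append, List.nil_append, shift_append]
      at e1 e2 e3 ⊢
    exact e1.trans (e2.trans e3)

theorem layer {w : Word Bool} (h : Path (triv Bool) w [] [])
    (hx : ∀ p ∈ xl (triv Bool) w [], ¬ (p.1 = false ∧ p.2 = true)) :
    Eqv (triv Bool) w (del (triv Bool) (fun x => x) w [] ++ del (triv Bool) (fun x => !x) w [])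
      [] [] := by
  refine (layer_word h hx).cast ?_ ?_ rfl rfl
  · simp [laySh]
  · simp [layR, laySh, layT]

theorem layer_mixed {w : Word Bool} {L : Link} (h : Path (triv Bool) w [] [])
    (hL : IsDiag (erase w) L) (hs : ¬ IsSplit L) (h1 : HasLabel true w) (h2 : HasLabel false w) :
    (false, true) ∈ xl (triv Bool) w [] := by
  by_contra hc
  have e := layer h fun p hp hpp => hc (by
    have : p = (false, true) := Prod.ext hpp.1 hpp.2
    rwa [← this])
  apply hs
  have d1 : Path (triv Bool) (del (triv Bool) (fun x => x) w []) [] [] :=
    del_path (compat_triv _) h
  have d2 : Path (triv Bool) (del (triv Bool) (fun x => !x) w []) [] [] :=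
    del_path (compat_triv _) h
  refine ⟨erase (del (triv Bool) (fun x => x) w []), erase (del (triv Bool) (fun x => !x) w []),
    ?_, ?_, path_erase d1, path_erase d2, ?_⟩
  · intro h3
    rw [wmap_eq_nil] at h3
    have h4 := (hasLabel_del (κ := fun x => x) h).2 ⟨h1, rfl⟩
    rw [h3] at h4
    simp at h4
  · intro h3
    rw [wmap_eq_nil] at h3
    have h4 := (hasLabel_del (κ := fun x => !x) h).2 ⟨h2, rfl⟩
    rw [h3] at h4
    simp at h4
  · rw [← wmap_append]
    exact isDiag_erase_of_eqv e hL

/-- In a labelled diagram of a link which is not split, in which both labels occur, both kinds of mixed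
crossings occur. -/
theorem exists_mixed {w : Word Bool} {L : Link} (h : Path (triv Bool) w [] [])
    (hL : IsDiag (erase w) L) (hs : ¬ IsSplit L) (h1 : HasLabel true w) (h2 : HasLabel false w) :
    (true, false) ∈ xl (triv Bool) w [] ∧ (false, true) ∈ xl (triv Bool) w [] := by
  refine ⟨?_, layer_mixed h hL hs h1 h2⟩
  have h' : Path (triv Bool) (wmap (fun x => !x) w) [] [] := h.map (isHom_triv fun x => !x)
  have h3 := layer_mixed h' (by rw [erase_wmap]; exact hL) hs
    (h2.map fun x => !x) (h1.map fun x => !x)
  have h4 := xl_map (isHom_triv fun x : Bool => !x) h
  rw [List.map_nil] at h4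
  rw [h4, List.mem_map] at h3
  obtain ⟨⟨a, b⟩, h5, h6⟩ := h3
  cases a <;> cases b <;> simp at h6
  exact h5

/-- The number of crossings, sorted by labels. -/
theorem cr_eq_sum {w : Word Bool} (h : Path (triv Bool) w [] []) :
    cr w = cr (del (triv Bool) (fun x => x) w []) + cr (del (triv Bool) (fun x => !x) w []) +
      (cnt (triv Bool) (pr true false) w [] + cnt (triv Bool) (pr false true) w []) := by
  rw [cr_del (compat_triv _) h, cr_del (compat_triv _) h, ← length_xl h, cnt, cnt]
  generalize xl (triv Bool) w [] = l
  induction l with
  | nil => rfl
  | cons p l ih =>
    obtain ⟨a, b⟩ := p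
    rw [List.length_cons, ih]
    simp only [List.countP_cons]
    cases a <;> cases b <;> simp [pr] <;> omega

end Pool.Agent.Lib.MP_131179_gt
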