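import Pool.Agent.Lib.MP_131179_gt.Lift

/-!
# Deleting strands

Given a set of labels (the labels `x` with `κ x = true` are kept), `del P κ w s` is the word
obtained from `w` by deleting the strands whose labels are not kept; `s` are the labels of the
strands at the bottom of `w`.
-/

set_option autoImplicit false
set_option linter.unusedSimpArgs false

namespace Pool.Agent.Lib.MP_131179_gt

variable {C D : Type} {P : Palette C} {Q : Palette D}

/-- The set of kept labels is compatible with the palette: it does not depend on the direction,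
it is preserved when passing under another strand, and the deleted labels act trivially
on the kept ones. -/
structure Compat (P : Palette C) (κ : C → Bool) : Prop where
  bar : ∀ x, κ (P.bar x) = κ x
  act : ∀ x y, κ (P.act x y) = κ x
  free : ∀ x y, κ x = true → κ y = false → P.act x y = x

theorem compat_triv (κ : C → Bool) : Compat (triv C) κ :=
  ⟨fun _ => rfl, fun _ _ => rfl, fun _ _ _ _ => rfl⟩

/-- The labels of the strands above an elementary tangle. -/
def nxt (P : Palette C) : Kind C → ℕ → List C → List C
  | .cup c, 0, s => c :: P.bar c :: s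
  | .cap, 0, s => s.drop 2
  | .pos, 0, a :: b :: s => P.act b (P.bar a) :: a :: s
  | .neg, 0, a :: b :: s => b :: P.act a b :: s
  | k, i + 1, a :: s => a :: nxt P k i s
  | _, _, s => s

theorem Step.nxt_eq {k : Kind C} {i : ℕ} {s t : List C} (h : Step P k i s t) :
    nxt P k i s = t := by
  induction h with
  | cup c s => rfl
  | cap c s => rfl
  | pos a b s => rfl
  | neg a b s => rfl
  | @there a k i s t _ ih =>
    show nxt P k (i + 1) (a :: s) = _
    rw [nxt, ih]

/-- Deleting strands in an elementary tangle. -/
def delL (κ : C → Bool) : Kind C → ℕ → List C → Word C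
  | .cup c, 0, _ => if κ c then [(.cup c, 0)] else []
  | .cap, 0, a :: _ => if κ a then [(.cap, 0)] else []
  | .pos, 0, a :: b :: _ => if κ a && κ b then [(.pos, 0)] else []
  | .neg, 0, a :: b :: _ => if κ a && κ b then [(.neg, 0)] else []
  | k, i + 1, a :: s => shift (if κ a then 1 else 0) (delL κ k i s)
  | _, _, _ => []

/-- Deleting strands in a word. -/
def del (P : Palette C) (κ : C → Bool) : Word C → List C → Word C
  | [], _ => []
  | (k, i) :: w, s => delL κ k i s ++ del P κ w (nxt P k i s)

@[simp] theorem del_nil (κ : C → Bool) (s : List C) : del P κ [] s = [] := rfl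

theorem del_cons (κ : C → Bool) (k : Kind C) (i : ℕ) (w : Word C) (s : List C) :
    del P κ ((k, i) :: w) s = delL κ k i s ++ del P κ w (nxt P k i s) := rfl

theorem delL_succ (κ : C → Bool) (k : Kind C) (i : ℕ) (a : C) (s : List C) :
    delL κ k (i + 1) (a :: s) = shift (if κ a then 1 else 0) (delL κ k i s) := by
  cases k <;> rfl

theorem del_append {κ : C → Bool} {u v : Word C} {s t : List C} (h : Path P u s t) :
    del P κ (u ++ v) s = del P κ u s ++ del P κ v t := by
  induction h with
  | nil s => simp
  | cons hs _ ih =>
    rw [List.cons_append, del_cons, del_cons, hs.nxt_eq, ih, List.append_assoc]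

theorem filter_length_cons {κ : C → Bool} {a : C} {l : List C} :
    ((a :: l).filter κ).length = (if κ a then 1 else 0) + (l.filter κ).length := by
  by_cases h : κ a = true <;> simp [h, Nat.add_comm]

theorem delL_left {κ : C → Bool} {k : Kind C} {i : ℕ} (l s : List C) :
    delL κ k (i + l.length) (l ++ s) = shift (l.filter κ).length (delL κ k i s) := by
  induction l with
  | nil => simp
  | cons a l ih =>
    rw [List.length_cons, ← Nat.add_assoc, List.cons_append, delL_succ, ih, shift_shift,
      filter_length_cons, Nat.add_comm]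

theorem nxt_left {k : Kind C} {i : ℕ} (l s : List C) :
    nxt P k (i + l.length) (l ++ s) = l ++ nxt P k i s := by
  induction l with
  | nil => simp
  | cons a l ih =>
    rw [List.length_cons, ← Nat.add_assoc, List.cons_append, nxt, ih]
    rfl

theorem del_left {κ : C → Bool} {w : Word C} (l s : List C) :
    del P κ (shift l.length w) (l ++ s) = shift (l.filter κ).length (del P κ w s) := by
  induction w generalizing s with
  | nil => rfl
  | cons x w ih =>
    obtain ⟨k, i⟩ := x
    rw [shift_cons, del_cons, del_cons, delL_left, nxt_left, ih, shift_append]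

theorem delL_right {κ : C → Bool} {k : Kind C} {i : ℕ} {s t : List C} (h : Step P k i s t)
    (r : List C) : delL κ k i (s ++ r) = delL κ k i s := by
  induction h with
  | cup c s => rfl
  | cap c s => rfl
  | pos a b s => rfl
  | neg a b s => rfl
  | there a _ ih => rw [List.cons_append, delL_succ, delL_succ, ih]

theorem del_right {κ : C → Bool} {w : Word C} {s t : List C} (h : Path P w s t) (r : List C) :
    del P κ w (s ++ r) = del P κ w s := by
  induction h with
  | nil s => rfl
  | cons hs _ ih =>
    rw [del_cons, del_cons, delL_right hs, hs.nxt_eq, (hs.right r).nxt_eq, ih]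

/-- Deleting strands gives a tangle between the remaining strands. -/
theorem delL_path {κ : C → Bool} (hκ : Compat P κ) {k : Kind C} {i : ℕ} {s t : List C}
    (h : Step P k i s t) : Path P (delL κ k i s) (s.filter κ) (t.filter κ) := by
  induction h with
  | cup c s =>
    by_cases h : κ c = true
    · simp only [delL, h, if_true, List.filter_cons, hκ.bar]
      exact path_single_iff.2 (Step.cup _ _)
    · simp only [delL, h, List.filter_cons, hκ.bar]
      exact Path.nil _
  | cap c s =>
    by_cases h : κ c = true
    · simp only [delL, h, if_true, List.filter_cons, hκ.bar]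
      exact path_single_iff.2 (Step.cap _ _)
    · simp only [delL, h, List.filter_cons, hκ.bar]
      exact Path.nil _
  | pos a b s =>
    by_cases ha : κ a = true <;> by_cases hb : κ b = true
    · simp only [delL, ha, hb, if_true, List.filter_cons, hκ.act, Bool.and_self]
      exact path_single_iff.2 (Step.pos _ _ _)
    · simp only [delL, ha, hb, if_true, List.filter_cons, hκ.act]
      exact Path.nil _
    · simp only [delL, ha, hb, if_true, List.filter_cons, hκ.act,
        hκ.free b (P.bar a) hb (by rw [hκ.bar]; simpa using ha)]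
      exact Path.nil _
    · simp only [delL, ha, hb, List.filter_cons, hκ.act]
      exact Path.nil _
  | neg a b s =>
    by_cases ha : κ a = true <;> by_cases hb : κ b = true
    · simp only [delL, ha, hb, if_true, List.filter_cons, hκ.act, Bool.and_self]
      exact path_single_iff.2 (Step.neg _ _ _)
    · simp only [delL, ha, hb, if_true, List.filter_cons, hκ.act,
        hκ.free a b ha (by simpa using hb)]
      exact Path.nil _
    · simp only [delL, ha, hb, if_true, List.filter_cons, hκ.act]
      exact Path.nil _
    · simp only [delL, ha, hb, List.filter_cons, hκ.act]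
      exact Path.nil _
  | there a _ ih =>
    rw [delL_succ]
    by_cases ha : κ a = true
    · simp only [ha, if_true, List.filter_cons]
      exact ih.left [a]
    · simpa [ha] using ih

theorem del_path {κ : C → Bool} (hκ : Compat P κ) {w : Word C} {s t : List C}
    (h : Path P w s t) : Path P (del P κ w s) (s.filter κ) (t.filter κ) := by
  induction h with
  | nil s => exact Path.nil _
  | cons hs _ ih =>
    rw [del_cons, hs.nxt_eq]
    exact (delL_path hκ hs).append ih

theorem delL_zero_cases {κ : C → Bool} (hκ : Compat P κ) {k : Kind C} {s t : List C}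
    (h : Step P k 0 s t) :
    ∃ a b r : List C, a.length = k.inn ∧ b.length = k.out ∧ s = a ++ r ∧ t = b ++ r ∧
      ((∀ r', delL κ k 0 (a ++ r') = [] ∧ (a.filter κ).length = (b.filter κ).length) ∨
        (∀ r', delL κ k 0 (a ++ r') = [(k, 0)] ∧ (a.filter κ).length = k.inn ∧
          (b.filter κ).length = k.out)) := by
  cases h with
  | cup c s =>
    refine ⟨[], [c, P.bar c], s, rfl, rfl, rfl, rfl, ?_⟩
    by_cases h : κ c = true
    · right
      intro r'
      simp [delL, h, hκ.bar, Kind.inn, Kind.out]
    · left
      intro r'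
      simp [delL, h, hκ.bar]
  | cap c s =>
    refine ⟨[c, P.bar c], [], t, rfl, rfl, rfl, rfl, ?_⟩
    by_cases h : κ c = true
    · right
      intro r'
      simp [delL, h, hκ.bar, Kind.inn, Kind.out]
    · left
      intro r'
      simp [delL, h, hκ.bar]
  | pos a b s =>
    refine ⟨[a, b], [P.act b (P.bar a), a], s, rfl, rfl, rfl, rfl, ?_⟩
    by_cases ha : κ a = true <;> by_cases hb : κ b = true
    · right
      intro r'
      simp [delL, ha, hb, hκ.act, Kind.inn, Kind.out]
    all_goals
      left
      intro r'
      simp [delL, ha, hb, hκ.act]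
  | neg a b s =>
    refine ⟨[a, b], [b, P.act a b], s, rfl, rfl, rfl, rfl, ?_⟩
    by_cases ha : κ a = true <;> by_cases hb : κ b = true
    · right
      intro r'
      simp [delL, ha, hb, hκ.act, Kind.inn, Kind.out]
    all_goals
      left
      intro r'
      simp [delL, ha, hb, hκ.act]

theorem delL_cases {κ : C → Bool} {k : Kind C} {i : ℕ} {s t : List C}
    (h : Step P k i s t) : delL κ k i s = [] ∨ ∃ j, delL κ k i s = [(k, j)] := by
  induction h with
  | there a _ ih =>
    rw [delL_succ]
    rcases ih with ih | ⟨j, ih⟩
    · left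
      rw [ih]
      rfl
    · right
      rw [ih]
      exact ⟨_, rfl⟩
  | cup c s => by_cases h : κ c = true <;> simp [delL, h]
  | cap c s => by_cases h : κ c = true <;> simp [delL, h]
  | pos a b s => by_cases h : (κ a && κ b) = true <;> simp [delL, h]
  | neg a b s => by_cases h : (κ a && κ b) = true <;> simp [delL, h]

theorem far_del {κ : C → Bool} (hκ : Compat P κ) {k l : Kind C} {g : ℕ} {s t : List C}
    (h : Path P [(k, 0), (l, k.out + g)] s t) :
    del P κ [(k, 0), (l, k.out + g)] s = del P κ [(l, k.inn + g), (k, 0)] s ∨
      Base (del P κ [(k, 0), (l, k.out + g)] s) (del P κ [(l, k.inn + g), (k, 0)] s) := by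
  obtain ⟨t1, h1, h2⟩ := path_cons_iff.1 h
  rw [path_single_iff] at h2
  obtain ⟨a, b, r, ha, hb, rfl, rfl, hc⟩ := delL_zero_cases hκ h1
  have h3 := h1.nxt_eq
  rw [← hb, Nat.add_comm] at h2
  obtain ⟨r', rfl, h4⟩ := step_append_cancel h2
  have e1 : del P κ [(k, 0), (l, k.out + g)] (a ++ r) =
      delL κ k 0 (a ++ r) ++ shift (b.filter κ).length (delL κ l g r) := by
    rw [del_cons, h3, del_cons, ← hb, Nat.add_comm b.length g, delL_left, del_nil,
      List.append_nil]
  have e2 : del P κ [(l, k.inn + g), (k, 0)] (a ++ r) =
      shift (a.filter κ).length (delL κ l g r) ++ delL κ k 0 (a ++ r') := by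
    rw [del_cons, ← ha, Nat.add_comm a.length g, delL_left, nxt_left, h4.nxt_eq, del_cons, del_nil,
      List.append_nil]
  rw [e1, e2]
  rcases hc with hc | hc
  · left
    rw [(hc r).1, (hc r').1, (hc r).2, List.nil_append, List.append_nil]
  · rw [(hc r).1, (hc r').1, (hc r).2.1, (hc r).2.2]
    rcases delL_cases (κ := κ) h4 with h5 | ⟨j, h5⟩
    · left
      rw [h5]
      rfl
    · right
      rw [h5]
      have := Base.far k l j
      rw [Nat.add_comm k.out, Nat.add_comm k.inn] at this
      exact this

theorem Base.del {κ : C → Bool} (hκ : Compat P κ) {u v : Word C} (h : Base u v) {s t : List C}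
    (hu : Path P u s t) (hv : Path P v s t) :
    MP_131179_gt.del P κ u s = MP_131179_gt.del P κ v s ∨
      Base (MP_131179_gt.del P κ u s) (MP_131179_gt.del P κ v s) := by
  cases h with
  | far k l g => exact far_del hκ hu
  | zig c =>
    obtain ⟨rfl, r, rfl⟩ := path_zig.1 hu
    by_cases hc : κ c = true
    · right
      simp only [MP_131179_gt.del, delL, nxt, hc, hκ.bar, if_true]
      exact Base.zig c
    · left
      simp [MP_131179_gt.del, delL, nxt, hc, hκ.bar]
  | zag c =>
    obtain ⟨rfl, r, rfl⟩ := path_zag.1 hu
    by_cases hc : κ c = true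
    · right
      simp only [MP_131179_gt.del, delL, nxt, hc, hκ.bar, if_true]
      exact Base.zag c
    · left
      simp [MP_131179_gt.del, delL, nxt, hc, hκ.bar]
  | cupOver c d =>
    obtain ⟨x, r, rfl, h1⟩ := path_cup_pos.1 hu
    obtain ⟨y, r', h2, h3⟩ := path_cup_neg'.1 hv
    simp only [List.cons.injEq] at h2
    obtain ⟨rfl, rfl⟩ := h2
    rw [h1] at h3
    simp only [List.cons.injEq] at h3
    obtain ⟨h4, -⟩ := h3
    by_cases hx : κ x = true <;> by_cases hc : κ c = true
    · right
      have hd : κ d = true := by rw [← h4, hκ.act, hc]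
      simp only [MP_131179_gt.del, delL, nxt, hc, hd, hx, hκ.bar, hκ.act, if_true, Bool.and_self]
      exact Base.cupOver c d
    · left
      have hd : ¬ κ d = true := by rw [← h4, hκ.act]; exact hc
      simp [MP_131179_gt.del, delL, nxt, hc, hd, hx, hκ.bar, hκ.act]
    · left
      have hd : d = c := by
        rw [← h4, hκ.free c (P.bar x) hc (by rw [hκ.bar]; simpa using hx)]
      simp [MP_131179_gt.del, delL, nxt, hc, hd, hx, hκ.bar, hκ.act]
    · left
      have hd : ¬ κ d = true := by rw [← h4, hκ.act]; exact hc
      simp [MP_131179_gt.del, delL, nxt, hc, hd, hx, hκ.bar, hκ.act]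
  | cupUnder c d =>
    obtain ⟨x, r, rfl, h1⟩ := path_cup_neg.1 hu
    obtain ⟨y, r', h2, h3⟩ := path_cup_pos'.1 hv
    simp only [List.cons.injEq] at h2
    obtain ⟨rfl, rfl⟩ := h2
    rw [h1] at h3
    simp only [List.cons.injEq] at h3
    obtain ⟨rfl, -⟩ := h3
    by_cases hx : κ x = true <;> by_cases hc : κ c = true
    · right
      simp only [MP_131179_gt.del, delL, nxt, hc, hx, hκ.bar, hκ.act, if_true, Bool.and_self]
      exact Base.cupUnder c c
    all_goals
      left
      simp [MP_131179_gt.del, delL, nxt, hc, hx, hκ.bar, hκ.act]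
  | capOver =>
    obtain ⟨a, b, r, rfl, -⟩ := path_pos_cap.1 hu
    by_cases ha : κ a = true <;> by_cases hb : κ b = true
    · right
      simp only [MP_131179_gt.del, delL, nxt, ha, hb, hκ.bar, hκ.act, if_true, Bool.and_self]
      exact Base.capOver
    all_goals
      left
      simp [MP_131179_gt.del, delL, nxt, ha, hb, hκ.bar, hκ.act]
  | capUnder =>
    obtain ⟨a, b, r, rfl, -⟩ := path_neg_cap.1 hu
    by_cases ha : κ a = true <;> by_cases hb : κ b = true
    · right
      simp only [MP_131179_gt.del, delL, nxt, ha, hb, hκ.bar, hκ.act, if_true, Bool.and_self]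
      exact Base.capUnder
    all_goals
      left
      simp [MP_131179_gt.del, delL, nxt, ha, hb, hκ.bar, hκ.act]
  | r1CupPos c d =>
    obtain rfl := path_r1CupPos.1 hu
    have h1 := step_cup.1 (path_single_iff.1 hv)
    simp only [List.cons.injEq] at h1
    obtain ⟨rfl, -⟩ := h1
    by_cases hc : κ c = true
    · right
      simp only [MP_131179_gt.del, delL, nxt, hc, hκ.bar, if_true, Bool.and_self]
      exact Base.r1CupPos _ _
    · left
      simp [MP_131179_gt.del, delL, nxt, hc, hκ.bar]
  | r1CupNeg c d =>
    obtain rfl := path_r1CupNeg.1 hu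
    have h1 := step_cup.1 (path_single_iff.1 hv)
    simp only [List.cons.injEq] at h1
    obtain ⟨rfl, -⟩ := h1
    by_cases hc : κ c = true
    · right
      simp only [MP_131179_gt.del, delL, nxt, hc, hκ.bar, if_true, Bool.and_self]
      exact Base.r1CupNeg _ _
    · left
      simp [MP_131179_gt.del, delL, nxt, hc, hκ.bar]
  | r1CapPos =>
    obtain ⟨a, rfl⟩ := path_r1CapPos.1 hu
    by_cases ha : κ a = true
    · right
      simp only [MP_131179_gt.del, delL, nxt, ha, hκ.bar, hκ.act, if_true, Bool.and_self]
      exact Base.r1CapPos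
    · left
      simp [MP_131179_gt.del, delL, nxt, ha, hκ.bar, hκ.act]
  | r1CapNeg =>
    obtain ⟨a, rfl⟩ := path_r1CapNeg.1 hu
    by_cases ha : κ a = true
    · right
      simp only [MP_131179_gt.del, delL, nxt, ha, hκ.bar, hκ.act, if_true, Bool.and_self]
      exact Base.r1CapNeg
    · left
      simp [MP_131179_gt.del, delL, nxt, ha, hκ.bar, hκ.act]
  | r2PosNeg =>
    obtain ⟨rfl, a, b, r, rfl⟩ := path_r2PosNeg.1 hu
    by_cases ha : κ a = true <;> by_cases hb : κ b = true
    · right
      simp only [MP_131179_gt.del, delL, nxt, ha, hb, hκ.bar, hκ.act, if_true, Bool.and_self]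
      exact Base.r2PosNeg
    all_goals
      left
      simp [MP_131179_gt.del, delL, nxt, ha, hb, hκ.bar, hκ.act]
  | r2NegPos =>
    obtain ⟨rfl, a, b, r, rfl⟩ := path_r2NegPos.1 hu
    by_cases ha : κ a = true <;> by_cases hb : κ b = true
    · right
      simp only [MP_131179_gt.del, delL, nxt, ha, hb, hκ.bar, hκ.act, if_true, Bool.and_self]
      exact Base.r2NegPos
    all_goals
      left
      simp [MP_131179_gt.del, delL, nxt, ha, hb, hκ.bar, hκ.act]
  | r3 =>
    obtain ⟨a, b, c, r, rfl, -⟩ := path_r3_left.1 hu
    by_cases ha : κ a = true <;> by_cases hb : κ b = true <;> by_cases hc : κ c = true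
    · right
      simp only [MP_131179_gt.del, delL, nxt, ha, hb, hc, hκ.bar, hκ.act, if_true, Bool.and_self]
      exact Base.r3
    all_goals
      left
      simp [MP_131179_gt.del, delL, nxt, ha, hb, hc, hκ.bar, hκ.act]

/-- **Deleting strands is compatible with the moves.** -/
theorem Eqv.del {κ : C → Bool} (hκ : Compat P κ) {u v : Word C} {s t : List C}
    (h : Eqv P u v s t) :
    Eqv P (MP_131179_gt.del P κ u s) (MP_131179_gt.del P κ v s) (s.filter κ) (t.filter κ) := by
  induction h with
  | refl h => exact Eqv.refl (del_path hκ h)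
  | symm _ ih => exact ih.symm
  | trans _ _ ih1 ih2 => exact ih1.trans ih2
  | comp h1 h2 ih1 ih2 =>
    rw [del_append h1.path_left, del_append h1.path_right]
    exact Eqv.comp ih1 ih2
  | @move u v i s t hb hu hv =>
    have hne : u ≠ [] := by cases hb <;> simp
    obtain ⟨l, s1, t1, hl, rfl, rfl, hu1⟩ := (path_shift_iff hne).1 hu
    obtain ⟨t2, h3, hv1⟩ := (path_shift_append_iff' hl).1 hv
    obtain rfl := List.append_cancel_left h3
    rw [← hl, del_left, del_left, List.filter_append, List.filter_append]
    refine Eqv.shift_left ?_ (l.filter κ)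
    rcases hb.del hκ hu1 hv1 with h4 | h4
    · rw [h4]
      exact Eqv.refl (del_path hκ hv1)
    · have := Eqv.move 0 h4 (s := s1.filter κ) (t := t1.filter κ) (P := P)
        (by rw [shift_zero]; exact del_path hκ hu1) (by rw [shift_zero]; exact del_path hκ hv1)
      rwa [shift_zero, shift_zero] at this

end Pool.Agent.Lib.MP_131179_gt
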