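import Pool.Agent.Lib.MP_131179_gt.ClaspEx
import Pool.Agent.Lib.MP_131179_gt.ClaspPrime

/-!
# The clasp sum has small fibres

A pair `(L₁, L₂)` of two-component-or-more prime links is determined by its clasp sum `L`, by the set of the
four mixed crossings of a fixed minimal diagram of `L`, and by one bit.
-/

set_option autoImplicit false

namespace Pool.Agent.Lib.MP_131179_gt

open Finset in
/-- The number of indices with a property is the number of entries with this property. -/
theorem card_filter_getElem {α : Type} (f : α → Bool) (l : List α) :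
    (univ.filter fun j : Fin l.length => f (l[j.1]) = true).card = l.countP f := by
  induction l with
  | nil => rfl
  | cons a l ih =>
    rw [Finset.card_filter] at ih ⊢
    rw [List.countP_cons, ← ih]
    have := Fin.sum_univ_succ (n := l.length)
      (fun j : Fin (l.length + 1) => if f ((a :: l)[j.1]) = true then 1 else 0)
    rw [add_comm]
    exact this

/-- The label of the first cup. -/
def firstLabel : Word Bool → Bool
  | (.cup c, _) :: _ => c
  | _ => false

theorem firstLabel_not {w : Word Bool} {s : List Bool} (h : Path (triv Bool) w [] s)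
    (hw : w ≠ []) : firstLabel (wmap (fun x => !x) w) = !(firstLabel w) := by
  cases h with
  | nil => exact absurd rfl hw
  | @cons k i w _ t _ h1 h2 =>
    cases h1 with
    | cup c s => rfl

/-- Is the crossing mixed? -/
def mixed (p : Bool × Bool) : Bool := p.1 != p.2

/-- The set of the indices of the mixed crossings. -/
def mset (N : ℕ) (V : Word Bool) : Finset (Fin N) :=
  Finset.univ.filter fun j => ∃ h : j.1 < (xl (triv Bool) V []).length,
    mixed ((xl (triv Bool) V [])[j.1]) = true

theorem card_mset {N : ℕ} {V : Word Bool} (hN : (xl (triv Bool) V []).length = N) :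
    (mset N V).card = (xl (triv Bool) V []).countP mixed := by
  subst hN
  rw [← card_filter_getElem]
  congr 1
  ext j
  simp [mset]

theorem cnt_add_eq_countP_mixed {V : Word Bool} :
    cnt (triv Bool) (pr true false) V [] + cnt (triv Bool) (pr false true) V [] =
      (xl (triv Bool) V []).countP mixed := by
  unfold cnt
  induction (xl (triv Bool) V []) with
  | nil => rfl
  | cons a l ih =>
    rw [List.countP_cons, List.countP_cons, List.countP_cons, ← ih]
    obtain ⟨a, b⟩ := a
    cases a <;> cases b <;> simp [pr, mixed] <;> omega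

theorem countP_add_le {α : Type} {p q r : α → Bool} (l : List α)
    (h : ∀ x, (p x = true → r x = true) ∧ (q x = true → r x = true) ∧ ¬ (p x = true ∧ q x = true)) :
    l.countP p + l.countP q ≤ l.countP r := by
  induction l with
  | nil => simp
  | cons a l ih =>
    rw [List.countP_cons, List.countP_cons, List.countP_cons]
    obtain ⟨h1, h2, h3⟩ := h a
    cases hp : p a <;> cases hq : q a <;> cases hr : r a <;> simp_all <;> omega

/-- Two labellings of a diagram of a link which is not split, with the same mixed crossings and the same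
first label, are equal. -/
theorem eq_of_mset_eq {V V' : Word Bool} {L : Link} {N : ℕ} (hs : ¬ IsSplit L)
    (hV : Path (triv Bool) V [] []) (hV' : Path (triv Bool) V' [] [])
    (he : erase V = erase V') (hL : IsDiag (erase V) L)
    (hN : (xl (triv Bool) V []).length = N)
    (hm : mset N V = mset N V') (hf : firstLabel V = firstLabel V') : V = V' := by
  obtain ⟨Z, hZ1, hZ2, hZ⟩ := closed_zip hV hV' he
  rw [triv_prod] at hZ
  have hU : Path (triv Bool) (wmap (fun x : Bool × Bool => xor x.1 x.2) Z) [] [] :=
    hZ.map (isHom_triv _)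
  have x1 : xl (triv Bool) V [] = (xl (triv (Bool × Bool)) Z []).map (Prod.map Prod.fst Prod.fst) := by
    rw [← hZ1]; exact xl_map (isHom_triv _) hZ
  have x2 : xl (triv Bool) V' [] = (xl (triv (Bool × Bool)) Z []).map (Prod.map Prod.snd Prod.snd) := by
    rw [← hZ2]; exact xl_map (isHom_triv _) hZ
  have x3 : xl (triv Bool) (wmap (fun x : Bool × Bool => xor x.1 x.2) Z) [] =
      (xl (triv (Bool × Bool)) Z []).map
        (Prod.map (fun x : Bool × Bool => xor x.1 x.2) (fun x : Bool × Bool => xor x.1 x.2)) :=
    xl_map (isHom_triv _) hZ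
  have hlen : (xl (triv (Bool × Bool)) Z []).length = N := by
    rw [← hN, x1, List.length_map]
  -- no mixed crossing
  have hno : ∀ p ∈ xl (triv Bool) (wmap (fun x : Bool × Bool => xor x.1 x.2) Z) [], p.1 = p.2 := by
    intro p hp
    rw [x3, List.mem_map] at hp
    obtain ⟨q, hq, rfl⟩ := hp
    obtain ⟨j, hj, rfl⟩ := List.getElem_of_mem hq
    have hj' : j < N := hlen ▸ hj
    have e1 : (⟨j, hj'⟩ : Fin N) ∈ mset N V ↔ (⟨j, hj'⟩ : Fin N) ∈ mset N V' := by rw [hm]
    simp only [mset, Finset.mem_filter, Finset.mem_univ, true_and, x1, x2, List.length_map,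
      List.getElem_map, hj, exists_true_left, mixed] at e1
    generalize (xl (triv (Bool × Bool)) Z [])[j] = q at e1 ⊢
    obtain ⟨⟨a, b⟩, ⟨c, d⟩⟩ := q
    cases a <;> cases b <;> cases c <;> cases d <;> simp_all
  have heU : erase (wmap (fun x : Bool × Bool => xor x.1 x.2) Z) = erase V := by
    rw [erase_wmap, ← hZ1, erase_wmap]
  have hlab : ¬ (HasLabel true (wmap (fun x : Bool × Bool => xor x.1 x.2) Z) ∧
      HasLabel false (wmap (fun x : Bool × Bool => xor x.1 x.2) Z)) := by
    rintro ⟨h1, h2⟩
    have := (exists_mixed hU (by rw [heU]; exact hL) hs h1 h2).1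
    have := hno _ this
    simp at this
  rw [not_and_or] at hlab
  rcases hlab with hlab | hlab
  · rw [← hZ1, ← hZ2]
    apply wmap_congr
    intro x hx
    by_contra hne
    apply hlab
    have := hx.map (fun x : Bool × Bool => xor x.1 x.2)
    obtain ⟨a, b⟩ := x
    cases a <;> cases b <;> simp_all
  · have h1 : V' = wmap (fun x => !x) V := by
      rw [← hZ1, ← hZ2, wmap_wmap]
      apply wmap_congr
      intro x hx
      by_contra hne
      apply hlab
      have := hx.map (fun x : Bool × Bool => xor x.1 x.2)
      obtain ⟨a, b⟩ := x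
      cases a <;> cases b <;> simp_all
    by_cases hne : V = []
    · subst hne
      rw [h1]; rfl
    · exfalso
      rw [h1, firstLabel_not hV hne] at hf
      cases h : firstLabel V <;> simp [h] at hf

/-- The data attached to a pair of links. -/
theorem exists_data {m n : ℕ} {L₁ L₂ : Link} (h₁ : L₁ ∈ P2 m) (h₂ : L₂ ∈ P2 n) :
    ∃ L ∈ P2 (m + n + 4), ∀ w : Word Unit, IsDiag w L → cr w = m + n + 4 →
      ∃ V : Word Bool, Path (triv Bool) V [] [] ∧ erase V = w ∧
        IsDiag (erase (del (triv Bool) (fun x => x) V [])) L₁ ∧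
        IsDiag (erase (del (triv Bool) (fun x => !x) V [])) L₂ ∧
        (xl (triv Bool) V []).countP mixed = 4 := by
  obtain ⟨p₁, c₁, rfl⟩ := h₁
  obtain ⟨p₂, c₂, rfl⟩ := h₂
  obtain ⟨L, W, hW⟩ := exists_clasp p₁.2.1 p₂.2.1 c₁ c₂
  refine ⟨L, ⟨hW.isPrime p₁ p₂, hW.twoComponents, hW.crossingNumber_eq⟩, ?_⟩
  intro w hw hcr
  obtain ⟨W', he, hE⟩ := lift_diag (P := triv (Bool × Bool)) rfl hW.path hW.diag hw
  have hW' : Path (triv (Bool × Bool)) W' [] [] := hE.path_right
  have hV : Path (triv Bool) (wmap Prod.fst W') [] [] := hW'.map (isHom_triv _)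
  have heV : erase (wmap Prod.fst W') = w := by rw [erase_wmap]; exact he
  have d₁ : IsDiag (erase (del (triv Bool) (fun x => x) (wmap Prod.fst W') [])) L₁ := by
    have e : del (triv Bool) (fun x => x) (wmap Prod.fst W') [] =
        wmap Prod.fst (del (triv (Bool × Bool)) (fun x => x.1) W' []) :=
      del_wmap (κ := fun x => x) (isHom_triv (C := Bool × Bool) Prod.fst) hW'
    rw [e, erase_wmap]
    exact isDiag_erase_of_eqv (hE.del (compat_triv _)) hW.diag₁
  have d₂ : IsDiag (erase (del (triv Bool) (fun x => !x) (wmap Prod.fst W') [])) L₂ := by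
    have e : del (triv Bool) (fun x => !x) (wmap Prod.fst W') [] =
        wmap Prod.fst (del (triv (Bool × Bool)) (fun x => !x.1) W' []) :=
      del_wmap (κ := fun x => !x) (isHom_triv (C := Bool × Bool) Prod.fst) hW'
    rw [e, erase_wmap]
    exact isDiag_erase_of_eqv (hE.del (compat_triv _)) hW.diag₂
  refine ⟨wmap Prod.fst W', hV, heV, d₁, d₂, ?_⟩
  have hsum := cr_eq_sum hV
  rw [cnt_add_eq_countP_mixed] at hsum
  have hc : cr (wmap Prod.fst W') = crossingNumber L₁ + crossingNumber L₂ + 4 := by
    rw [← hcr, ← heV, cr_wmap, cr_wmap, cr_wmap]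
  have l₁ := crossingNumber_le d₁
  have l₂ := crossingNumber_le d₂
  rw [cr_wmap] at l₁ l₂
  have o1 := (hE.cnt (pairInv_pr (x := (true, true)) (y := (false, true)) (by simp))).symm.trans
    (hW.odd₁ true)
  have o2 := (hE.cnt (pairInv_pr (x := (true, false)) (y := (false, false)) (by simp))).symm.trans
    (hW.odd₁ false)
  have o3 := (hE.cnt (pairInv_pr (x := (false, true)) (y := (true, true)) (by simp))).symm.trans
    (hW.odd₂ true)
  have o4 := (hE.cnt (pairInv_pr (x := (false, false)) (y := (true, false)) (by simp))).symm.trans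
    (hW.odd₂ false)
  have a1 : cnt (triv (Bool × Bool)) (pr (true, true) (false, true)) W' [] +
      cnt (triv (Bool × Bool)) (pr (true, false) (false, false)) W' [] ≤
      cnt (triv Bool) (pr true false) (wmap Prod.fst W') [] := by
    have := cnt_map (isHom_triv (C := Bool × Bool) Prod.fst) (p := pr true false) hW'
    simp only [List.map_nil] at this
    rw [this]
    unfold cnt
    apply countP_add_le
    rintro ⟨⟨a, b⟩, ⟨c, d⟩⟩
    cases a <;> cases b <;> cases c <;> cases d <;> simp [pr]
  have a2 : cnt (triv (Bool × Bool)) (pr (false, true) (true, true)) W' [] +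
      cnt (triv (Bool × Bool)) (pr (false, false) (true, false)) W' [] ≤
      cnt (triv Bool) (pr false true) (wmap Prod.fst W') [] := by
    have := cnt_map (isHom_triv (C := Bool × Bool) Prod.fst) (p := pr false true) hW'
    simp only [List.map_nil] at this
    rw [this]
    unfold cnt
    apply countP_add_le
    rintro ⟨⟨a, b⟩, ⟨c, d⟩⟩
    cases a <;> cases b <;> cases c <;> cases d <;> simp [pr]
  have a3 := cnt_add_eq_countP_mixed (V := wmap Prod.fst W')
  omega

theorem fibre (m n : ℕ) :
    (P2 m).encard * (P2 n).encard ≤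
      ((2 * (m + n + 4).choose 4 : ℕ) : ℕ∞) * (P2 (m + n + 4)).encard := by
  classical
  set N := m + n + 4 with hN
  -- fixed minimal diagrams
  choose D hD hDcr using exists_minimal
  -- the data
  have key : ∀ x : Link × Link, ∃ y : Link × (Bool × Finset (Fin N)),
      x ∈ P2 m ×ˢ P2 n → y ∈ P2 N ×ˢ ((Set.univ : Set Bool) ×ˢ {S : Finset (Fin N) | S.card = 4}) ∧
        ∃ V : Word Bool, Path (triv Bool) V [] [] ∧ erase V = D y.1 ∧
        IsDiag (erase (del (triv Bool) (fun x => x) V [])) x.1 ∧
        IsDiag (erase (del (triv Bool) (fun x => !x) V [])) x.2 ∧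
        y.2.1 = firstLabel V ∧ y.2.2 = mset N V := by
    intro x
    by_cases hx : x ∈ P2 m ×ˢ P2 n
    · obtain ⟨L, hL, h⟩ := exists_data hx.1 hx.2
      have hcr : cr (D L) = m + n + 4 := by rw [hDcr, hL.2.2]
      obtain ⟨V, hV, he, h1, h2, h3⟩ := h (D L) (hD L) hcr
      refine ⟨(L, firstLabel V, mset N V), fun _ => ⟨⟨hL, trivial, ?_⟩, V, hV, he, h1, h2, rfl, rfl⟩⟩
      have hlen : (xl (triv Bool) V []).length = N := by
        rw [length_xl hV, ← cr_wmap (fun _ => ()) V]
        exact (congrArg cr he).trans hcr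
      show (mset N V).card = 4
      rw [card_mset hlen, h3]
    · exact ⟨(x.1, false, ∅), fun h => absurd h hx⟩
  choose F hF using key
  have hinj : Set.InjOn F (P2 m ×ˢ P2 n) := by
    intro x hx x' hx' hxx
    obtain ⟨⟨hy1, -⟩, V, hV, he, h1, h2, h3, h4⟩ := hF x hx
    obtain ⟨-, V', hV', he', h1', h2', h3', h4'⟩ := hF x' hx'
    rw [← hxx] at he' h3' h4'
    have hlen : (xl (triv Bool) V []).length = N := by
      rw [length_xl hV, ← cr_wmap (fun _ => ()) V]
      exact (congrArg cr he).trans ((hDcr _).trans hy1.2.2)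
    have hVV : V = V' := eq_of_mset_eq hy1.1.2.1 hV hV' (he.trans he'.symm)
      (by rw [he]; exact hD _) hlen (h4.symm.trans h4') (h3.symm.trans h3')
    subst hVV
    exact Prod.ext (h1.unique h1') (h2.unique h2')
  have hmaps : Set.MapsTo F (P2 m ×ˢ P2 n)
      (P2 N ×ˢ ((Set.univ : Set Bool) ×ˢ {S : Finset (Fin N) | S.card = 4})) :=
    fun x hx => (hF x hx).1
  have h1 := Set.encard_le_encard_of_injOn hmaps hinj
  rw [Set.encard_prod, Set.encard_prod, Set.encard_prod] at h1
  refine h1.trans (le_of_eq ?_)
  have h2 : (Set.univ : Set Bool).encard = ((2 : ℕ) : ℕ∞) := by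
    rw [Set.encard_univ]; simp
  have h3 : {S : Finset (Fin N) | S.card = 4}.encard = ((N.choose 4 : ℕ) : ℕ∞) := by
    have : {S : Finset (Fin N) | S.card = 4} = ((Finset.univ.powersetCard 4 : Finset (Finset (Fin N))) : Set (Finset (Fin N))) := by
      ext S; simp [Finset.mem_powersetCard]
    rw [this, Set.encard_coe_eq_coe_finsetCard, Finset.card_powersetCard, Finset.card_univ, Fintype.card_fin]
  rw [h2, h3, ← Nat.cast_mul, mul_comm]

end Pool.Agent.Lib.MP_131179_gt
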