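import Pool.Agent.Lib.MP_131179_gt.Bead

/-!
# If the unknot were a nontrivial connected sum

`exists_closure`: every nonempty closed diagram is equivalent to the closure of a tangle with one strand at the
bottom and one strand at the top.  `inverse_of_prime`: if the unknot were a nontrivial connected sum, then every
prime link would have one component and only abelian labellings.
-/

set_option autoImplicit false

namespace Pool.Agent.Lib.MP_131179_gt

theorem exists_closure {C : Type} {P : Palette C} {W : Word C} (h : Path P W [] [])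
    (hW : W ≠ []) : ∃ (x : C) (T : Word C), Path P T [x] [x] ∧ Eqv P W (closure x T) [] [] ∧
      ∀ y, HasLabel y W → HasLabel y (closure x T) := by
  obtain ⟨⟨k, i⟩, W', rfl⟩ := List.exists_cons_of_ne_nil hW
  obtain ⟨t, hs, hp⟩ := path_cons_iff.1 h
  cases hs with
  | cup x _ =>
    have hT : Path P ((.cup (P.bar x), 1) :: W') [x] [x] := by
      refine Path.cons (Step.there x (Step.cup (P.bar x) [])) ?_
      have := hp.right [x]
      rw [P.bar_bar]
      exact this
    refine ⟨x, (.cup (P.bar x), 1) :: W', hT, ?_, ?_⟩
    · -- the equivalence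
      have hcap : Path P [(.cap, 0)] [x, P.bar x] [] := path_single_iff.2 (Step.cap x [])
      have h1 : Eqv P (W' ++ [(.cap, 0)]) ([(.cap, 2)] ++ W') [x, P.bar x, x, P.bar x] [] := by
        have := interchange hp hcap
        simpa using this
      have h2 : Eqv P [(.cup (P.bar x), 1), (.cap, 2)] [] [x, P.bar x] [x, P.bar x] := by
        have hm : Eqv P (shift 1 [(.cup (P.bar x), 0), (.cap, 1)]) (shift 1 []) [x, P.bar x]
            [x, P.bar x] := by
          refine Eqv.move 1 (Base.zag _) ?_ (Path.nil _)
          refine Path.cons (Step.there x (Step.cup (P.bar x) [P.bar x])) ?_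
          refine Path.cons ?_ (Path.nil _)
          refine Step.there x (Step.there (P.bar x) ?_)
          have := Step.cap (P := P) (P.bar (P.bar x)) []
          rw [P.bar_bar] at this ⊢
          exact this
        exact hm
      have hcup : Path P [(.cup x, 0)] [] [x, P.bar x] := path_single_iff.2 (Step.cup x [])
      have hcup2 : Path P [(.cup (P.bar x), 1)] [x, P.bar x] [x, P.bar x, x, P.bar x] := by
        refine path_single_iff.2 ?_
        have := Step.there (P := P) x (Step.cup (P.bar x) [P.bar x])
        rw [P.bar_bar] at this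
        exact this
      have h3 : Eqv P ([(.cup (P.bar x), 1)] ++ (W' ++ [(.cap, 0)]))
          ([(.cup (P.bar x), 1)] ++ ([(.cap, 2)] ++ W')) [x, P.bar x] [] := Eqv.prepend hcup2 h1
      have h4 : Eqv P ([(.cup (P.bar x), 1), (.cap, 2)] ++ W') ([] ++ W') [x, P.bar x] [] :=
        Eqv.append h2 hp
      have h5 : Eqv P ([(.cup x, 0)] ++ ([(.cup (P.bar x), 1)] ++ (W' ++ [(.cap, 0)])))
          ([(.cup x, 0)] ++ ([] ++ W')) [] [] := Eqv.prepend hcup (h3.trans h4)
      exact Eqv.symm h5
    · intro y hy
      rw [hasLabel_cons] at hy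
      rw [closure, hasLabel_cons]
      rcases hy with hy | hy
      · exact Or.inl hy
      · right
        rw [hasLabel_append, hasLabel_cons]
        exact Or.inl (Or.inr hy)

/-- The palette of orientations. -/
def flipI : Palette Bool where
  bar := fun x => !x
  act := fun x _ => x
  bar_bar := fun x => Bool.not_not x
  act_bar := fun _ _ => rfl
  act_act_bar := fun _ _ => rfl
  act_self := fun _ => rfl
  act_dist := fun _ _ _ => rfl

theorem flipI_count {w : Word Bool} {s t : List Bool} (h : Path flipI w s t) :
    s.count true + t.count false = s.count false + t.count true := by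
  induction h with
  | nil s => exact Nat.add_comm _ _
  | cons hs _ ih =>
    rename_i k i w s t r hp
    have h1 : s.count true + t.count false = s.count false + t.count true := by
      clear ih hp
      induction hs with
      | cup c s => cases c <;> simp [flipI] <;> omega
      | cap c s => cases c <;> simp [flipI] <;> omega
      | pos a b s => cases a <;> cases b <;> simp [flipI] <;> omega
      | neg a b s => cases a <;> cases b <;> simp [flipI] <;> omega
      | there a _ ih => cases a <;> simp <;> omega
    omega

theorem step_restrict_right {C : Type} {P : Palette C} {k : Kind C} {i : ℕ} {s r t : List C}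
    {t0 : List Unit} (h : Step P k i (s ++ r) t)
    (h0 : Step (triv Unit) (k.map fun _ => ()) i (s.map fun _ => ()) t0) :
    ∃ t', t = t' ++ r ∧ Step P k i s t' ∧ t'.map (fun _ => ()) = t0 := by
  induction i generalizing s t t0 with
  | zero =>
    cases k with
    | cup c =>
      rw [step_cup] at h
      refine ⟨c :: P.bar c :: s, by simp [h], Step.cup c s, ?_⟩
      have := h0.det (Step.cup (P := triv Unit) () _)
      simp [this, triv]
    | cap =>
      obtain ⟨c, hc⟩ := step_cap.1 h
      obtain ⟨d, hd⟩ := step_cap.1 h0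
      match s, hd, hc with
      | a :: b :: s, hd, hc =>
        simp only [List.cons_append, List.cons.injEq] at hc
        obtain ⟨rfl, rfl, rfl⟩ := hc
        refine ⟨s, rfl, Step.cap _ s, ?_⟩
        simp only [List.map_cons, List.cons.injEq] at hd
        exact hd.2.2
    | pos =>
      obtain ⟨a, b, q, hc, ht⟩ := step_pos.1 h
      obtain ⟨a', b', q', hc', ht'⟩ := step_pos.1 h0
      match s, hc', hc with
      | a :: b :: s, hc', hc =>
        simp only [List.cons_append, List.cons.injEq] at hc
        obtain ⟨rfl, rfl, rfl⟩ := hc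
        refine ⟨_ :: _ :: s, by simpa using ht, Step.pos _ _ s, ?_⟩
        simp only [List.map_cons, List.cons.injEq] at hc'
        rw [ht', ← hc'.2.2]; rfl
    | neg =>
      obtain ⟨a, b, q, hc, ht⟩ := step_neg.1 h
      obtain ⟨a', b', q', hc', ht'⟩ := step_neg.1 h0
      match s, hc', hc with
      | a :: b :: s, hc', hc =>
        simp only [List.cons_append, List.cons.injEq] at hc
        obtain ⟨rfl, rfl, rfl⟩ := hc
        refine ⟨_ :: _ :: s, by simpa using ht, Step.neg _ _ s, ?_⟩
        simp only [List.map_cons, List.cons.injEq] at hc'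
        rw [ht', ← hc'.2.2]; rfl
  | succ i ih =>
    obtain ⟨a, s', t', hs, ht, hst⟩ := step_succ_iff.1 h
    obtain ⟨a0, s0', t0', hs0, ht0, hst0⟩ := step_succ_iff.1 h0
    match s, hs0, hs with
    | a1 :: s, hs0, hs =>
      simp only [List.cons_append, List.cons.injEq] at hs
      simp only [List.map_cons, List.cons.injEq] at hs0
      obtain ⟨rfl, rfl⟩ := hs
      obtain ⟨_, rfl⟩ := hs0
      obtain ⟨t'', h1, h2, h3⟩ := ih hst hst0
      refine ⟨a1 :: t'', by rw [ht, h1]; rfl, Step.there a1 h2, ?_⟩
      rw [List.map_cons, h3, ht0]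

theorem path_restrict_right {C : Type} {P : Palette C} {w : Word C} {s r t : List C}
    {t0 : List Unit} (h : Path P w (s ++ r) t)
    (h0 : Path (triv Unit) (erase w) (s.map fun _ => ()) t0) :
    ∃ t', t = t' ++ r ∧ Path P w s t' ∧ t'.map (fun _ => ()) = t0 := by
  induction w generalizing s t t0 with
  | nil =>
    rw [path_nil_iff] at h
    rw [erase, wmap_nil, path_nil_iff] at h0
    exact ⟨s, h.symm, Path.nil s, h0⟩
  | cons l w ih =>
    obtain ⟨k, i⟩ := l
    obtain ⟨q, h1, h2⟩ := path_cons_iff.1 h
    rw [erase, wmap_cons] at h0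
    obtain ⟨q0, h3, h4⟩ := path_cons_iff.1 h0
    obtain ⟨q', rfl, h5, rfl⟩ := step_restrict_right h1 h3
    obtain ⟨t', h6, h7, h8⟩ := ih h2 h4
    exact ⟨t', h6, Path.cons h5 h7, h8⟩

theorem isHom_notI : IsHom flipI flipI (fun x => !x) := ⟨fun _ => rfl, fun _ _ => rfl⟩

theorem isHom_flipI {G : Type} [Group G] (g : G) :
    IsHom flipI (conj G) (fun x => if x then g else g⁻¹) := by
  refine ⟨fun x => ?_, fun x y => ?_⟩
  · cases x <;> simp [flipI, conj]
  · cases x <;> cases y <;> simp [flipI, conj]

/-- A tangle whose closure has an orientation can be labelled by any group element. -/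
theorem exists_labelling {G : Type} [Group G] (g : G) {tA tB : Word Unit}
    (hA : Path (triv Unit) tA [()] [()])
    (hAB : IsDiag (closure () (tA ++ tB)) unknot) :
    ∃ TA : Word G, erase TA = tA ∧ Path (conj G) TA [g] [g] := by
  obtain ⟨v', hv', hE⟩ := lift_diag (P := flipI) (u := [(.cup true, 0), (.cap, 0)])
    (w := [(.cup (), 0), (.cap, 0)]) rfl (path_unknot _ _) isDiag_unknot hAB
  have hp := hE.path_right
  obtain ⟨k', v1, rfl, hk, h1⟩ := wmap_eq_cons (i := 0) (k := .cup ())
    (v := (tA ++ tB) ++ [(.cap, 0)]) hv'
  obtain ⟨x, rfl, -⟩ := Kind.map_eq_cup hk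
  obtain ⟨v2, v3, rfl, h2, h3⟩ := wmap_eq_append h1
  obtain ⟨S, S', rfl, h4, h5⟩ := wmap_eq_append h2
  obtain ⟨q, hq1, hq2⟩ := path_cons_iff.1 hp
  rw [step_cup] at hq1
  subst hq1
  rw [List.append_assoc] at hq2
  obtain ⟨q', hq3, hq4⟩ := path_append_iff.1 hq2
  have hq3' : Path flipI S ([x] ++ [!x]) q' := hq3
  obtain ⟨t', ht1, ht2, ht3⟩ := path_restrict_right hq3' (t0 := [()]) (by rw [erase, h4]; exact hA)
  obtain ⟨y, rfl⟩ : ∃ y, t' = [y] := by
    match t', ht3 with
    | [y], _ => exact ⟨y, rfl⟩
  have hxy : y = x := by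
    have := flipI_count ht2
    cases x <;> cases y <;> simp at this ⊢
  subst hxy
  cases y with
  | true =>
    refine ⟨wmap (fun x => if x then g else g⁻¹) S, by rw [erase_wmap]; exact h4, ?_⟩
    have := ht2.map (isHom_flipI g)
    simpa using this
  | false =>
    refine ⟨wmap (fun x => if x then g else g⁻¹) (wmap (fun x => !x) S),
      by rw [erase_wmap, erase_wmap]; exact h4, ?_⟩
    have := (ht2.map isHom_notI).map (isHom_flipI g)
    simpa using this

theorem closed_pair {G : Type} [Group G] (h : G) : Closed (conj G) ({h, h⁻¹} : Set G) := by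
  refine ⟨fun x hx => ?_, fun x hx y hy => ?_⟩
  · rcases hx with rfl | hx
    · right; rfl
    · rw [Set.mem_singleton_iff] at hx
      subst hx
      left; simp [conj]
  · have hc : y⁻¹ * x * y = x := by
      rcases hx with rfl | hx <;> rcases hy with rfl | hy
      · group
      · rw [Set.mem_singleton_iff] at hy; subst hy; group
      · rw [Set.mem_singleton_iff] at hx; subst hx; group
      · rw [Set.mem_singleton_iff] at hx hy; subst hx; subst hy; group
    show y⁻¹ * x * y ∈ _
    rw [hc]
    exact hx

/-- If the closure of `tA ++ tB` is unknotted and `B` is knotted, then attaching `tA` to a prime link unknots it. -/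
theorem absorb {tA tB : Word Unit} {B L : Link} (hA : Path (triv Unit) tA [()] [()])
    (hB : Path (triv Unit) tB [()] [()]) (hBd : IsDiag (closure () tB) B)
    (hAB : IsDiag (closure () (tA ++ tB)) unknot) (hBU : B ≠ unknot) (hL : IsPrime L)
    {C : Type} {P : Palette C} {x : C} {T : Word C} (hT : Path P T [x] [x])
    (hTL : IsDiag (erase (closure x T)) L) :
    IsDiag (closure () (erase T ++ tA)) unknot := by
  have hT' : Path (triv Unit) (erase T) [()] [()] := by
    have := hT.map (isHom_unit P)
    simpa using this
  have hTL' : IsDiag (closure () (erase T)) L := by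
    have : erase (closure x T) = closure () (erase T) := by
      simp [closure]
    rwa [this] at hTL
  have h1 : Eqv (triv Unit) (closure () (erase T ++ (tA ++ tB))) (closure () (erase T)) [] [] :=
    bead hT' (hA.append hB) hAB
  have h2 : IsDiag (closure () ((erase T ++ tA) ++ tB)) L := by
    rw [List.append_assoc]
    exact isDiag_of_eqv h1.symm hTL'
  obtain ⟨M, hM⟩ := isDiag_mk (closure_path (hT'.append hA))
  rcases hL.2.2.2 M B ⟨erase T ++ tA, tB, hT'.append hA, hB, hM, hBd, h2⟩ with h | h
  · rwa [h] at hM
  · exact absurd h hBU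

theorem inverse_of_prime (hU : ¬ NoInverse) {L : Link} (hL : IsPrime L) :
    ¬ AtLeastTwoComponents L ∧ ¬ HasNonabelianLabelling L := by
  unfold NoInverse at hU
  push Not at hU
  obtain ⟨A, B, ⟨tA, tB, hA, hB, hAd, hBd, hAB⟩, hne⟩ := hU
  have hBU : B ≠ unknot := by
    intro hBu
    refine hne ?_ hBu
    rw [hBu] at hBd
    exact (isDiag_of_eqv (bead hA hB hBd) hAB).unique hAd |>.symm
  constructor
  · rintro ⟨w, hw, hwL, ⟨i, hi⟩, ⟨j, hj⟩⟩
    have hne : w ≠ [] := List.ne_nil_of_mem hi
    obtain ⟨x, T, hT, hE, hlab⟩ := exists_closure hw hne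
    have hTL : IsDiag (erase (closure x T)) L := isDiag_erase_of_eqv hE hwL
    have h1 := absorb hA hB hBd hAB hBU hL hT hTL
    have hTA : Path (triv Bool) (wmap (fun _ => x) tA) [x] [x] := by
      have := hA.map (isHom_triv (fun _ : Unit => x))
      simpa using this
    have h2 : Path (triv Bool) (closure x (T ++ wmap (fun _ => x) tA)) [] [] :=
      closure_path (hT.append hTA)
    have h3 : IsDiag (erase (closure x (T ++ wmap (fun _ => x) tA))) unknot := by
      have : erase (closure x (T ++ wmap (fun _ => x) tA)) = closure () (erase T ++ tA) := by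
        have e : erase tA = tA := wmap_id' tA
        simp only [closure, erase, wmap_cons, wmap_append, Kind.map_cup, Kind.map_cap, wmap_nil,
          List.cons.injEq, List.append_cancel_right_eq, List.append_cancel_left_eq, true_and]
        exact (erase_wmap _ _).trans e
      rw [this]; exact h1
    have hl : ∀ y, HasLabel y w → HasLabel y (closure x (T ++ wmap (fun _ => x) tA)) := by
      intro y hy
      have := hlab y hy
      rw [closure, hasLabel_cons, hasLabel_append] at this ⊢
      rw [hasLabel_append]
      tauto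
    have := unknot_labels h2 h3 (hl true ⟨i, hi⟩) (hl false ⟨j, hj⟩)
    exact absurd this (by decide)
  · rintro ⟨G, _, w, hw, hwL, a, b, i, j, hi, hj, hab⟩
    have hne : w ≠ [] := List.ne_nil_of_mem hi
    obtain ⟨x, T, hT, hE, hlab⟩ := exists_closure hw hne
    have hTL : IsDiag (erase (closure x T)) L := isDiag_erase_of_eqv hE hwL
    have h1 := absorb hA hB hBd hAB hBU hL hT hTL
    obtain ⟨TA, hTA, hTAp⟩ := exists_labelling x hA hAB
    have h2 : Path (conj G) (closure x (T ++ TA)) [] [] := closure_path (hT.append hTAp)
    have h3 : IsDiag (erase (closure x (T ++ TA))) unknot := by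
      have : erase (closure x (T ++ TA)) = closure () (erase T ++ tA) := by
        rw [← hTA]; simp [closure]
      rw [this]; exact h1
    have hl : ∀ y, HasLabel y w → HasLabel y (closure x (T ++ TA)) := by
      intro y hy
      have := hlab y hy
      rw [closure, hasLabel_cons, hasLabel_append] at this ⊢
      rw [hasLabel_append]
      tauto
    obtain ⟨v', hv', hE'⟩ := lift_diag (v := [(.cup (), 0), (.cap, 0)]) rfl h2 h3 isDiag_unknot
    obtain ⟨k', v1, rfl, hk, hv1⟩ := wmap_eq_cons hv'
    obtain ⟨h, rfl, -⟩ := Kind.map_eq_cup hk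
    obtain ⟨k2, v2, rfl, hk2, hv2⟩ := wmap_eq_cons hv1
    have hk2' := Kind.map_eq_cap hk2
    subst hk2'
    rw [wmap_eq_nil] at hv2
    subst hv2
    have hS : ∀ y, HasLabel y (closure x (T ++ TA)) → y ∈ ({h, h⁻¹} : Set G) := by
      refine labels_of_eqv (closed_pair h) hE'.symm ?_
      intro y hy
      rw [hasLabel_cons, hasLabel_cons] at hy
      rcases hy with hy | hy | hy
      · left; injection hy with hy; exact hy.symm
      · cases hy
      · exact absurd hy (not_hasLabel_nil y)
    apply hab
    rcases hS a (hl a ⟨i, hi⟩) with rfl | ha <;> rcases hS b (hl b ⟨j, hj⟩) with rfl | hb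
    · rfl
    · rw [Set.mem_singleton_iff] at hb; subst hb; group
    · rw [Set.mem_singleton_iff] at ha; subst ha; group
    · rw [Set.mem_singleton_iff] at ha hb; subst ha; subst hb; rfl

end Pool.Agent.Lib.MP_131179_gt
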