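import Pool.Agent.Lib.MP_131179_gt.KnotPrime
import Pool.Agent.Lib.MP_131179_gt.Orient

/-!
# From prime knots to prime links with two components
-/

set_option autoImplicit false
set_option linter.unusedSimpArgs false

namespace Pool.Agent.Lib.MP_131179_gt

/-! ### The link with the circle has two components -/

theorem twoComp_ins {K M : Link} (h1 : ¬ AtLeastTwoComponents K) {u v : Word Bool}
    {l r : List Bool} {p q : Bool} {b : Bool}
    (hu : Path (triv Bool) u [] (l ++ p :: q :: r)) (hv : Path (triv Bool) v (l ++ p :: q :: r) [])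
    (hul : ∀ x, HasLabel x u → x = true) (hvl : ∀ x, HasLabel x v → x = true)
    (hd : IsDiag (erase (u ++ v)) K)
    (hM : IsDiag (erase (gins u l.length (gad b false) v)) M) :
    TwoComp K unknot M (gins u l.length (gad b false) v) := by
  have hp : Path (triv Bool) (gins u l.length (gad b false) v) [] [] :=
    hu.append (((gad_triv b false p q r).left l).append hv)
  have hgl : HasLabel false (gins u l.length (gad b false) v) := by
    rw [gins, hasLabel_append, hasLabel_append, hasLabel_shift, gad, hasLabel_cons]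
    exact Or.inr (Or.inl (Or.inl rfl))
  have hune : u ≠ [] := by
    rintro rfl
    cases l <;> cases hu
  refine ⟨hp, hM, ⟨hp, ?_, ?_⟩, ⟨hp.map (isHom_triv not), hasLabel_not.2 hgl, ?_⟩, ?_, ?_⟩
  · obtain ⟨x, hx⟩ := closed_hasLabel hu hune
    have := hul x hx
    subst this
    rw [gins, hasLabel_append]
    exact Or.inl hx
  · intro Z hZ hZ1 h3 h4
    have h5 := del_wmap (κ := id) (isHom_triv (Prod.fst : Bool × Bool → Bool)) hZ
    simp only [List.map_nil] at h5
    rw [hZ1, del_ins_keep hu hv hul hvl] at h5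
    have h6 := del_path (compat_triv (fun x : Bool × Bool => id x.1)) hZ
    have h7 := h6.map (isHom_triv (Prod.snd : Bool × Bool → Bool))
    apply h1
    refine ⟨_, h7, ?_, ?_, ?_⟩
    · rw [h5, erase_wmap] at hd
      change IsDiag (erase _) K
      rw [erase_wmap]
      exact hd
    · exact ((hasLabel_del hZ).2 ⟨h3, rfl⟩).map Prod.snd
    · exact ((hasLabel_del hZ).2 ⟨h4, rfl⟩).map Prod.snd
  · intro Z hZ hZ1 h3 h4
    have h5 := del_wmap (κ := id) (isHom_triv (Prod.fst : Bool × Bool → Bool)) hZ
    simp only [List.map_nil] at h5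
    have h6 := del_wmap (κ := id) (isHom_triv not) hp
    simp only [List.map_nil] at h6
    have h7 : (fun x => id (!x)) = not := rfl
    rw [hZ1, h6, h7, del_ins_drop hu hv hul hvl] at h5
    have h8 : erase (del (triv (Bool × Bool)) (fun x => id x.1) Z []) =
        [(.cup (), 0), (.cap, 0)] := by
      have h9 := congrArg erase h5
      rw [erase_wmap, erase_wmap] at h9
      exact h9.symm
    obtain ⟨z, hz⟩ := eq_of_erase_unknot h8
    have h10 : HasLabel (true, true) (del (triv (Bool × Bool)) (fun x => id x.1) Z []) :=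
      (hasLabel_del hZ).2 ⟨h3, rfl⟩
    have h11 : HasLabel (true, false) (del (triv (Bool × Bool)) (fun x => id x.1) Z []) :=
      (hasLabel_del hZ).2 ⟨h4, rfl⟩
    rw [hz, hasLabel_unknot] at h10 h11
    rw [← h10] at h11
    simp at h11
  · rw [del_ins_keep hu hv hul hvl]
    exact hd
  · rw [del_ins_drop hu hv hul hvl]
    exact isDiag_unknot

/-! ### A crossing with labels that do not commute -/

section

variable {G : Type} [Group G]

theorem step_comm (S : G → Bool) (hS : ∀ x, S x⁻¹ = S x) {k : Kind G} {i : ℕ} {s t : List G}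
    (h : Step (conj G) k i s t) (hc : ∀ p ∈ xlL k i s, p.1 * p.2 = p.2 * p.1) :
    Step (triv Bool) (k.map S) i (s.map S) (t.map S) := by
  induction h with
  | cup c s =>
    have : S ((conj G).bar c) = S c := hS c
    simp only [List.map_cons, this]
    exact Step.cup (P := triv Bool) (S c) _
  | cap c s =>
    have : S ((conj G).bar c) = S c := hS c
    simp only [List.map_cons, this]
    exact Step.cap (P := triv Bool) (S c) _
  | pos a b s =>
    have h1 : a * b = b * a := hc (a, b) (by simp [xlL])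
    have : (conj G).act b ((conj G).bar a) = b := by
      change (a⁻¹)⁻¹ * b * a⁻¹ = b
      rw [inv_inv, h1, mul_assoc, mul_inv_cancel, mul_one]
    simp only [List.map_cons, this]
    exact Step.pos (P := triv Bool) (S a) (S b) _
  | neg a b s =>
    have h1 : b * a = a * b := hc (b, a) (by simp [xlL])
    have : (conj G).act a b = a := by
      change b⁻¹ * a * b = a
      rw [mul_assoc, ← h1, ← mul_assoc, inv_mul_cancel, one_mul]
    simp only [List.map_cons, this]
    exact Step.neg (P := triv Bool) (S a) (S b) _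
  | there a _ ih =>
    rw [xlL_succ] at hc
    exact Step.there _ (ih hc)

theorem path_comm (S : G → Bool) (hS : ∀ x, S x⁻¹ = S x) {w : Word G} {s t : List G}
    (h : Path (conj G) w s t) (hc : ∀ p ∈ xl (conj G) w s, p.1 * p.2 = p.2 * p.1) :
    Path (triv Bool) (wmap S w) (s.map S) (t.map S) := by
  induction h with
  | nil s => exact Path.nil _
  | @cons k i w s t r h1 _ ih =>
    rw [xl_cons, h1.nxt_eq] at hc
    exact Path.cons (step_comm S hS h1 fun p hp => hc p (List.mem_append.2 (Or.inl hp)))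
      (ih fun p hp => hc p (List.mem_append.2 (Or.inr hp)))

theorem exists_noncomm {K : Link} (h1 : ¬ AtLeastTwoComponents K) {w w' : Word G}
    (hw : Path (conj G) w [] []) (hd : IsDiag (erase w) K) (hww : Eqv (conj G) w w' [] [])
    {a b : G} (ha : HasLabel a w) (hb : HasLabel b w) (hab : a * b ≠ b * a) :
    ∃ p ∈ xl (conj G) w' [], p.1 * p.2 ≠ p.2 * p.1 := by
  classical
  by_contra hcon
  push Not at hcon
  have hlab : ∀ g, HasLabel g w' → ∀ x, HasLabel x w' → x = g ∨ x = g⁻¹ := by
    intro g hg x hx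
    by_contra hne
    have hp := path_comm (fun x => decide (x = g ∨ x = g⁻¹)) (fun x => by
      rw [decide_eq_decide, inv_eq_iff_eq_inv, inv_inj, or_comm]) hww.path_right hcon
    apply h1
    refine ⟨_, hp, ?_, ?_, ?_⟩
    · have := isDiag_erase_of_eqv hww hd
      rw [← erase_wmap (fun x => decide (x = g ∨ x = g⁻¹)) w'] at this
      exact this
    · have := hg.map (fun x => decide (x = g ∨ x = g⁻¹))
      simpa [HasLabel] using this
    · have := hx.map (fun x => decide (x = g ∨ x = g⁻¹))
      simpa [hne, HasLabel] using this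
  have hS : ∀ g : G, Closed (conj G) {x | x = g ∨ x = g⁻¹} := by
    intro g
    refine ⟨fun x hx => ?_, fun x hx y hy => ?_⟩
    · rcases hx with rfl | rfl
      · right; rfl
      · left; exact inv_inv g
    · rcases hx with rfl | rfl <;> rcases hy with rfl | rfl <;>
        simp [conj]
  by_cases hne : ∃ g, HasLabel g w'
  · obtain ⟨g, hg⟩ := hne
    have key := labels_of_eqv (hS g) hww.symm (hlab g hg)
    apply hab
    rcases key a ha with rfl | rfl <;> rcases key b hb with rfl | rfl <;> simp
  · have hS0 : Closed (conj G) (∅ : Set G) := ⟨fun _ h => h.elim, fun _ h => h.elim⟩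
    exact labels_of_eqv hS0 hww.symm (fun x hx => (hne ⟨x, hx⟩).elim) a ha

/-- A label together with the orientation of the strand. -/
def ori (x : G × Bool) : HZ G := (x.1, Multiplicative.ofAdd (if x.2 then 1 else -1))

theorem isHom_ori : IsHom ((conj G).prod flip) (conj (HZ G)) ori := by
  refine ⟨fun x => ?_, fun x y => ?_⟩
  · obtain ⟨x, e⟩ := x
    cases e
    · rfl
    · rfl
  · obtain ⟨x, e⟩ := x
    obtain ⟨y, d⟩ := y
    refine Prod.ext rfl ?_
    change Multiplicative.ofAdd (if e then (1 : ℤ) else -1) =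
      (Multiplicative.ofAdd (if d then (1 : ℤ) else -1))⁻¹ *
        Multiplicative.ofAdd (if e then (1 : ℤ) else -1) *
        Multiplicative.ofAdd (if d then (1 : ℤ) else -1)
    rw [mul_comm, ← mul_assoc, mul_inv_cancel, one_mul]

theorem isHom_fst_conj : IsHom (conj (HZ G)) (conj G) Prod.fst := ⟨fun _ => rfl, fun _ _ => rfl⟩

omit [Group G] in
theorem pm_ori (x : G × Bool) : pm (ori x) := by
  obtain ⟨x, e⟩ := x
  cases e
  · right; rfl
  · left; rfl

theorem closed_pm' : Closed (conj (HZ G)) {x | pm x} :=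
  ⟨fun _ hx => pm_inv hx, fun _ hx _ _ => pm_conj hx⟩

theorem knotCircle_of_crossing {K : Link} (h1 : ¬ AtLeastTwoComponents K)
    {U V : Word (HZ G)} {l r : List (HZ G)} {a b : HZ G}
    (hU : Path (conj (HZ G)) U [] (l ++ a :: b :: r))
    (hV : Path (conj (HZ G)) V (l ++ a :: b :: r) []) (hd : IsDiag (erase (U ++ V)) K)
    (hpm : ∀ x, HasLabel x (U ++ V) → pm x) (hab : a.1 * b.1 ≠ b.1 * a.1) :
    ∃ (M : Link) (W : Word (HZ G ⊕ Unit)), KnotCircle K M W ∧ cr W = cr (U ++ V) + 4 := by
  classical
  have hlev : ∀ x ∈ l ++ a :: b :: r, pm x :=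
    path_labels closed_pm' hU (fun x hx => hpm x (hasLabel_append.2 (Or.inl hx))) (by simp)
  have hpa : pm a := hlev a (by simp)
  have hpb : pm b := hlev b (by simp)
  have hdist : ∀ β : Bool, ¬ ∃ y : G, φG G a y = φG G (if β then b else b⁻¹) y := by
    rintro β ⟨y, hy⟩
    apply hab
    cases β
    · have : a.1 = b.1⁻¹ := mul_right_cancel (b := y) hy
      rw [this]; simp
    · have : a.1 = b.1 := mul_right_cancel (b := y) hy
      rw [this]
  obtain ⟨β, hβ⟩ : ∃ β : Bool, φZ G a 1 = φZ G (if β then b else b⁻¹) 1 := by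
    rcases hpa with h2 | h2 <;> rcases hpb with h3 | h3
    · exact ⟨true, by simp [h2, h3]⟩
    · refine ⟨false, ?_⟩
      simp only [φZ_apply, h2, Bool.false_eq_true, if_false, Prod.snd_inv, h3]
      rfl
    · refine ⟨false, ?_⟩
      simp only [φZ_apply, h2, Bool.false_eq_true, if_false, Prod.snd_inv, h3]
      rfl
    · exact ⟨true, by simp [h2, h3]⟩
  have hpath : ∀ {Y : Type} (φ : HZ G →* Equiv.Perm Y) (y : Y),
      φ a y = φ (if β then b else b⁻¹) y →
      Path (hol φ) (gins (wmap Sum.inl U) l.length (gad β (.inr y)) (wmap Sum.inl V)) [] [] := by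
    intro Y φ y hy
    have k1 := hU.map (isHom_inl φ)
    have k2 := hV.map (isHom_inl φ)
    simp only [List.map_nil, List.map_append, List.map_cons] at k1 k2
    have k3 : Path (hol φ) (gad β (.inr y)) (Sum.inl a :: Sum.inl b :: r.map Sum.inl)
        (Sum.inl a :: Sum.inl b :: r.map Sum.inl) := gad_hol.2 ⟨rfl, hy⟩
    have k4 := k3.left (l.map Sum.inl)
    rw [List.length_map] at k4
    exact k1.append (k4.append k2)
  have hcol : wmap Sum.isLeft (gins (wmap Sum.inl U) l.length (gad β (.inr ())) (wmap Sum.inl V)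
      : Word (HZ G ⊕ Unit)) = gins (wmap (fun _ => true) U) (l.map fun _ => true).length
        (gad β false) (wmap (fun _ => true) V) := by
    rw [wmap_ins, wmap_wmap, wmap_wmap, wmap_gad, List.length_map]
    rfl
  have e1 : ∀ {C D : Type} (f : C → D) (w : Word C), erase (wmap f w) = erase w :=
    fun f w => erase_wmap f w
  have ed : erase (wmap (fun _ => true) U ++ wmap (fun _ => true) V) = erase (U ++ V) := by
    rw [← wmap_append, e1]
  have hp0 := hpath (φ0 G) () rfl
  obtain ⟨M, hM⟩ := isDiag_mk (path_erase hp0)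
  refine ⟨M, _, ⟨?_, hp0, ?_, ?_, ?_⟩, ?_⟩
  · rw [hcol]
    have k1 := hU.map (isHom_unit (conj (HZ G)))
    have k2 : Path (triv Bool) (wmap (fun _ => true) U) [] ((l.map fun _ => true) ++
        true :: true :: (r.map fun _ => true)) := by
      have := hp0
      have h3 := hU.map (isHom_inl (φ0 G))
      have h4 := h3.map (isHom_isLeft (φ0 G))
      rw [wmap_wmap] at h4
      simpa [Function.comp_def] using h4
    have k3 : Path (triv Bool) (wmap (fun _ => true) V) ((l.map fun _ => true) ++
        true :: true :: (r.map fun _ => true)) [] := by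
      have h3 := hV.map (isHom_inl (φ0 G))
      have h4 := h3.map (isHom_isLeft (φ0 G))
      rw [wmap_wmap] at h4
      simpa [Function.comp_def] using h4
    refine twoComp_ins h1 k2 k3 ?_ ?_ ?_ ?_
    · intro x hx
      obtain ⟨y, -, rfl⟩ := hasLabel_wmap.1 hx
      rfl
    · intro x hx
      obtain ⟨y, -, rfl⟩ := hasLabel_wmap.1 hx
      rfl
    · rw [ed]; exact hd
    · rw [← hcol, e1]; exact hM
  · refine ⟨_, ?_, hpath (φZ G) 1 hβ⟩
    rw [wmap_ins, wmap_wmap, wmap_wmap, wmap_gad]
    rfl
  · rintro ⟨W', h2, h3⟩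
    exact hdist β (hol_of_ins (fun _ => ()) hU h2 h3)
  · intro x hx
    rw [gins, hasLabel_append, hasLabel_append, hasLabel_shift] at hx
    rcases hx with hx | hx | hx
    · obtain ⟨y, hy, h2⟩ := hasLabel_wmap.1 hx
      simp only [Sum.inl.injEq] at h2
      rw [← h2]
      exact hpm y (hasLabel_append.2 (Or.inl hy))
    · exfalso
      simp [gad, hasLabel_cons] at hx
      cases β <;> simp [claspKind] at hx
    · obtain ⟨y, hy, h2⟩ := hasLabel_wmap.1 hx
      simp only [Sum.inl.injEq] at h2
      rw [← h2]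
      exact hpm y (hasLabel_append.2 (Or.inr hy))
  · rw [cr_ins, cr_wmap, cr_wmap, cr_gad, cr_append]
    omega

end

theorem exists_circle (hN : NoInverse) {K : Link} (hK : IsPrime K)
    (h1 : ¬ AtLeastTwoComponents K) (h2 : HasNonabelianLabelling K) :
    ∃ (M : Link) (W : Word Bool), TwoComp K unknot M W ∧ IsPrime M ∧
      crossingNumber M ≤ crossingNumber K + 4 := by
  obtain ⟨w0, hw0, hcr⟩ := exists_minimal K
  obtain ⟨G, _, w, hw, hd, a, b, i, j, ha, hb, hab⟩ := h2
  obtain ⟨w', h3, h4⟩ := lift_diag rfl hw hd hw0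
  obtain ⟨p, hp, hpc⟩ := exists_noncomm h1 hw hd h4 ⟨i, ha⟩ ⟨j, hb⟩ hab
  obtain ⟨o, ho, hop⟩ := exists_orientation hw0.path
  obtain ⟨z, hz1, hz2, hzp⟩ := closed_zip h4.path_right hop (h3.trans ho.symm)
  have hH := hzp.map (isHom_ori (G := G))
  simp only [List.map_nil] at hH
  have hfst : wmap Prod.fst (wmap ori z) = w' := by
    rw [wmap_wmap, ← hz1]
    rfl
  have hx := xl_map isHom_fst_conj hH
  rw [hfst] at hx
  simp only [List.map_nil] at hx
  rw [hx] at hp
  obtain ⟨P, hP, rfl⟩ := List.mem_map.1 hp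
  obtain ⟨U, V, l, a', b', r, hUV, hU, hV, hab'⟩ := exists_crossing hH hP
  have hnc : a'.1 * b'.1 ≠ b'.1 * a'.1 := by
    rcases hab' with rfl | rfl
    · exact hpc
    · exact fun h => hpc h.symm
  have hdU : IsDiag (erase (U ++ V)) K := by
    rw [← hUV, erase_wmap]
    have : erase z = w0 := by
      rw [← h3, ← hz1]
      exact (erase_wmap _ _).symm
    rw [this]
    exact hw0
  have hpm : ∀ x, HasLabel x (U ++ V) → pm x := by
    intro x hx
    rw [← hUV] at hx
    obtain ⟨y, -, rfl⟩ := hasLabel_wmap.1 hx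
    exact pm_ori y
  obtain ⟨M, W, h5, h6⟩ := knotCircle_of_crossing h1 hU hV hdU hpm hnc
  refine ⟨M, _, h5.two, h5.isPrime hN hK, ?_⟩
  have h7 := crossingNumber_le h5.diag
  rw [cr_wmap, h6] at h7
  have h8 : cr (U ++ V) = cr w0 := by
    rw [← h3, ← hz1, ← hUV]
    simp
  omega

/-! ### Counting -/

theorem encard_le_mul {α β : Type*} (S : Set α) (f : α → β) (c : ℕ) (hc : c ≠ 0)
    (h : ∀ y ∈ f '' S, (S ∩ f ⁻¹' {y}).encard ≤ c) : S.encard ≤ c * (f '' S).encard := by
  by_cases hfin : (f '' S).Finite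
  · have h1 : S ⊆ ⋃ y ∈ hfin.toFinset, (S ∩ f ⁻¹' {y}) := by
      intro x hx
      simp only [Set.mem_iUnion, Set.Finite.mem_toFinset]
      exact ⟨f x, ⟨x, hx, rfl⟩, hx, rfl⟩
    refine (Set.encard_le_encard h1).trans ((Finset.set_encard_biUnion_le _ _).trans ?_)
    refine (Finset.sum_le_card_nsmul _ _ (c : ℕ∞) fun y hy => h y (by simpa using hy)).trans ?_
    rw [nsmul_eq_mul, mul_comm, hfin.encard_eq_coe_toFinset_card]
  · have h2 : (f '' S).encard = ⊤ := Set.encard_eq_top_iff.2 hfin
    rw [h2, ENat.mul_top (by exact_mod_cast hc)]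
    exact le_top

/-- **Knots.** The number of prime knots is bounded by the number of prime links with at least two
components. -/
theorem knots_le (hN : NoInverse) (n : ℕ) :
    (K1 n).encard ≤ 2 * ∑ j ∈ Finset.range 5, (P2 (n + j)).encard := by
  classical
  have : Nonempty Link := ⟨unknot⟩
  have h0 : ∀ K : Link, K ∈ K1 n → ∃ (M : Link) (W : Word Bool), TwoComp K unknot M W ∧
      IsPrime M ∧ crossingNumber M ≤ crossingNumber K + 4 :=
    fun K hK => exists_circle hN hK.1 hK.2.1 hK.2.2.1
  choose! f W hf using h0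
  have h1 : (K1 n).encard ≤ (2 : ℕ) * (f '' K1 n).encard := by
    refine encard_le_mul _ f 2 two_ne_zero ?_
    rintro y ⟨K, hK, rfl⟩
    have h2 : K1 n ∩ f ⁻¹' {f K} ⊆ {K, unknot} := by
      rintro K' ⟨hK', h3⟩
      have h4 := (hf K' hK').1
      rw [h3] at h4
      exact (hf K hK).1.eq_or_eq h4
    refine (Set.encard_le_encard h2).trans ?_
    refine (Set.encard_insert_le _ _).trans ?_
    rw [Set.encard_singleton]
    norm_num
  have h2 : f '' K1 n ⊆ ⋃ j ∈ Finset.range 5, P2 (n + j) := by
    rintro M ⟨K, hK, rfl⟩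
    obtain ⟨h3, h4, h5⟩ := hf K hK
    have h6 := h3.crossing_le
    have h7 : crossingNumber K = n := hK.2.2.2
    simp only [Set.mem_iUnion, Finset.mem_range]
    exact ⟨crossingNumber (f K) - n, by omega, h4, h3.two, by omega⟩
  refine h1.trans ?_
  have h3 := (Set.encard_le_encard h2).trans (Finset.set_encard_biUnion_le _ _)
  exact mul_le_mul_right h3 _

end Pool.Agent.Lib.MP_131179_gt
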