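import Pool.Agent.Lib.MP_131179_gt.Fibre
import Pool.Agent.Lib.MP_131179_gt.Inverse
import Pool.Agent.Lib.MP_131179_gt.Base7
import Pool.Agent.Lib.MP_131179_gt.Analysis
import Pool.Agent.Lib.MP_131179_gt.Knots
import Pool.Agent.Lib.MP_131179_gt.BlockElim
import Pool.Agent.Lib.MP_131179_gt.BlockCount

/-!
# The growth rate of the number of prime links
-/

set_option autoImplicit false

namespace Pool.Agent.Lib.MP_131179_gt

open Filter Topology

/-- Prime links with crossing number `n`. -/
def PAll (n : ℕ) : Set Link := {L | IsPrime L ∧ crossingNumber L = n}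

/-- Prime links with crossing number `n`: at most `4096 ^ n`. -/
theorem encard_prime_le (n : ℕ) : (PAll n).encard ≤ ((2 ^ (12 * n) : ℕ) : ℕ∞) := by
  refine le_trans (Set.encard_le_encard ?_) (count_blocks n)
  rintro L ⟨⟨h1, h2, h3, -⟩, h5⟩
  obtain ⟨w, hw, hc⟩ := exists_minimal L
  obtain ⟨J, K, hJ, hL⟩ := exists_good hw h2 h3 h1
  exact ⟨J, K, by rw [hJ, hc, h5], hL⟩

theorem P2_subset (n : ℕ) : P2 n ⊆ Pstar n := fun _ h => ⟨h.1, Or.inl h.2.1, h.2.2⟩

theorem Pstar_subset (n : ℕ) : Pstar n ⊆ PAll n := fun _ h => ⟨h.1, h.2.2⟩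

theorem Pstar_subset_union (n : ℕ) : Pstar n ⊆ P2 n ∪ K1 n := by
  rintro L ⟨h1, h2, h3⟩
  by_cases h : AtLeastTwoComponents L
  · exact Or.inl ⟨h1, h, h3⟩
  · exact Or.inr ⟨h1, h, h2.resolve_left h, h3⟩

theorem finite_PAll (n : ℕ) : (PAll n).Finite :=
  Set.finite_of_encard_le_coe (encard_prime_le n)

theorem finite_Pstar (n : ℕ) : (Pstar n).Finite := (finite_PAll n).subset (Pstar_subset n)

theorem finite_P2 (n : ℕ) : (P2 n).Finite := (finite_Pstar n).subset (P2_subset n)

/-- The growth rate of the number of prime links with at least two components or a nonabelian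
labelling exists. -/
theorem exists_growth_rate :
    ∃ l : ℝ, Tendsto (fun n : ℕ => ((Pstar n).ncard : ℝ) ^ (1 / (n : ℝ))) atTop (𝓝 l) := by
  by_cases hU : NoInverse
  · refine (exists_limit (f := fun n => (P2 n).ncard) (g := fun n => (Pstar n).ncard)
      (C := 4096) ?_ ?_ ?_ ?_ ?_ ?_).imp fun l hl => hl.2
    · intro n
      have h1 : (P2 n).encard ≤ ((2 ^ (12 * n) : ℕ) : ℕ∞) :=
        (Set.encard_le_encard ((P2_subset n).trans (Pstar_subset n))).trans (encard_prime_le n)
      rw [← (finite_P2 n).cast_ncard_eq] at h1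
      have h2 : (P2 n).ncard ≤ 2 ^ (12 * n) := by exact_mod_cast h1
      refine h2.trans ?_
      rw [pow_mul]
      exact Nat.pow_le_pow_right (by norm_num) (by omega)
    · intro m n
      have h1 := fibre m n
      rw [← (finite_P2 m).cast_ncard_eq, ← (finite_P2 n).cast_ncard_eq,
        ← (finite_P2 (m + n + 4)).cast_ncard_eq] at h1
      exact_mod_cast h1
    · exact (Set.ncard_pos (finite_P2 2)).2 (P2_two hU) |>.ne'
    · exact (Set.ncard_pos (finite_P2 7)).2 (P2_seven hU) |>.ne'
    · exact fun n => Set.ncard_le_ncard (P2_subset n) (finite_Pstar n)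
    · intro n
      have h1 : (Pstar n).encard ≤ (P2 n).encard + 2 * ∑ j ∈ Finset.range 5, (P2 (n + j)).encard :=
        (Set.encard_le_encard (Pstar_subset_union n)).trans
          ((Set.encard_union_le _ _).trans (add_le_add le_rfl (knots_le hU n)))
      rw [← (finite_Pstar n).cast_ncard_eq, ← (finite_P2 n).cast_ncard_eq,
        Finset.sum_congr rfl fun j _ => ((finite_P2 (n + j)).cast_ncard_eq).symm] at h1
      exact_mod_cast h1
  · refine ⟨0, ?_⟩
    have h1 : ∀ n, Pstar n = ∅ := by
      intro n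
      rw [Set.eq_empty_iff_forall_notMem]
      rintro L ⟨h1, h2, -⟩
      obtain ⟨h3, h4⟩ := inverse_of_prime hU h1
      exact h2.elim h3 h4
    refine tendsto_const_nhds.congr' ?_
    filter_upwards [eventually_gt_atTop 0] with n hn
    rw [h1 n, Set.ncard_empty, Nat.cast_zero, Real.zero_rpow]
    have : (0 : ℝ) < n := by exact_mod_cast hn
    positivity

/-- The statement that a nontrivial knot has a nonabelian labelling (Dehn's lemma). -/
def DehnLemma : Prop :=
  ∀ L : Link, ¬ AtLeastTwoComponents L → L ≠ emptyLink → L ≠ unknot → HasNonabelianLabelling L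

theorem PAll_eq (h : DehnLemma) (n : ℕ) : PAll n = Pstar n := by
  refine Set.Subset.antisymm ?_ (Pstar_subset n)
  rintro L ⟨h1, h2⟩
  by_cases h3 : AtLeastTwoComponents L
  · exact ⟨h1, Or.inl h3, h2⟩
  · exact ⟨h1, Or.inr (h L h3 h1.1 h1.2.2.1), h2⟩

end Pool.Agent.Lib.MP_131179_gt
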