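import Pool.Agent.Lib.MP_131179_gt.Final

/-!
# The growth rate of the number of all prime links
-/

set_option autoImplicit false

namespace Pool.Agent.Lib.MP_131179_gt

open Filter Topology

/-- The labelled versions of the closure of a tangle. -/
theorem fin2_closure_labelled {C : Type} {P : Palette C} {T : Word Unit}
    (hT : Path (triv Unit) T [()] [()]) {W : Word C} (hW : erase W = closure () T)
    (h : Path P W [] []) :
    ∃ (c : C) (T' : Word C), W = closure c T' ∧ erase T' = T ∧ Path P T' [c] [c] := by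
  have hW' : erase W = closure () (T ++ []) := by rw [List.append_nil]; exact hW
  obtain ⟨c, d, T', U', rfl, h1, h2, h3, h4⟩ := closure_labelled hT (Path.nil _) hW' h
  obtain rfl := wmap_eq_nil.1 h2
  rw [path_nil_iff, List.cons.injEq] at h4
  obtain ⟨rfl, -⟩ := h4
  exact ⟨d, T', by rw [List.append_nil], h1, h3⟩

theorem fin2_hasLabel {C : Type} {c y : C} {T U : Word C} (h : HasLabel y (closure c T)) :
    HasLabel y (closure c (T ++ U)) := by
  rw [closure, hasLabel_cons, hasLabel_append] at h ⊢
  rw [hasLabel_append]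
  tauto

/-- The labels of a labelled diagram of the unknot. -/
theorem fin2_unknot_labels {G : Type} [Group G] {w : Word G} (h : Path (conj G) w [] [])
    (hw : IsDiag (erase w) unknot) : ∃ g : G, ∀ y, HasLabel y w → y ∈ ({g, g⁻¹} : Set G) := by
  obtain ⟨v', hv', hE'⟩ := lift_diag (v := [(.cup (), 0), (.cap, 0)]) rfl h hw isDiag_unknot
  obtain ⟨k', v1, rfl, hk, hv1⟩ := wmap_eq_cons hv'
  obtain ⟨g, rfl, -⟩ := Kind.map_eq_cup hk
  obtain ⟨k2, v2, rfl, hk2, hv2⟩ := wmap_eq_cons hv1
  have hk2' := Kind.map_eq_cap hk2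
  subst hk2'
  rw [wmap_eq_nil] at hv2
  subst hv2
  refine ⟨g, labels_of_eqv (closed_pair g) hE'.symm ?_⟩
  intro y hy
  rw [hasLabel_cons, hasLabel_cons] at hy
  rcases hy with hy | hy | hy
  · left; injection hy with hy; exact hy.symm
  · cases hy
  · exact absurd hy (not_hasLabel_nil y)

/-- A summand of the unknot is the unknot. -/
theorem fin2_summand (h : DehnLemma) {tA tB : Word Unit} {A : Link}
    (hA : Path (triv Unit) tA [()] [()]) (hB : Path (triv Unit) tB [()] [()])
    (hAd : IsDiag (closure () tA) A) (hAB : IsDiag (closure () (tA ++ tB)) unknot) :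
    A = unknot := by
  by_contra hne
  have hBA : IsDiag (closure () (tB ++ tA)) unknot := isDiag_of_eqv (closure_comm hA hB) hAB
  have h1 : A ≠ emptyLink := by
    rintro rfl
    have h2 := (hasLabel_iff (eqv_of_isDiag hAd isDiag_empty) ()).1
      (hasLabel_cons.2 (Or.inl rfl))
    exact not_hasLabel_nil _ h2
  have h2 : ¬ AtLeastTwoComponents A := by
    rintro ⟨w, hw, hwA, ⟨i, hi⟩, ⟨j, hj⟩⟩
    obtain ⟨v', hv', hE⟩ := lift_diag rfl hw hwA hAd
    obtain ⟨c, T, rfl, hT, hTp⟩ := fin2_closure_labelled hA hv' hE.path_right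
    have hTB : Path (triv Bool) (wmap (fun _ => c) tB) [c] [c] := by
      have := hB.map (isHom_triv (fun _ : Unit => c))
      simpa using this
    have h3 : IsDiag (erase (closure c (T ++ wmap (fun _ => c) tB))) unknot := by
      have e : erase (wmap (fun _ => c) tB) = tB := (erase_wmap _ _).trans (wmap_id' tB)
      have : erase (closure c (T ++ wmap (fun _ => c) tB)) = closure () (tA ++ tB) := by
        rw [erase_closure, erase, wmap_append, ← erase, ← erase, e, hT]
      rw [this]; exact hAB
    have hl : ∀ y, HasLabel y w → HasLabel y (closure c (T ++ wmap (fun _ => c) tB)) :=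
      fun y hy => fin2_hasLabel ((hasLabel_iff hE y).1 hy)
    have := unknot_labels (closure_path (hTp.append hTB)) h3 (hl true ⟨i, hi⟩) (hl false ⟨j, hj⟩)
    exact absurd this (by decide)
  obtain ⟨G, _, w, hw, hwA, a, b, i, j, hi, hj, hab⟩ := h A h2 h1 hne
  obtain ⟨v', hv', hE⟩ := lift_diag rfl hw hwA hAd
  obtain ⟨x, T, rfl, hT, hTp⟩ := fin2_closure_labelled hA hv' hE.path_right
  obtain ⟨TB, hTB, hTBp⟩ := exists_labelling x hB hBA
  have h3 : IsDiag (erase (closure x (T ++ TB))) unknot := by
    have : erase (closure x (T ++ TB)) = closure () (tA ++ tB) := by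
      rw [erase_closure, erase, wmap_append, ← erase, ← erase, hT, hTB]
    rw [this]; exact hAB
  obtain ⟨g, hg⟩ := fin2_unknot_labels (closure_path (hTp.append hTBp)) h3
  have hS : ∀ y, HasLabel y w → y ∈ ({g, g⁻¹} : Set G) :=
    labels_of_eqv (closed_pair g) hE.symm fun y hy => hg y (fin2_hasLabel hy)
  apply hab
  rcases hS a ⟨i, hi⟩ with rfl | ha <;> rcases hS b ⟨j, hj⟩ with rfl | hb
  · rfl
  · rw [Set.mem_singleton_iff] at hb; subst hb; group
  · rw [Set.mem_singleton_iff] at ha; subst ha; group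
  · rw [Set.mem_singleton_iff] at ha hb; subst ha; subst hb; rfl

/-- By Dehn's lemma, the unknot is not a nontrivial connected sum. -/
theorem noInverse_of_dehn (h : DehnLemma) : NoInverse := by
  rintro A B ⟨tA, tB, hA, hB, hAd, hBd, hAB⟩
  exact ⟨fin2_summand h hA hB hAd hAB,
    fin2_summand h hB hA hBd (isDiag_of_eqv (closure_comm hA hB) hAB)⟩

/-- The growth rate of the number of prime links exists. -/
theorem exists_growth_rate_all (h : DehnLemma) :
    ∃ l : ℝ, 1 ≤ l ∧ Tendsto (fun n : ℕ => ((PAll n).ncard : ℝ) ^ (1 / (n : ℝ))) atTop (𝓝 l) := by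
  have hU : NoInverse := noInverse_of_dehn h
  have he : ∀ n, PAll n = Pstar n := PAll_eq h
  simp only [he]
  refine exists_limit (f := fun n => (P2 n).ncard) (g := fun n => (Pstar n).ncard)
    (C := 4096) ?_ ?_ ?_ ?_ ?_ ?_
  · intro n
    have h1 : (P2 n).encard ≤ ((2 ^ (12 * n) : ℕ) : ℕ∞) :=
      (Set.encard_le_encard ((P2_subset n).trans (Pstar_subset n))).trans (encard_prime_le n)
    rw [← (finite_P2 n).cast_ncard_eq] at h1
    have h2 : (P2 n).ncard ≤ 2 ^ (12 * n) := by exact_mod_cast h1
    refine h2.trans ?_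
    rw [pow_mul]
    exact Nat.pow_le_pow_right (by norm_num) (by omega)
  · intro m n
    have h1 := fibre m n
    rw [← (finite_P2 m).cast_ncard_eq, ← (finite_P2 n).cast_ncard_eq,
      ← (finite_P2 (m + n + 4)).cast_ncard_eq] at h1
    exact_mod_cast h1
  · exact (Set.ncard_pos (finite_P2 2)).2 (P2_two hU) |>.ne'
  · exact (Set.ncard_pos (finite_P2 7)).2 (P2_seven hU) |>.ne'
  · exact fun n => Set.ncard_le_ncard (P2_subset n) (finite_Pstar n)
  · intro n
    have h1 : (Pstar n).encard ≤ (P2 n).encard + 2 * ∑ j ∈ Finset.range 5, (P2 (n + j)).encard :=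
      (Set.encard_le_encard (Pstar_subset_union n)).trans
        ((Set.encard_union_le _ _).trans (add_le_add le_rfl (knots_le hU n)))
    rw [← (finite_Pstar n).cast_ncard_eq, ← (finite_P2 n).cast_ncard_eq,
      Finset.sum_congr rfl fun j _ => ((finite_P2 (n + j)).cast_ncard_eq).symm] at h1
    exact_mod_cast h1

end Pool.Agent.Lib.MP_131179_gt
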