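import Pool.Agent.Lib.MP_131179_gt.Hol
import Pool.Agent.Lib.MP_131179_gt.Goals

/-!
# A circle clasped to two neighbouring strands
-/

set_option autoImplicit false
set_option linter.unusedSimpArgs false

namespace Pool.Agent.Lib.MP_131179_gt

variable {C D : Type} {P : Palette C} {Q : Palette D}

/-- The kind of the second clasp. -/
def claspKind (C : Type) (b : Bool) : Kind C := if b then .pos else .neg

/-- A circle `J` with label `y` between two strands, clasped to both of them. -/
def gad (b : Bool) (y : C) : Word C :=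
  [(.cup y, 1), (.pos, 0), (.pos, 0), (claspKind C b, 2), (claspKind C b, 2), (.cap, 1)]

theorem map_claspKind (f : C → D) (b : Bool) : (claspKind C b).map f = claspKind D b := by
  cases b <;> rfl

theorem wmap_gad (f : C → D) (b : Bool) (y : C) : wmap f (gad b y) = gad b (f y) := by
  simp [gad, map_claspKind]

theorem cr_gad (b : Bool) (y : C) : cr (gad b y) = 4 := by
  cases b <;> rfl

theorem gad_triv (b : Bool) (y p q : C) (r : List C) :
    Path (triv C) (gad b y) (p :: q :: r) (p :: q :: r) := by
  refine Path.cons (Step.there p (Step.cup y (q :: r))) ?_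
  refine Path.cons (Step.pos p y _) (Path.cons (Step.pos y p _) ?_)
  cases b
  · exact Path.cons (Step.there p (Step.there y (Step.neg y q r)))
      (Path.cons (Step.there p (Step.there y (Step.neg q y r)))
        (path_single_iff.2 (Step.there p (Step.cap y (q :: r)))))
  · exact Path.cons (Step.there p (Step.there y (Step.pos y q r)))
      (Path.cons (Step.there p (Step.there y (Step.pos q y r)))
        (path_single_iff.2 (Step.there p (Step.cap y (q :: r)))))

/-- Insertion of a word `g` at height `n` between `u` and `v`. -/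
def gins (u : Word C) (n : ℕ) (g v : Word C) : Word C := u ++ (shift n g ++ v)

theorem wmap_ins (f : C → D) (u : Word C) (n : ℕ) (g v : Word C) :
    wmap f (gins u n g v) = gins (wmap f u) n (wmap f g) (wmap f v) := by
  simp [gins]

theorem cr_ins (u : Word C) (n : ℕ) (g v : Word C) :
    cr (gins u n g v) = cr u + (cr g + cr v) := by
  simp [gins]

theorem gins_path {u g v : Word C} {l m r : List C}
    (hu : Path P u [] (l ++ (m ++ r))) (hg : Path P g m m) (hv : Path P v (l ++ (m ++ r)) []) :
    Path P (gins u l.length g v) [] [] :=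
  hu.append (((hg.right r).left l).append hv)

section hol

variable {H Y : Type} [Group H] {φ : H →* Equiv.Perm Y}

theorem gad_hol {b : Bool} {y : Y} {p q : H} {r t : List (H ⊕ Y)} :
    Path (hol φ) (gad b (.inr y)) (.inl p :: .inl q :: r) t ↔
      t = .inl p :: .inl q :: r ∧ φ p y = φ (if b then q else q⁻¹) y := by
  have h1 : Path (hol φ) [(.cup (.inr y), 1), (.pos, 0), (.pos, 0)]
      (.inl p :: .inl q :: r) (.inl p :: .inr (φ p y) :: .inr y :: .inl q :: r) := by
    refine Path.cons (Step.there _ (Step.cup (Sum.inr y : H ⊕ Y) _)) ?_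
    refine Path.cons (Step.pos _ _ _) (path_single_iff.2 ?_)
    have := Step.pos (P := hol φ) (.inr (φ p y)) (.inl p) (.inr y :: .inl q :: r)
    simpa using this
  have h2 : Path (hol φ) [(claspKind _ b, 2), (claspKind _ b, 2)]
      (.inl p :: .inr (φ p y) :: .inr y :: .inl q :: r)
      (.inl p :: .inr (φ p y) :: .inr (φ (if b then q else q⁻¹) y) :: .inl q :: r) := by
    cases b
    · refine Path.cons (Step.there _ (Step.there _ (Step.neg _ _ _))) (path_single_iff.2 ?_)
      exact Step.there _ (Step.there _ (Step.neg _ _ _))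
    · refine Path.cons (Step.there _ (Step.there _ (Step.pos _ _ _))) (path_single_iff.2 ?_)
      have := Step.there (.inl p) (Step.there (.inr (φ p y)) (Step.pos (P := hol φ) (.inl q) (.inr y) r))
      simp only [hol_act_rl, hol_bar_inl, inv_inv] at this
      exact this
  have e : gad b (Sum.inr y : H ⊕ Y) = ([(.cup (.inr y), 1), (.pos, 0), (.pos, 0)] ++
      [(claspKind _ b, 2), (claspKind _ b, 2)]) ++ [(.cap, 1)] := rfl
  constructor
  · intro h
    rw [e] at h
    obtain ⟨t1, h3, h4⟩ := path_append_iff.1 h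
    obtain rfl := (h1.append h2).det h3
    obtain ⟨x, s', t', h5, rfl, h6⟩ := step_one.1 (path_single_iff.1 h4)
    obtain ⟨c, rfl⟩ := step_cap.1 h6
    simp only [List.cons.injEq] at h5
    obtain ⟨rfl, rfl, h7, rfl⟩ := h5
    simp only [hol_bar_inr, Sum.inr.injEq] at h7
    exact ⟨rfl, h7.symm⟩
  · rintro ⟨rfl, h⟩
    rw [e]
    refine (h1.append h2).append (path_single_iff.2 (Step.there _ ?_))
    rw [← h]
    exact Step.cap (Sum.inr (φ p y) : H ⊕ Y) _

/-- A labelling over a labelling with only group labels. -/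
theorem eq_wmap_inl {Z : Type} (f : Y → Z) {w : Word (H ⊕ Y)} {u : Word H}
    (h : wmap (Sum.map id f) w = wmap Sum.inl u) : w = wmap Sum.inl u := by
  have key : ∀ x, HasLabel x w →
      (Sum.elim Sum.inl (fun _ => Sum.inl 1) : H ⊕ Z → H ⊕ Y) (Sum.map id f x) = x := by
    intro x hx
    have h1 := hx.map (Sum.map id f)
    rw [h, hasLabel_wmap] at h1
    obtain ⟨z, -, h2⟩ := h1
    cases x with
    | inl x => rfl
    | inr x => simp at h2
  have h2 : wmap (fun x => (Sum.elim Sum.inl (fun _ => Sum.inl 1) : H ⊕ Z → H ⊕ Y)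
      (Sum.map id f x)) w = wmap (fun x => x) w := wmap_congr fun x hx => by simpa using key x hx
  rw [wmap_id'] at h2
  rw [← h2]
  have h3 := wmap_wmap (Sum.map id f) (Sum.elim Sum.inl (fun _ => Sum.inl 1) : H ⊕ Z → H ⊕ Y) w
  rw [h, wmap_wmap] at h3
  exact h3.symm

omit [Group H] in
theorem eq_gad {Z : Type} (f : Y → Z) {b : Bool} {w : Word (H ⊕ Y)} {z : Z}
    (h : wmap (Sum.map id f) w = gad b (.inr z)) : ∃ y, w = gad b (.inr y) ∧ f y = z := by
  obtain ⟨k1, w1, rfl, h1, g1⟩ := wmap_eq_cons h
  obtain ⟨k2, w2, rfl, h2, g2⟩ := wmap_eq_cons g1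
  obtain ⟨k3, w3, rfl, h3, g3⟩ := wmap_eq_cons g2
  obtain ⟨k4, w4, rfl, h4, g4⟩ := wmap_eq_cons g3
  obtain ⟨k5, w5, rfl, h5, g5⟩ := wmap_eq_cons g4
  obtain ⟨k6, w6, rfl, h6, g6⟩ := wmap_eq_cons g5
  obtain rfl := wmap_eq_nil.1 g6
  obtain ⟨c, rfl, hc⟩ := Kind.map_eq_cup h1
  obtain rfl := Kind.map_eq_pos h2
  obtain rfl := Kind.map_eq_pos h3
  obtain rfl := Kind.map_eq_cap h6
  have h4' : k4 = claspKind _ b := by
    cases b
    · exact Kind.map_eq_neg h4
    · exact Kind.map_eq_pos h4
  have h5' : k5 = claspKind _ b := by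
    cases b
    · exact Kind.map_eq_neg h5
    · exact Kind.map_eq_pos h5
  subst h4' h5'
  cases c with
  | inl c => simp at hc
  | inr y => exact ⟨y, rfl, by simpa using hc⟩

/-- The circle `J` detects that the holonomy is trivial. -/
theorem hol_of_ins {Z : Type} (f : Y → Z) {U V : Word H} {l r : List H} {p q : H} {b : Bool}
    (hU : Path (conj H) U [] (l ++ p :: q :: r)) {z : Z} {W : Word (H ⊕ Y)}
    (hW : wmap (Sum.map id f) W = gins (wmap Sum.inl U) l.length (gad b (.inr z)) (wmap Sum.inl V))
    (h : Path (hol φ) W [] []) : ∃ y, φ p y = φ (if b then q else q⁻¹) y := by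
  obtain ⟨U', W1, rfl, h1, h2⟩ := wmap_eq_append hW
  obtain ⟨G1, V', rfl, h3, h4⟩ := wmap_eq_append h2
  obtain ⟨G2, rfl, h5⟩ := wmap_eq_shift h3
  obtain ⟨y, rfl, -⟩ := eq_gad f h5
  obtain rfl := eq_wmap_inl f h1
  obtain ⟨t1, h6, h7⟩ := path_append_iff.1 h
  obtain ⟨t2, h8, h9⟩ := path_append_iff.1 h7
  obtain rfl := (hU.map (isHom_inl φ)).det h6
  simp only [List.map_append, List.map_cons] at h8
  obtain ⟨t3, rfl, h10⟩ := (path_shift_append_iff' (by simp)).1 h8
  exact ⟨y, (gad_hol.1 h10).2⟩

end hol

/-! ### Crossings -/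

theorem xlL_cases {k : Kind C} {i : ℕ} {s t : List C} (h : Step P k i s t) {p : C × C}
    (hp : p ∈ xlL k i s) : ∃ l a b r, s = l ++ a :: b :: r ∧ l.length = i ∧
      (p = (a, b) ∨ p = (b, a)) := by
  induction h with
  | cup c s => simp [xlL] at hp
  | cap c s => simp [xlL] at hp
  | pos a b s =>
    simp only [xlL, List.mem_singleton] at hp
    exact ⟨[], a, b, s, rfl, rfl, Or.inl hp⟩
  | neg a b s =>
    simp only [xlL, List.mem_singleton] at hp
    exact ⟨[], a, b, s, rfl, rfl, Or.inr hp⟩
  | there a _ ih =>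
    rw [xlL_succ] at hp
    obtain ⟨l, x, y, r, rfl, rfl, h2⟩ := ih hp
    exact ⟨a :: l, x, y, r, rfl, rfl, h2⟩

/-- A crossing of a word, together with the two parts of the word below it and from it on. -/
theorem exists_crossing {w : Word C} {s t : List C} (h : Path P w s t) {p : C × C}
    (hp : p ∈ xl P w s) : ∃ u v l a b r, w = u ++ v ∧ Path P u s (l ++ a :: b :: r) ∧
      Path P v (l ++ a :: b :: r) t ∧ (p = (a, b) ∨ p = (b, a)) := by
  induction h with
  | nil s => simp at hp
  | @cons k i w s t r h1 h2 ih =>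
    rw [xl_cons, h1.nxt_eq, List.mem_append] at hp
    rcases hp with hp | hp
    · obtain ⟨l, a, b, r', rfl, rfl, h3⟩ := xlL_cases h1 hp
      exact ⟨[], _, l, a, b, r', rfl, Path.nil _, Path.cons h1 h2, h3⟩
    · obtain ⟨u, v, l, a, b, r', rfl, h3, h4, h5⟩ := ih hp
      exact ⟨(k, i) :: u, v, l, a, b, r', rfl, Path.cons h1 h3, h4, h5⟩

/-! ### Deletion of all strands -/

theorem delL_false {k : Kind C} {i : ℕ} {s t : List C} (h : Step P k i s t) :
    delL (fun _ => false) k i s = [] := by
  induction h with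
  | cup c s => rfl
  | cap c s => rfl
  | pos a b s => rfl
  | neg a b s => rfl
  | there a _ ih => rw [delL_succ, ih]; rfl

theorem del_false {w : Word C} {s t : List C} (h : Path P w s t) :
    del P (fun _ => false) w s = [] := by
  induction h with
  | nil s => rfl
  | @cons k i w s t r h1 _ ih =>
    rw [del_cons, h1.nxt_eq, ih, delL_false h1]
    rfl

theorem del_eq_empty {κ : C → Bool} (hκ : Compat P κ) {w : Word C} {s t : List C}
    (h : Path P w s t) (hw : ∀ x, HasLabel x w → κ x = false) (hs : ∀ x ∈ s, κ x = false) :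
    del P κ w s = [] := by
  have h1 : Compat P (fun _ : C => false) := ⟨fun _ => rfl, fun _ _ => rfl, fun _ _ h _ => by
    simp at h⟩
  rw [del_congr hκ h1 h hw hs, del_false h]

/-- Deletion in a closure. -/
theorem del_closure {κ : C → Bool} {c d : C} (hc : κ c = true) {T U : Word C}
    (hT : Path P T [c] [d]) (hU : Path P U [d] [c]) :
    del P κ (closure c (T ++ U)) [] = closure c (del P κ T [c] ++ del P κ U [d]) := by
  have h1 : Path P (T ++ U) [c, P.bar c] [c, P.bar c] := (hT.append hU).right [P.bar c]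
  rw [closure, del_cons, closure]
  change _ ++ del P κ (T ++ U ++ [(.cap, 0)]) [c, P.bar c] = _
  rw [del_append h1, del_append (s := [c, P.bar c]) (t := [d, P.bar c]) (hT.right [P.bar c])]
  have h2 : del P κ T [c, P.bar c] = del P κ T [c] := del_right hT [P.bar c]
  have h3 : del P κ U [d, P.bar c] = del P κ U [d] := del_right hU [P.bar c]
  rw [h2, h3]
  simp [delL, del, hc]

/-! ### Deletions in the link with the circle -/

theorem del_ins_keep {u v : Word Bool} {l r : List Bool} {p q : Bool} {b : Bool}
    (hu : Path (triv Bool) u [] (l ++ p :: q :: r)) (hv : Path (triv Bool) v (l ++ p :: q :: r) [])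
    (hul : ∀ x, HasLabel x u → x = true) (hvl : ∀ x, HasLabel x v → x = true) :
    del (triv Bool) id (gins u l.length (gad b false) v) [] = u ++ v := by
  have hS : Closed (triv Bool) {x | x = true} := ⟨fun _ h => h, fun _ h _ _ => h⟩
  have hl : ∀ x ∈ l ++ p :: q :: r, x = true := path_labels hS hu hul (by simp)
  have hp : p = true := hl p (by simp)
  have hq : q = true := hl q (by simp)
  have hg : Path (triv Bool) (shift l.length (gad b false)) (l ++ p :: q :: r)
      (l ++ p :: q :: r) := (gad_triv b false p q r).left l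
  rw [gins, del_append hu, del_append hg, del_left,
    del_eq_self (κ := id) (compat_triv _) hu (fun x hx => hul x hx) (by simp),
    del_eq_self (κ := id) (compat_triv _) hv (fun x hx => hvl x hx) (fun x hx => hl x hx)]
  have : del (triv Bool) id (gad b false) (p :: q :: r) = [] := by
    rw [hp, hq]
    cases b <;> simp [gad, claspKind, del, delL, nxt, triv]
  rw [this]
  simp

theorem del_ins_drop {u v : Word Bool} {l r : List Bool} {p q : Bool} {b : Bool}
    (hu : Path (triv Bool) u [] (l ++ p :: q :: r)) (hv : Path (triv Bool) v (l ++ p :: q :: r) [])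
    (hul : ∀ x, HasLabel x u → x = true) (hvl : ∀ x, HasLabel x v → x = true) :
    del (triv Bool) not (gins u l.length (gad b false) v) [] = [(.cup false, 0), (.cap, 0)] := by
  have hS : Closed (triv Bool) {x | x = true} := ⟨fun _ h => h, fun _ h _ _ => h⟩
  have hl : ∀ x ∈ l ++ p :: q :: r, x = true := path_labels hS hu hul (by simp)
  have hp : p = true := hl p (by simp)
  have hq : q = true := hl q (by simp)
  have hg : Path (triv Bool) (shift l.length (gad b false)) (l ++ p :: q :: r)
      (l ++ p :: q :: r) := (gad_triv b false p q r).left l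
  rw [gins, del_append hu, del_append hg, del_left,
    del_eq_empty (compat_triv _) hu (fun x hx => by rw [hul x hx]; rfl) (by simp),
    del_eq_empty (compat_triv _) hv (fun x hx => by rw [hvl x hx]; rfl)
      (fun x hx => by rw [hl x hx]; rfl)]
  have h1 : del (triv Bool) not (gad b false) (p :: q :: r) = [(.cup false, 0), (.cap, 0)] := by
    rw [hp, hq]
    cases b <;> simp [gad, claspKind, del, delL, nxt, triv]
  have h2 : l.filter not = [] := by
    rw [List.filter_eq_nil_iff]
    intro x hx
    rw [hl x (by simp [hx])]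
    simp
  rw [h1, h2]
  simp

end Pool.Agent.Lib.MP_131179_gt
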