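import Pool.Agent.Lib.MP_131179_gt.TwoComp

/-!
# A knot together with a circle with nontrivial holonomy is prime
-/

set_option autoImplicit false
set_option linter.unusedSimpArgs false

namespace Pool.Agent.Lib.MP_131179_gt

section

variable {G : Type} [Group G]

/-- Labels: elements of a group together with an integer. -/
abbrev HZ (G : Type) : Type := G × Multiplicative ℤ

/-- The trivial action on a point. -/
def φ0 (G : Type) [Group G] : HZ G →* Equiv.Perm Unit := 1

/-- The action on the integers by translation. -/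
def φZ (G : Type) [Group G] : HZ G →* Equiv.Perm (Multiplicative ℤ) :=
  (MulAction.toPermHom (Multiplicative ℤ) (Multiplicative ℤ)).comp (MonoidHom.snd G _)

/-- The action on the group by multiplication on the left. -/
def φG (G : Type) [Group G] : HZ G →* Equiv.Perm G :=
  (MulAction.toPermHom G G).comp (MonoidHom.fst G _)

@[simp] theorem φ0_apply (h : HZ G) (y : Unit) : φ0 G h y = () := rfl
@[simp] theorem φZ_apply (h : HZ G) (y : Multiplicative ℤ) : φZ G h y = h.2 * y := rfl
@[simp] theorem φG_apply (h : HZ G) (y : G) : φG G h y = h.1 * y := rfl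

/-- Forget the label in the set on which the group acts. -/
def fgt {H Y : Type} : H ⊕ Y → H ⊕ Unit := Sum.map id fun _ => ()

theorem isHom_fgt {Y : Type} (φ : HZ G →* Equiv.Perm Y) : IsHom (hol φ) (hol (φ0 G)) fgt :=
  isHom_sum _ _ _ fun _ _ => rfl

/-- The labelling extends to a labelling with integers on the circle. -/
def HasZ (W : Word (HZ G ⊕ Unit)) : Prop :=
  ∃ W' : Word (HZ G ⊕ Multiplicative ℤ), wmap fgt W' = W ∧ Path (hol (φZ G)) W' [] []

/-- The labelling extends to a labelling with group elements on the circle. -/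
def HasG (W : Word (HZ G ⊕ Unit)) : Prop :=
  ∃ W' : Word (HZ G ⊕ G), wmap fgt W' = W ∧ Path (hol (φG G)) W' [] []

theorem HasZ.eqv {W W' : Word (HZ G ⊕ Unit)} (h : HasZ W)
    (hW : Eqv (hol (φ0 G)) W W' [] []) : HasZ W' := by
  obtain ⟨V, h1, h2⟩ := h
  obtain ⟨V', h3, h4⟩ := hW.lift (isHom_fgt _) h1 rfl h2
  exact ⟨V', h3, h4.path_right⟩

theorem HasG.eqv {W W' : Word (HZ G ⊕ Unit)} (h : HasG W)
    (hW : Eqv (hol (φ0 G)) W W' [] []) : HasG W' := by
  obtain ⟨V, h1, h2⟩ := h
  obtain ⟨V', h3, h4⟩ := hW.lift (isHom_fgt _) h1 rfl h2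
  exact ⟨V', h3, h4.path_right⟩

/-- The integer labels are `1` or `-1`. -/
def pm (x : HZ G) : Prop := x.2 = Multiplicative.ofAdd 1 ∨ x.2 = Multiplicative.ofAdd (-1)

theorem pm_inv {x : HZ G} (h : pm x) : pm x⁻¹ := by
  rcases h with h | h
  · right; rw [Prod.snd_inv, h]; rfl
  · left; rw [Prod.snd_inv, h]; rfl

theorem pm_conj {x y : HZ G} (h : pm x) : pm (y⁻¹ * x * y) := by
  have : (y⁻¹ * x * y).2 = x.2 := by
    simp only [Prod.snd_mul, Prod.snd_inv]
    rw [mul_comm, ← mul_assoc, mul_inv_cancel, one_mul]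
  unfold pm
  rw [this]
  exact h

theorem closed_pm {Y : Type} (φ : HZ G →* Equiv.Perm Y) :
    Closed (hol φ) {x | ∀ y : HZ G, x = Sum.inl y → pm y} := by
  refine ⟨fun x hx y hy => ?_, fun x hx z _ y hy => ?_⟩
  · cases x with
    | inl x =>
      simp only [hol_bar_inl, Sum.inl.injEq] at hy
      subst hy
      exact pm_inv (hx x rfl)
    | inr x => simp at hy
  · cases x with
    | inl x =>
      cases z with
      | inl z =>
        simp only [hol_act_ll, Sum.inl.injEq] at hy
        subst hy
        exact pm_conj (hx x rfl)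
      | inr z =>
        simp only [hol_act_lr, Sum.inl.injEq] at hy
        subst hy
        exact hx _ rfl
    | inr x =>
      cases z <;> simp at hy

/-- A knot `K` together with an unknotted circle which has trivial integral holonomy and non-trivial
holonomy in the group. -/
structure KnotCircle (K M : Link) (W : Word (HZ G ⊕ Unit)) : Prop where
  two : TwoComp K unknot M (wmap Sum.isLeft W)
  path : Path (hol (φ0 G)) W [] []
  z : HasZ W
  g : ¬ HasG W
  pm : ∀ x : HZ G, HasLabel (Sum.inl x) W → pm x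

variable {K M : Link} {W : Word (HZ G ⊕ Unit)}

theorem KnotCircle.eqv (h : KnotCircle K M W) {W' : Word (HZ G ⊕ Unit)}
    (hW : Eqv (hol (φ0 G)) W W' [] []) : KnotCircle K M W' where
  two := h.two.eqv (hW.map (isHom_isLeft _))
  path := hW.path_right
  z := h.z.eqv hW
  g := fun hg => h.g (hg.eqv hW.symm)
  pm := fun x hx => labels_of_eqv (closed_pm (φ0 G)) hW
    (fun _ hz y hy => h.pm y (hy ▸ hz)) _ hx x rfl

theorem KnotCircle.diag (h : KnotCircle K M W) : IsDiag (erase W) M := by
  have := h.two.diag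
  rwa [erase_wmap] at this

theorem KnotCircle.transfer (h : KnotCircle K M W) {v : Word Unit} (hv : IsDiag v M) :
    ∃ W' : Word (HZ G ⊕ Unit), erase W' = v ∧ KnotCircle K M W' := by
  have hp := h.path
  obtain ⟨W', h1, h2⟩ := lift_diag (u := W) rfl hp h.diag hv
  exact ⟨W', h1, h.eqv h2⟩

theorem closed_right {H Y : Type} [Group H] (φ : H →* Equiv.Perm Y) :
    Closed (hol φ) {x | x.isLeft = false} := by
  refine ⟨fun x hx => ?_, fun x hx y _ => ?_⟩
  · cases x <;> simp_all
  · cases x <;> cases y <;> simp_all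

/-- Group elements on a circle without crossings with the knot. -/
def fG : HZ G ⊕ Unit → HZ G ⊕ G := Sum.map id fun _ => 1

theorem fgt_fG (x : HZ G ⊕ Unit) : fgt (fG x) = x := by cases x <;> rfl

theorem path_fG {w : Word (HZ G ⊕ Unit)} (h : Path (hol (φ0 G)) w [] [])
    (hw : (∀ x, HasLabel x w → x.isLeft = true) ∨ (∀ x, HasLabel x w → x.isLeft = false)) :
    Path (hol (φG G)) (wmap fG w) [] [] := by
  rcases hw with hw | hw
  · refine h.mapOn (closed_left _) (fun x hx => ?_) (fun x hx y hy => ?_) hw (by simp)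
    · cases x <;> simp_all [fG]
    · cases x <;> cases y <;> simp_all [fG]
  · refine h.mapOn (closed_right _) (fun x hx => ?_) (fun x hx y hy => ?_) hw (by simp)
    · cases x <;> simp_all [fG]
    · cases x <;> cases y <;> simp_all [fG]

omit [Group G] in
theorem isLeft_label {Y : Type} {w : Word (HZ G ⊕ Y)} {b : Bool}
    (h : ∀ x, HasLabel x (wmap Sum.isLeft w) → x = b) : ∀ x, HasLabel x w → x.isLeft = b :=
  fun _ hx => h _ (hx.map Sum.isLeft)

theorem KnotCircle.not_split (h : KnotCircle K M W) : ¬ IsSplit M := by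
  rintro ⟨p, q, hp, hq, h1, h2, h3⟩
  obtain ⟨W', h4, h5⟩ := h.transfer h3
  obtain ⟨p', q', rfl, rfl, rfl⟩ := wmap_eq_append h4
  have hpath := h5.path
  obtain ⟨t, hp1, hq1⟩ := path_append_iff.1 hpath
  obtain ⟨t', ht, hp2, hp3⟩ := path_unright (s := []) (r := []) h1 rfl hp1
  have ht0 : t' = [] := List.length_eq_zero_iff.1 (by simpa using hp3)
  subst ht0
  simp only [List.append_nil] at ht
  subst ht
  have hp0 : p' ≠ [] := fun e => hp (by rw [e]; rfl)
  have hq0 : q' ≠ [] := fun e => hq (by rw [e]; rfl)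
  have key := h5.two.split (wmap_append _ _ _) (fun e => hp0 (wmap_eq_nil.1 e))
    (fun e => hq0 (wmap_eq_nil.1 e)) (hp1.map (isHom_isLeft _)) (hq1.map (isHom_isLeft _))
  apply h5.g
  refine ⟨wmap fG p' ++ wmap fG q', ?_, ?_⟩
  · rw [wmap_append, wmap_wmap, wmap_wmap]
    have : (fgt ∘ fG : HZ G ⊕ Unit → HZ G ⊕ Unit) = fun x => x := funext fgt_fG
    rw [this, wmap_id', wmap_id']
  · rcases key with ⟨k1, k2⟩ | ⟨k1, k2⟩
    · exact (path_fG hp1 (Or.inl (isLeft_label k1))).append
        (path_fG hq1 (Or.inr (isLeft_label k2)))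
    · exact (path_fG hp1 (Or.inr (isLeft_label k1))).append
        (path_fG hq1 (Or.inl (isLeft_label k2)))

/-! ### Connected sums -/

/-- Integer labels are turned into powers of `a`. -/
def fZG (a : G) (ε : ℤ) : HZ G ⊕ Multiplicative ℤ → HZ G ⊕ G :=
  Sum.map id fun n => a ^ (Multiplicative.toAdd n * ε)

theorem fgt_fZG (a : G) (ε : ℤ) (x : HZ G ⊕ Multiplicative ℤ) : fgt (fZG a ε x) = fgt x := by
  cases x <;> rfl

/-- The labels `h`, `h⁻¹` and all integers. -/
def SZ (h : HZ G) : Set (HZ G ⊕ Multiplicative ℤ) :=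
  {x | x = Sum.inl h ∨ x = Sum.inl h⁻¹ ∨ x.isLeft = false}

theorem closed_SZ (h : HZ G) : Closed (hol (φZ G)) (SZ h) := by
  refine ⟨fun x hx => ?_, fun x hx y hy => ?_⟩
  · rcases hx with rfl | rfl | hx
    · right; left; rfl
    · left; simp
    · right; right
      cases x <;> simp_all
  · rcases hx with rfl | rfl | hx
    · left
      rcases hy with rfl | rfl | hy
      · simp
      · simp
      · cases y with
        | inl y => simp at hy
        | inr y => rfl
    · right; left
      rcases hy with rfl | rfl | hy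
      · simp
      · simp
      · cases y with
        | inl y => simp at hy
        | inr y => rfl
    · right; right
      cases x with
      | inl x => simp at hx
      | inr x => cases y <;> rfl

theorem path_fZG {h : HZ G} {ε : ℤ} (hε : ε = 1 ∨ ε = -1) (hh : h.2 = Multiplicative.ofAdd ε)
    {w : Word (HZ G ⊕ Multiplicative ℤ)} {s t : List (HZ G ⊕ Multiplicative ℤ)}
    (hp : Path (hol (φZ G)) w s t)
    (hw : ((∀ x, HasLabel x w → x.isLeft = true) ∧ (∀ x ∈ s, x.isLeft = true)) ∨
      ((∀ x, HasLabel x w → x ∈ SZ h) ∧ (∀ x ∈ s, x ∈ SZ h))) :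
    Path (hol (φG G)) (wmap (fZG h.1 ε) w) (s.map (fZG h.1 ε)) (t.map (fZG h.1 ε)) := by
  rcases hw with ⟨hw, hs⟩ | ⟨hw, hs⟩
  · refine hp.mapOn (closed_left _) (fun x hx => ?_) (fun x hx y hy => ?_) hw hs
    · cases x <;> simp_all [fZG]
    · cases x <;> cases y <;> simp_all [fZG]
  · have hee : ε * ε = 1 := by rcases hε with rfl | rfl <;> norm_num
    refine hp.mapOn (closed_SZ h) (fun x hx => ?_) (fun x hx y hy => ?_) hw hs
    · cases x <;> simp_all [fZG]
    · cases x with
      | inl x => cases y <;> rfl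
      | inr x =>
        cases y with
        | inr y => rfl
        | inl y =>
          have hy' : y = h ∨ y = h⁻¹ := by
            rcases hy with hy | hy | hy
            · left; simpa using hy
            · right; simpa using hy
            · simp at hy
          rcases hy' with rfl | rfl
          · change Sum.inr _ = Sum.inr _
            congr 1
            change y.1 ^ ((Multiplicative.toAdd (y.2⁻¹ * x)) * ε) =
              y.1⁻¹ * y.1 ^ (Multiplicative.toAdd x * ε)
            rw [hh, toAdd_mul, toAdd_inv, toAdd_ofAdd, add_mul, neg_mul, hee, zpow_add, zpow_neg,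
              zpow_one]
          · change Sum.inr _ = Sum.inr _
            congr 1
            change h.1 ^ ((Multiplicative.toAdd ((h.2⁻¹)⁻¹ * x)) * ε) =
              (h.1⁻¹)⁻¹ * h.1 ^ (Multiplicative.toAdd x * ε)
            rw [inv_inv, inv_inv, hh, toAdd_mul, toAdd_ofAdd, add_mul, hee, zpow_add, zpow_one]

/-- The summands of a sublink. -/
theorem connSum_del {N : Link} {κ : Bool → Bool} {c : Bool} (hc : κ c = true) {T U : Word Bool}
    (hT : Path (triv Bool) T [c] [c]) (hU : Path (triv Bool) U [c] [c])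
    (hd : IsDiag (erase (del (triv Bool) κ (closure c (T ++ U)) [])) N) :
    ∃ A B, IsConnSum N A B ∧ IsDiag (closure () (erase (del (triv Bool) κ T [c]))) A ∧
      IsDiag (closure () (erase (del (triv Bool) κ U [c]))) B := by
  have hT' := del_path (compat_triv κ) hT
  have hU' := del_path (compat_triv κ) hU
  have hf : [c].filter κ = [c] := by simp [hc]
  rw [hf] at hT' hU'
  rw [del_closure hc hT hU, erase_closure] at hd
  have h1 : Path (triv Unit) (erase (del (triv Bool) κ T [c])) [()] [()] := hT'.map (isHom_unit _)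
  have h2 : Path (triv Unit) (erase (del (triv Bool) κ U [c])) [()] [()] := hU'.map (isHom_unit _)
  obtain ⟨A, hA⟩ := isDiag_mk (closure_path' h1)
  obtain ⟨B, hB⟩ := isDiag_mk (closure_path' h2)
  refine ⟨A, B, ⟨_, _, h1, h2, hA, hB, ?_⟩, hA, hB⟩
  rwa [erase, wmap_append] at hd

/-- If the knotted part of the tangle is trivial, then its labels are `x` and `x⁻¹`. -/
theorem labels_of_trivial {T' : Word (HZ G ⊕ Unit)} {x : HZ G}
    (hT : Path (hol (φ0 G)) T' [Sum.inl x] [Sum.inl x])
    (hd : IsDiag (closure () (erase (del (triv Bool) id (wmap Sum.isLeft T') [true]))) unknot)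
    {y : HZ G} (hy : HasLabel (Sum.inl y) T') : y = x ∨ y = x⁻¹ := by
  have h1 := del_path (compat_isLeft (φ0 G)) hT
  have hf : [(Sum.inl x : HZ G ⊕ Unit)].filter Sum.isLeft = [Sum.inl x] := rfl
  rw [hf] at h1
  have h2 := del_wmap (κ := id) (isHom_isLeft (φ0 G)) hT
  have h3 : [(Sum.inl x : HZ G ⊕ Unit)].map Sum.isLeft = [true] := rfl
  rw [h3] at h2
  rw [h2, erase_wmap] at hd
  change IsDiag (closure () (erase (del (hol (φ0 G)) Sum.isLeft T' [Sum.inl x]))) unknot at hd
  rw [← erase_closure (Sum.inl x : HZ G ⊕ Unit)] at hd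
  obtain ⟨v', h4, h5⟩ := lift_diag (P := hol (φ0 G)) rfl (closure_path' h1) hd isDiag_unknot
  obtain ⟨z, rfl⟩ := eq_of_erase_unknot h4
  have hl : ∀ w, HasLabel w (closure (Sum.inl x : HZ G ⊕ Unit)
      (del (hol (φ0 G)) Sum.isLeft T' [Sum.inl x])) → w.isLeft = true := by
    intro w hw
    rw [closure, hasLabel_cons, hasLabel_append, hasLabel_del hT, hasLabel_cons] at hw
    rcases hw with hw | hw | hw | hw
    · simp only [Kind.cup.injEq] at hw
      rw [← hw]; rfl
    · exact hw.2
    · simp at hw
    · simp at hw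
  have hz : z.isLeft = true := labels_of_eqv (closed_left _) h5 hl z (hasLabel_unknot.2 rfl)
  cases z with
  | inr z => simp at hz
  | inl g =>
    have hS : Closed (hol (φ0 G)) {w | w = Sum.inl g ∨ w = Sum.inl g⁻¹} := by
      refine ⟨fun w hw => ?_, fun w hw w' hw' => ?_⟩
      · rcases hw with rfl | rfl
        · right; rfl
        · left; simp
      · rcases hw with rfl | rfl <;> rcases hw' with rfl | rfl <;> simp
    have key := labels_of_eqv hS h5.symm (fun w hw => Or.inl (hasLabel_unknot.1 hw))
    have hx : x = g ∨ x = g⁻¹ := by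
      have := key (Sum.inl x) (by rw [closure, hasLabel_cons]; exact Or.inl rfl)
      simpa using this
    have hy' : y = g ∨ y = g⁻¹ := by
      have := key (Sum.inl y) (by
        rw [closure, hasLabel_cons, hasLabel_append, hasLabel_del hT]
        exact Or.inr (Or.inl ⟨hy, rfl⟩))
      simpa using this
    rcases hx with rfl | rfl <;> rcases hy' with rfl | rfl <;> simp

/-- The main contradiction. -/
theorem KnotCircle.contra {x : HZ G} {T' U' : Word (HZ G ⊕ Unit)} {T U : Word Unit}
    (hT : Path (triv Unit) T [()] [()]) (hU : Path (triv Unit) U [()] [()])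
    (eT : erase T' = T) (eU : erase U' = U)
    (h : KnotCircle K M (closure (Sum.inl x) (T' ++ U')))
    (hT' : (∀ y, HasLabel y T' → y.isLeft = true) ∨
      (∀ y : HZ G, HasLabel (Sum.inl y) T' → y = x ∨ y = x⁻¹))
    (hU' : (∀ y, HasLabel y U' → y.isLeft = true) ∨
      (∀ y : HZ G, HasLabel (Sum.inl y) U' → y = x ∨ y = x⁻¹)) : False := by
  obtain ⟨W2, h1, h2⟩ := h.z
  have e1 : erase W2 = closure () (T ++ U) := by
    have : erase W2 = erase (wmap fgt W2) := (erase_wmap _ _).symm
    rw [this, h1, erase_closure, erase, wmap_append]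
    exact congrArg (closure ()) (by rw [← eT, ← eU])
  obtain ⟨c, d, T2, U2, rfl, eT2, eU2, pT, pU⟩ := closure_labelled hT hU e1 h2
  rw [wmap_closure, wmap_append, closure, closure] at h1
  simp only [List.cons.injEq, Prod.mk.injEq, Kind.cup.injEq, and_true] at h1
  obtain ⟨hc, h3⟩ := h1
  have h4 := List.append_cancel_right h3
  obtain ⟨h5, h6⟩ := List.append_inj h4 (by
    have l1 : (wmap fgt T2).length = (erase T2).length := by simp [erase, wmap]
    have l2 : T'.length = (erase T').length := by simp [erase, wmap]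
    rw [l1, l2, eT2, eT])
  have hc' : c = Sum.inl x := by
    cases c with
    | inl c => simpa [fgt] using hc
    | inr c => simp [fgt] at hc
  subst hc'
  have hd : d = Sum.inl x := by
    rcases ends_hol pT with ⟨x', e2, e3⟩ | ⟨y, z, e2, e3⟩
    · simp only [Sum.inl.injEq] at e2
      rw [e3, e2]
    · simp at e2
  subst hd
  obtain ⟨ε, hε, hh⟩ : ∃ ε : ℤ, (ε = 1 ∨ ε = -1) ∧ x.2 = Multiplicative.ofAdd ε := by
    rcases h.pm x (by rw [closure, hasLabel_cons]; exact Or.inl rfl) with h7 | h7
    · exact ⟨1, Or.inl rfl, h7⟩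
    · exact ⟨-1, Or.inr rfl, h7⟩
  have aux : ∀ {V2 : Word (HZ G ⊕ Multiplicative ℤ)} {V' : Word (HZ G ⊕ Unit)},
      wmap fgt V2 = V' → ((∀ y, HasLabel y V' → y.isLeft = true) ∨
        (∀ y : HZ G, HasLabel (Sum.inl y) V' → y = x ∨ y = x⁻¹)) →
      ((∀ y, HasLabel y V2 → y.isLeft = true) ∧
        (∀ y ∈ [(Sum.inl x : HZ G ⊕ Multiplicative ℤ)], y.isLeft = true)) ∨
      ((∀ y, HasLabel y V2 → y ∈ SZ x) ∧
        (∀ y ∈ [(Sum.inl x : HZ G ⊕ Multiplicative ℤ)], y ∈ SZ x)) := by
    intro V2 V' e2 h7
    rcases h7 with h7 | h7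
    · left
      refine ⟨fun y hy => ?_, by simp⟩
      have h8 := h7 (fgt y) (e2 ▸ hy.map fgt)
      cases y with
      | inl y => rfl
      | inr y => simp [fgt] at h8
    · right
      refine ⟨fun y hy => ?_, ?_⟩
      · cases y with
        | inr y => right; right; rfl
        | inl y =>
          have h8 : y = x ∨ y = x⁻¹ := h7 y (e2 ▸ hy.map fgt)
          rcases h8 with rfl | rfl
          · left; rfl
          · right; left; rfl
      · intro y hy
        rw [List.mem_singleton] at hy
        rw [hy]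
        left; rfl
  have k1 := path_fZG hε hh pT (aux h5 hT')
  have k2 := path_fZG hε hh pU (aux h6 hU')
  have e4 : [(Sum.inl x : HZ G ⊕ Multiplicative ℤ)].map (fZG x.1 ε) = [Sum.inl x] := rfl
  rw [e4] at k1 k2
  apply h.g
  refine ⟨closure (Sum.inl x) (wmap (fZG x.1 ε) T2 ++ wmap (fZG x.1 ε) U2), ?_,
    closure_path2 k1 k2⟩
  rw [wmap_closure, wmap_append, wmap_wmap, wmap_wmap]
  have : (fgt ∘ fZG x.1 ε : HZ G ⊕ Multiplicative ℤ → HZ G ⊕ Unit) = fgt :=
    funext (fgt_fZG x.1 ε)
  rw [this, h5, h6]
  rfl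

theorem KnotCircle.connSum (hN : NoInverse) (hK : IsPrime K) (h : KnotCircle K M W)
    {A B : Link} (hs : IsConnSum M A B) : A = unknot ∨ B = unknot := by
  obtain ⟨T, U, hT, hU, hA, hB, hM⟩ := hs
  obtain ⟨W', h1, h2⟩ := h.transfer hM
  obtain ⟨c, d, T', U', rfl, eT, eU, pT, pU⟩ := closure_labelled hT hU h1 h2.path
  have hcd := ends_triv (pT.map (isHom_isLeft _))
  have pTc : Path (triv Bool) (wmap Sum.isLeft T') [c.isLeft] [c.isLeft] := by
    have := pT.map (isHom_isLeft _)
    rwa [List.map_singleton, List.map_singleton, ← hcd] at this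
  have pUc : Path (triv Bool) (wmap Sum.isLeft U') [c.isLeft] [c.isLeft] := by
    have := pU.map (isHom_isLeft _)
    rwa [List.map_singleton, List.map_singleton, ← hcd] at this
  have hW : wmap Sum.isLeft (closure c (T' ++ U')) =
      closure c.isLeft (wmap Sum.isLeft T' ++ wmap Sum.isLeft U') := by
    rw [wmap_closure, wmap_append]
  have side := h2.two.side hW pTc pUc
  -- the part of the tangle which only meets the component through the sphere
  have full : ∀ {V' : Word (HZ G ⊕ Unit)} {κ : Bool → Bool}, κ c.isLeft = true →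
      Path (triv Bool) (wmap Sum.isLeft V') [c.isLeft] [c.isLeft] →
      (∀ x, HasLabel x (wmap Sum.isLeft V') → x = c.isLeft) →
      erase (del (triv Bool) κ (wmap Sum.isLeft V') [c.isLeft]) = erase V' := by
    intro V' κ hκ hp hl
    rw [del_eq_self (compat_triv κ) hp (fun x hx => by rw [hl x hx, hκ]) (by simp [hκ]),
      erase_wmap]
  rcases ends_hol pT with ⟨x, rfl, rfl⟩ | ⟨y, z, rfl, rfl⟩
  · -- the strand belongs to the knot
    have hdK := h2.two.diagK
    rw [hW] at hdK
    obtain ⟨A', B', k1, k2, k3⟩ := connSum_del (κ := id) rfl pTc pUc hdK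
    have k4 := hK.2.2.2 A' B' k1
    rcases side with side | side
    · have f1 : erase (del (triv Bool) id (wmap Sum.isLeft T') [true]) = erase T' :=
        full (κ := id) rfl pTc side
      rw [f1, eT] at k2
      rcases k4 with k4 | k4
      · left; rw [← k4]; exact hA.unique k2
      · exfalso
        subst k4
        refine KnotCircle.contra hT hU eT eU h2 (Or.inl (isLeft_label side)) (Or.inr ?_)
        intro y hy
        exact labels_of_trivial pU k3 hy
    · have f1 : erase (del (triv Bool) id (wmap Sum.isLeft U') [true]) = erase U' :=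
        full (κ := id) rfl pUc side
      rw [f1, eU] at k3
      rcases k4 with k4 | k4
      · exfalso
        subst k4
        refine KnotCircle.contra hT hU eT eU h2 (Or.inr ?_) (Or.inl (isLeft_label side))
        intro y hy
        exact labels_of_trivial pT k2 hy
      · right; rw [← k4]; exact hB.unique k3
  · -- the strand belongs to the circle
    have hdJ := h2.two.diagJ
    rw [hW] at hdJ
    obtain ⟨A', B', k1, k2, k3⟩ := connSum_del (κ := not) rfl pTc pUc hdJ
    obtain ⟨k4, k5⟩ := hN A' B' k1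
    rcases side with side | side
    · have f1 := full (κ := not) rfl pTc side
      rw [f1, eT] at k2
      left; rw [← k4]; exact hA.unique k2
    · have f1 := full (κ := not) rfl pUc side
      rw [f1, eU] at k3
      right; rw [← k5]; exact hB.unique k3

/-- A prime knot together with a circle with nontrivial holonomy is prime. -/
theorem KnotCircle.isPrime (hN : NoInverse) (hK : IsPrime K) (h : KnotCircle K M W) :
    IsPrime M :=
  ⟨h.two.ne_empty, h.not_split, h.two.ne_unknot, fun _ _ hs => h.connSum hN hK hs⟩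

end

end Pool.Agent.Lib.MP_131179_gt
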