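import Pool.Agent.Lib.MP_131179_gt.Basic

/-!
# Labellings follow the moves

If two words are equivalent and the strands of the first one carry finer labels, then the second one
carries finer labels, and the finely labelled words are equivalent.
-/

set_option autoImplicit false

namespace Pool.Agent.Lib.MP_131179_gt

variable {C D : Type} {P : Palette C} {Q : Palette D}

/-! ### Distant tangles commute -/

theorem step_zero_append {k : Kind C} {s t : List C} (h : Step P k 0 s t) :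
    ∃ a b r : List C, a.length = k.inn ∧ b.length = k.out ∧ s = a ++ r ∧ t = b ++ r ∧
      ∀ r' : List C, Step P k 0 (a ++ r') (b ++ r') := by
  cases h with
  | cup c s => exact ⟨[], [c, P.bar c], s, rfl, rfl, rfl, rfl, fun r' => Step.cup c r'⟩
  | cap c s => exact ⟨[c, P.bar c], [], t, rfl, rfl, rfl, rfl, fun r' => Step.cap c r'⟩
  | pos a b s =>
    exact ⟨[a, b], [P.act b (P.bar a), a], s, rfl, rfl, rfl, rfl, fun r' => Step.pos a b r'⟩
  | neg a b s => exact ⟨[a, b], [b, P.act a b], s, rfl, rfl, rfl, rfl, fun r' => Step.neg a b r'⟩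

theorem step_append_cancel {k : Kind C} {i : ℕ} {a s t : List C}
    (h : Step P k (i + a.length) (a ++ s) t) : ∃ t', t = a ++ t' ∧ Step P k i s t' := by
  have h1 : Path P (shift a.length [(k, i)]) (a ++ s) t := path_single_iff.2 h
  obtain ⟨t', h2, h3⟩ := path_shift_append_iff.1 h1
  exact ⟨t', h2, path_single_iff.1 h3⟩

/-- Distant elementary tangles commute. -/
theorem far_path_iff {k l : Kind C} {g : ℕ} {s t : List C} :
    Path P [(k, 0), (l, k.out + g)] s t ↔ Path P [(l, k.inn + g), (k, 0)] s t := by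
  constructor
  · intro h
    obtain ⟨t1, h1, h2⟩ := path_cons_iff.1 h
    rw [path_single_iff] at h2
    obtain ⟨a, b, r, ha, hb, rfl, rfl, hab⟩ := step_zero_append h1
    rw [← hb, Nat.add_comm] at h2
    obtain ⟨r', rfl, h3⟩ := step_append_cancel h2
    refine Path.cons (t := a ++ r') ?_ (path_single_iff.2 (hab r'))
    rw [← ha, Nat.add_comm]
    exact h3.left a
  · intro h
    obtain ⟨t1, h1, h2⟩ := path_cons_iff.1 h
    rw [path_single_iff] at h2
    obtain ⟨a, b, r, ha, hb, rfl, rfl, hab⟩ := step_zero_append h2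
    rw [Nat.add_comm] at h1
    obtain ⟨l', s', t', hl, h3, h4, h5⟩ := step_add_iff.1 h1
    obtain ⟨rfl, rfl⟩ := List.append_inj h4 (by rw [ha, hl])
    subst h3
    refine Path.cons (hab s') (path_single_iff.2 ?_)
    rw [← hb, Nat.add_comm]
    exact h5.left b

/-! ### Lifting the elementary moves -/

theorem Kind.map_eq_cup {f : C → D} {k : Kind C} {d : D} (h : k.map f = .cup d) :
    ∃ c, k = .cup c ∧ f c = d := by
  cases k <;> simp_all [Kind.map]

theorem Kind.map_eq_cap {f : C → D} {k : Kind C} (h : k.map f = .cap) : k = .cap := by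
  cases k <;> simp_all [Kind.map]

theorem Kind.map_eq_pos {f : C → D} {k : Kind C} (h : k.map f = .pos) : k = .pos := by
  cases k <;> simp_all [Kind.map]

theorem Kind.map_eq_neg {f : C → D} {k : Kind C} (h : k.map f = .neg) : k = .neg := by
  cases k <;> simp_all [Kind.map]

theorem wmap_eq_nil {f : C → D} {w : Word C} : wmap f w = [] ↔ w = [] := by simp [wmap]

theorem wmap_eq_cons {f : C → D} {w : Word C} {k : Kind D} {i : ℕ} {v : Word D}
    (h : wmap f w = (k, i) :: v) : ∃ k' v', w = (k', i) :: v' ∧ k'.map f = k ∧ wmap f v' = v := by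
  cases w with
  | nil => simp at h
  | cons l w =>
    obtain ⟨k', j⟩ := l
    simp only [wmap_cons, List.cons.injEq, Prod.mk.injEq] at h
    obtain ⟨⟨h1, rfl⟩, h2⟩ := h
    exact ⟨k', w, rfl, h1, h2⟩

theorem wmap_eq_append {f : C → D} {w : Word C} {u v : Word D} (h : wmap f w = u ++ v) :
    ∃ u' v', w = u' ++ v' ∧ wmap f u' = u ∧ wmap f v' = v := by
  obtain ⟨u', v', h1, h2, h3⟩ := List.map_eq_append_iff.1 h
  exact ⟨u', v', h1, h2, h3⟩

theorem wmap_eq_shift {f : C → D} {w : Word C} {n : ℕ} {u : Word D} (h : wmap f w = shift n u) :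
    ∃ u', w = shift n u' ∧ wmap f u' = u := by
  induction u generalizing w with
  | nil => exact ⟨[], by simpa [wmap_eq_nil] using h, rfl⟩
  | cons l u ih =>
    obtain ⟨k, i⟩ := l
    rw [shift_cons] at h
    obtain ⟨k', v', rfl, h1, h2⟩ := wmap_eq_cons h
    obtain ⟨u', rfl, h3⟩ := ih h2
    exact ⟨(k', i) :: u', rfl, by rw [wmap_cons, h1, h3]⟩

/-! ### The effect of the elementary words -/

theorem Palette.act_bar_self (P : Palette C) (x : C) : P.act x (P.bar x) = x := by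
  have := P.act_act_bar x x
  rwa [P.act_self] at this

theorem Palette.act_bar_act (P : Palette C) (x y : C) : P.act (P.act x (P.bar y)) y = x := by
  have := P.act_act_bar x (P.bar y)
  rwa [P.bar_bar] at this

theorem step_cup {c : C} {s t : List C} :
    Step P (.cup c) 0 s t ↔ t = c :: P.bar c :: s :=
  ⟨fun h => by cases h; rfl, fun h => h ▸ Step.cup c s⟩

theorem step_cap {s t : List C} : Step P .cap 0 s t ↔ ∃ c, s = c :: P.bar c :: t :=
  ⟨fun h => by cases h; exact ⟨_, rfl⟩, fun ⟨c, h⟩ => h ▸ Step.cap c t⟩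

theorem step_pos {s t : List C} :
    Step P .pos 0 s t ↔ ∃ a b r, s = a :: b :: r ∧ t = P.act b (P.bar a) :: a :: r :=
  ⟨fun h => by cases h; exact ⟨_, _, _, rfl, rfl⟩, fun ⟨a, b, r, h, h'⟩ => h ▸ h' ▸ Step.pos a b r⟩

theorem step_neg {s t : List C} :
    Step P .neg 0 s t ↔ ∃ a b r, s = a :: b :: r ∧ t = b :: P.act a b :: r :=
  ⟨fun h => by cases h; exact ⟨_, _, _, rfl, rfl⟩, fun ⟨a, b, r, h, h'⟩ => h ▸ h' ▸ Step.neg a b r⟩

theorem step_one {k : Kind C} {s t : List C} :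
    Step P k 1 s t ↔ ∃ a s' t', s = a :: s' ∧ t = a :: t' ∧ Step P k 0 s' t' :=
  step_succ_iff (i := 0)

theorem path_zig {c : C} {s t : List C} : Path P [(.cup c, 1), (.cap, 0)] s t ↔
    s = t ∧ ∃ r, s = P.bar c :: r := by
  constructor
  · intro h
    obtain ⟨t1, h1, h2⟩ := path_cons_iff.1 h
    obtain ⟨a, s', t', rfl, rfl, h3⟩ := step_one.1 h1
    rw [step_cup] at h3
    subst h3
    obtain ⟨d, h4⟩ := step_cap.1 (path_single_iff.1 h2)
    simp only [List.cons.injEq] at h4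
    obtain ⟨rfl, rfl, rfl⟩ := h4
    rw [P.bar_bar]
    exact ⟨rfl, _, rfl⟩
  · rintro ⟨rfl, r, rfl⟩
    refine Path.cons (step_one.2 ⟨_, _, _, rfl, rfl, step_cup.2 rfl⟩)
      (path_single_iff.2 (step_cap.2 ⟨P.bar c, ?_⟩))
    rw [P.bar_bar]

theorem path_zag {c : C} {s t : List C} : Path P [(.cup c, 0), (.cap, 1)] s t ↔
    s = t ∧ ∃ r, s = c :: r := by
  constructor
  · intro h
    obtain ⟨t1, h1, h2⟩ := path_cons_iff.1 h
    rw [step_cup] at h1
    subst h1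
    obtain ⟨a, s', t', h3, rfl, h4⟩ := step_one.1 (path_single_iff.1 h2)
    obtain ⟨d, rfl⟩ := step_cap.1 h4
    simp only [List.cons.injEq] at h3
    obtain ⟨rfl, rfl, rfl⟩ := h3
    rw [P.bar_bar]
    exact ⟨rfl, _, rfl⟩
  · rintro ⟨rfl, r, rfl⟩
    refine Path.cons (step_cup.2 rfl)
      (path_single_iff.2 (step_one.2 ⟨_, _, _, rfl, rfl, step_cap.2 ⟨P.bar c, ?_⟩⟩))
    rw [P.bar_bar]

theorem path_cup_pos {c : C} {s t : List C} : Path P [(.cup c, 1), (.pos, 0)] s t ↔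
    ∃ x r, s = x :: r ∧ t = P.act c (P.bar x) :: x :: P.bar c :: r := by
  constructor
  · intro h
    obtain ⟨t1, h1, h2⟩ := path_cons_iff.1 h
    obtain ⟨a, s', t', rfl, rfl, h3⟩ := step_one.1 h1
    rw [step_cup] at h3
    subst h3
    obtain ⟨a, b, r, h4, rfl⟩ := step_pos.1 (path_single_iff.1 h2)
    simp only [List.cons.injEq] at h4
    obtain ⟨rfl, rfl, rfl⟩ := h4
    exact ⟨_, _, rfl, rfl⟩
  · rintro ⟨x, r, rfl, rfl⟩
    exact Path.cons (step_one.2 ⟨_, _, _, rfl, rfl, step_cup.2 rfl⟩)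
      (path_single_iff.2 (step_pos.2 ⟨_, _, _, rfl, rfl⟩))

theorem path_cup_neg {c : C} {s t : List C} : Path P [(.cup c, 1), (.neg, 0)] s t ↔
    ∃ x r, s = x :: r ∧ t = c :: P.act x c :: P.bar c :: r := by
  constructor
  · intro h
    obtain ⟨t1, h1, h2⟩ := path_cons_iff.1 h
    obtain ⟨a, s', t', rfl, rfl, h3⟩ := step_one.1 h1
    rw [step_cup] at h3
    subst h3
    obtain ⟨a, b, r, h4, rfl⟩ := step_neg.1 (path_single_iff.1 h2)
    simp only [List.cons.injEq] at h4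
    obtain ⟨rfl, rfl, rfl⟩ := h4
    exact ⟨_, _, rfl, rfl⟩
  · rintro ⟨x, r, rfl, rfl⟩
    exact Path.cons (step_one.2 ⟨_, _, _, rfl, rfl, step_cup.2 rfl⟩)
      (path_single_iff.2 (step_neg.2 ⟨_, _, _, rfl, rfl⟩))

theorem path_cup_neg' {d : C} {s t : List C} : Path P [(.cup d, 0), (.neg, 1)] s t ↔
    ∃ x r, s = x :: r ∧ t = d :: x :: P.act (P.bar d) x :: r := by
  constructor
  · intro h
    obtain ⟨t1, h1, h2⟩ := path_cons_iff.1 h
    rw [step_cup] at h1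
    subst h1
    obtain ⟨a, s', t', h3, rfl, h4⟩ := step_one.1 (path_single_iff.1 h2)
    obtain ⟨a, b, r, rfl, rfl⟩ := step_neg.1 h4
    simp only [List.cons.injEq] at h3
    obtain ⟨rfl, rfl, rfl⟩ := h3
    exact ⟨_, _, rfl, rfl⟩
  · rintro ⟨x, r, rfl, rfl⟩
    exact Path.cons (step_cup.2 rfl)
      (path_single_iff.2 (step_one.2 ⟨_, _, _, rfl, rfl, step_neg.2 ⟨_, _, _, rfl, rfl⟩⟩))

theorem path_cup_pos' {d : C} {s t : List C} : Path P [(.cup d, 0), (.pos, 1)] s t ↔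
    ∃ x r, s = x :: r ∧ t = d :: P.act x d :: P.bar d :: r := by
  constructor
  · intro h
    obtain ⟨t1, h1, h2⟩ := path_cons_iff.1 h
    rw [step_cup] at h1
    subst h1
    obtain ⟨a, s', t', h3, rfl, h4⟩ := step_one.1 (path_single_iff.1 h2)
    obtain ⟨a, b, r, rfl, rfl⟩ := step_pos.1 h4
    simp only [List.cons.injEq] at h3
    obtain ⟨rfl, rfl, rfl⟩ := h3
    rw [P.bar_bar]
    exact ⟨_, _, rfl, rfl⟩
  · rintro ⟨x, r, rfl, rfl⟩
    refine Path.cons (step_cup.2 rfl)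
      (path_single_iff.2 (step_one.2 ⟨_, _, _, rfl, rfl, step_pos.2 ⟨_, _, _, rfl, ?_⟩⟩))
    rw [P.bar_bar]

theorem path_pos_cap {s t : List C} : Path P [(.pos, 0), (.cap, 1)] s t ↔
    ∃ a b r, s = a :: b :: P.bar a :: r ∧ t = P.act b (P.bar a) :: r := by
  constructor
  · intro h
    obtain ⟨t1, h1, h2⟩ := path_cons_iff.1 h
    obtain ⟨a, b, r, rfl, rfl⟩ := step_pos.1 h1
    obtain ⟨a, s', t', h3, rfl, h4⟩ := step_one.1 (path_single_iff.1 h2)
    obtain ⟨d, rfl⟩ := step_cap.1 h4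
    simp only [List.cons.injEq] at h3
    obtain ⟨rfl, rfl, rfl⟩ := h3
    exact ⟨_, _, _, rfl, rfl⟩
  · rintro ⟨a, b, r, rfl, rfl⟩
    exact Path.cons (step_pos.2 ⟨_, _, _, rfl, rfl⟩)
      (path_single_iff.2 (step_one.2 ⟨_, _, _, rfl, rfl, step_cap.2 ⟨_, rfl⟩⟩))

theorem path_neg_cap' {s t : List C} : Path P [(.neg, 1), (.cap, 0)] s t ↔
    ∃ a b r, s = a :: b :: P.bar a :: r ∧ t = P.act b (P.bar a) :: r := by
  constructor
  · intro h
    obtain ⟨t1, h1, h2⟩ := path_cons_iff.1 h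
    obtain ⟨a, s', t', rfl, rfl, h3⟩ := step_one.1 h1
    obtain ⟨a, b, r, rfl, rfl⟩ := step_neg.1 h3
    obtain ⟨d, h4⟩ := step_cap.1 (path_single_iff.1 h2)
    simp only [List.cons.injEq] at h4
    obtain ⟨rfl, rfl, rfl⟩ := h4
    exact ⟨_, _, _, rfl, rfl⟩
  · rintro ⟨a, b, r, rfl, rfl⟩
    exact Path.cons (step_one.2 ⟨_, _, _, rfl, rfl, step_neg.2 ⟨_, _, _, rfl, rfl⟩⟩)
      (path_single_iff.2 (step_cap.2 ⟨_, rfl⟩))

theorem path_neg_cap {s t : List C} : Path P [(.neg, 0), (.cap, 1)] s t ↔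
    ∃ a b r, s = a :: b :: P.bar (P.act a b) :: r ∧ t = b :: r := by
  constructor
  · intro h
    obtain ⟨t1, h1, h2⟩ := path_cons_iff.1 h
    obtain ⟨a, b, r, rfl, rfl⟩ := step_neg.1 h1
    obtain ⟨a, s', t', h3, rfl, h4⟩ := step_one.1 (path_single_iff.1 h2)
    obtain ⟨d, rfl⟩ := step_cap.1 h4
    simp only [List.cons.injEq] at h3
    obtain ⟨rfl, rfl, rfl⟩ := h3
    exact ⟨_, _, _, rfl, rfl⟩
  · rintro ⟨a, b, r, rfl, rfl⟩
    exact Path.cons (step_neg.2 ⟨_, _, _, rfl, rfl⟩)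
      (path_single_iff.2 (step_one.2 ⟨_, _, _, rfl, rfl, step_cap.2 ⟨_, rfl⟩⟩))

theorem path_pos_cap' {s t : List C} : Path P [(.pos, 1), (.cap, 0)] s t ↔
    ∃ a b r, s = a :: b :: P.bar (P.act a b) :: r ∧ t = b :: r := by
  constructor
  · intro h
    obtain ⟨t1, h1, h2⟩ := path_cons_iff.1 h
    obtain ⟨a, s', t', rfl, rfl, h3⟩ := step_one.1 h1
    obtain ⟨b, c, r, rfl, rfl⟩ := step_pos.1 h3
    obtain ⟨d, h4⟩ := step_cap.1 (path_single_iff.1 h2)
    simp only [List.cons.injEq] at h4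
    obtain ⟨rfl, h5, rfl⟩ := h4
    refine ⟨a, b, r, ?_, rfl⟩
    rw [← P.act_bar, ← h5, P.act_bar_act]
  · rintro ⟨a, b, r, rfl, rfl⟩
    refine Path.cons (step_one.2 ⟨_, _, _, rfl, rfl, step_pos.2 ⟨_, _, _, rfl, rfl⟩⟩)
      (path_single_iff.2 (step_cap.2 ⟨a, ?_⟩))
    rw [P.act_bar, P.act_act_bar]

theorem path_r1CupPos {c : C} {s t : List C} : Path P [(.cup c, 0), (.pos, 0)] s t ↔
    t = P.bar c :: c :: s := by
  constructor
  · intro h
    obtain ⟨t1, h1, h2⟩ := path_cons_iff.1 h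
    rw [step_cup] at h1
    subst h1
    obtain ⟨a, b, r, h3, rfl⟩ := step_pos.1 (path_single_iff.1 h2)
    simp only [List.cons.injEq] at h3
    obtain ⟨rfl, rfl, rfl⟩ := h3
    rw [P.act_self]
  · rintro rfl
    refine Path.cons (step_cup.2 rfl) (path_single_iff.2 (step_pos.2 ⟨_, _, _, rfl, ?_⟩))
    rw [P.act_self]

theorem path_r1CupNeg {c : C} {s t : List C} : Path P [(.cup c, 0), (.neg, 0)] s t ↔
    t = P.bar c :: c :: s := by
  constructor
  · intro h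
    obtain ⟨t1, h1, h2⟩ := path_cons_iff.1 h
    rw [step_cup] at h1
    subst h1
    obtain ⟨a, b, r, h3, rfl⟩ := step_neg.1 (path_single_iff.1 h2)
    simp only [List.cons.injEq] at h3
    obtain ⟨rfl, rfl, rfl⟩ := h3
    rw [P.act_bar_self]
  · rintro rfl
    refine Path.cons (step_cup.2 rfl) (path_single_iff.2 (step_neg.2 ⟨_, _, _, rfl, ?_⟩))
    rw [P.act_bar_self]

theorem path_r1CapPos {s t : List C} : Path P [(.pos, 0), (.cap, 0)] s t ↔
    ∃ a, s = a :: P.bar a :: t := by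
  constructor
  · intro h
    obtain ⟨t1, h1, h2⟩ := path_cons_iff.1 h
    obtain ⟨a, b, r, rfl, rfl⟩ := step_pos.1 h1
    obtain ⟨d, h3⟩ := step_cap.1 (path_single_iff.1 h2)
    simp only [List.cons.injEq] at h3
    obtain ⟨rfl, h4, rfl⟩ := h3
    refine ⟨a, ?_⟩
    have h5 : P.bar a = P.act b (P.bar a) := by
      conv_lhs => rw [h4]
      rw [P.bar_bar]
    have h6 : b = P.bar a := by
      rw [← P.act_bar_act b a, ← h5, P.act_bar, P.act_self]
    rw [h6]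
  · rintro ⟨a, rfl⟩
    refine Path.cons (step_pos.2 ⟨_, _, _, rfl, rfl⟩) (path_single_iff.2 (step_cap.2 ⟨P.bar a, ?_⟩))
    rw [P.act_self, P.bar_bar]

theorem path_r1CapNeg {s t : List C} : Path P [(.neg, 0), (.cap, 0)] s t ↔
    ∃ a, s = a :: P.bar a :: t := by
  constructor
  · intro h
    obtain ⟨t1, h1, h2⟩ := path_cons_iff.1 h
    obtain ⟨a, b, r, rfl, rfl⟩ := step_neg.1 h1
    obtain ⟨d, h3⟩ := step_cap.1 (path_single_iff.1 h2)
    simp only [List.cons.injEq] at h3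
    obtain ⟨rfl, h4, rfl⟩ := h3
    have h5 : a = P.bar b := by
      rw [← P.act_act_bar a b, h4, P.act_bar, P.act_bar_self]
    exact ⟨a, by rw [h5, P.bar_bar]⟩
  · rintro ⟨a, rfl⟩
    refine Path.cons (step_neg.2 ⟨_, _, _, rfl, rfl⟩) (path_single_iff.2 (step_cap.2 ⟨P.bar a, ?_⟩))
    rw [P.act_bar_self, P.bar_bar]

theorem path_r2PosNeg {s t : List C} : Path P [(.pos, 0), (.neg, 0)] s t ↔
    s = t ∧ ∃ a b r, s = a :: b :: r := by
  constructor
  · intro h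
    obtain ⟨t1, h1, h2⟩ := path_cons_iff.1 h
    obtain ⟨a, b, r, rfl, rfl⟩ := step_pos.1 h1
    obtain ⟨a, b, r, h3, rfl⟩ := step_neg.1 (path_single_iff.1 h2)
    simp only [List.cons.injEq] at h3
    obtain ⟨rfl, rfl, rfl⟩ := h3
    rw [P.act_bar_act]
    exact ⟨rfl, _, _, _, rfl⟩
  · rintro ⟨rfl, a, b, r, rfl⟩
    refine Path.cons (step_pos.2 ⟨_, _, _, rfl, rfl⟩)
      (path_single_iff.2 (step_neg.2 ⟨_, _, _, rfl, ?_⟩))
    rw [P.act_bar_act]

theorem path_r2NegPos {s t : List C} : Path P [(.neg, 0), (.pos, 0)] s t ↔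
    s = t ∧ ∃ a b r, s = a :: b :: r := by
  constructor
  · intro h
    obtain ⟨t1, h1, h2⟩ := path_cons_iff.1 h
    obtain ⟨a, b, r, rfl, rfl⟩ := step_neg.1 h1
    obtain ⟨a, b, r, h3, rfl⟩ := step_pos.1 (path_single_iff.1 h2)
    simp only [List.cons.injEq] at h3
    obtain ⟨rfl, rfl, rfl⟩ := h3
    rw [P.act_act_bar]
    exact ⟨rfl, _, _, _, rfl⟩
  · rintro ⟨rfl, a, b, r, rfl⟩
    refine Path.cons (step_neg.2 ⟨_, _, _, rfl, rfl⟩)
      (path_single_iff.2 (step_pos.2 ⟨_, _, _, rfl, ?_⟩))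
    rw [P.act_act_bar]

theorem path_r3_left {s t : List C} : Path P [(.pos, 0), (.pos, 1), (.pos, 0)] s t ↔
    ∃ a b c r, s = a :: b :: c :: r ∧
      t = P.act (P.act c (P.bar b)) (P.bar a) :: P.act b (P.bar a) :: a :: r := by
  constructor
  · intro h
    obtain ⟨t1, h1, h2⟩ := path_cons_iff.1 h
    obtain ⟨t2, h3, h4⟩ := path_cons_iff.1 h2
    obtain ⟨a, b, r, rfl, rfl⟩ := step_pos.1 h1
    obtain ⟨x, s', t', h5, rfl, h6⟩ := step_one.1 h3
    obtain ⟨a', b', r', rfl, rfl⟩ := step_pos.1 h6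
    simp only [List.cons.injEq] at h5
    obtain ⟨rfl, rfl, rfl⟩ := h5
    obtain ⟨p, q, r'', h7, rfl⟩ := step_pos.1 (path_single_iff.1 h4)
    simp only [List.cons.injEq] at h7
    obtain ⟨rfl, rfl, rfl⟩ := h7
    refine ⟨_, _, _, _, rfl, ?_⟩
    rw [← P.act_bar, ← P.act_dist]
  · rintro ⟨a, b, c, r, rfl, rfl⟩
    refine Path.cons (step_pos.2 ⟨_, _, _, rfl, rfl⟩)
      (Path.cons (step_one.2 ⟨_, _, _, rfl, rfl, step_pos.2 ⟨_, _, _, rfl, rfl⟩⟩)
        (path_single_iff.2 (step_pos.2 ⟨_, _, _, rfl, ?_⟩)))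
    rw [← P.act_bar, ← P.act_dist]

theorem path_r3_right {s t : List C} : Path P [(.pos, 1), (.pos, 0), (.pos, 1)] s t ↔
    ∃ a b c r, s = a :: b :: c :: r ∧
      t = P.act (P.act c (P.bar b)) (P.bar a) :: P.act b (P.bar a) :: a :: r := by
  constructor
  · intro h
    obtain ⟨t1, h1, h2⟩ := path_cons_iff.1 h
    obtain ⟨t2, h3, h4⟩ := path_cons_iff.1 h2
    obtain ⟨x, s', t', rfl, rfl, h6⟩ := step_one.1 h1
    obtain ⟨a', b', r', rfl, rfl⟩ := step_pos.1 h6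
    obtain ⟨a, b, r, h5, rfl⟩ := step_pos.1 h3
    simp only [List.cons.injEq] at h5
    obtain ⟨rfl, rfl, rfl⟩ := h5
    obtain ⟨y, s', t', h7, rfl, h8⟩ := step_one.1 (path_single_iff.1 h4)
    obtain ⟨p, q, r'', rfl, rfl⟩ := step_pos.1 h8
    simp only [List.cons.injEq] at h7
    obtain ⟨rfl, rfl, rfl, rfl⟩ := h7
    exact ⟨_, _, _, _, rfl, rfl⟩
  · rintro ⟨a, b, c, r, rfl, rfl⟩
    exact Path.cons (step_one.2 ⟨_, _, _, rfl, rfl, step_pos.2 ⟨_, _, _, rfl, rfl⟩⟩)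
      (Path.cons (step_pos.2 ⟨_, _, _, rfl, rfl⟩)
        (path_single_iff.2 (step_one.2 ⟨_, _, _, rfl, rfl, step_pos.2 ⟨_, _, _, rfl, rfl⟩⟩)))

/-! ### Lifting the elementary moves -/

/-- From the left hand side of an elementary move to the right hand side. -/
theorem Base.lift_left {f : C → D} {u v : Word D} (h : Base u v)
    {s t : List D} (hv : Path Q v s t) {u' : Word C} {s' t' : List C}
    (hu' : wmap f u' = u) (hs : s'.map f = s) (ht : t'.map f = t) (h' : Path P u' s' t') :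
    ∃ v', wmap f v' = v ∧ Base u' v' ∧ Path P v' s' t' := by
  cases h with
  | far k l g =>
    obtain ⟨k', u1, rfl, hk, hu1⟩ := wmap_eq_cons hu'
    obtain ⟨l', u2, rfl, hl, hu2⟩ := wmap_eq_cons hu1
    obtain rfl := wmap_eq_nil.1 hu2
    subst hk hl
    rw [Kind.out_map] at h'
    refine ⟨[(l', k'.inn + g), (k', 0)], by simp, ?_, far_path_iff.1 h'⟩
    rw [Kind.out_map]
    exact Base.far k' l' g
  | zig c =>
    obtain ⟨k', u1, rfl, hk, hu1⟩ := wmap_eq_cons hu'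
    obtain ⟨l', u2, rfl, hl, hu2⟩ := wmap_eq_cons hu1
    obtain rfl := wmap_eq_nil.1 hu2
    obtain ⟨c', rfl, -⟩ := Kind.map_eq_cup hk
    obtain rfl := Kind.map_eq_cap hl
    obtain ⟨rfl, -⟩ := path_zig.1 h'
    exact ⟨[], rfl, Base.zig _, Path.nil _⟩
  | zag c =>
    obtain ⟨k', u1, rfl, hk, hu1⟩ := wmap_eq_cons hu'
    obtain ⟨l', u2, rfl, hl, hu2⟩ := wmap_eq_cons hu1
    obtain rfl := wmap_eq_nil.1 hu2
    obtain ⟨c', rfl, -⟩ := Kind.map_eq_cup hk
    obtain rfl := Kind.map_eq_cap hl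
    obtain ⟨rfl, -⟩ := path_zag.1 h'
    exact ⟨[], rfl, Base.zag _, Path.nil _⟩
  | cupOver c d =>
    obtain ⟨k', u1, rfl, hk, hu1⟩ := wmap_eq_cons hu'
    obtain ⟨l', u2, rfl, hl, hu2⟩ := wmap_eq_cons hu1
    obtain rfl := wmap_eq_nil.1 hu2
    obtain ⟨c', rfl, -⟩ := Kind.map_eq_cup hk
    obtain rfl := Kind.map_eq_pos hl
    obtain ⟨x, r, rfl, rfl⟩ := path_cup_pos.1 h'
    obtain ⟨y, r', h1, h2⟩ := path_cup_neg'.1 hv
    rw [← ht] at h2
    simp only [List.map_cons, List.cons.injEq] at h2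
    refine ⟨[(.cup (P.act c' (P.bar x)), 0), (.neg, 1)], by simp [h2.1], Base.cupOver _ _,
      path_cup_neg'.2 ⟨_, _, rfl, ?_⟩⟩
    rw [P.act_bar, P.act_bar_act]
  | cupUnder c d =>
    obtain ⟨k', u1, rfl, hk, hu1⟩ := wmap_eq_cons hu'
    obtain ⟨l', u2, rfl, hl, hu2⟩ := wmap_eq_cons hu1
    obtain rfl := wmap_eq_nil.1 hu2
    obtain ⟨c', rfl, -⟩ := Kind.map_eq_cup hk
    obtain rfl := Kind.map_eq_neg hl
    obtain ⟨x, r, rfl, rfl⟩ := path_cup_neg.1 h'
    obtain ⟨y, r', h1, h2⟩ := path_cup_pos'.1 hv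
    rw [← ht] at h2
    simp only [List.map_cons, List.cons.injEq] at h2
    exact ⟨[(.cup c', 0), (.pos, 1)], by simp [h2.1], Base.cupUnder _ _,
      path_cup_pos'.2 ⟨_, _, rfl, rfl⟩⟩
  | capOver =>
    obtain ⟨k', u1, rfl, hk, hu1⟩ := wmap_eq_cons hu'
    obtain ⟨l', u2, rfl, hl, hu2⟩ := wmap_eq_cons hu1
    obtain rfl := wmap_eq_nil.1 hu2
    obtain rfl := Kind.map_eq_pos hk
    obtain rfl := Kind.map_eq_cap hl
    exact ⟨[(.neg, 1), (.cap, 0)], rfl, Base.capOver, path_neg_cap'.2 (path_pos_cap.1 h')⟩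
  | capUnder =>
    obtain ⟨k', u1, rfl, hk, hu1⟩ := wmap_eq_cons hu'
    obtain ⟨l', u2, rfl, hl, hu2⟩ := wmap_eq_cons hu1
    obtain rfl := wmap_eq_nil.1 hu2
    obtain rfl := Kind.map_eq_neg hk
    obtain rfl := Kind.map_eq_cap hl
    exact ⟨[(.pos, 1), (.cap, 0)], rfl, Base.capUnder, path_pos_cap'.2 (path_neg_cap.1 h')⟩
  | r1CupPos c d =>
    obtain ⟨k', u1, rfl, hk, hu1⟩ := wmap_eq_cons hu'
    obtain ⟨l', u2, rfl, hl, hu2⟩ := wmap_eq_cons hu1
    obtain rfl := wmap_eq_nil.1 hu2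
    obtain ⟨c', rfl, -⟩ := Kind.map_eq_cup hk
    obtain rfl := Kind.map_eq_pos hl
    obtain rfl := path_r1CupPos.1 h'
    have h1 := step_cup.1 (path_single_iff.1 hv)
    rw [← ht] at h1
    simp only [List.map_cons, List.cons.injEq] at h1
    refine ⟨[(.cup (P.bar c'), 0)], by simp [h1.1], Base.r1CupPos _ _,
      path_single_iff.2 (step_cup.2 ?_)⟩
    rw [P.bar_bar]
  | r1CupNeg c d =>
    obtain ⟨k', u1, rfl, hk, hu1⟩ := wmap_eq_cons hu'
    obtain ⟨l', u2, rfl, hl, hu2⟩ := wmap_eq_cons hu1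
    obtain rfl := wmap_eq_nil.1 hu2
    obtain ⟨c', rfl, -⟩ := Kind.map_eq_cup hk
    obtain rfl := Kind.map_eq_neg hl
    obtain rfl := path_r1CupNeg.1 h'
    have h1 := step_cup.1 (path_single_iff.1 hv)
    rw [← ht] at h1
    simp only [List.map_cons, List.cons.injEq] at h1
    refine ⟨[(.cup (P.bar c'), 0)], by simp [h1.1], Base.r1CupNeg _ _,
      path_single_iff.2 (step_cup.2 ?_)⟩
    rw [P.bar_bar]
  | r1CapPos =>
    obtain ⟨k', u1, rfl, hk, hu1⟩ := wmap_eq_cons hu'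
    obtain ⟨l', u2, rfl, hl, hu2⟩ := wmap_eq_cons hu1
    obtain rfl := wmap_eq_nil.1 hu2
    obtain rfl := Kind.map_eq_pos hk
    obtain rfl := Kind.map_eq_cap hl
    exact ⟨[(.cap, 0)], rfl, Base.r1CapPos, path_single_iff.2 (step_cap.2 (path_r1CapPos.1 h'))⟩
  | r1CapNeg =>
    obtain ⟨k', u1, rfl, hk, hu1⟩ := wmap_eq_cons hu'
    obtain ⟨l', u2, rfl, hl, hu2⟩ := wmap_eq_cons hu1
    obtain rfl := wmap_eq_nil.1 hu2
    obtain rfl := Kind.map_eq_neg hk
    obtain rfl := Kind.map_eq_cap hl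
    exact ⟨[(.cap, 0)], rfl, Base.r1CapNeg, path_single_iff.2 (step_cap.2 (path_r1CapNeg.1 h'))⟩
  | r2PosNeg =>
    obtain ⟨k', u1, rfl, hk, hu1⟩ := wmap_eq_cons hu'
    obtain ⟨l', u2, rfl, hl, hu2⟩ := wmap_eq_cons hu1
    obtain rfl := wmap_eq_nil.1 hu2
    obtain rfl := Kind.map_eq_pos hk
    obtain rfl := Kind.map_eq_neg hl
    obtain ⟨rfl, -⟩ := path_r2PosNeg.1 h'
    exact ⟨[], rfl, Base.r2PosNeg, Path.nil _⟩
  | r2NegPos =>
    obtain ⟨k', u1, rfl, hk, hu1⟩ := wmap_eq_cons hu'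
    obtain ⟨l', u2, rfl, hl, hu2⟩ := wmap_eq_cons hu1
    obtain rfl := wmap_eq_nil.1 hu2
    obtain rfl := Kind.map_eq_neg hk
    obtain rfl := Kind.map_eq_pos hl
    obtain ⟨rfl, -⟩ := path_r2NegPos.1 h'
    exact ⟨[], rfl, Base.r2NegPos, Path.nil _⟩
  | r3 =>
    obtain ⟨k', u1, rfl, hk, hu1⟩ := wmap_eq_cons hu'
    obtain ⟨l', u2, rfl, hl, hu2⟩ := wmap_eq_cons hu1
    obtain ⟨m', u3, rfl, hm, hu3⟩ := wmap_eq_cons hu2
    obtain rfl := wmap_eq_nil.1 hu3
    obtain rfl := Kind.map_eq_pos hk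
    obtain rfl := Kind.map_eq_pos hl
    obtain rfl := Kind.map_eq_pos hm
    exact ⟨[(.pos, 1), (.pos, 0), (.pos, 1)], rfl, Base.r3, path_r3_right.2 (path_r3_left.1 h')⟩

/-- From the right hand side of an elementary move to the left hand side. -/
theorem Base.lift_right {f : C → D} (hf : IsHom P Q f) {u v : Word D} (h : Base u v)
    {s t : List D} (hu : Path Q u s t) {v' : Word C} {s' t' : List C}
    (hv' : wmap f v' = v) (hs : s'.map f = s) (ht : t'.map f = t) (h' : Path P v' s' t') :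
    ∃ u', wmap f u' = u ∧ Base u' v' ∧ Path P u' s' t' := by
  cases h with
  | far k l g =>
    obtain ⟨l', u1, rfl, hl, hu1⟩ := wmap_eq_cons hv'
    obtain ⟨k', u2, rfl, hk, hu2⟩ := wmap_eq_cons hu1
    obtain rfl := wmap_eq_nil.1 hu2
    subst hk hl
    rw [Kind.inn_map] at h'
    refine ⟨[(k', 0), (l', k'.out + g)], by simp, ?_, far_path_iff.2 h'⟩
    rw [Kind.inn_map]
    exact Base.far k' l' g
  | zig c =>
    obtain rfl := wmap_eq_nil.1 hv'
    cases h'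
    obtain ⟨-, r, h1⟩ := path_zig.1 hu
    cases s' with
    | nil => rw [← hs] at h1; simp at h1
    | cons x r' =>
      rw [← hs] at h1
      simp only [List.map_cons, List.cons.injEq] at h1
      refine ⟨[(.cup (P.bar x), 1), (.cap, 0)], ?_, Base.zig _, path_zig.2 ⟨rfl, r', ?_⟩⟩
      · simp [hf.bar, h1.1, Q.bar_bar]
      · rw [P.bar_bar]
  | zag c =>
    obtain rfl := wmap_eq_nil.1 hv'
    cases h'
    obtain ⟨-, r, h1⟩ := path_zag.1 hu
    cases s' with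
    | nil => rw [← hs] at h1; simp at h1
    | cons x r' =>
      rw [← hs] at h1
      simp only [List.map_cons, List.cons.injEq] at h1
      exact ⟨[(.cup x, 0), (.cap, 1)], by simp [h1.1], Base.zag _, path_zag.2 ⟨rfl, r', rfl⟩⟩
  | cupOver c d =>
    obtain ⟨k', u1, rfl, hk, hu1⟩ := wmap_eq_cons hv'
    obtain ⟨l', u2, rfl, hl, hu2⟩ := wmap_eq_cons hu1
    obtain rfl := wmap_eq_nil.1 hu2
    obtain ⟨d', rfl, -⟩ := Kind.map_eq_cup hk
    obtain rfl := Kind.map_eq_neg hl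
    obtain ⟨x, r, rfl, rfl⟩ := path_cup_neg'.1 h'
    obtain ⟨y, r', h1, h2⟩ := path_cup_pos.1 hu
    rw [← ht] at h2
    simp only [List.map_cons, List.cons.injEq] at h2
    refine ⟨[(.cup (P.act d' x), 1), (.pos, 0)], ?_, Base.cupOver _ _,
      path_cup_pos.2 ⟨_, _, rfl, ?_⟩⟩
    · have h3 : f (P.act d' x) = c := by
        rw [hf.act, h2.1, h2.2.1, Q.act_bar_act]
      simp [h3]
    · rw [P.act_act_bar, P.act_bar]
  | cupUnder c d =>
    obtain ⟨k', u1, rfl, hk, hu1⟩ := wmap_eq_cons hv'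
    obtain ⟨l', u2, rfl, hl, hu2⟩ := wmap_eq_cons hu1
    obtain rfl := wmap_eq_nil.1 hu2
    obtain ⟨d', rfl, -⟩ := Kind.map_eq_cup hk
    obtain rfl := Kind.map_eq_pos hl
    obtain ⟨x, r, rfl, rfl⟩ := path_cup_pos'.1 h'
    obtain ⟨y, r', h1, h2⟩ := path_cup_neg.1 hu
    rw [← ht] at h2
    simp only [List.map_cons, List.cons.injEq] at h2
    exact ⟨[(.cup d', 1), (.neg, 0)], by simp [h2.1], Base.cupUnder _ _,
      path_cup_neg.2 ⟨_, _, rfl, rfl⟩⟩
  | capOver =>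
    obtain ⟨k', u1, rfl, hk, hu1⟩ := wmap_eq_cons hv'
    obtain ⟨l', u2, rfl, hl, hu2⟩ := wmap_eq_cons hu1
    obtain rfl := wmap_eq_nil.1 hu2
    obtain rfl := Kind.map_eq_neg hk
    obtain rfl := Kind.map_eq_cap hl
    exact ⟨[(.pos, 0), (.cap, 1)], rfl, Base.capOver, path_pos_cap.2 (path_neg_cap'.1 h')⟩
  | capUnder =>
    obtain ⟨k', u1, rfl, hk, hu1⟩ := wmap_eq_cons hv'
    obtain ⟨l', u2, rfl, hl, hu2⟩ := wmap_eq_cons hu1
    obtain rfl := wmap_eq_nil.1 hu2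
    obtain rfl := Kind.map_eq_pos hk
    obtain rfl := Kind.map_eq_cap hl
    exact ⟨[(.neg, 0), (.cap, 1)], rfl, Base.capUnder, path_neg_cap.2 (path_pos_cap'.1 h')⟩
  | r1CupPos c d =>
    obtain ⟨k', u1, rfl, hk, hu1⟩ := wmap_eq_cons hv'
    obtain rfl := wmap_eq_nil.1 hu1
    obtain ⟨d', rfl, -⟩ := Kind.map_eq_cup hk
    obtain rfl := step_cup.1 (path_single_iff.1 h')
    have h1 := path_r1CupPos.1 hu
    rw [← ht] at h1
    simp only [List.map_cons, List.cons.injEq] at h1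
    refine ⟨[(.cup (P.bar d'), 0), (.pos, 0)], by simp [h1.2.1], Base.r1CupPos _ _,
      path_r1CupPos.2 ?_⟩
    rw [P.bar_bar]
  | r1CupNeg c d =>
    obtain ⟨k', u1, rfl, hk, hu1⟩ := wmap_eq_cons hv'
    obtain rfl := wmap_eq_nil.1 hu1
    obtain ⟨d', rfl, -⟩ := Kind.map_eq_cup hk
    obtain rfl := step_cup.1 (path_single_iff.1 h')
    have h1 := path_r1CupNeg.1 hu
    rw [← ht] at h1
    simp only [List.map_cons, List.cons.injEq] at h1
    refine ⟨[(.cup (P.bar d'), 0), (.neg, 0)], by simp [h1.2.1], Base.r1CupNeg _ _,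
      path_r1CupNeg.2 ?_⟩
    rw [P.bar_bar]
  | r1CapPos =>
    obtain ⟨k', u1, rfl, hk, hu1⟩ := wmap_eq_cons hv'
    obtain rfl := wmap_eq_nil.1 hu1
    obtain rfl := Kind.map_eq_cap hk
    exact ⟨[(.pos, 0), (.cap, 0)], rfl, Base.r1CapPos,
      path_r1CapPos.2 (step_cap.1 (path_single_iff.1 h'))⟩
  | r1CapNeg =>
    obtain ⟨k', u1, rfl, hk, hu1⟩ := wmap_eq_cons hv'
    obtain rfl := wmap_eq_nil.1 hu1
    obtain rfl := Kind.map_eq_cap hk
    exact ⟨[(.neg, 0), (.cap, 0)], rfl, Base.r1CapNeg,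
      path_r1CapNeg.2 (step_cap.1 (path_single_iff.1 h'))⟩
  | r2PosNeg =>
    obtain rfl := wmap_eq_nil.1 hv'
    cases h'
    obtain ⟨-, a, b, r, h1⟩ := path_r2PosNeg.1 hu
    rw [← hs] at h1
    obtain ⟨x, s1, rfl, -, h2⟩ := List.map_eq_cons_iff.1 h1
    obtain ⟨y, s2, rfl, -, -⟩ := List.map_eq_cons_iff.1 h2
    exact ⟨[(.pos, 0), (.neg, 0)], rfl, Base.r2PosNeg, path_r2PosNeg.2 ⟨rfl, _, _, _, rfl⟩⟩
  | r2NegPos =>
    obtain rfl := wmap_eq_nil.1 hv'
    cases h'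
    obtain ⟨-, a, b, r, h1⟩ := path_r2NegPos.1 hu
    rw [← hs] at h1
    obtain ⟨x, s1, rfl, -, h2⟩ := List.map_eq_cons_iff.1 h1
    obtain ⟨y, s2, rfl, -, -⟩ := List.map_eq_cons_iff.1 h2
    exact ⟨[(.neg, 0), (.pos, 0)], rfl, Base.r2NegPos, path_r2NegPos.2 ⟨rfl, _, _, _, rfl⟩⟩
  | r3 =>
    obtain ⟨k', u1, rfl, hk, hu1⟩ := wmap_eq_cons hv'
    obtain ⟨l', u2, rfl, hl, hu2⟩ := wmap_eq_cons hu1
    obtain ⟨m', u3, rfl, hm, hu3⟩ := wmap_eq_cons hu2
    obtain rfl := wmap_eq_nil.1 hu3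
    obtain rfl := Kind.map_eq_pos hk
    obtain rfl := Kind.map_eq_pos hl
    obtain rfl := Kind.map_eq_pos hm
    exact ⟨[(.pos, 0), (.pos, 1), (.pos, 0)], rfl, Base.r3, path_r3_left.2 (path_r3_right.1 h')⟩

/-! ### Lifting equivalences -/

theorem map_length_split {f : C → D} {s' : List C} {l s1 : List D} (h : s'.map f = l ++ s1) :
    ∃ l' s1', s' = l' ++ s1' ∧ l'.map f = l ∧ s1'.map f = s1 := by
  obtain ⟨l', s1', h1, h2, h3⟩ := List.map_eq_append_iff.1 h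
  exact ⟨l', s1', h1, h2, h3⟩

theorem path_shift_append_iff' {n : ℕ} {w : Word C} {l s t : List C} (hl : l.length = n) :
    Path P (shift n w) (l ++ s) t ↔ ∃ t', t = l ++ t' ∧ Path P w s t' := by
  subst hl
  exact path_shift_append_iff

theorem eqv_lift_aux {f : C → D} (hf : IsHom P Q f) {u v : Word D} {s t : List D}
    (h : Eqv Q u v s t) :
    (∀ u' s' t', wmap f u' = u → s'.map f = s → Path P u' s' t' →
      ∃ v', wmap f v' = v ∧ Eqv P u' v' s' t') ∧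
    (∀ v' s' t', wmap f v' = v → s'.map f = s → Path P v' s' t' →
      ∃ u', wmap f u' = u ∧ Eqv P v' u' s' t') := by
  induction h with
  | refl h =>
    exact ⟨fun u' s' t' hu' _ h' => ⟨u', hu', Eqv.refl h'⟩,
      fun u' s' t' hu' _ h' => ⟨u', hu', Eqv.refl h'⟩⟩
  | symm _ ih => exact ⟨ih.2, ih.1⟩
  | trans _ _ ih1 ih2 =>
    constructor
    · intro u' s' t' hu' hs h'
      obtain ⟨v', hv', h1⟩ := ih1.1 u' s' t' hu' hs h'
      obtain ⟨w', hw', h2⟩ := ih2.1 v' s' t' hv' hs h1.path_right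
      exact ⟨w', hw', h1.trans h2⟩
    · intro u' s' t' hu' hs h'
      obtain ⟨v', hv', h1⟩ := ih2.2 u' s' t' hu' hs h'
      obtain ⟨w', hw', h2⟩ := ih1.2 v' s' t' hv' hs h1.path_right
      exact ⟨w', hw', h1.trans h2⟩
  | @comp u₁ u₂ v₁ v₂ s t r h1 h2 ih1 ih2 =>
    constructor
    · intro w' s' r' hw' hs h'
      obtain ⟨u', v', rfl, hu', hv'⟩ := wmap_eq_append hw'
      obtain ⟨t', h3, h4⟩ := path_append_iff.1 h'
      have ht : t'.map f = t := by
        have h5 := h3.map hf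
        rw [hu', hs] at h5
        exact h5.det h1.path_left
      obtain ⟨u'', hu'', h5⟩ := ih1.1 u' s' t' hu' hs h3
      obtain ⟨v'', hv'', h6⟩ := ih2.1 v' t' r' hv' ht h4
      exact ⟨u'' ++ v'', by rw [wmap_append, hu'', hv''], Eqv.comp h5 h6⟩
    · intro w' s' r' hw' hs h'
      obtain ⟨u', v', rfl, hu', hv'⟩ := wmap_eq_append hw'
      obtain ⟨t', h3, h4⟩ := path_append_iff.1 h'
      have ht : t'.map f = t := by
        have h5 := h3.map hf
        rw [hu', hs] at h5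
        exact h5.det h1.path_right
      obtain ⟨u'', hu'', h5⟩ := ih1.2 u' s' t' hu' hs h3
      obtain ⟨v'', hv'', h6⟩ := ih2.2 v' t' r' hv' ht h4
      exact ⟨u'' ++ v'', by rw [wmap_append, hu'', hv''], Eqv.comp h5 h6⟩
  | @move u v i s t hb hu hv =>
    have hne : u ≠ [] ∨ v ≠ [] := by
      left
      cases hb <;> simp
    have hsplit : ∃ l s1, l.length = i ∧ s = l ++ s1 := by
      rcases hne with hne | hne
      · obtain ⟨l, s1, t1, hl, h1, -, -⟩ := (path_shift_iff hne).1 hu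
        exact ⟨l, s1, hl, h1⟩
      · obtain ⟨l, s1, t1, hl, h1, -, -⟩ := (path_shift_iff hne).1 hv
        exact ⟨l, s1, hl, h1⟩
    obtain ⟨l, s1, hl, rfl⟩ := hsplit
    obtain ⟨t1, rfl, hu1⟩ := (path_shift_append_iff' hl).1 hu
    obtain ⟨t2, h3, hv1⟩ := (path_shift_append_iff' hl).1 hv
    obtain rfl := List.append_cancel_left h3
    constructor
    · intro u' s' t' hu' hs h'
      obtain ⟨u1, rfl, hu2⟩ := wmap_eq_shift hu'
      obtain ⟨l', s1', rfl, hl', hs1⟩ := map_length_split hs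
      have hll : l'.length = i := by rw [← hl, ← hl', List.length_map]
      obtain ⟨t1', rfl, h4⟩ := (path_shift_append_iff' hll).1 h'
      have ht1 : t1'.map f = t1 := by
        have h5 := h4.map hf
        rw [hu2, hs1] at h5
        exact h5.det hu1
      obtain ⟨v', hv', hb', hp⟩ := hb.lift_left hv1 hu2 hs1 ht1 h4
      refine ⟨shift i v', by rw [wmap_shift, hv'], Eqv.move i hb' h' ?_⟩
      exact (path_shift_append_iff' hll).2 ⟨_, rfl, hp⟩
    · intro u' s' t' hu' hs h'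
      obtain ⟨u1, rfl, hu2⟩ := wmap_eq_shift hu'
      obtain ⟨l', s1', rfl, hl', hs1⟩ := map_length_split hs
      have hll : l'.length = i := by rw [← hl, ← hl', List.length_map]
      obtain ⟨t1', rfl, h4⟩ := (path_shift_append_iff' hll).1 h'
      have ht1 : t1'.map f = t1 := by
        have h5 := h4.map hf
        rw [hu2, hs1] at h5
        exact h5.det hv1
      obtain ⟨v', hv', hb', hp⟩ := hb.lift_right hf hu1 hu2 hs1 ht1 h4
      refine ⟨shift i v', by rw [wmap_shift, hv'], (Eqv.move i hb' ?_ h').symm⟩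
      exact (path_shift_append_iff' hll).2 ⟨_, rfl, hp⟩

/-- **Labellings follow the moves.** -/
theorem Eqv.lift {f : C → D} (hf : IsHom P Q f) {u v : Word D} {s t : List D}
    (h : Eqv Q u v s t) {u' : Word C} {s' t' : List C} (hu' : wmap f u' = u)
    (hs : s'.map f = s) (h' : Path P u' s' t') :
    ∃ v', wmap f v' = v ∧ Eqv P u' v' s' t' :=
  (eqv_lift_aux hf h).1 u' s' t' hu' hs h'

/-- Labellings of diagrams of the same link correspond to each other. -/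
theorem lift_diag {u : Word C} {v w : Word Unit} {L : Link} (hw : wmap (fun _ => ()) u = w)
    (hu : Path P u [] []) (h1 : IsDiag w L) (h2 : IsDiag v L) :
    ∃ v' : Word C, wmap (fun _ => ()) v' = v ∧ Eqv P u v' [] [] := by
  obtain ⟨h3, rfl⟩ := h1
  obtain ⟨h4, h5⟩ := h2
  have h6 : Eqv (triv Unit) w v [] [] := Quotient.exact h5
  exact h6.lift (isHom_unit P) hw rfl hu

theorem isDiag_of_eqv {u v : Word Unit} {L : Link} (h : Eqv (triv Unit) u v [] [])
    (h1 : IsDiag u L) : IsDiag v L := by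
  obtain ⟨h3, rfl⟩ := h1
  exact ⟨h.path_right, Quotient.sound h⟩

theorem eqv_of_isDiag {u v : Word Unit} {L : Link} (h1 : IsDiag u L) (h2 : IsDiag v L) :
    Eqv (triv Unit) u v [] [] := by
  obtain ⟨h3, rfl⟩ := h1
  obtain ⟨h4, h5⟩ := h2
  exact Quotient.exact h5

theorem IsDiag.path {u : Word Unit} {L : Link} (h : IsDiag u L) : Path (triv Unit) u [] [] := h.1

theorem IsDiag.unique {u : Word Unit} {L L' : Link} (h : IsDiag u L) (h' : IsDiag u L') :
    L = L' := by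
  obtain ⟨h1, rfl⟩ := h
  obtain ⟨h2, rfl⟩ := h'
  rfl

theorem exists_isDiag (L : Link) : ∃ w, IsDiag w L := by
  obtain ⟨w, rfl⟩ := Quotient.exists_rep L
  exact ⟨w.1, w.2, rfl⟩

end Pool.Agent.Lib.MP_131179_gt
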