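import Pool.Agent.Lib.MP_131179_gt.ClaspPrime

/-!
# Links with unknotted components which are pairwise oddly linked

Links whose components are unknotted and pairwise oddly linked are prime; the Hopf link.
-/

set_option autoImplicit false

namespace Pool.Agent.Lib.MP_131179_gt

/-! ### Tangles with additional strands on the right -/

theorem od_step_cut {C D : Type} {P : Palette C} {Q : Palette D} {f : C → D} {k : Kind C} {i : ℕ}
    {s r s1 : List C} {t1 : List D} (h1 : Step P k i (s ++ r) s1)
    (h2 : Step Q (k.map f) i (s.map f) t1) : ∃ s2, s1 = s2 ++ r ∧ Step P k i s s2 := by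
  induction i generalizing s s1 t1 with
  | zero =>
    cases k with
    | cup c =>
      cases h1 with
      | cup c _ => exact ⟨c :: P.bar c :: s, rfl, Step.cup c s⟩
    | cap =>
      obtain ⟨c, hc⟩ := step_cap.1 h2
      match s, hc with
      | [], hc => simp at hc
      | [a], hc => simp at hc
      | a :: b :: s, hc =>
        obtain ⟨d, hd⟩ := step_cap.1 h1
        simp only [List.cons_append, List.cons.injEq] at hd
        obtain ⟨rfl, rfl, rfl⟩ := hd
        exact ⟨s, rfl, Step.cap a s⟩
    | pos =>
      obtain ⟨c, d, q, hc, -⟩ := step_pos.1 h2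
      match s, hc with
      | [], hc => simp at hc
      | [a], hc => simp at hc
      | a :: b :: s, hc =>
        obtain ⟨a', b', q', hd, rfl⟩ := step_pos.1 h1
        simp only [List.cons_append, List.cons.injEq] at hd
        obtain ⟨rfl, rfl, rfl⟩ := hd
        exact ⟨P.act b (P.bar a) :: a :: s, rfl, Step.pos a b s⟩
    | neg =>
      obtain ⟨c, d, q, hc, -⟩ := step_neg.1 h2
      match s, hc with
      | [], hc => simp at hc
      | [a], hc => simp at hc
      | a :: b :: s, hc =>
        obtain ⟨a', b', q', hd, rfl⟩ := step_neg.1 h1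
        simp only [List.cons_append, List.cons.injEq] at hd
        obtain ⟨rfl, rfl, rfl⟩ := hd
        exact ⟨b :: P.act a b :: s, rfl, Step.neg a b s⟩
  | succ i ih =>
    obtain ⟨a, s', t', ha, rfl, h3⟩ := step_succ_iff.1 h2
    cases s with
    | nil => simp at ha
    | cons b s =>
      simp only [List.map_cons, List.cons.injEq] at ha
      obtain ⟨rfl, rfl⟩ := ha
      obtain ⟨a', s'', t'', hb, rfl, h4⟩ := step_succ_iff.1 h1
      simp only [List.cons_append, List.cons.injEq] at hb
      obtain ⟨rfl, rfl⟩ := hb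
      obtain ⟨s2, rfl, h5⟩ := ih h4 h3
      exact ⟨b :: s2, rfl, Step.there b h5⟩

theorem od_path_cut {C D : Type} {P : Palette C} {Q : Palette D} {f : C → D} (hf : IsHom P Q f)
    {w : Word C} {s r s1 : List C} {t1 : List D} (h1 : Path P w (s ++ r) s1)
    (h2 : Path Q (wmap f w) (s.map f) t1) : ∃ s2, s1 = s2 ++ r ∧ Path P w s s2 := by
  induction w generalizing s t1 with
  | nil =>
    obtain rfl := path_nil_iff.1 h1
    exact ⟨s, rfl, Path.nil _⟩
  | cons l w ih =>
    obtain ⟨k, i⟩ := l
    obtain ⟨t, h3, h4⟩ := path_cons_iff.1 h1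
    rw [wmap_cons] at h2
    obtain ⟨t', h5, h6⟩ := path_cons_iff.1 h2
    obtain ⟨s2, rfl, h7⟩ := od_step_cut h3 h5
    have h8 : t' = s2.map f := by
      have h9 := h7.map hf
      exact h5.det h9
    subst h8
    obtain ⟨s3, rfl, h9⟩ := ih h4 h6
    exact ⟨s3, rfl, Path.cons h7 h9⟩

/-! ### Oddly linked unknotted components -/

/-- `W` is a labelled diagram of `L`; the strands with a given label form an unknot, and two such
unknots are oddly linked. -/
structure OddD {C : Type} [DecidableEq C] (W : Word C) (L : Link) : Prop where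
  path : Path (triv C) W [] []
  diag : IsDiag (erase W) L
  ne : ∃ x y, x ≠ y ∧ HasLabel x W ∧ HasLabel y W
  comp : ∀ x, HasLabel x W →
    IsDiag (erase (del (triv C) (fun y => decide (y = x)) W [])) unknot
  odd : ∀ x y, HasLabel x W → HasLabel y W → x ≠ y → cnt (triv C) (pr x y) W [] % 2 = 1

theorem OddD.of_eqv {C : Type} [DecidableEq C] {W V : Word C} {L : Link} (h : OddD W L)
    (e : Eqv (triv C) W V [] []) : OddD V L where
  path := e.path_right
  diag := isDiag_erase_of_eqv e h.diag
  ne := by
    obtain ⟨x, y, h1, h2, h3⟩ := h.ne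
    exact ⟨x, y, h1, (hasLabel_iff e x).1 h2, (hasLabel_iff e y).1 h3⟩
  comp := by
    intro x hx
    have h1 := h.comp x ((hasLabel_iff e x).2 hx)
    have h2 := Eqv.del (compat_triv (fun y => decide (y = x))) e
    exact isDiag_erase_of_eqv h2 h1
  odd := by
    intro x y hx hy hxy
    rw [← Eqv.cnt (pairInv_pr hxy) e]
    exact h.odd x y ((hasLabel_iff e x).2 hx) ((hasLabel_iff e y).2 hy) hxy

theorem OddD.lift {C : Type} [DecidableEq C] {W : Word C} {L : Link} (h : OddD W L)
    {v : Word Unit} (hv : IsDiag v L) : ∃ V : Word C, erase V = v ∧ OddD V L := by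
  obtain ⟨V, h1, h2⟩ := lift_diag rfl h.path h.diag hv
  exact ⟨V, h1, h.of_eqv h2⟩

theorem od_unknot_cases {u v : Word Unit} (hu : Path (triv Unit) u [] [])
    (hv : Path (triv Unit) v [] []) (h : IsDiag (u ++ v) unknot) : u = [] ∨ v = [] := by
  by_contra hc
  rw [not_or] at hc
  exact not_isSplit_unknot ⟨u, v, hc.1, hc.2, hu, hv, h⟩

theorem od_cnt_eq_zero {C : Type} [DecidableEq C] {x y : C} {l : List (C × C)}
    (h : (x, y) ∉ l) : (l.countP fun p => pr x y p.1 p.2) = 0 := by
  rw [List.countP_eq_zero]
  rintro ⟨a, b⟩ hab hc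
  simp only [pr, Bool.and_eq_true, decide_eq_true_eq] at hc
  obtain ⟨rfl, rfl⟩ := hc
  exact h hab

/-- A closed word between two erased closed words. -/
theorem od_closed_append {C : Type} {P : Palette C} {V₁ V₂ : Word C}
    (h : Path P (V₁ ++ V₂) [] []) (h1 : Path (triv Unit) (erase V₁) [] []) :
    Path P V₁ [] [] ∧ Path P V₂ [] [] := by
  obtain ⟨t, h2, h3⟩ := path_append_iff.1 h
  have h4 := h2.map (isHom_unit P)
  have h5 := h4.det h1
  rw [List.map_eq_nil_iff] at h5
  subst h5
  exact ⟨h2, h3⟩

theorem OddD.not_isSplit {C : Type} [DecidableEq C] {W : Word C} {L : Link} (h : OddD W L) :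
    ¬ IsSplit L := by
  rintro ⟨u, v, hu, hv, hpu, hpv, hd⟩
  obtain ⟨V, hV, hO⟩ := h.lift hd
  obtain ⟨V₁, V₂, rfl, rfl, rfl⟩ := wmap_eq_append hV
  obtain ⟨h1, h2⟩ := od_closed_append hO.path hpu
  have hV1 : V₁ ≠ [] := fun h => hu (by rw [h]; rfl)
  have hV2 : V₂ ≠ [] := fun h => hv (by rw [h]; rfl)
  have key : ∀ x, HasLabel x V₁ → HasLabel x V₂ → False := by
    intro x hx1 hx2
    have h3 := hO.comp x (hasLabel_append.2 (Or.inl hx1))
    rw [del_append h1, erase, wmap_append] at h3
    have hκ := compat_triv (fun y : C => decide (y = x))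
    rcases od_unknot_cases (path_erase (del_path hκ h1)) (path_erase (del_path hκ h2)) h3 with h4 | h4
    · have := (del_eq_nil hκ h1).1 (wmap_eq_nil.1 h4) x hx1
      simp at this
    · have := (del_eq_nil hκ h2).1 (wmap_eq_nil.1 h4) x hx2
      simp at this
  obtain ⟨x, hx⟩ := closed_hasLabel h1 hV1
  obtain ⟨y, hy⟩ := closed_hasLabel h2 hV2
  have hxy : x ≠ y := by
    rintro rfl
    exact key x hx hy
  have h5 := hO.odd x y (hasLabel_append.2 (Or.inl hx)) (hasLabel_append.2 (Or.inr hy)) hxy
  rw [cnt, od_cnt_eq_zero] at h5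
  · simp at h5
  · rw [xl_append h1, List.mem_append]
    rintro (h6 | h6)
    · exact key y (xl_mem h1 h6).2 hy
    · exact key x hx (xl_mem h2 h6).1

theorem od_del_single_cap {C : Type} (κ : C → Bool) (c : C) :
    del (triv C) κ [(.cap, 0)] [c, c] = if κ c then [(.cap, 0)] else [] := by
  simp [del, delL]

/-- The structure of a labelled closure. -/
theorem od_closure_lift {C : Type} [DecidableEq C] {V : Word C} {t u : Word Unit}
    (hV : erase V = closure () (t ++ u)) (h : Path (triv C) V [] [])
    (ht : Path (triv Unit) t [()] [()]) (hu : Path (triv Unit) u [()] [()]) :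
    ∃ (c : C) (T U : Word C), erase T = t ∧ erase U = u ∧
      V = (.cup c, 0) :: ((T ++ U) ++ [(.cap, 0)]) ∧ Path (triv C) T [c] [c] ∧
      Path (triv C) U [c] [c] := by
  rw [closure] at hV
  obtain ⟨k, V', rfl, hk, hV'⟩ := wmap_eq_cons hV
  obtain ⟨c, rfl, -⟩ := Kind.map_eq_cup hk
  obtain ⟨V'', E, rfl, hV'', hE⟩ := wmap_eq_append hV'
  obtain ⟨T, U, rfl, hT, hU⟩ := wmap_eq_append hV''
  obtain ⟨k', E', rfl, hk', hE'⟩ := wmap_eq_cons hE
  obtain rfl := Kind.map_eq_cap hk'
  obtain rfl := wmap_eq_nil.1 hE'
  obtain ⟨s, h1, h2⟩ := path_cons_iff.1 h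
  obtain rfl := h1.det (Step.cup c [])
  obtain ⟨s1, h3, h4⟩ := path_append_iff.1 h2
  obtain ⟨s2, h5, h6⟩ := path_append_iff.1 h3
  have h5' : Path (triv C) T ([c] ++ [c]) s2 := h5
  obtain ⟨s3, rfl, h7⟩ := od_path_cut (isHom_unit (triv C)) h5' (by rw [hT]; exact ht)
  have h8 : s3 = [c] := by
    have h9 := h7.map (isHom_unit (triv C))
    have h10 : s3.map (fun _ => ()) = [()] := by
      refine Path.det (P := triv Unit) (w := t) (s := [()]) ?_ ht
      rw [← hT]
      exact h9
    match s3, h10 with
    | [a], _ =>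
      have h11 := count_even h7 c
      by_contra hne
      have hac : a ≠ c := fun h => hne (by rw [h])
      simp [hac] at h11
  subst h8
  obtain ⟨s4, rfl, h9⟩ := od_path_cut (isHom_unit (triv C)) h6 (by rw [hU]; exact hu)
  have h10 : s4 = [c] := by
    have h9' := h9.map (isHom_unit (triv C))
    have h10 : s4.map (fun _ => ()) = [()] := by
      refine Path.det (P := triv Unit) (w := u) (s := [()]) ?_ hu
      rw [← hU]
      exact h9'
    match s4, h10 with
    | [a], _ =>
      have h11 := count_even h9 c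
      by_contra hne
      have hac : a ≠ c := fun h => hne (by rw [h])
      simp [hac] at h11
  subst h10
  exact ⟨c, T, U, hT, hU, rfl, h7, h9⟩

theorem od_del_closure {C : Type} (κ : C → Bool) {c : C} {T U : Word C}
    (hT : Path (triv C) T [c] [c]) (hU : Path (triv C) U [c] [c]) :
    del (triv C) κ ((.cup c, 0) :: ((T ++ U) ++ [(.cap, 0)])) [] =
      (if κ c then [(.cup c, 0)] else []) ++ ((del (triv C) κ T [c] ++ del (triv C) κ U [c]) ++
        (if κ c then [(.cap, 0)] else [])) := by
  have h1 : Path (triv C) T [c, c] [c, c] := hT.right [c]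
  have h2 : Path (triv C) U [c, c] [c, c] := hU.right [c]
  have e1 : del (triv C) κ T [c, c] = del (triv C) κ T [c] := del_right hT [c]
  have e2 : del (triv C) κ U [c, c] = del (triv C) κ U [c] := del_right hU [c]
  have e3 : nxt (triv C) (.cup c) 0 [] = [c, c] := rfl
  have e4 : delL κ (.cup c) 0 [] = if κ c then [(.cup c, 0)] else [] := rfl
  rw [del_cons, e3, e4, del_append (h1.append h2), del_append h1, e1, e2, od_del_single_cap]

theorem od_xl_closure {C : Type} {c : C} {T U : Word C}
    (hT : Path (triv C) T [c] [c]) (hU : Path (triv C) U [c] [c]) :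
    xl (triv C) ((.cup c, 0) :: ((T ++ U) ++ [(.cap, 0)])) [] =
      xl (triv C) T [c] ++ xl (triv C) U [c] := by
  have h1 : Path (triv C) T [c, c] [c, c] := hT.right [c]
  have h2 : Path (triv C) U [c, c] [c, c] := hU.right [c]
  have e1 : xl (triv C) T [c, c] = xl (triv C) T [c] := xl_right hT [c]
  have e2 : xl (triv C) U [c, c] = xl (triv C) U [c] := xl_right hU [c]
  have e3 : nxt (triv C) (.cup c) 0 [] = [c, c] := rfl
  have e4 : xlL (.cup c) 0 [] = ([] : List (C × C)) := rfl
  have e5 : xl (triv C) [(.cap, 0)] [c, c] = ([] : List (C × C)) := rfl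
  rw [xl_cons, e3, e4, xl_append (h1.append h2), xl_append h1, e1, e2, e5, List.nil_append,
    List.append_nil]

theorem od_hasLabel_closure {C : Type} {c x : C} {T U : Word C} :
    HasLabel x ((.cup c, 0) :: ((T ++ U) ++ [(.cap, 0)])) ↔ x = c ∨ HasLabel x T ∨ HasLabel x U := by
  rw [hasLabel_cons, hasLabel_append, hasLabel_append, hasLabel_cons]
  simp only [Kind.cup.injEq, not_hasLabel_nil, or_false, reduceCtorEq]
  constructor
  · rintro (h | h)
    · exact Or.inl h.symm
    · exact Or.inr h
  · rintro (h | h)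
    · exact Or.inl h.symm
    · exact Or.inr h

theorem od_del_tangle_eq_nil {C : Type} {κ : C → Bool} {c : C} {T : Word C}
    (hT : Path (triv C) T [c] [c]) (h : erase (del (triv C) κ T [c]) = []) :
    ∀ x, HasLabel x T → κ x = false := by
  intro x hx
  by_contra hκx
  have h1 := (hasLabel_del (κ := κ) hT).2 ⟨hx, by simpa using hκx⟩
  rw [wmap_eq_nil.1 h] at h1
  simp at h1

theorem od_xl_tangle {C : Type} {c : C} {T : Word C} {p : C × C}
    (hT : Path (triv C) T [c] [c]) (hp : p ∈ xl (triv C) T [c]) :
    (p.1 = c ∨ HasLabel p.1 T) ∧ (p.2 = c ∨ HasLabel p.2 T) := by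
  have hS : Closed (triv C) {y | y = c ∨ HasLabel y T} := ⟨fun _ h => h, fun _ h _ _ => h⟩
  exact xl_mem_closed hS hT (fun x hx => Or.inr hx) (fun x hx => Or.inl (by simpa using hx)) p hp

theorem OddD.closure_cases {C : Type} [DecidableEq C] {c : C} {T U : Word C} {L : Link}
    (h : OddD ((.cup c, 0) :: ((T ++ U) ++ [(.cap, 0)])) L)
    (hT : Path (triv C) T [c] [c]) (hU : Path (triv C) U [c] [c]) :
    (∀ x, HasLabel x T → x = c) ∨ (∀ x, HasLabel x U → x = c) := by
  have key : ∀ x, x ≠ c → HasLabel x T → HasLabel x U → False := by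
    intro x hxc hx1 hx2
    have h3 := h.comp x (od_hasLabel_closure.2 (Or.inr (Or.inl hx1)))
    have hκ := compat_triv (fun y : C => decide (y = x))
    have hc : (decide (c = x)) = false := by
      rw [decide_eq_false_iff_not]
      exact fun h => hxc h.symm
    rw [od_del_closure _ hT hU] at h3
    have p1 := del_path hκ hT
    have p2 := del_path hκ hU
    simp only [hc, List.filter_cons, List.filter_nil, Bool.false_eq_true, if_false] at p1 p2 h3
    rw [List.nil_append, List.append_nil, erase, wmap_append] at h3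
    rcases od_unknot_cases (path_erase p1) (path_erase p2) h3 with h4 | h4
    · have := od_del_tangle_eq_nil hT h4 x hx1
      simp at this
    · have := od_del_tangle_eq_nil hU h4 x hx2
      simp at this
  by_contra hcon
  rw [not_or, not_forall, not_forall] at hcon
  obtain ⟨⟨x, hx⟩, ⟨y, hy⟩⟩ := hcon
  rw [Classical.not_imp] at hx hy
  obtain ⟨hx, hxc⟩ := hx
  obtain ⟨hy, hyc⟩ := hy
  have hxy : x ≠ y := by
    rintro rfl
    exact key x hxc hx hy
  have h5 := h.odd x y (od_hasLabel_closure.2 (Or.inr (Or.inl hx)))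
    (od_hasLabel_closure.2 (Or.inr (Or.inr hy))) hxy
  rw [cnt, od_cnt_eq_zero] at h5
  · simp at h5
  · rw [od_xl_closure hT hU, List.mem_append]
    rintro (h6 | h6)
    · rcases (od_xl_tangle hT h6).2 with h7 | h7
      · exact hyc h7
      · exact key y hyc h7 hy
    · rcases (od_xl_tangle hU h6).1 with h7 | h7
      · exact hxc h7
      · exact key x hxc hx h7

theorem isPrime_of_odd (hU : NoInverse) {C : Type} [DecidableEq C] {W : Word C} {L : Link}
    (h : Path (triv C) W [] []) (hL : IsDiag (erase W) L)
    (hne : ∃ x y, x ≠ y ∧ HasLabel x W ∧ HasLabel y W)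
    (hcomp : ∀ x, HasLabel x W →
      IsDiag (erase (del (triv C) (fun y => decide (y = x)) W [])) unknot)
    (hodd : ∀ x y, HasLabel x W → HasLabel y W → x ≠ y → cnt (triv C) (pr x y) W [] % 2 = 1) :
    IsPrime L := by
  have hO : OddD W L := ⟨h, hL, hne, hcomp, hodd⟩
  refine ⟨?_, hO.not_isSplit, ?_, ?_⟩
  · rintro rfl
    obtain ⟨V, hV, hV'⟩ := hO.lift isDiag_empty
    obtain rfl := wmap_eq_nil.1 hV
    obtain ⟨x, y, -, hx, -⟩ := hV'.ne
    simp at hx
  · rintro rfl
    obtain ⟨x, y, hxy, hx, hy⟩ := hne
    exact hxy (unknot_labels h hL hx hy)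
  · rintro A B ⟨t, u, ht, hu, hA, hB, hL'⟩
    obtain ⟨V, hV, hV'⟩ := hO.lift hL'
    obtain ⟨c, T, U, rfl, rfl, rfl, hT, hU'⟩ := od_closure_lift hV hV'.path ht hu
    have hcl := hV'.comp c (od_hasLabel_closure.2 (Or.inl rfl))
    have hκ := compat_triv (fun y : C => decide (y = c))
    rw [od_del_closure _ hT hU'] at hcl
    have p1 := del_path hκ hT
    have p2 := del_path hκ hU'
    simp only [decide_true, List.filter_cons, List.filter_nil, if_true] at p1 p2 hcl
    have p1' : Path (triv Unit) (erase (del (triv C) (fun y => decide (y = c)) T [c])) [()] [()] :=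
      p1.map (isHom_unit (triv C))
    have p2' : Path (triv Unit) (erase (del (triv C) (fun y => decide (y = c)) U [c])) [()] [()] :=
      p2.map (isHom_unit (triv C))
    have hcl' : IsDiag (closure () (erase (del (triv C) (fun y => decide (y = c)) T [c]) ++
        erase (del (triv C) (fun y => decide (y = c)) U [c]))) unknot := by
      have e : erase ([(Kind.cup c, 0)] ++ (del (triv C) (fun y => decide (y = c)) T [c] ++
          del (triv C) (fun y => decide (y = c)) U [c] ++ [(Kind.cap, 0)])) =
          closure () (erase (del (triv C) (fun y => decide (y = c)) T [c]) ++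
        erase (del (triv C) (fun y => decide (y = c)) U [c])) := by
        simp [closure]
      rw [e] at hcl
      exact hcl
    have hclosed : ∀ {w : Word Unit}, Path (triv Unit) w [()] [()] →
        Path (triv Unit) (closure () w) [] [] := by
      intro w hw
      exact Path.cons (Step.cup () []) ((hw.right [()]).append
        (path_single_iff.2 (Step.cap () [])))
    rcases hV'.closure_cases hT hU' with h1 | h1
    · left
      have e : del (triv C) (fun y => decide (y = c)) T [c] = T :=
        del_eq_self hκ hT (fun x hx => by simp [h1 x hx]) (by simp)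
      rw [e] at hcl'
      obtain ⟨B', hB'⟩ := isDiag_mk (hclosed p2')
      exact (hU A B' ⟨_, _, ht, p2', hA, hB', hcl'⟩).1
    · right
      have e : del (triv C) (fun y => decide (y = c)) U [c] = U :=
        del_eq_self hκ hU' (fun x hx => by simp [h1 x hx]) (by simp)
      rw [e] at hcl'
      obtain ⟨A', hA'⟩ := isDiag_mk (hclosed p1')
      exact (hU A' B ⟨_, _, p1', hu, hA', hB, hcl'⟩).2

/-- A labelling by two labels shows that there are at least two components. -/
theorem atLeastTwo_of_labels {C : Type} {W : Word C} {L : Link}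
    (h : Path (triv C) W [] []) (hL : IsDiag (erase W) L)
    (hne : ∃ x y, x ≠ y ∧ HasLabel x W ∧ HasLabel y W) : AtLeastTwoComponents L := by
  classical
  obtain ⟨x, y, hxy, hx, hy⟩ := hne
  refine ⟨wmap (fun z => decide (z = x)) W, h.map (isHom_triv _), ?_, ?_, ?_⟩
  · have e : wmap (fun _ => ()) (wmap (fun z => decide (z = x)) W) = erase W := erase_wmap _ _
    rw [e]
    exact hL
  · have h1 := hx.map (fun z => decide (z = x))
    have h2 : decide (x = x) = true := by simp
    rw [h2] at h1
    exact h1
  · have h1 := hy.map (fun z => decide (z = x))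
    have h2 : decide (y = x) = false := by
      rw [decide_eq_false_iff_not]
      exact fun h => hxy h.symm
    rw [h2] at h1
    exact h1

/-! ### The Hopf link -/

/-- The Hopf link. -/
def hopf : Word Bool :=
  [(.cup true, 0), (.cup false, 1), (.pos, 0), (.pos, 0), (.cap, 1), (.cap, 0)]

theorem od_hopf_path : Path (triv Bool) hopf [] [] := by
  refine Path.cons (Step.cup true []) ?_
  refine Path.cons (Step.there _ (Step.cup false [true])) ?_
  refine Path.cons (Step.pos true false [false, true]) ?_
  refine Path.cons (Step.pos false true [false, true]) ?_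
  refine Path.cons (Step.there _ (Step.cap false [true])) ?_
  exact Path.cons (Step.cap true []) (Path.nil _)

theorem od_hasLabel_hopf (x : Bool) : HasLabel x hopf := by
  cases x
  · exact ⟨1, by simp [hopf]⟩
  · exact ⟨0, by simp [hopf]⟩

theorem od_countP_add_le {α : Type} (p q : α → Bool) (hpq : ∀ x, p x = true → q x = false)
    (l : List α) : l.countP p + l.countP q ≤ l.length := by
  induction l with
  | nil => simp
  | cons a l ih =>
    rw [List.countP_cons, List.countP_cons, List.length_cons]
    by_cases hp : p a = true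
    · have hq := hpq a hp
      simp only [hp, hq, if_true, Bool.false_eq_true, if_false]
      omega
    · by_cases hq : q a = true
      · simp only [hp, hq, if_true, Bool.false_eq_true, if_false]
        omega
      · simp only [hp, hq, Bool.false_eq_true, if_false]
        omega

theorem P2_two (hU : NoInverse) : (P2 2).Nonempty := by
  obtain ⟨L, hL⟩ := isDiag_mk (path_erase od_hopf_path)
  have hne : ∃ x y : Bool, x ≠ y ∧ HasLabel x hopf ∧ HasLabel y hopf :=
    ⟨true, false, by simp, od_hasLabel_hopf _, od_hasLabel_hopf _⟩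
  have hodd : ∀ x y, HasLabel x hopf → HasLabel y hopf → x ≠ y →
      cnt (triv Bool) (pr x y) hopf [] % 2 = 1 := by
    intro x y _ _ hxy
    cases x <;> cases y
    · exact absurd rfl hxy
    · decide
    · decide
    · exact absurd rfl hxy
  have hcomp : ∀ x, HasLabel x hopf →
      IsDiag (erase (del (triv Bool) (fun y => decide (y = x)) hopf [])) unknot := by
    intro x _
    cases x <;> exact isDiag_unknot
  have hO : OddD hopf L := ⟨od_hopf_path, hL, hne, hcomp, hodd⟩
  refine ⟨L, isPrime_of_odd hU od_hopf_path hL hne hcomp hodd, atLeastTwo_of_labels od_hopf_path hL hne,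
    ?_⟩
  refine le_antisymm (crossingNumber_le hL) ?_
  obtain ⟨w, hw, hcr⟩ := exists_minimal L
  obtain ⟨V, rfl, hV⟩ := hO.lift hw
  rw [← hcr, cr_wmap, ← length_xl hV.path]
  have hl : ∀ x, HasLabel x V := by
    obtain ⟨x, y, hxy, hx, hy⟩ := hV.ne
    intro z
    cases x <;> cases y <;> cases z <;> first | assumption | exact absurd rfl hxy
  have h1 := hV.odd true false (hl _) (hl _) (by simp)
  have h2 := hV.odd false true (hl _) (hl _) (by simp)
  have h3 := od_countP_add_le (fun p : Bool × Bool => pr true false p.1 p.2)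
    (fun p : Bool × Bool => pr false true p.1 p.2)
    (by
      rintro ⟨a, b⟩ h
      cases a <;> cases b <;> simp_all [pr]) (xl (triv Bool) V [])
  rw [cnt] at h1 h2
  omega

end Pool.Agent.Lib.MP_131179_gt
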