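import Pool.Agent.Lib.MP_131179_gt.Gadget

/-!
# Links with two components
-/

set_option autoImplicit false
set_option linter.unusedSimpArgs false

namespace Pool.Agent.Lib.MP_131179_gt

theorem isComp_eqv {u v : Word Bool} (h : IsComp u) (huv : Eqv (triv Bool) u v [] []) :
    IsComp v := by
  refine ⟨huv.path_right, (hasLabel_iff huv true).1 h.nonempty, ?_⟩
  intro v' hv' hfst h1 h2
  obtain ⟨u', hu', huv'⟩ := huv.symm.lift (isHom_triv Prod.fst) hfst rfl hv'
  exact h.conn u' huv'.path_right hu' ((hasLabel_iff huv' _).1 h1) ((hasLabel_iff huv' _).1 h2)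

theorem hasLabel_not {w : Word Bool} {x : Bool} : HasLabel x (wmap not w) ↔ HasLabel (!x) w := by
  rw [hasLabel_wmap]
  constructor
  · rintro ⟨y, h, rfl⟩; simpa using h
  · intro h; exact ⟨_, h, by simp⟩

/-- The word `W` is a diagram of the link `M` with two components; the strands with label `true` form
a diagram of the component `K`, the strands with label `false` form a diagram of `J`. -/
structure TwoComp (K J M : Link) (W : Word Bool) : Prop where
  path : Path (triv Bool) W [] []
  diag : IsDiag (erase W) M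
  comp : IsComp W
  comp' : IsComp (wmap not W)
  diagK : IsDiag (erase (del (triv Bool) id W [])) K
  diagJ : IsDiag (erase (del (triv Bool) not W [])) J

variable {K J M : Link} {W : Word Bool}

theorem TwoComp.eqv (h : TwoComp K J M W) {W' : Word Bool} (hW : Eqv (triv Bool) W W' [] []) :
    TwoComp K J M W' where
  path := hW.path_right
  diag := isDiag_erase_of_eqv hW h.diag
  comp := isComp_eqv h.comp hW
  comp' := isComp_eqv h.comp' (hW.map (isHom_triv not))
  diagK := isDiag_erase_of_eqv (Eqv.del (compat_triv id) hW) h.diagK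
  diagJ := isDiag_erase_of_eqv (Eqv.del (compat_triv not) hW) h.diagJ

theorem TwoComp.transfer (h : TwoComp K J M W) {v : Word Unit} (hv : IsDiag v M) :
    ∃ W', erase W' = v ∧ Eqv (triv Bool) W W' [] [] ∧ TwoComp K J M W' := by
  obtain ⟨W', h1, h2⟩ := lift_diag rfl h.path h.diag hv
  exact ⟨W', h1, h2, h.eqv h2⟩

theorem TwoComp.ne_empty (h : TwoComp K J M W) : M ≠ emptyLink := by
  rintro rfl
  obtain ⟨W', h1, -, h2⟩ := h.transfer isDiag_empty
  have h3 : W' = [] := wmap_eq_nil.1 h1
  subst h3
  exact not_hasLabel_nil _ h2.comp.nonempty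

/-- Labelled versions of the standard diagram of the unknot. -/
theorem eq_of_erase_unknot {C : Type} {w : Word C} (h : erase w = [(.cup (), 0), (.cap, 0)]) :
    ∃ z, w = [(.cup z, 0), (.cap, 0)] := by
  obtain ⟨k1, w1, rfl, h1, h2⟩ := wmap_eq_cons h
  obtain ⟨k2, w2, rfl, h3, h4⟩ := wmap_eq_cons h2
  obtain rfl := wmap_eq_nil.1 h4
  obtain ⟨z, rfl, -⟩ := Kind.map_eq_cup h1
  obtain rfl := Kind.map_eq_cap h3
  exact ⟨z, rfl⟩

theorem hasLabel_unknot {C : Type} {x z : C} :
    HasLabel x [(.cup z, 0), (.cap, 0)] ↔ x = z := by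
  simp [hasLabel_cons, eq_comm]

theorem TwoComp.ne_unknot (h : TwoComp K J M W) : M ≠ unknot := by
  rintro rfl
  obtain ⟨W', h1, -, h2⟩ := h.transfer isDiag_unknot
  obtain ⟨z, rfl⟩ := eq_of_erase_unknot h1
  have h3 := hasLabel_unknot.1 h2.comp.nonempty
  have h4 := hasLabel_not.1 h2.comp'.nonempty
  rw [hasLabel_unknot] at h4
  rw [← h3] at h4
  simp at h4

theorem TwoComp.two (h : TwoComp K J M W) : AtLeastTwoComponents M :=
  ⟨W, h.path, h.diag, h.comp.nonempty, hasLabel_not.1 h.comp'.nonempty⟩

theorem TwoComp.crossing_le (h : TwoComp K J M W) : crossingNumber K ≤ crossingNumber M := by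
  obtain ⟨v, hv, hvc⟩ := exists_minimal M
  obtain ⟨W', h1, -, h2⟩ := h.transfer hv
  have h3 := crossingNumber_le h2.diagK
  have h4 : cr W' = cr v := by rw [← h1, cr_wmap]
  rw [cr_wmap, cr_del (compat_triv id) h2.path] at h3
  have h5 := (List.countP_le_length (l := xl (triv Bool) W' [])
    (p := fun p : Bool × Bool => id p.1 && id p.2))
  rw [length_xl h2.path] at h5
  omega

/-- The component `K` is one of the two components of `M`. -/
theorem TwoComp.eq_or_eq (h : TwoComp K J M W) {K' J' : Link} {W' : Word Bool}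
    (h' : TwoComp K' J' M W') : K' = K ∨ K' = J := by
  obtain ⟨W1, h1, -, h2⟩ := h'.transfer h.diag
  clear h' W'
  obtain ⟨Z, hZ1, hZ2, hZ⟩ := closed_zip h.path h2.path h1.symm
  rw [triv_prod] at hZ
  have hfst : ∀ x, HasLabel x W → ∃ y, HasLabel (x, y) Z := by
    intro x hx
    rw [← hZ1, hasLabel_wmap] at hx
    obtain ⟨⟨x', y⟩, h3, rfl⟩ := hx
    exact ⟨y, h3⟩
  have hsnd : ∀ y, HasLabel y W1 → ∃ x, HasLabel (x, y) Z := by
    intro y hy
    rw [← hZ2, hasLabel_wmap] at hy
    obtain ⟨⟨x, y'⟩, h3, rfl⟩ := hy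
    exact ⟨x, h3⟩
  have c1 := h.comp.conn Z hZ hZ1
  have c2 : HasLabel (false, true) Z → ¬ HasLabel (false, false) Z := by
    intro h3 h4
    have hZ' : Path (triv (Bool × Bool)) (wmap (Prod.map not id) Z) [] [] :=
      hZ.map (isHom_triv _)
    refine h.comp'.conn _ hZ' ?_ (h3.map (Prod.map not id)) (h4.map (Prod.map not id))
    rw [wmap_wmap, ← hZ1, wmap_wmap]
    rfl
  have key : (∀ x y, HasLabel (x, y) Z → y = x) ∨ (∀ x y, HasLabel (x, y) Z → y = !x) := by
    obtain ⟨x1, hx1⟩ := hsnd true h2.comp.nonempty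
    obtain ⟨x2, hx2⟩ := hsnd false (hasLabel_not.1 h2.comp'.nonempty)
    cases x1 <;> cases x2
    · exact absurd hx2 (c2 hx1)
    · right
      intro x y hxy
      cases x <;> cases y
      · exact absurd hxy (c2 hx1)
      · rfl
      · rfl
      · exact absurd hx2 (c1 hxy)
    · left
      intro x y hxy
      cases x <;> cases y
      · rfl
      · exact absurd hx2 (c2 hxy)
      · exact absurd hxy (c1 hx1)
      · rfl
    · exact absurd hx2 (c1 hx1)
  rcases key with key | key
  · left
    have h3 : W1 = W := by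
      rw [← hZ1, ← hZ2]
      exact wmap_congr fun x hx => key x.1 x.2 hx
    subst h3
    exact h2.diagK.unique h.diagK
  · right
    have h3 : W1 = wmap not W := by
      rw [← hZ1, ← hZ2, wmap_wmap]
      exact wmap_congr fun x hx => key x.1 x.2 hx
    subst h3
    have h4 := h2.diagK
    have h5 := del_wmap (κ := id) (isHom_triv not) h.path
    simp only [List.map_nil] at h5
    rw [h5, erase_wmap] at h4
    exact h4.unique h.diagJ

/-- A split diagram of a link with two components has one component on each side. -/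
theorem TwoComp.split (h : TwoComp K J M W) {p q : Word Bool} (hpq : W = p ++ q) (hp : p ≠ [])
    (hq : q ≠ []) (h1 : Path (triv Bool) p [] []) (h2 : Path (triv Bool) q [] []) :
    ((∀ x, HasLabel x p → x = true) ∧ (∀ x, HasLabel x q → x = false)) ∨
    ((∀ x, HasLabel x p → x = false) ∧ (∀ x, HasLabel x q → x = true)) := by
  subst hpq
  have hZ : Path (triv (Bool × Bool)) (wmap (fun x => (x, true)) p ++
      wmap (fun x => (x, false)) q) [] [] :=
    (h1.map (isHom_triv _)).append (h2.map (isHom_triv _))
  have c1 : HasLabel true p → ¬ HasLabel true q := by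
    intro h3 h4
    refine h.comp.conn _ hZ ?_ (hasLabel_append.2 (Or.inl (h3.map _)))
      (hasLabel_append.2 (Or.inr (h4.map _)))
    rw [wmap_append, wmap_wmap, wmap_wmap]
    simp [Function.comp_def]
  have c2 : HasLabel false p → ¬ HasLabel false q := by
    intro h3 h4
    have hZ' := hZ.map (isHom_triv (Prod.map not id))
    refine h.comp'.conn _ hZ' ?_
      ((hasLabel_append.2 (Or.inl (h3.map (fun x => (x, true))))).map (Prod.map not id))
      ((hasLabel_append.2 (Or.inr (h4.map (fun x => (x, false))))).map (Prod.map not id))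
    rw [wmap_append, wmap_append, wmap_append, wmap_wmap, wmap_wmap, wmap_wmap, wmap_wmap]
    rfl
  obtain ⟨x, hx⟩ := closed_hasLabel h1 hp
  obtain ⟨y, hy⟩ := closed_hasLabel h2 hq
  cases x <;> cases y
  · exact absurd hy (c2 hx)
  · right
    refine ⟨fun z hz => ?_, fun z hz => ?_⟩
    · cases z
      · rfl
      · exact absurd hy (c1 hz)
    · cases z
      · exact absurd hz (c2 hx)
      · rfl
  · left
    refine ⟨fun z hz => ?_, fun z hz => ?_⟩
    · cases z
      · exact absurd hy (c2 hz)
      · rfl
    · cases z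
      · rfl
      · exact absurd hz (c1 hx)
  · exact absurd hy (c1 hx)

/-- In a composite diagram, the component which does not meet the sphere is on one side. -/
theorem TwoComp.side (h : TwoComp K J M W) {c : Bool} {T U : Word Bool}
    (hW : W = closure c (T ++ U)) (hT : Path (triv Bool) T [c] [c])
    (hU : Path (triv Bool) U [c] [c]) :
    (∀ x, HasLabel x T → x = c) ∨ (∀ x, HasLabel x U → x = c) := by
  subst hW
  have hZ : Path (triv (Bool × Bool)) (closure (c, c) (wmap (fun x => (x, c)) T ++
      wmap (fun x => (x, x)) U)) [] [] :=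
    closure_path2 (hT.map (isHom_triv fun x => (x, c))) (hU.map (isHom_triv fun x => (x, x)))
  have hZ1 : wmap Prod.fst (closure (c, c) (wmap (fun x => (x, c)) T ++
      wmap (fun x => (x, x)) U)) = closure c (T ++ U) := by
    rw [wmap_closure, wmap_append, wmap_wmap, wmap_wmap]
    simp [Function.comp_def]
  have m1 : HasLabel (!c) T → HasLabel (!c, c) (closure (c, c) (wmap (fun x => (x, c)) T ++
      wmap (fun x => (x, x)) U)) := by
    intro h3
    rw [closure, hasLabel_cons, hasLabel_append, hasLabel_append]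
    exact Or.inr (Or.inl (Or.inl (h3.map (fun x => (x, c)))))
  have m2 : HasLabel (!c) U → HasLabel (!c, !c) (closure (c, c) (wmap (fun x => (x, c)) T ++
      wmap (fun x => (x, x)) U)) := by
    intro h3
    rw [closure, hasLabel_cons, hasLabel_append, hasLabel_append]
    exact Or.inr (Or.inl (Or.inr (h3.map (fun x => (x, x)))))
  have key : HasLabel (!c) T → ¬ HasLabel (!c) U := by
    intro h3 h4
    have h5 := m1 h3
    have h6 := m2 h4
    cases c
    · exact h.comp.conn _ hZ hZ1 h6 h5
    · have hZ' := hZ.map (isHom_triv (Prod.map not id))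
      refine h.comp'.conn _ hZ' ?_ (h5.map (Prod.map not id)) (h6.map (Prod.map not id))
      rw [← hZ1, wmap_wmap, wmap_wmap]
      rfl
  by_cases h3 : HasLabel (!c) T
  · right
    intro x hx
    by_contra hne
    have : x = !c := by
      revert hne
      cases x <;> cases c <;> decide
    rw [this] at hx
    exact key h3 hx
  · left
    intro x hx
    by_contra hne
    have : x = !c := by
      revert hne
      cases x <;> cases c <;> decide
    rw [this] at hx
    exact h3 hx

end Pool.Agent.Lib.MP_131179_gt
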